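import Pool.Agent.Lib.MP_6cc1fa_pr.Defs

/-!
MP_6cc1fa_pr, module ANN1: annihilators and linear complexity.
-/

set_option autoImplicit false

namespace Pool.Agent.MP6cc1fa

open Polynomial Finset

noncomputable section

variable {p : ℕ} [Fact p.Prime]

/-- The shift operator on sequences. -/
def ann1_shift (p : ℕ) [Fact p.Prime] : Module.End (ZMod p) (ℕ → ZMod p) where
  toFun s j := s (j + 1)
  map_add' _ _ := rfl
  map_smul' _ _ := rfl

theorem ann1_shift_pow (i : ℕ) (s : ℕ → ZMod p) (j : ℕ) :
    (ann1_shift p ^ i) s j = s (i + j) := by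
  induction i generalizing j with
  | zero => simp
  | succ i ih =>
    rw [pow_succ']
    change (ann1_shift p ^ i) s (j + 1) = s (i + 1 + j)
    rw [ih]
    congr 1
    ring

theorem ann1_act_eq (Q : (ZMod p)[X]) (s : ℕ → ZMod p) : act Q s = aeval (ann1_shift p) Q s := by
  funext j
  rw [aeval_eq_sum_range]
  simp only [LinearMap.sum_apply, Finset.sum_apply, LinearMap.smul_apply, Pi.smul_apply,
    smul_eq_mul, ann1_shift_pow]
  rfl

theorem act_mul (P Q : (ZMod p)[X]) (s : ℕ → ZMod p) (j : ℕ) :
    act (P * Q) s j = act P (act Q s) j := by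
  rw [ann1_act_eq (P * Q), ann1_act_eq P, ann1_act_eq Q, map_mul]
  rfl

/-- `act` is linear in the sequence. -/
theorem ann1_act_sub (Q : (ZMod p)[X]) (s s' : ℕ → ZMod p) (j : ℕ) :
    act Q (s - s') j = act Q s j - act Q s' j := by
  rw [ann1_act_eq, ann1_act_eq, ann1_act_eq, map_sub]
  rfl

/-- `act` is additive in the polynomial. -/
theorem ann1_act_add_poly (P Q : (ZMod p)[X]) (s : ℕ → ZMod p) (j : ℕ) :
    act (P + Q) s j = act P s j + act Q s j := by
  rw [ann1_act_eq, ann1_act_eq, ann1_act_eq, map_add]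
  rfl

/-- `act` is additive in the polynomial. -/
theorem ann1_act_sub_poly (P Q : (ZMod p)[X]) (s : ℕ → ZMod p) (j : ℕ) :
    act (P - Q) s j = act P s j - act Q s j := by
  rw [ann1_act_eq, ann1_act_eq, ann1_act_eq, map_sub]
  rfl

/-- `act` of a scalar multiple. -/
theorem ann1_act_C_mul (a : ZMod p) (Q : (ZMod p)[X]) (s : ℕ → ZMod p) (j : ℕ) :
    act (C a * Q) s j = a * act Q s j := by
  rw [ann1_act_eq, ann1_act_eq, map_mul, aeval_C]
  rfl

/-- The value `act Q s j` uses the terms `s_j, ..., s_{j + deg Q}` only. -/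
theorem ann1_act_congr (Q : (ZMod p)[X]) {s s' : ℕ → ZMod p} {j : ℕ}
    (h : ∀ i ≤ Q.natDegree, s (i + j) = s' (i + j)) : act Q s j = act Q s' j := by
  unfold act
  refine sum_congr rfl fun i hi => ?_
  rw [h i (by have := mem_range.1 hi; omega)]

theorem exists_cx (n : ℕ) (s : ℕ → ZMod p) :
    ∃ G : (ZMod p)[X], G.Monic ∧ G.natDegree = cx n s ∧ Ann n G s := by
  have hne : {d | ∃ G : (ZMod p)[X], G.Monic ∧ G.natDegree = d ∧ Ann n G s}.Nonempty := by
    refine ⟨n, X ^ n, monic_X_pow n, natDegree_X_pow n, ?_⟩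
    intro j hj
    rw [natDegree_X_pow] at hj
    omega
  exact Nat.sInf_mem hne

theorem cx_le_of_ann {n : ℕ} {Q : (ZMod p)[X]} {s : ℕ → ZMod p} (hm : Q.Monic)
    (h : Ann n Q s) : cx n s ≤ Q.natDegree :=
  Nat.sInf_le ⟨Q, hm, rfl, h⟩

theorem cx_le (n : ℕ) (s : ℕ → ZMod p) : cx n s ≤ n := by
  have h : Ann n (X ^ n : (ZMod p)[X]) s := by
    intro j hj
    rw [natDegree_X_pow] at hj
    omega
  have := cx_le_of_ann (monic_X_pow n) h
  rwa [natDegree_X_pow] at this

theorem ann1_ann_congr {n : ℕ} {Q : (ZMod p)[X]} {s s' : ℕ → ZMod p}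
    (h : ∀ i < n, s i = s' i) (hs : Ann n Q s) : Ann n Q s' := by
  intro j hj
  rw [← hs j hj]
  refine ann1_act_congr Q fun i hi => ?_
  rw [h (i + j) (by omega)]

theorem cx_congr {n : ℕ} {s s' : ℕ → ZMod p} (h : ∀ i < n, s i = s' i) : cx n s = cx n s' := by
  obtain ⟨G, hG, hd, hA⟩ := exists_cx n s
  obtain ⟨G', hG', hd', hA'⟩ := exists_cx n s'
  apply le_antisymm
  · rw [← hd']
    exact cx_le_of_ann hG' (ann1_ann_congr (fun i hi => (h i hi).symm) hA')
  · rw [← hd]
    exact cx_le_of_ann hG (ann1_ann_congr h hA)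

theorem ann1_act_one (s : ℕ → ZMod p) (j : ℕ) : act (1 : (ZMod p)[X]) s j = s j := by
  rw [ann1_act_eq, map_one]
  rfl

theorem cx_eq_zero_iff {n : ℕ} {s : ℕ → ZMod p} : cx n s = 0 ↔ ∀ i < n, s i = 0 := by
  constructor
  · intro h i hi
    obtain ⟨G, hG, hd, hA⟩ := exists_cx n s
    rw [h] at hd
    have h1 : G = 1 := hG.natDegree_eq_zero.1 hd
    subst h1
    have := hA i (by rw [natDegree_one]; omega)
    rwa [ann1_act_one] at this
  · intro h
    have hA : Ann n (1 : (ZMod p)[X]) s := by
      intro j hj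
      rw [natDegree_one] at hj
      rw [ann1_act_one]
      exact h j (by omega)
    have := cx_le_of_ann monic_one hA
    rw [natDegree_one] at this
    omega

/-- A sequence annihilated by a monic polynomial and starting with enough zeros vanishes. -/
theorem ann1_eq_zero {n : ℕ} {Q : (ZMod p)[X]} {u : ℕ → ZMod p} (hm : Q.Monic)
    (hA : Ann n Q u) (h0 : ∀ i < Q.natDegree, i < n → u i = 0) : ∀ i < n, u i = 0 := by
  intro i
  induction i using Nat.strong_induction_on with
  | _ i ih =>
    intro hi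
    by_cases hd : i < Q.natDegree
    · exact h0 i hd hi
    · push Not at hd
      have h1 := hA (i - Q.natDegree) (by omega)
      unfold act at h1
      rw [sum_range_succ, sum_eq_zero, zero_add] at h1
      · rw [hm.coeff_natDegree, one_mul] at h1
        rwa [show Q.natDegree + (i - Q.natDegree) = i by omega] at h1
      · intro k hk
        have hk' := mem_range.1 hk
        rw [ih (k + (i - Q.natDegree)) (by omega) (by omega), mul_zero]

theorem window_inj {n c : ℕ} {s s' : ℕ → ZMod p} (h : cx n s ≤ c) (h' : cx n s' ≤ c)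
    (hc : 2 * c ≤ n) (hag : ∀ i < 2 * c, s i = s' i) : ∀ i < n, s i = s' i := by
  obtain ⟨G, hG, hd, hA⟩ := exists_cx n s
  obtain ⟨G', hG', hd', hA'⟩ := exists_cx n s'
  have hQ : (G * G').Monic := hG.mul hG'
  have hdeg : (G * G').natDegree = G.natDegree + G'.natDegree := hG.natDegree_mul hG'
  have hann : Ann n (G * G') (s - s') := by
    intro j hj
    rw [hdeg] at hj
    rw [ann1_act_sub]
    have h1 : act (G * G') s j = 0 := by
      rw [mul_comm, act_mul]
      unfold act
      refine sum_eq_zero fun i hi => ?_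
      have hi' := mem_range.1 hi
      have := hA (i + j) (by omega)
      unfold act at this
      rw [this, mul_zero]
    have h2 : act (G * G') s' j = 0 := by
      rw [act_mul]
      unfold act
      refine sum_eq_zero fun i hi => ?_
      have hi' := mem_range.1 hi
      have := hA' (i + j) (by omega)
      unfold act at this
      rw [this, mul_zero]
    rw [h1, h2, sub_zero]
  have hz := ann1_eq_zero hQ hann (by
    intro i hi _
    rw [hdeg] at hi
    have := hag i (by omega)
    simp [this])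
  intro i hi
  have := hz i hi
  simpa [sub_eq_zero] using this

end

end Pool.Agent.MP6cc1fa
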