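import Mathlib

/-!
MP_6cc1fa_pr: factor degrees of random polynomials over `F_p`.
Definitions for the analytic core (exponential sums, linear recurring sequences).
-/

set_option autoImplicit false

namespace Pool.Agent.MP6cc1fa

open Polynomial Finset

noncomputable section

/-! ### Monic polynomials and irreducible polynomials -/

/-- The monic polynomial `X^n + ∑ a_i X^i`. -/
def mon {p n : ℕ} (a : Fin n → ZMod p) : (ZMod p)[X] := X ^ n + ∑ i, C (a i) * X ^ (i : ℕ)

/-- Monic polynomials of degree `n`. -/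
def MD (p : ℕ) [Fact p.Prime] (n : ℕ) : Finset (ZMod p)[X] := by
  classical
  exact (univ : Finset (Fin n → ZMod p)).image mon

/-- Monic irreducible polynomials of degree `d`. -/
def Irr (p : ℕ) [Fact p.Prime] (d : ℕ) : Finset (ZMod p)[X] := by
  classical
  exact (MD p d).filter Irreducible

/-- Tuples of monic irreducible polynomials with prescribed degrees. -/
def IrrT (p : ℕ) [Fact p.Prime] {k : ℕ} (d : Fin k → ℕ) : Finset (Fin k → (ZMod p)[X]) := by
  classical
  exact Fintype.piFinset fun i => Irr p (d i)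

/-- The number of tuples of monic irreducibles of degrees `d` whose product divides `f`. -/
def cnt {p : ℕ} [Fact p.Prime] {k : ℕ} (d : Fin k → ℕ) (f : (ZMod p)[X]) : ℕ := by
  classical
  exact ((IrrT p d).filter fun P => ∏ i, P i ∣ f).card

/-- The number of monic divisors of `f` (for `f ≠ 0`). -/
def tau {p : ℕ} [Fact p.Prime] (f : (ZMod p)[X]) : ℕ := by
  classical
  exact (((range (f.natDegree + 1)).biUnion (MD p)).filter fun h => h ∣ f).card

/-! ### Characters and exponential sums -/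

/-- The additive character `a ↦ e(a/p)`. -/
def ch {p : ℕ} [Fact p.Prime] (a : ZMod p) : ℂ := ZMod.stdAddChar a

/-- `S(η) = p^{-n} ∑_{f monic of degree n} G(f) e(∑ η_i f_i)`. -/
def expS {p : ℕ} [Fact p.Prime] (n : ℕ) (G : (ZMod p)[X] → ℂ) (η : Fin n → ZMod p) : ℂ :=
  (∑ a : Fin n → ZMod p, G (mon a) * ch (∑ i, η i * a i)) / (p : ℂ) ^ n

/-! ### Sequences annihilated by polynomials -/

/-- Extension of a finite sequence by zero. -/
def ext {p n : ℕ} (η : Fin n → ZMod p) : ℕ → ZMod p := fun i => if h : i < n then η ⟨i, h⟩ else 0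

/-- `(Q s)_j = ∑_i Q_i s_{i+j}`. -/
def act {p : ℕ} (Q : (ZMod p)[X]) (s : ℕ → ZMod p) (j : ℕ) : ZMod p :=
  ∑ i ∈ range (Q.natDegree + 1), Q.coeff i * s (i + j)

/-- `Q` annihilates the first `n` terms of the sequence `s`. -/
def Ann {p : ℕ} (n : ℕ) (Q : (ZMod p)[X]) (s : ℕ → ZMod p) : Prop :=
  ∀ j, j + Q.natDegree < n → act Q s j = 0

/-- Linear complexity of `s_0, ..., s_{n-1}`. -/
def cx {p : ℕ} (n : ℕ) (s : ℕ → ZMod p) : ℕ :=
  sInf {d | ∃ G : (ZMod p)[X], G.Monic ∧ G.natDegree = d ∧ Ann n G s}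

/-! ### Residues modulo `g` and top coefficients -/

/-- Residues modulo `g` and the top `K` coefficients after the leading one. -/
abbrev AA {p : ℕ} (g : (ZMod p)[X]) (K : ℕ) : Type :=
  AdjoinRoot g × AdjoinRoot (X ^ (K + 1) : (ZMod p)[X])

/-- The image of `f` in `AA g K`. -/
def lamA {p : ℕ} (g : (ZMod p)[X]) (K : ℕ) (f : (ZMod p)[X]) : AA g K :=
  (AdjoinRoot.mk g f, AdjoinRoot.mk (X ^ (K + 1)) f.reverse)

/-- The constant coefficient of the second component. -/
def ep {p : ℕ} (g : (ZMod p)[X]) (K : ℕ) : AA g K →+* ZMod p :=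
  (AdjoinRoot.lift (RingHom.id (ZMod p)) 0 (by simp)).comp (RingHom.snd _ _)

/-- The group generated by the monic polynomials coprime to `g`. -/
def Gam {p : ℕ} (g : (ZMod p)[X]) (K : ℕ) : Set (AA g K) := {x | IsUnit x ∧ ep g K x = 1}

/-- Polynomials of degree `< d`. -/
def Plt (p : ℕ) [Fact p.Prime] (d : ℕ) : Finset (ZMod p)[X] := by
  classical
  exact (univ : Finset (Fin d → ZMod p)).image fun a => ∑ i : Fin d, C (a i) * X ^ (i : ℕ)

/-- Residues modulo `g` coprime to `g`. -/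
def Cop {p : ℕ} [Fact p.Prime] (g : (ZMod p)[X]) : Finset (ZMod p)[X] := by
  classical
  exact (Plt p g.natDegree).filter fun u => IsCoprime u g

/-- Polynomials of degree at most `K` with constant coefficient `1`. -/
def V1 (p : ℕ) [Fact p.Prime] (K : ℕ) : Finset (ZMod p)[X] := by
  classical
  exact (Plt p (K + 1)).filter fun v => v.coeff 0 = 1

/-- The number of distinct monic irreducible factors. -/
def om {p : ℕ} [Fact p.Prime] (g : (ZMod p)[X]) : ℕ := by
  classical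
  exact (UniqueFactorizationMonoid.normalizedFactors g).toFinset.card

/-- The average of `A(u) B(v)` over `u` coprime to `g` and `v` with `v_0 = 1`. -/
def avg {p : ℕ} [Fact p.Prime] (g : (ZMod p)[X]) (K : ℕ) (A B : (ZMod p)[X] → ℂ) : ℂ :=
  (∑ u ∈ Cop g, ∑ v ∈ V1 p K, A u * B v) / (((Cop g).card : ℂ) * (p : ℂ) ^ K)

/-- The linear functional with value `ζ_j` at `X^j`, `j < deg g`, vanishing on multiples of `g`. -/
def lamb {p : ℕ} (g : (ZMod p)[X]) (ζ : ℕ → ZMod p) (f : (ZMod p)[X]) : ZMod p :=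
  ∑ j ∈ range g.natDegree, (f %ₘ g).coeff j * ζ j

/-- The coefficients of the functional on the top coefficients. -/
def kap {p : ℕ} (g : (ZMod p)[X]) (ζ : ℕ → ZMod p) (N l : ℕ) : ZMod p :=
  ζ (N - l) - lamb g ζ (X ^ (N - l))

/-- `A_D(f) = e(λ(D f))`. -/
def AD {p : ℕ} [Fact p.Prime] (g : (ZMod p)[X]) (ζ : ℕ → ZMod p) (D f : (ZMod p)[X]) : ℂ :=
  ch (lamb g ζ (D * f))

/-- `B_D(v) = e(∑_l κ_l (rev(D) v)_l)`. -/
def BD {p : ℕ} [Fact p.Prime] (g : (ZMod p)[X]) (ζ : ℕ → ZMod p) (N K : ℕ)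
    (D v : (ZMod p)[X]) : ℂ :=
  ch (∑ l ∈ Icc 1 K, kap g ζ N l * (D.reverse * v).coeff l)

/-! ### Truncation -/

/-- The dual distribution of `z`. -/
def nu {p : ℕ} [Fact p.Prime] (z : ZMod p → ℂ) (a : ZMod p) : ℝ :=
  ‖∑ x, z x * ch (-(a * x))‖ ^ 2 / p

/-- Typical sequences. -/
def Typ {p : ℕ} [Fact p.Prime] (ν : ZMod p → ℝ) (b : ℝ) (L n : ℕ) :
    Finset (Fin n → ZMod p) := by
  classical
  exact univ.filter fun θ => ∀ l, L ≤ l → l ≤ n →
    1 / b ^ l ≤ ∏ i : Fin n, if (i : ℕ) < l then ν (θ i) else 1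

/-- Sum over pairs of typical sequences whose difference has complexity `c`. -/
def pairSum {p : ℕ} [Fact p.Prime] (ν : ZMod p → ℝ) (b : ℝ) (L n c : ℕ) : ℝ :=
  ∑ θ ∈ Typ ν b L n, ∑ θ' ∈ Typ ν b L n, if cx n (ext (θ - θ')) = c then
    Real.sqrt (∏ i, ν (θ i)) * Real.sqrt (∏ i, ν (θ' i)) else 0

end

end Pool.Agent.MP6cc1fa
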