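import Mathlib
import Pool.Agent.Lib.MP_6cc1fa_pr.Defs

/-!
MP_6cc1fa_pr, module Ann2: minimal generator, multiples, rational approximation.
-/

set_option autoImplicit false

namespace Pool.Agent.MP6cc1fa

open Polynomial Finset

noncomputable section

variable {p : ℕ} [Fact p.Prime]

theorem ann2_act_eq_sum (Q : (ZMod p)[X]) (s : ℕ → ZMod p) (j : ℕ) :
    act Q s j = Q.sum fun i a => a * s (i + j) := by
  rw [Polynomial.sum_over_range]
  · rfl
  · intro n; simp

theorem ann2_act_add (P Q : (ZMod p)[X]) (s : ℕ → ZMod p) (j : ℕ) :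
    act (P + Q) s j = act P s j + act Q s j := by
  rw [ann2_act_eq_sum, ann2_act_eq_sum, ann2_act_eq_sum, Polynomial.sum_add_index]
  · intro i; simp
  · intro a b₁ b₂; ring

theorem ann2_act_monomial (m : ℕ) (a : ZMod p) (s : ℕ → ZMod p) (j : ℕ) :
    act (monomial m a) s j = a * s (m + j) := by
  rw [ann2_act_eq_sum, Polynomial.sum_monomial_index]
  simp

theorem ann2_act_zero (s : ℕ → ZMod p) (j : ℕ) : act (0 : (ZMod p)[X]) s j = 0 := by
  rw [ann2_act_eq_sum, Polynomial.sum_zero_index]

theorem ann2_act_sum {ι : Type*} (t : Finset ι) (P : ι → (ZMod p)[X]) (s : ℕ → ZMod p) (j : ℕ) :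
    act (∑ i ∈ t, P i) s j = ∑ i ∈ t, act (P i) s j := by
  classical
  induction t using Finset.induction_on with
  | empty => simp [ann2_act_zero]
  | insert a t ha ih => rw [Finset.sum_insert ha, Finset.sum_insert ha, ann2_act_add, ih]

theorem ann2_act_monomial_mul (m : ℕ) (a : ZMod p) (Q : (ZMod p)[X]) (s : ℕ → ZMod p) (j : ℕ) :
    act (monomial m a * Q) s j = a * act Q s (m + j) := by
  induction Q using Polynomial.induction_on' with
  | add P Q hP hQ => rw [mul_add, ann2_act_add, ann2_act_add, hP, hQ]; ring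
  | monomial k b =>
    rw [monomial_mul_monomial, ann2_act_monomial, ann2_act_monomial,
      show m + k + j = k + (m + j) by ring]
    ring

theorem ann2_act_mul (P Q : (ZMod p)[X]) (s : ℕ → ZMod p) (j : ℕ) :
    act (P * Q) s j = act P (act Q s) j := by
  induction P using Polynomial.induction_on' with
  | add P P' hP hP' => rw [add_mul, ann2_act_add, ann2_act_add, hP, hP']
  | monomial k b => rw [ann2_act_monomial_mul, ann2_act_monomial]

theorem ann2_act_C_mul (a : ZMod p) (Q : (ZMod p)[X]) (s : ℕ → ZMod p) (j : ℕ) :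
    act (C a * Q) s j = a * act Q s j := by
  have h := ann2_act_monomial_mul 0 a Q s j
  rwa [monomial_zero_left, zero_add] at h

theorem ann2_exists_cx (n : ℕ) (s : ℕ → ZMod p) :
    ∃ G : (ZMod p)[X], G.Monic ∧ G.natDegree = cx n s ∧ Ann n G s := by
  have h : cx n s ∈ {d | ∃ G : (ZMod p)[X], G.Monic ∧ G.natDegree = d ∧ Ann n G s} := by
    apply Nat.sInf_mem
    refine ⟨n, X ^ n, monic_X_pow n, natDegree_X_pow n, ?_⟩
    intro j hj
    rw [natDegree_X_pow] at hj
    omega
  exact h

theorem ann2_cx_le {n : ℕ} {Q : (ZMod p)[X]} {s : ℕ → ZMod p} (hm : Q.Monic)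
    (h : Ann n Q s) : cx n s ≤ Q.natDegree := by
  apply Nat.sInf_le
  exact ⟨Q, hm, rfl, h⟩

/-- A nonzero annihilator has degree at least the complexity. -/
theorem ann2_cx_le' {n : ℕ} {Q : (ZMod p)[X]} {s : ℕ → ZMod p} (hQ : Q ≠ 0)
    (h : Ann n Q s) : cx n s ≤ Q.natDegree := by
  have hl : Q.leadingCoeff ≠ 0 := leadingCoeff_ne_zero.mpr hQ
  have hm : (C Q.leadingCoeff⁻¹ * Q).Monic := by
    have := Polynomial.monic_mul_leadingCoeff_inv hQ
    rwa [mul_comm] at this
  have hd : (C Q.leadingCoeff⁻¹ * Q).natDegree = Q.natDegree :=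
    natDegree_C_mul (inv_ne_zero hl)
  have := ann2_cx_le (n := n) (s := s) hm (by
    intro j hj
    rw [hd] at hj
    rw [ann2_act_C_mul, h j hj, mul_zero])
  rwa [hd] at this

theorem exists_gen (n : ℕ) (s : ℕ → ZMod p) :
    ∃ G : (ZMod p)[X], G.Monic ∧ G.natDegree = cx n s ∧ Ann n G s ∧
      ∀ Q : (ZMod p)[X], Ann n Q s → Q.natDegree + cx n s ≤ n → G ∣ Q := by
  obtain ⟨G, hG, hGd, hGa⟩ := ann2_exists_cx (p := p) n s
  refine ⟨G, hG, hGd, hGa, ?_⟩
  intro Q hQa hQd
  by_contra hnd
  have hr0 : Q %ₘ G ≠ 0 := fun h => hnd ((modByMonic_eq_zero_iff_dvd hG).mp h)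
  set r := Q %ₘ G with hr
  set q := Q /ₘ G with hq
  set c := cx n s with hc
  have hG1 : G ≠ 1 := by
    rintro rfl
    exact hnd (one_dvd _)
  have hrd : r.natDegree < c := by
    rw [← hGd]
    exact natDegree_modByMonic_lt Q hG hG1
  have hQ : Q = r + q * G := by
    rw [hr, hq, mul_comm, modByMonic_add_div Q G]
  -- the first values
  have h1 : ∀ j, j + Q.natDegree < n → act r s j = 0 := by
    intro j hj
    have e1 : act Q s j = act r s j + act (q * G) s j := by
      conv_lhs => rw [hQ]
      rw [ann2_act_add]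
    have e2 : act (q * G) s j = 0 := by
      by_cases hq0 : q = 0
      · rw [hq0, zero_mul, ann2_act_zero]
      · rw [ann2_act_mul]
        unfold act
        apply Finset.sum_eq_zero
        intro i hi
        rw [Finset.mem_range] at hi
        have hle : G.natDegree ≤ Q.natDegree := by
          by_contra hlt
          apply hq0
          rw [hq, divByMonic_eq_zero_iff hG]
          exact degree_lt_degree (by omega)
        have hqd : q.natDegree = Q.natDegree - G.natDegree := natDegree_divByMonic Q hG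
        have h3 : act G s (i + j) = 0 := hGa (i + j) (by omega)
        unfold act at h3
        rw [h3, mul_zero]
    rw [e2, add_zero, hQa j hj] at e1
    exact e1.symm
  -- all values
  have h2 : ∀ j, j + r.natDegree < n → act r s j = 0 := by
    intro j
    induction j using Nat.strong_induction_on with
    | _ j ih =>
      intro hj
      by_cases hj1 : j + Q.natDegree < n
      · exact h1 j hj1
      · obtain ⟨j', rfl⟩ : ∃ j', j = c + j' := ⟨j - c, by omega⟩
        have e1 : act G (act r s) j' = 0 := by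
          rw [← ann2_act_mul, mul_comm, ann2_act_mul]
          unfold act
          apply Finset.sum_eq_zero
          intro i hi
          rw [Finset.mem_range] at hi
          have h3 : act G s (i + j') = 0 := hGa (i + j') (by omega)
          unfold act at h3
          rw [h3, mul_zero]
        have e2 : act G (act r s) j' = act r s (c + j') := by
          conv_lhs => unfold act
          rw [Finset.sum_range_succ, hGd]
          have hlc : G.coeff c = 1 := by
            rw [← hGd]; exact hG
          rw [Finset.sum_eq_zero, zero_add, hlc, one_mul]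
          · rfl
          · intro i hi
            rw [Finset.mem_range] at hi
            have h3 : act r s (i + j') = 0 := ih (i + j') (by omega) (by omega)
            unfold act at h3
            rw [h3, mul_zero]
        rw [← e2, e1]
  have h3 := ann2_cx_le' hr0 h2
  omega

theorem ann2_mem_MD {n : ℕ} {f : (ZMod p)[X]} (h : f ∈ MD p n) : f.Monic ∧ f.natDegree = n := by
  classical
  unfold MD at h
  simp only [Finset.mem_image, Finset.mem_univ, true_and] at h
  obtain ⟨a, rfl⟩ := h
  have hd : (∑ i : Fin n, C (a i) * X ^ (i : ℕ)).degree < ((n : ℕ) : WithBot ℕ) :=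
    degree_sum_fin_lt a
  unfold mon
  exact ⟨monic_X_pow_add hd, by
    rw [natDegree_add_eq_left_of_degree_lt (by rwa [degree_X_pow]), natDegree_X_pow]⟩

theorem ann_mul_iff {n e : ℕ} {m Q : (ZMod p)[X]} (hm : m ∈ MD p e) (he : e ≤ n) (hQ : Q ≠ 0)
    (s : ℕ → ZMod p) : Ann (n - e) Q (act m s) ↔ Ann n (Q * m) s := by
  obtain ⟨hm1, hm2⟩ := ann2_mem_MD hm
  have hd : (Q * m).natDegree = Q.natDegree + e := by
    rw [natDegree_mul hQ hm1.ne_zero, hm2]
  unfold Ann
  constructor
  · intro h j hj
    rw [hd] at hj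
    rw [ann2_act_mul]
    exact h j (by omega)
  · intro h j hj
    have := h j (by rw [hd]; omega)
    rwa [ann2_act_mul] at this

theorem exists_approx {N a : ℕ} (h : 2 * a ≤ N) (ζ : ℕ → ZMod p) :
    ∃ g : (ZMod p)[X], g.Monic ∧ g.natDegree ≤ a ∧ ∀ j < a, act g ζ j = 0 := by
  classical
  let φ : (Fin (a + 1) → ZMod p) →ₗ[ZMod p] (Fin a → ZMod p) :=
    { toFun := fun v j => ∑ i : Fin (a + 1), v i * ζ (i + j)
      map_add' := by
        intro x y
        funext j
        simp only [Pi.add_apply, add_mul, Finset.sum_add_distrib]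
      map_smul' := by
        intro c x
        funext j
        simp only [Pi.smul_apply, smul_eq_mul, RingHom.id_apply, Finset.mul_sum, mul_assoc] }
  have hker : LinearMap.ker φ ≠ ⊥ := by
    apply LinearMap.ker_ne_bot_of_finrank_lt
    simp
  obtain ⟨v, hv, hv0⟩ := (Submodule.ne_bot_iff _).mp hker
  rw [LinearMap.mem_ker] at hv
  set g0 : (ZMod p)[X] := ∑ i : Fin (a + 1), C (v i) * X ^ (i : ℕ) with hg0
  have hcoeff : ∀ i : Fin (a + 1), g0.coeff i = v i := by
    intro i
    rw [hg0, finsetSum_coeff]
    simp only [coeff_C_mul, coeff_X_pow]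
    rw [Finset.sum_eq_single i]
    · simp
    · intro b _ hb
      have : (i : ℕ) ≠ b := fun h => hb (Fin.ext h.symm)
      simp [this]
    · simp
  have hne : g0 ≠ 0 := by
    intro h0
    apply hv0
    funext i
    rw [← hcoeff i, h0]
    simp
  have hdeg : g0.natDegree ≤ a := by
    have h1 : g0.degree < ((a + 1 : ℕ) : WithBot ℕ) := degree_sum_fin_lt v
    have h2 := (natDegree_lt_iff_degree_lt hne).mpr h1
    omega
  have hact : ∀ j < a, act g0 ζ j = 0 := by
    intro j hj
    have h1 := congrFun hv ⟨j, hj⟩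
    rw [hg0, ann2_act_sum]
    simp only [C_mul_X_pow_eq_monomial, ann2_act_monomial]
    exact h1
  refine ⟨C g0.leadingCoeff⁻¹ * g0, ?_, ?_, ?_⟩
  · have := Polynomial.monic_mul_leadingCoeff_inv hne
    rwa [mul_comm] at this
  · rw [natDegree_C_mul (inv_ne_zero (leadingCoeff_ne_zero.mpr hne))]
    exact hdeg
  · intro j hj
    rw [ann2_act_C_mul, hact j hj, mul_zero]

end

end Pool.Agent.MP6cc1fa
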