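import Pool.Agent.Lib.MP_6cc1fa_pr.MixDefs
import Pool.Agent.Lib.MP_6cc1fa_pr.CTyp

/-!
MP_6cc1fa_pr, module CTYPN: Markov bound for atypical sequences, the distribution depends on the
position.
-/

set_option autoImplicit false

namespace Pool.Agent.MP6cc1fa

open Polynomial Finset

noncomputable section

variable {p : ℕ} [Fact p.Prime]

theorem ctypN_prod_ite {n l : ℕ} (hl : l ≤ n) (A : ℕ → ℝ) :
    ∏ i : Fin n, (if (i : ℕ) < l then A i else 1) = ∏ i ∈ range l, A i := by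
  rw [← Finset.prod_range (fun i => if i < l then A i else 1), prod_ite, prod_const_one, mul_one]
  congr 1
  ext i
  simp only [mem_filter, mem_range]
  omega

theorem ctypN_sum_all (ν : ℕ → ZMod p → ℝ) (hν1 : ∀ i, ∑ a, ν i a = 1) (s : ℝ) {l n : ℕ}
    (hl : l ≤ n) :
    ∑ θ : Fin n → ZMod p,
        ∏ i : Fin n, (if (i : ℕ) < l then ν i (θ i) ^ (1 - s) else ν i (θ i)) =
      ∏ i ∈ range l, ∑ a, ν i a ^ (1 - s) := by
  have h := Finset.prod_univ_sum (fun _ : Fin n => (univ : Finset (ZMod p)))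
    (fun (i : Fin n) a => if (i : ℕ) < l then ν i a ^ (1 - s) else ν i a)
  rw [Fintype.piFinset_univ] at h
  rw [← h, ← ctypN_prod_ite hl (fun i => ∑ a, ν i a ^ (1 - s))]
  refine prod_congr rfl fun i _ => ?_
  split_ifs
  · rfl
  · exact hν1 i

omit [Fact p.Prime] in
theorem ctypN_bound (ν : ℕ → ZMod p → ℝ) (hν : ∀ i a, 0 ≤ ν i a) (b : ℝ)
    (s : ℝ) (hs0 : 0 < s) {l n : ℕ} (θ : Fin n → ZMod p)
    (h : ∏ i : Fin n, (if (i : ℕ) < l then ν i (θ i) else 1) < 1 / b ^ l) :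
    ∏ i : Fin n, ν i (θ i) ≤ (1 / b ^ l) ^ s *
      ∏ i : Fin n, (if (i : ℕ) < l then ν i (θ i) ^ (1 - s) else ν i (θ i)) := by
  set x := ∏ i : Fin n, (if (i : ℕ) < l then ν i (θ i) else 1) with hx
  set y := ∏ i : Fin n, (if (i : ℕ) < l then 1 else ν i (θ i)) with hy
  have hx0 : 0 ≤ x := prod_nonneg fun i _ => by split_ifs <;> simp [hν]
  have hy0 : 0 ≤ y := prod_nonneg fun i _ => by split_ifs <;> simp [hν]
  have hxy : ∏ i : Fin n, ν i (θ i) = x * y := by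
    rw [hx, hy, ← prod_mul_distrib]
    refine prod_congr rfl fun i _ => ?_
    split_ifs <;> simp
  have hxs : ∏ i : Fin n, (if (i : ℕ) < l then ν i (θ i) ^ (1 - s) else ν i (θ i)) =
      x ^ (1 - s) * y := by
    rw [hx, ← Real.finsetProd_rpow _ _ (fun i _ => by split_ifs <;> simp [hν]), hy,
      ← prod_mul_distrib]
    refine prod_congr rfl fun i _ => ?_
    split_ifs <;> simp
  rw [hxy, hxs]
  have h1 : x = x ^ (1 - s) * x ^ s := by
    rw [← Real.rpow_add' hx0 (by norm_num)]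
    norm_num
  have h2 : x ^ s ≤ (1 / b ^ l) ^ s := Real.rpow_le_rpow hx0 h.le hs0.le
  have h3 : 0 ≤ x ^ (1 - s) := Real.rpow_nonneg hx0 _
  calc x * y = x ^ (1 - s) * x ^ s * y := by rw [← h1]
    _ ≤ x ^ (1 - s) * (1 / b ^ l) ^ s * y :=
        mul_le_mul_of_nonneg_right (mul_le_mul_of_nonneg_left h2 h3) hy0
    _ = (1 / b ^ l) ^ s * (x ^ (1 - s) * y) := by ring

theorem compl_typN_le (ν : ℕ → ZMod p → ℝ) (hν : ∀ i a, 0 ≤ ν i a) (hν1 : ∀ i, ∑ a, ν i a = 1)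
    (b : ℝ) (hb : 1 ≤ b) (s : ℝ) (hs0 : 0 < s) (hs1 : s < 1) (L n : ℕ) :
    ∑ θ ∈ univ \ TypN ν b L n, ∏ i : Fin n, ν i (θ i) ≤
      ∑ l ∈ Icc L n, ∏ i ∈ range l, ((∑ a, ν i a ^ (1 - s)) / b ^ s) := by
  classical
  have hb0 : 0 < b := by linarith
  have hF0 : ∀ (l : ℕ) (θ : Fin n → ZMod p), 0 ≤ (1 / b ^ l) ^ s *
      ∏ i : Fin n, (if (i : ℕ) < l then ν i (θ i) ^ (1 - s) else ν i (θ i)) := by
    intro l θ
    refine mul_nonneg (Real.rpow_nonneg (by positivity) _) (prod_nonneg fun i _ => ?_)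
    split_ifs
    · exact Real.rpow_nonneg (hν _ _) _
    · exact hν _ _
  calc ∑ θ ∈ univ \ TypN ν b L n, ∏ i : Fin n, ν i (θ i)
      ≤ ∑ θ ∈ univ \ TypN ν b L n, ∑ l ∈ Icc L n, (1 / b ^ l) ^ s *
        ∏ i : Fin n, (if (i : ℕ) < l then ν i (θ i) ^ (1 - s) else ν i (θ i)) := by
        refine sum_le_sum fun θ hθ => ?_
        have h1 : ¬ θ ∈ TypN ν b L n := (mem_sdiff.1 hθ).2
        have h2 : ¬ ∀ l, L ≤ l → l ≤ n →
            1 / b ^ l ≤ ∏ i : Fin n, if (i : ℕ) < l then ν i (θ i) else 1 := by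
          intro h
          apply h1
          unfold TypN
          exact mem_filter.2 ⟨mem_univ _, h⟩
        push Not at h2
        obtain ⟨l, hl1, hl2, hl3⟩ := h2
        refine (ctypN_bound ν hν b s hs0 θ hl3).trans ?_
        exact single_le_sum (f := fun l => (1 / b ^ l) ^ s *
          ∏ i : Fin n, (if (i : ℕ) < l then ν i (θ i) ^ (1 - s) else ν i (θ i)))
          (fun l _ => hF0 l θ) (mem_Icc.2 ⟨hl1, hl2⟩)
    _ ≤ ∑ θ : Fin n → ZMod p, ∑ l ∈ Icc L n, (1 / b ^ l) ^ s *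
        ∏ i : Fin n, (if (i : ℕ) < l then ν i (θ i) ^ (1 - s) else ν i (θ i)) :=
        sum_le_sum_of_subset_of_nonneg (subset_univ _)
          (fun θ _ _ => sum_nonneg fun l _ => hF0 l θ)
    _ = ∑ l ∈ Icc L n, ∏ i ∈ range l, ((∑ a, ν i a ^ (1 - s)) / b ^ s) := by
        rw [sum_comm]
        refine sum_congr rfl fun l hl => ?_
        rw [← mul_sum, ctypN_sum_all ν hν1 s (mem_Icc.1 hl).2, prod_div_distrib, prod_const,
          card_range, Real.div_rpow zero_le_one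
          (by positivity), Real.one_rpow, ← Real.rpow_natCast b l, ← Real.rpow_natCast (b ^ s) l,
          ← Real.rpow_mul hb0.le, ← Real.rpow_mul hb0.le, mul_comm (l : ℝ) s]
        ring

end

end Pool.Agent.MP6cc1fa
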