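import Pool.Agent.Lib.MP_6cc1fa_pr.Defs

set_option autoImplicit false

namespace Pool.Agent.MP6cc1fa

open Polynomial Finset

noncomputable section

variable {p : ℕ} [Fact p.Prime]

theorem cnt_mem_MD (n : ℕ) (f : (ZMod p)[X]) : f ∈ MD p n ↔ f.Monic ∧ f.natDegree = n := by
  classical
  unfold MD
  rw [Finset.mem_image]
  constructor
  · rintro ⟨a, _, rfl⟩
    unfold mon
    refine ⟨Polynomial.monic_X_pow_add (Polynomial.degree_sum_fin_lt a), ?_⟩
    apply Polynomial.natDegree_eq_of_degree_eq_some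
    rw [Polynomial.degree_add_eq_left_of_degree_lt]
    · rw [Polynomial.degree_X_pow]
    · rw [Polynomial.degree_X_pow]
      exact Polynomial.degree_sum_fin_lt a
  · rintro ⟨hf, hn⟩
    refine ⟨fun i => f.coeff i, Finset.mem_univ _, ?_⟩
    unfold mon
    have h := hf.as_sum
    rw [hn] at h
    rw [Fin.sum_univ_eq_sum_range (fun i => C (f.coeff i) * X ^ i) n]
    exact h.symm

theorem cnt_mem_Irr (d : ℕ) (f : (ZMod p)[X]) :
    f ∈ Irr p d ↔ f.Monic ∧ f.natDegree = d ∧ Irreducible f := by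
  classical
  unfold Irr
  rw [Finset.mem_filter, cnt_mem_MD, and_assoc]

theorem cnt_div_le (d : ℕ) (f : (ZMod p)[X]) (hf : f ≠ 0) [DecidablePred fun P : (ZMod p)[X] => P ∣ f] :
    d * ((Irr p d).filter fun P => P ∣ f).card ≤ f.natDegree := by
  classical
  set S := (Irr p d).filter fun P => P ∣ f with hS
  have hmem : ∀ P ∈ S, P.Monic ∧ P.natDegree = d ∧ Irreducible P ∧ P ∣ f := by
    intro P hP
    rw [hS, Finset.mem_filter, cnt_mem_Irr] at hP
    exact ⟨hP.1.1, hP.1.2.1, hP.1.2.2, hP.2⟩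
  have hdvd : (∏ P ∈ S, P) ∣ f := by
    apply Finset.prod_dvd_of_coprime
    · intro P hP Q hQ hne
      have h1 := hmem P hP
      have h2 := hmem Q hQ
      show IsCoprime P Q
      rw [Irreducible.coprime_iff_not_dvd h1.2.2.1]
      intro hd
      apply hne
      have hass : Associated P Q := h1.2.2.1.associated_of_dvd h2.2.2.1 hd
      exact Polynomial.eq_of_monic_of_associated h1.1 h2.1 hass
    · intro P hP
      exact (hmem P hP).2.2.2
  have hdeg : (∏ P ∈ S, P).natDegree = d * S.card := by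
    rw [Polynomial.natDegree_prod_of_monic _ _ (fun P hP => (hmem P hP).1)]
    rw [Finset.sum_congr rfl (fun P hP => (hmem P hP).2.1)]
    rw [Finset.sum_const, smul_eq_mul, mul_comm]
  rw [← hdeg]
  exact Polynomial.natDegree_le_of_dvd hdvd hf

theorem cnt_le {k : ℕ} (d : Fin k → ℕ) (hd : ∀ i, 1 ≤ d i) (f : (ZMod p)[X]) (hf : f ≠ 0) :
    (∏ i, d i) * cnt d f ≤ f.natDegree ^ k := by
  classical
  have h1 : cnt d f ≤ ∏ i, ((Irr p (d i)).filter fun P => P ∣ f).card := by
    unfold cnt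
    rw [← Fintype.card_piFinset]
    apply Finset.card_le_card
    intro P hP
    rw [Finset.mem_filter] at hP
    have hP1 : P ∈ IrrT p d := hP.1
    unfold IrrT at hP1
    rw [Fintype.mem_piFinset] at hP1
    rw [Fintype.mem_piFinset]
    intro i
    rw [Finset.mem_filter]
    exact ⟨hP1 i, (Finset.dvd_prod_of_mem _ (Finset.mem_univ i)).trans hP.2⟩
  calc (∏ i, d i) * cnt d f ≤ (∏ i, d i) * ∏ i, ((Irr p (d i)).filter fun P => P ∣ f).card :=
        Nat.mul_le_mul_left _ h1
    _ = ∏ i, (d i * ((Irr p (d i)).filter fun P => P ∣ f).card) := by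
        rw [Finset.prod_mul_distrib]
    _ ≤ ∏ _i : Fin k, f.natDegree := by
        apply Finset.prod_le_prod'
        intro i _
        exact cnt_div_le (d i) f hf
    _ = f.natDegree ^ k := by
        rw [Finset.prod_const, Finset.card_univ, Fintype.card_fin]

theorem cnt_sum_mult {n e s : ℕ} (hn : s + e = n) (D : (ZMod p)[X]) (hD : D.Monic)
    (hs : D.natDegree = s) (W : (ZMod p)[X] → ℂ) [DecidablePred fun f : (ZMod p)[X] => D ∣ f] :
    ∑ f ∈ (MD p n).filter (fun f => D ∣ f), W f = ∑ m ∈ MD p e, W (m * D) := by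
  classical
  symm
  apply Finset.sum_bij (fun m _ => m * D)
  · intro m hm
    rw [cnt_mem_MD] at hm
    rw [Finset.mem_filter, cnt_mem_MD]
    refine ⟨⟨hm.1.mul hD, ?_⟩, dvd_mul_left _ _⟩
    rw [hm.1.natDegree_mul hD]
    omega
  · intro m hm m' hm' h
    exact mul_right_cancel₀ hD.ne_zero h
  · intro f hf
    rw [Finset.mem_filter, cnt_mem_MD] at hf
    obtain ⟨⟨hf1, hf2⟩, m, hm⟩ := hf
    have hmon : m.Monic := by
      rw [hm] at hf1
      exact hD.of_mul_monic_left hf1
    refine ⟨m, ?_, ?_⟩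
    · rw [cnt_mem_MD]
      refine ⟨hmon, ?_⟩
      rw [hm, hD.natDegree_mul hmon] at hf2
      omega
    · rw [hm, mul_comm]
  · intro m hm
    rfl

theorem sum_cnt {k n e : ℕ} (d : Fin k → ℕ) (hn : ∑ i, d i + e = n) (W : (ZMod p)[X] → ℂ) :
    ∑ f ∈ MD p n, (cnt d f : ℂ) * W f =
      ∑ m ∈ MD p e, ∑ P ∈ IrrT p d, W (m * ∏ i, P i) := by
  classical
  have h1 : ∀ f ∈ MD p n, (cnt d f : ℂ) * W f =
      ∑ P ∈ IrrT p d, if ∏ i, P i ∣ f then W f else 0 := by
    intro f _
    unfold cnt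
    rw [← Finset.sum_filter, Finset.sum_const, nsmul_eq_mul]
  rw [Finset.sum_congr rfl h1, Finset.sum_comm, Finset.sum_comm (s := MD p e)]
  apply Finset.sum_congr rfl
  intro P hP
  rw [← Finset.sum_filter]
  have hP1 : ∀ i, P i ∈ Irr p (d i) := by
    unfold IrrT at hP
    rw [Fintype.mem_piFinset] at hP
    exact hP
  have hmon : ∀ i, (P i).Monic := fun i => ((cnt_mem_Irr _ _).1 (hP1 i)).1
  have hdeg : ∀ i, (P i).natDegree = d i := fun i => ((cnt_mem_Irr _ _).1 (hP1 i)).2.1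
  apply cnt_sum_mult (s := ∑ i, d i) hn
  · exact Polynomial.monic_prod_of_monic _ _ (fun i _ => hmon i)
  · rw [Polynomial.natDegree_prod_of_monic _ _ (fun i _ => hmon i)]
    exact Finset.sum_congr rfl (fun i _ => hdeg i)

end

end Pool.Agent.MP6cc1fa
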