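import Pool.Agent.Lib.MP_6cc1fa_pr.Defs

/-!
MP_6cc1fa_pr, module MON: monic polynomials.
-/

set_option autoImplicit false

namespace Pool.Agent.MP6cc1fa

open Polynomial Finset

noncomputable section

variable {p : ℕ} [Fact p.Prime]

theorem mon_coeff {n : ℕ} (a : Fin n → ZMod p) (i : ℕ) :
    (mon a).coeff i = if h : i < n then a ⟨i, h⟩ else if i = n then 1 else 0 := by
  unfold mon
  rw [coeff_add, coeff_X_pow, finsetSum_coeff]
  simp only [coeff_C_mul_X_pow]
  by_cases h : i < n
  · rw [dif_pos h, if_neg (by omega), zero_add, Finset.sum_eq_single (⟨i, h⟩ : Fin n)]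
    · simp
    · intro j _ hj
      rw [if_neg]
      intro hij
      exact hj (Fin.ext hij.symm)
    · intro h'
      exact absurd (mem_univ _) h'
  · rw [dif_neg h, Finset.sum_eq_zero, add_zero]
    intro j _
    rw [if_neg]
    have := j.2
    omega

theorem mon_aux_natDegree {n : ℕ} (a : Fin n → ZMod p) : (mon a).natDegree = n := by
  refine natDegree_eq_of_le_of_coeff_ne_zero ?_ ?_
  · rw [natDegree_le_iff_coeff_eq_zero]
    intro N hN
    rw [mon_coeff, dif_neg (by omega), if_neg (by omega)]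
  · rw [mon_coeff, dif_neg (by omega), if_pos rfl]
    exact one_ne_zero

theorem mon_aux_monic {n : ℕ} (a : Fin n → ZMod p) : (mon a).Monic := by
  rw [Monic, leadingCoeff, mon_aux_natDegree, mon_coeff, dif_neg (by omega), if_pos rfl]

theorem mon_aux_inj {n : ℕ} : Function.Injective (mon : (Fin n → ZMod p) → (ZMod p)[X]) := by
  intro a b hab
  funext i
  have h1 := congrArg (fun f => f.coeff i.1) hab
  rw [mon_coeff, mon_coeff, dif_pos i.2, dif_pos i.2] at h1
  exact h1

theorem mem_MD (n : ℕ) (f : (ZMod p)[X]) : f ∈ MD p n ↔ f.Monic ∧ f.natDegree = n := by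
  classical
  unfold MD
  rw [mem_image]
  constructor
  · rintro ⟨a, _, rfl⟩
    exact ⟨mon_aux_monic a, mon_aux_natDegree a⟩
  · rintro ⟨hm, hn⟩
    refine ⟨fun i => f.coeff i, mem_univ _, ?_⟩
    ext i
    rw [mon_coeff]
    split_ifs with h1 h2
    · rfl
    · rw [h2, ← hn]
      exact hm.coeff_natDegree.symm
    · exact (coeff_eq_zero_of_natDegree_lt (by omega)).symm

theorem mem_Irr (d : ℕ) (f : (ZMod p)[X]) :
    f ∈ Irr p d ↔ f.Monic ∧ f.natDegree = d ∧ Irreducible f := by
  classical
  unfold Irr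
  rw [mem_filter, mem_MD, and_assoc]

theorem card_MD (n : ℕ) : (MD p n).card = p ^ n := by
  classical
  unfold MD
  rw [card_image_of_injective _ mon_aux_inj, card_univ, Fintype.card_fun, ZMod.card,
    Fintype.card_fin]

theorem sum_mon {n : ℕ} (G : (ZMod p)[X] → ℂ) :
    ∑ a : Fin n → ZMod p, G (mon a) = ∑ f ∈ MD p n, G f := by
  classical
  unfold MD
  rw [sum_image]
  intro a _ b _ hab
  exact mon_aux_inj hab

end

end Pool.Agent.MP6cc1fa
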