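import Pool.Agent.Lib.MP_6cc1fa_pr.Defs
import Pool.Agent.Lib.MP_6cc1fa_pr.Mon
import Pool.Agent.Lib.MP_6cc1fa_pr.Ann1
import Pool.Agent.Lib.MP_6cc1fa_pr.Ann2

set_option autoImplicit false

namespace Pool.Agent.MP6cc1fa

open Polynomial Finset

noncomputable section

variable {p : ℕ} [Fact p.Prime]

theorem cntm_exists_monic_dvd {n e s : ℕ} (η : ℕ → ZMod p) (hs : 2 * (s + e) ≤ n)
    {G : (ZMod p)[X]} (hGm : G.Monic) (hGd : G.natDegree = cx n η)
    (hG : ∀ Q : (ZMod p)[X], Ann n Q η → Q.natDegree + cx n η ≤ n → G ∣ Q)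
    {m : (ZMod p)[X]} (hm : m ∈ MD p e) (hms : cx (n - e) (act m η) = s) :
    cx n η ≤ s + e ∧ ∃ h : (ZMod p)[X], h.Monic ∧ h ∣ G ∧ h ∣ m ∧ cx n η ≤ s + h.natDegree := by
  obtain ⟨G', hG'm, hG'd, hG'a⟩ := exists_cx (n - e) (act m η)
  rw [hms] at hG'd
  have hm' := (mem_MD e m).1 hm
  have ha : Ann n (G' * m) η := (ann_mul_iff hm (by omega) hG'm.ne_zero η).1 hG'a
  have hd : (G' * m).natDegree = s + e := by
    rw [hG'm.natDegree_mul hm'.1, hG'd, hm'.2]
  have hc : cx n η ≤ s + e := by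
    have := cx_le_of_ann (hG'm.mul hm'.1) ha
    rwa [hd] at this
  refine ⟨hc, ?_⟩
  have hdvd : G ∣ G' * m := hG _ ha (by omega)
  obtain ⟨x, y, hx, hy, hxy⟩ := exists_dvd_and_dvd_of_dvd_mul hdvd
  have hG0 : G ≠ 0 := hGm.ne_zero
  have hx0 : x ≠ 0 := by
    rintro rfl
    exact hG0 (by rw [hxy, zero_mul])
  have hy0 : y ≠ 0 := by
    rintro rfl
    exact hG0 (by rw [hxy, mul_zero])
  refine ⟨normalize y, monic_normalize hy0, ?_, ?_, ?_⟩
  · rw [normalize_dvd_iff]
    exact ⟨x, by rw [hxy, mul_comm]⟩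
  · rw [normalize_dvd_iff]
    exact hy
  · have h1 : (normalize y).natDegree = y.natDegree :=
      natDegree_eq_of_degree_eq degree_normalize
    have h2 : G.natDegree = x.natDegree + y.natDegree := by
      rw [hxy, natDegree_mul hx0 hy0]
    have h3 : x.natDegree ≤ G'.natDegree := natDegree_le_of_dvd hx hG'm.ne_zero
    omega

theorem card_low_cx {n e s : ℕ} (M : ℝ) (hM : ∀ f : (ZMod p)[X], f.Monic → f.natDegree ≤ n →
    (tau f : ℝ) ≤ M) (η : ℕ → ZMod p) (hs : 2 * (s + e) ≤ n) :
    (((MD p e).filter fun m => cx (n - e) (act m η) = s).card : ℝ) ≤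
      if cx n η ≤ s + e then M * (p : ℝ) ^ (s + e) / (p : ℝ) ^ cx n η else 0 := by
  classical
  obtain ⟨G, hGm, hGd, hGa, hG⟩ := exists_gen n η
  have hp0 : (0 : ℝ) < p := by
    exact_mod_cast (Fact.out : p.Prime).pos
  have hp1 : (1 : ℝ) ≤ p := by
    exact_mod_cast (Fact.out : p.Prime).one_le
  split_ifs with hc
  · set D : Finset (ZMod p)[X] :=
      ((range (G.natDegree + 1)).biUnion (MD p)).filter (fun h => h ∣ G) with hD
    set H : Finset (ZMod p)[X] :=
      D.filter (fun h => h.natDegree ≤ e ∧ cx n η ≤ s + h.natDegree) with hH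
    have hDt : D.card ≤ tau G := by
      unfold tau
      apply Finset.card_le_card
      intro h hh
      rw [hD, mem_filter] at hh
      rw [mem_filter]
      refine ⟨?_, hh.2⟩
      rw [mem_biUnion] at hh ⊢
      exact hh.1
    have hHM : (H.card : ℝ) ≤ M := by
      have h1 : H.card ≤ D.card := Finset.card_le_card (filter_subset _ _)
      have h2 : (tau G : ℝ) ≤ M := hM G hGm (by omega)
      calc (H.card : ℝ) ≤ (D.card : ℝ) := by exact_mod_cast h1
        _ ≤ (tau G : ℝ) := by exact_mod_cast hDt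
        _ ≤ M := h2
    have hsub : ((MD p e).filter fun m => cx (n - e) (act m η) = s) ⊆
        H.biUnion (fun h => (MD p (e - h.natDegree)).image (fun k => h * k)) := by
      intro m hm
      rw [mem_filter] at hm
      obtain ⟨-, h, hh1, hh2, hh3, hh4⟩ := cntm_exists_monic_dvd η hs hGm hGd hG hm.1 hm.2
      have hm' := (mem_MD e m).1 hm.1
      obtain ⟨k, rfl⟩ := hh3
      have hk : k.Monic := hh1.of_mul_monic_left hm'.1
      have hdeg : h.natDegree + k.natDegree = e := by
        rw [← hh1.natDegree_mul hk]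
        exact hm'.2
      rw [mem_biUnion]
      refine ⟨h, ?_, ?_⟩
      · rw [hH, mem_filter, hD, mem_filter, mem_biUnion]
        refine ⟨⟨⟨h.natDegree, ?_, (mem_MD _ _).2 ⟨hh1, rfl⟩⟩, hh2⟩, by omega, hh4⟩
        rw [mem_range]
        exact Nat.lt_succ_of_le (natDegree_le_of_dvd hh2 hGm.ne_zero)
      · rw [mem_image]
        exact ⟨k, (mem_MD _ _).2 ⟨hk, by omega⟩, rfl⟩
    have hcard : ((((MD p e).filter fun m => cx (n - e) (act m η) = s).card : ℕ) : ℝ) ≤
        ∑ h ∈ H, (p : ℝ) ^ (s + e) / (p : ℝ) ^ cx n η := by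
      have h1 := (Finset.card_le_card hsub).trans Finset.card_biUnion_le
      have h2 : ((((MD p e).filter fun m => cx (n - e) (act m η) = s).card : ℕ) : ℝ) ≤
          ∑ h ∈ H, (((MD p (e - h.natDegree)).image (fun k => h * k)).card : ℝ) := by
        exact_mod_cast h1
      refine h2.trans (Finset.sum_le_sum fun h hh => ?_)
      rw [hH, mem_filter] at hh
      have h3 : ((MD p (e - h.natDegree)).image (fun k => h * k)).card ≤ p ^ (e - h.natDegree) := by
        rw [← card_MD]
        exact card_image_le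
      rw [le_div_iff₀ (by positivity)]
      calc (((MD p (e - h.natDegree)).image (fun k => h * k)).card : ℝ) * (p : ℝ) ^ cx n η ≤
          (p : ℝ) ^ (e - h.natDegree) * (p : ℝ) ^ cx n η := by
            refine mul_le_mul_of_nonneg_right ?_ (by positivity)
            exact_mod_cast h3
        _ = (p : ℝ) ^ (e - h.natDegree + cx n η) := by rw [pow_add]
        _ ≤ (p : ℝ) ^ (s + e) := pow_le_pow_right₀ hp1 (by omega)
    refine hcard.trans ?_
    rw [sum_const, nsmul_eq_mul, mul_div_assoc]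
    exact mul_le_mul_of_nonneg_right hHM (by positivity)
  · have : ((MD p e).filter fun m => cx (n - e) (act m η) = s) = ∅ := by
      rw [filter_eq_empty_iff]
      intro m hm hms
      exact hc (cntm_exists_monic_dvd η hs hGm hGd hG hm hms).1
    rw [this]
    simp

end

end Pool.Agent.MP6cc1fa
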