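import Mathlib

/-!
# MP_6cc1fa_pr (FACTORS), module Expo: normalised exponentials have large fidelity with the
uniform law
-/

namespace Pool.Agent.MP6cc1fa

open MeasureTheory ProbabilityTheory

namespace ExpoAux

open Set

/-- the exponential law as a restricted measure with density -/
theorem exp_eq : expMeasure 1 =
    (volume.restrict (Ioi (0 : ℝ))).withDensity (fun x => ENNReal.ofReal (Real.exp (-x))) := by
  rw [← withDensity_indicator measurableSet_Ioi]
  unfold expMeasure gammaMeasure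
  apply withDensity_congr_ae
  have h0 : ∀ᵐ x : ℝ ∂volume, x ≠ 0 := by
    rw [ae_iff]
    simp
  filter_upwards [h0] with x hx
  rw [gammaPDF_eq]
  rcases lt_or_gt_of_ne hx with h | h
  · rw [if_neg (not_le.2 h), indicator_of_notMem (by simpa using h.le)]
    simp
  · rw [if_pos h.le, indicator_of_mem (by simpa using h)]
    simp

theorem integrable_iff (f : ℝ → ℝ) : Integrable f (expMeasure 1) ↔
    IntegrableOn (fun x => Real.exp (-x) * f x) (Ioi 0) := by
  rw [exp_eq, integrable_withDensity_iff (by fun_prop) (by simp)]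
  unfold IntegrableOn
  apply iff_of_eq
  congr 1
  funext x
  rw [ENNReal.toReal_ofReal (Real.exp_pos _).le, mul_comm]

theorem integral_eq (f : ℝ → ℝ) : ∫ x, f x ∂(expMeasure 1) =
    ∫ x in Ioi (0 : ℝ), Real.exp (-x) * f x := by
  rw [exp_eq, integral_withDensity_eq_integral_toReal_smul (by fun_prop) (by simp)]
  congr 1
  funext x
  rw [ENNReal.toReal_ofReal (Real.exp_pos _).le, smul_eq_mul]

theorem moment {f : ℝ → ℝ} {s : ℝ} (hs : 0 < s) (hf : ∀ x, 0 < x → f x = x ^ (s - 1)) :
    Integrable f (expMeasure 1) ∧ ∫ x, f x ∂(expMeasure 1) = Real.Gamma s := by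
  constructor
  · rw [integrable_iff]
    refine (Real.GammaIntegral_convergent hs).congr_fun (fun x hx => ?_) measurableSet_Ioi
    simp only [hf x hx]
  · rw [integral_eq, Real.Gamma_eq_integral hs]
    refine setIntegral_congr_fun measurableSet_Ioi (fun x hx => ?_)
    simp only [hf x hx]

theorem gamma_three_half : Real.Gamma (3 / 2) = √Real.pi / 2 := by
  rw [show (3 / 2 : ℝ) = 1 / 2 + 1 by norm_num, Real.Gamma_add_one (by norm_num),
    Real.Gamma_one_half_eq]
  ring

theorem gamma_three : Real.Gamma 3 = 2 := by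
  rw [show (3 : ℝ) = 2 + 1 by norm_num, Real.Gamma_add_one (by norm_num), Real.Gamma_two]
  norm_num

theorem m_sqrt : Integrable (fun x => √x) (expMeasure 1) ∧
    ∫ x, √x ∂(expMeasure 1) = √Real.pi / 2 := by
  rw [← gamma_three_half]
  refine moment (by norm_num) fun x hx => ?_
  rw [Real.sqrt_eq_rpow]
  norm_num

theorem m_sqrt_sq : Integrable (fun x => √x ^ 2) (expMeasure 1) ∧
    ∫ x, √x ^ 2 ∂(expMeasure 1) = 1 := by
  have h := moment (f := fun x => √x ^ 2) (s := 2) (by norm_num) fun x hx => by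
    simp only [Real.sq_sqrt hx.le, show (2 - 1 : ℝ) = 1 by norm_num, Real.rpow_one]
  rw [Real.Gamma_two] at h
  exact h

theorem m_id : Integrable (fun x => x) (expMeasure 1) ∧
    ∫ x, x ∂(expMeasure 1) = 1 := by
  have h := moment (f := fun x => x) (s := 2) (by norm_num) fun x hx => by
    simp only [show (2 - 1 : ℝ) = 1 by norm_num, Real.rpow_one]
  rw [Real.Gamma_two] at h
  exact h

theorem m_sq : Integrable (fun x => x ^ 2) (expMeasure 1) ∧
    ∫ x, x ^ 2 ∂(expMeasure 1) = 2 := by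
  rw [← gamma_three]
  refine moment (by norm_num) fun x hx => ?_
  rw [show (3 - 1 : ℝ) = (2 : ℕ) by norm_num, Real.rpow_natCast]

/-- Chebyshev for sums of i.i.d. functions of the coordinates -/
theorem cheb {f : ℝ → ℝ} (hfm : Measurable f) (h2 : Integrable (fun x => f x ^ 2) (expMeasure 1))
    {m V : ℝ} (hm : ∫ x, f x ∂(expMeasure 1) = m) (hV : ∫ x, f x ^ 2 ∂(expMeasure 1) ≤ V)
    {c : ℝ} (hc : 0 < c) {ι : Type} [Fintype ι] (hn : 0 < Fintype.card ι) :
    (Measure.pi (fun _ : ι => expMeasure 1))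
      {w | c * Fintype.card ι ≤ |∑ i, f (w i) - Fintype.card ι * m|} ≤
      ENNReal.ofReal (V / c ^ 2 / Fintype.card ι) := by
  have : IsProbabilityMeasure (expMeasure 1) := isProbabilityMeasure_expMeasure one_pos
  have hL : MemLp f 2 (expMeasure 1) :=
    (memLp_two_iff_integrable_sq hfm.aestronglyMeasurable).2 h2
  have hLi : ∀ i : ι, MemLp (fun w : ι → ℝ => f (w i)) 2 (Measure.pi (fun _ : ι => expMeasure 1)) :=
    fun i => hL.comp_measurePreserving (measurePreserving_eval _ i)
  have hLs : MemLp (fun w : ι → ℝ => ∑ i, f (w i)) 2 (Measure.pi (fun _ : ι => expMeasure 1)) :=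
    memLp_finsetSum _ fun i _ => hLi i
  have hint : ∫ w, (∑ i, f (w i)) ∂(Measure.pi (fun _ : ι => expMeasure 1)) =
      Fintype.card ι * m := by
    rw [integral_finsetSum _ fun i _ => (hLi i).integrable one_le_two]
    have h1 : ∀ i : ι, ∫ w : ι → ℝ, f (w i) ∂(Measure.pi (fun _ : ι => expMeasure 1)) = m := by
      intro i
      rw [integral_comp_eval (μ := fun _ : ι => expMeasure 1) hfm.aestronglyMeasurable, hm]
    rw [Finset.sum_congr rfl fun i _ => h1 i]
    simp
  have hvar : Var[fun w : ι → ℝ => ∑ i, f (w i); Measure.pi (fun _ : ι => expMeasure 1)] ≤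
      Fintype.card ι * V := by
    have h1 := variance_sum_pi (μ := fun _ : ι => expMeasure 1) (X := fun _ : ι => f)
      (fun _ => hL)
    have h2 : (∑ i : ι, fun ω : ι → ℝ => f (ω i)) = fun w : ι → ℝ => ∑ i, f (w i) := by
      funext w
      simp
    rw [h2] at h1
    rw [h1]
    simp only [Finset.sum_const, Finset.card_univ, nsmul_eq_mul]
    refine mul_le_mul_of_nonneg_left ?_ (Nat.cast_nonneg _)
    refine (variance_le_expectation_sq hfm.aestronglyMeasurable).trans ?_
    exact hV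
  have hn' : (0 : ℝ) < Fintype.card ι := by exact_mod_cast hn
  have hch := meas_ge_le_variance_div_sq hLs (c := c * Fintype.card ι) (by positivity)
  rw [hint] at hch
  refine hch.trans (ENNReal.ofReal_le_ofReal ?_)
  have h3 : V / c ^ 2 / Fintype.card ι =
      (Fintype.card ι * V) / (c * Fintype.card ι) ^ 2 := by
    field_simp
  rw [h3]
  exact div_le_div_of_nonneg_right hvar (by positivity)

theorem null_le : expMeasure 1 (Iic 0) = 0 := by
  rw [exp_eq]
  refine withDensity_absolutelyContinuous _ _ ?_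
  rw [Measure.restrict_apply measurableSet_Iic]
  have h1 : Iic (0 : ℝ) ∩ Ioi 0 = ∅ := by
    ext x
    simp
  rw [h1, measure_empty]

theorem null_coord {ι : Type} [Fintype ι] (i : ι) :
    (Measure.pi (fun _ : ι => expMeasure 1)) {w | w i ≤ 0} = 0 := by
  have : IsProbabilityMeasure (expMeasure 1) := isProbabilityMeasure_expMeasure one_pos
  have := (measurePreserving_eval (fun _ : ι => expMeasure 1) i).measure_preimage
    (s := Iic 0) measurableSet_Iic.nullMeasurableSet
  rw [null_le] at this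
  exact this

theorem sqrt_pi_lb : (0.886 : ℝ) ≤ √Real.pi / 2 := by
  have h1 : (1.772 : ℝ) ≤ √Real.pi := by
    apply Real.le_sqrt_of_sq_le
    have := Real.pi_gt_d6
    norm_num at this ⊢
    linarith
  linarith

end ExpoAux

theorem fid_typical (δ : ℝ) (hδ : 0 < δ) : ∃ n0 : ℕ, ∀ (ι : Type) [Fintype ι], n0 ≤ Fintype.card ι →
  (Measure.pi (fun _ : ι => expMeasure 1)) {w : ι → ℝ | ¬ ((∀ i, 0 < w i) ∧ 0.78 * (Fintype.card ι * ∑ i, w i) ≤ (∑ i, Real.sqrt (w i)) ^ 2)} ≤ ENNReal.ofReal δ := by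
  obtain ⟨n0, hn0⟩ := exists_nat_gt (3 * 10 ^ 6 / δ)
  refine ⟨n0 + 1, fun ι _ hι => ?_⟩
  have hpos : 0 < Fintype.card ι := by omega
  have hpos' : (0 : ℝ) < Fintype.card ι := by exact_mod_cast hpos
  have hbig : 3 * 10 ^ 6 / δ ≤ Fintype.card ι := by
    have : (n0 : ℝ) ≤ Fintype.card ι := by exact_mod_cast (by omega : n0 ≤ Fintype.card ι)
    linarith
  have hsub : {w : ι → ℝ | ¬ ((∀ i, 0 < w i) ∧
      0.78 * (Fintype.card ι * ∑ i, w i) ≤ (∑ i, Real.sqrt (w i)) ^ 2)} ⊆
      (⋃ i, {w : ι → ℝ | w i ≤ 0}) ∪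
      ({w : ι → ℝ | 0.001 * Fintype.card ι ≤
        |∑ i, √(w i) - Fintype.card ι * (√Real.pi / 2)|} ∪
      {w : ι → ℝ | 0.001 * Fintype.card ι ≤ |∑ i, w i - Fintype.card ι * 1|}) := by
    intro w hw
    by_contra hcon
    simp only [Set.mem_union, Set.mem_iUnion, Set.mem_ofPred_eq, not_or, not_exists, not_le]
      at hcon
    obtain ⟨h1, h2, h3⟩ := hcon
    refine hw ⟨h1, ?_⟩
    rw [abs_lt] at h2 h3
    have hpi := ExpoAux.sqrt_pi_lb
    have h4 : 0.885 * (Fintype.card ι : ℝ) ≤ ∑ i, √(w i) := by nlinarith [h2.1]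
    have h5 : ∑ i, w i ≤ 1.001 * Fintype.card ι := by linarith [h3.2]
    have h6 : (0.885 * (Fintype.card ι : ℝ)) ^ 2 ≤ (∑ i, √(w i)) ^ 2 :=
      pow_le_pow_left₀ (by positivity) h4 2
    have h7 : (Fintype.card ι : ℝ) * ∑ i, w i ≤ Fintype.card ι * (1.001 * Fintype.card ι) :=
      mul_le_mul_of_nonneg_left h5 hpos'.le
    nlinarith
  have hA := ExpoAux.cheb (f := fun x => √x) (by fun_prop) ExpoAux.m_sqrt_sq.1
    ExpoAux.m_sqrt.2 ExpoAux.m_sqrt_sq.2.le (c := 0.001) (by norm_num) hpos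
  have hB := ExpoAux.cheb (f := fun x => x) (by fun_prop) ExpoAux.m_sq.1
    ExpoAux.m_id.2 ExpoAux.m_sq.2.le (c := 0.001) (by norm_num) hpos
  refine (measure_mono hsub).trans ((measure_union_le _ _).trans ?_)
  have h0 : (Measure.pi (fun _ : ι => expMeasure 1)) (⋃ i, {w : ι → ℝ | w i ≤ 0}) = 0 := by
    rw [measure_iUnion_null_iff]
    exact fun i => ExpoAux.null_coord i
  rw [h0, zero_add]
  refine (measure_union_le _ _).trans ((add_le_add hA hB).trans ?_)
  rw [← ENNReal.ofReal_add (by positivity) (by positivity)]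
  refine ENNReal.ofReal_le_ofReal ?_
  rw [← add_div, div_le_iff₀ hpos']
  rw [div_le_iff₀ hδ] at hbig
  norm_num
  nlinarith

end Pool.Agent.MP6cc1fa
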