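import Pool.Agent.Lib.MP_6cc1fa_pr.Trunc

/-!
MP_6cc1fa_pr, module FID: the entropy of the dual distribution and the fidelity with the
uniform distribution.
-/

set_option autoImplicit false

namespace Pool.Agent.MP6cc1fa

open Polynomial Finset

noncomputable section

theorem entropy_le_qary {p : ℕ} [Fact p.Prime] (ν : ZMod p → ℝ) (hν : ∀ a, 0 ≤ ν a)
    (h1 : ∑ a, ν a = 1) : ∑ a, Real.negMulLog (ν a) ≤ Real.qaryEntropy p (1 - ν 0) := by
  classical
  have hp2 : 2 ≤ p := (Fact.out : p.Prime).two_le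
  have hp1 : (0 : ℝ) < (p : ℝ) - 1 := by
    have : (2 : ℝ) ≤ p := by exact_mod_cast hp2
    linarith
  set T : Finset (ZMod p) := univ.erase 0 with hT
  have hcard : (T.card : ℝ) = (p : ℝ) - 1 := by
    rw [hT, card_erase_of_mem (mem_univ _), card_univ, ZMod.card, Nat.cast_sub (by omega)]
    simp
  have hs : ∑ a ∈ T, ν a = 1 - ν 0 := by
    rw [← h1, ← add_sum_erase univ ν (mem_univ 0)]
    ring
  have hs0 : 0 ≤ 1 - ν 0 := by
    rw [← hs]; exact sum_nonneg fun a _ => hν a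
  have hsplit : ∑ a, Real.negMulLog (ν a) =
      Real.negMulLog (ν 0) + ∑ a ∈ T, Real.negMulLog (ν a) :=
    (add_sum_erase univ (fun a => Real.negMulLog (ν a)) (mem_univ 0)).symm
  have hJ := Real.concaveOn_negMulLog.le_map_sum (t := T) (w := fun _ => ((p : ℝ) - 1)⁻¹)
    (p := ν) (fun _ _ => by positivity) (by
      rw [sum_const, nsmul_eq_mul, hcard, mul_inv_cancel₀ hp1.ne'])
    (fun a _ => hν a)
  simp only [smul_eq_mul] at hJ
  rw [← mul_sum, ← mul_sum, hs] at hJ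
  have hK : ∑ a ∈ T, Real.negMulLog (ν a) ≤
      ((p : ℝ) - 1) * Real.negMulLog (((p : ℝ) - 1)⁻¹ * (1 - ν 0)) := by
    have := mul_le_mul_of_nonneg_left hJ hp1.le
    rwa [← mul_assoc, mul_inv_cancel₀ hp1.ne', one_mul] at this
  have hL : ((p : ℝ) - 1) * Real.negMulLog (((p : ℝ) - 1)⁻¹ * (1 - ν 0)) =
      Real.negMulLog (1 - ν 0) + (1 - ν 0) * Real.log ((p : ℝ) - 1) := by
    rw [Real.negMulLog_mul]
    unfold Real.negMulLog
    rw [Real.log_inv]
    field_simp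
    ring
  rw [hsplit]
  unfold Real.qaryEntropy
  rw [Real.binEntropy_eq_negMulLog_add_negMulLog_one_sub]
  have hc : ((((p : ℤ) - 1 : ℤ)) : ℝ) = (p : ℝ) - 1 := by push_cast; ring
  rw [hc, show (1 : ℝ) - (1 - ν 0) = ν 0 by ring]
  linarith

/-- The square root of `μ` as a complex function. -/
def sq {p : ℕ} (μ : ZMod p → ℝ) (x : ZMod p) : ℂ := (Real.sqrt (μ x) : ℂ)

theorem norm_sq_sq {p : ℕ} (μ : ZMod p → ℝ) (hμ : ∀ x, 0 ≤ μ x) (x : ZMod p) :
    ‖sq μ x‖ ^ 2 = μ x := by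
  unfold sq
  rw [Complex.norm_real, Real.norm_of_nonneg (Real.sqrt_nonneg _), Real.sq_sqrt (hμ x)]

theorem nu_sq_zero {p : ℕ} [Fact p.Prime] (μ : ZMod p → ℝ) :
    nu (sq μ) 0 = (∑ x, Real.sqrt (μ x)) ^ 2 / p := by
  unfold nu sq ch
  have h : ∀ x : ZMod p, (Real.sqrt (μ x) : ℂ) * ZMod.stdAddChar (-(0 * x)) =
      ((Real.sqrt (μ x) : ℝ) : ℂ) := by
    intro x
    rw [zero_mul, neg_zero, AddChar.map_zero_eq_one, mul_one]
  simp_rw [h]
  rw [← Complex.ofReal_sum, Complex.norm_real, Real.norm_of_nonneg]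
  exact sum_nonneg fun x _ => Real.sqrt_nonneg _

theorem fid_ent {p : ℕ} [Fact p.Prime] (μ : ZMod p → ℝ) (hμ : ∀ x, 0 ≤ μ x)
    (h1 : ∑ x, μ x = 1)
    (h : Real.qaryEntropy p (1 - (∑ x, Real.sqrt (μ x)) ^ 2 / p) < Real.log p / 4) :
    ∑ a, Real.negMulLog (nu (sq μ) a) < Real.log p / 4 := by
  refine lt_of_le_of_lt (entropy_le_qary _ (fun a => ?_) ?_) ?_
  · unfold nu; positivity
  · rw [sum_nu, ← h1]
    exact sum_congr rfl fun x _ => norm_sq_sq μ hμ x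
  · rwa [nu_sq_zero]

/-- `h(δ) ≤ δ (1 + log (1/δ))`. -/
theorem binEntropy_le (δ : ℝ) (_h0 : 0 ≤ δ) (h1 : δ < 1) :
    Real.binEntropy δ ≤ δ * (1 + Real.log δ⁻¹) := by
  unfold Real.binEntropy
  have h2 : Real.log (1 - δ)⁻¹ ≤ (1 - δ)⁻¹ - 1 := Real.log_le_sub_one_of_pos (by
    rw [inv_pos]; linarith)
  have h3 : (1 - δ) * Real.log (1 - δ)⁻¹ ≤ δ := by
    have h4 : 0 < 1 - δ := by linarith
    calc (1 - δ) * Real.log (1 - δ)⁻¹ ≤ (1 - δ) * ((1 - δ)⁻¹ - 1) :=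
          mul_le_mul_of_nonneg_left h2 h4.le
      _ = δ := by field_simp; ring
  linarith

theorem two_fid (μ : ZMod 2 → ℝ) (hμ : ∀ x, 0 ≤ μ x) (h1 : ∑ x, μ x = 1)
    (h2 : 0.301 ≤ μ 1) (h3 : μ 1 ≤ 0.699) :
    Real.qaryEntropy 2 (1 - (∑ x, Real.sqrt (μ x)) ^ 2 / (2 : ℕ)) < Real.log (2 : ℕ) / 4 := by
  have hs : ∑ x : ZMod 2, μ x = μ 0 + μ 1 := Fin.sum_univ_two (fun x : Fin 2 => μ x)
  have hs2 : ∑ x : ZMod 2, Real.sqrt (μ x) = Real.sqrt (μ 0) + Real.sqrt (μ 1) :=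
    Fin.sum_univ_two (fun x : Fin 2 => Real.sqrt (μ x))
  rw [hs] at h1
  rw [hs2, Real.qaryEntropy_two]
  have hm0 : μ 0 = 1 - μ 1 := by linarith
  have hexp : (Real.sqrt (μ 0) + Real.sqrt (μ 1)) ^ 2 = 1 + 2 * Real.sqrt (μ 0 * μ 1) := by
    rw [Real.sqrt_mul (hμ 0), add_sq, Real.sq_sqrt (hμ 0), Real.sq_sqrt (hμ 1)]
    linarith
  set r := Real.sqrt (μ 0 * μ 1) with hr
  have hr1 : 0.45869 ≤ r := by
    rw [hr]
    apply Real.le_sqrt_of_sq_le
    rw [hm0]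
    nlinarith
  have hr2 : r ≤ 1 / 2 := by
    rw [hr, Real.sqrt_le_left (by norm_num), hm0]
    nlinarith [sq_nonneg (μ 1 - 1 / 2)]
  have hd : 1 - (Real.sqrt (μ 0) + Real.sqrt (μ 1)) ^ 2 / ((2 : ℕ) : ℝ) = 1 / 2 - r := by
    rw [hexp]; push_cast; ring
  rw [hd]
  have hmono : Real.binEntropy (1 / 2 - r) ≤ Real.binEntropy 0.04131 := by
    apply Real.binEntropy_strictMonoOn.monotoneOn
    · constructor <;> norm_num <;> linarith
    · constructor <;> norm_num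
    · norm_num at hr1 ⊢; linarith
  have hl2 : Real.log 2 < 0.6931471808 := Real.log_two_lt_d9
  have hl2' : 0.6931471803 < Real.log 2 := Real.log_two_gt_d9
  have hlog : Real.log (0.04131 : ℝ)⁻¹ ≤ (23 / 5) * Real.log 2 := by
    have h5 : (0.04131 : ℝ)⁻¹ ^ 5 ≤ 2 ^ 23 := by norm_num
    have h6 := Real.log_le_log (by positivity) h5
    rw [Real.log_pow, Real.log_pow] at h6
    push_cast at h6
    linarith
  have hb := binEntropy_le 0.04131 (by norm_num) (by norm_num)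
  have h7 : (0.04131 : ℝ) * (1 + Real.log (0.04131 : ℝ)⁻¹) < Real.log 2 / 4 := by
    nlinarith
  push_cast
  linarith

theorem qary_small (p : ℕ) (hp : 2 ^ 34 ≤ p) (δ : ℝ) (h0 : 0 ≤ δ) (h1 : δ ≤ 0.22) :
    Real.qaryEntropy p δ < Real.log p / 4 := by
  unfold Real.qaryEntropy
  have hp' : (2 : ℝ) ^ 34 ≤ p := by exact_mod_cast hp
  have hpp : (0 : ℝ) < p := lt_of_lt_of_le (by positivity) hp'
  have hc : ((((p : ℤ) - 1 : ℤ)) : ℝ) = (p : ℝ) - 1 := by push_cast; ring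
  have hl : Real.log ((((p : ℤ) - 1 : ℤ)) : ℝ) ≤ Real.log p := by
    rw [hc]
    apply Real.log_le_log <;> nlinarith
  have hlp : 34 * Real.log 2 ≤ Real.log p := by
    have := Real.log_le_log (by positivity) hp'
    rwa [Real.log_pow] at this
  have hl2 : 0 < Real.log 2 := Real.log_pos (by norm_num)
  have hb := Real.binEntropy_le_log_two (p := δ)
  have h2 : δ * Real.log ((((p : ℤ) - 1 : ℤ)) : ℝ) ≤ 0.22 * Real.log p := by
    have h3 : 0 ≤ Real.log p := by linarith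
    calc δ * Real.log ((((p : ℤ) - 1 : ℤ)) : ℝ) ≤ δ * Real.log p :=
          mul_le_mul_of_nonneg_left hl h0
      _ ≤ _ := mul_le_mul_of_nonneg_right h1 h3
  linarith

/-- The uniform distribution on a set of more than `(3/4 + ε) p` residues. -/
theorem set_fid {p : ℕ} [Fact p.Prime] (ε : ℝ) (hε : 0 < ε) (hp : Real.log 2 < ε * Real.log p)
    (A : Finset (ZMod p)) (hA : (3 / 4 + ε) * p ≤ A.card) :
    Real.qaryEntropy p
      (1 - (∑ x, Real.sqrt (if x ∈ A then 1 / (A.card : ℝ) else 0)) ^ 2 / p) <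
      Real.log p / 4 := by
  classical
  have hp2 : 2 ≤ p := (Fact.out : p.Prime).two_le
  have hpp : (0 : ℝ) < p := by exact_mod_cast (by omega : 0 < p)
  have hA0 : (0 : ℝ) < A.card := lt_of_lt_of_le (by positivity) hA
  have hAp : (A.card : ℝ) ≤ p := by
    have : A.card ≤ p := by
      have := card_le_univ A
      rwa [ZMod.card] at this
    exact_mod_cast this
  have h1 : ∑ x : ZMod p, Real.sqrt (if x ∈ A then 1 / (A.card : ℝ) else 0) =
      A.card * Real.sqrt (1 / A.card) := by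
    have h2 : ∀ x : ZMod p, Real.sqrt (if x ∈ A then 1 / (A.card : ℝ) else 0) =
        if x ∈ A then Real.sqrt (1 / A.card) else 0 := by
      intro x; split_ifs <;> simp
    simp_rw [h2]
    rw [← sum_filter, sum_const, nsmul_eq_mul]
    congr 3
    ext x; simp
  have h3 : (∑ x : ZMod p, Real.sqrt (if x ∈ A then 1 / (A.card : ℝ) else 0)) ^ 2 = A.card := by
    rw [h1, mul_pow, Real.sq_sqrt (by positivity)]
    field_simp
  rw [h3]
  set δ : ℝ := 1 - (A.card : ℝ) / p with hδ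
  have hδ0 : 0 ≤ δ := by
    rw [hδ, sub_nonneg]; exact div_le_one_of_le₀ hAp hpp.le
  have hδ1 : δ ≤ 1 / 4 - ε := by
    have : 3 / 4 + ε ≤ (A.card : ℝ) / p := by rwa [le_div_iff₀ hpp]
    linarith
  unfold Real.qaryEntropy
  have hc : ((((p : ℤ) - 1 : ℤ)) : ℝ) = (p : ℝ) - 1 := by push_cast; ring
  have hp1 : (2 : ℝ) ≤ p := by exact_mod_cast hp2
  have hl : Real.log ((((p : ℤ) - 1 : ℤ)) : ℝ) ≤ Real.log p := by
    rw [hc]
    apply Real.log_le_log <;> linarith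
  have hlp : 0 ≤ Real.log p := Real.log_nonneg (by linarith)
  have hb := Real.binEntropy_le_log_two (p := δ)
  have h4 : δ * Real.log ((((p : ℤ) - 1 : ℤ)) : ℝ) ≤ (1 / 4 - ε) * Real.log p :=
    (mul_le_mul_of_nonneg_left hl hδ0).trans (mul_le_mul_of_nonneg_right hδ1 hlp)
  linarith

end

end Pool.Agent.MP6cc1fa
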