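import Pool.Agent.Lib.MP_6cc1fa_pr.Defs
import Pool.Agent.Lib.MP_6cc1fa_pr.Trunc

/-!
MP_6cc1fa_pr: the entropy of the dual distribution of a long arithmetic progression is at most
`log (p / N) + C`.
-/

set_option autoImplicit false

namespace Pool.Agent.MP6cc1fa

open Finset

noncomputable section

namespace Intv

/-- `g m = (M + m)^(-3/2)`. -/
def gg (M : ℝ) (m : ℕ) : ℝ := 1 / ((M + m) * Real.sqrt (M + m))

theorem gg_nonneg {M : ℝ} (hM : 0 < M) (m : ℕ) : 0 ≤ gg M m := by
  unfold gg; positivity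

theorem gg_sum {M : ℝ} (hM : 1 ≤ M) (n : ℕ) :
    ∑ m ∈ range (n + 1), gg M m ≤ 3 / Real.sqrt M - 2 / Real.sqrt (M + n) := by
  induction n with
  | zero =>
    simp only [zero_add, range_one, sum_singleton, gg, Nat.cast_zero, add_zero]
    have h1 : 0 < Real.sqrt M := Real.sqrt_pos.2 (by linarith)
    have h2 : 1 / (M * Real.sqrt M) ≤ 1 / Real.sqrt M := by
      apply one_div_le_one_div_of_le h1
      nlinarith
    have h3 : 3 / Real.sqrt M - 2 / Real.sqrt M = 1 / Real.sqrt M := by ring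
    rw [h3]; exact h2
  | succ n ih =>
    rw [sum_range_succ]
    have hs0 : 0 < M + n := by positivity
    have hs1 : 0 < M + n + 1 := by positivity
    have h1 : 0 < Real.sqrt (M + n) := Real.sqrt_pos.2 hs0
    have h2 : 0 < Real.sqrt (M + n + 1) := Real.sqrt_pos.2 hs1
    have h3 : Real.sqrt (M + n) ≤ Real.sqrt (M + n + 1) := Real.sqrt_le_sqrt (by linarith)
    have h4 : Real.sqrt (M + n) ^ 2 = M + n := Real.sq_sqrt hs0.le
    have h5 : Real.sqrt (M + n + 1) ^ 2 = M + n + 1 := Real.sq_sqrt hs1.le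
    have key : gg M (n + 1) ≤ 2 / Real.sqrt (M + n) - 2 / Real.sqrt (M + (n + 1 : ℕ)) := by
      unfold gg
      push_cast
      rw [← add_assoc]
      set a := Real.sqrt (M + n)
      set b := Real.sqrt (M + n + 1)
      rw [← h5]
      have h6 : b ^ 2 - a ^ 2 = 1 := by rw [h4, h5]; ring
      have h7 : 2 / a - 2 / b - 1 / (b ^ 2 * b) = (2 * (b - a) * b ^ 2 - a) / (a * b ^ 3) := by
        field_simp
      have h8 : 0 ≤ (2 * (b - a) * b ^ 2 - a) / (a * b ^ 3) := by
        apply div_nonneg _ (by positivity)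
        have h9 : (b - a) * (b + a) = 1 := by nlinarith
        have h10 : 0 ≤ b - a := by linarith
        have h11 : 1 ≤ 2 * (b - a) * b := by nlinarith
        nlinarith
      linarith [h7 ▸ h8]
    linarith

theorem gg_sum' {M : ℝ} (hM : 1 ≤ M) (n : ℕ) :
    ∑ m ∈ range n, gg M m ≤ 3 / Real.sqrt M := by
  have h1 := gg_sum hM n
  have h2 : ∑ m ∈ range n, gg M m ≤ ∑ m ∈ range (n + 1), gg M m := by
    rw [sum_range_succ]; linarith [gg_nonneg (M := M) (by linarith) n]
  have h3 : 0 ≤ 2 / Real.sqrt (M + n) := by positivity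
  linarith

/-- Distance to `0` in `ZMod p`. -/
def dm {p : ℕ} (b : ZMod p) : ℕ := min b.val (p - b.val)

theorem sum_dm {p : ℕ} [NeZero p] {M : ℝ} (hM : 1 ≤ M) :
    ∑ b : ZMod p, gg M (dm b) ≤ 6 / Real.sqrt M := by
  have hM0 : 0 < M := by linarith
  have h1 : ∀ b : ZMod p, gg M (dm b) ≤ gg M b.val + gg M (p - b.val) := by
    intro b
    unfold dm
    rcases min_choice b.val (p - b.val) with h | h
    · rw [h]; linarith [gg_nonneg hM0 (p - b.val)]
    · rw [h]; linarith [gg_nonneg hM0 b.val]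
  have h2 : ∀ f : ℕ → ℝ, ∑ b : ZMod p, f b.val = ∑ i ∈ range p, f i := by
    intro f
    symm
    refine sum_bij' (fun i _ => (i : ZMod p)) (fun b _ => b.val) ?_ ?_ ?_ ?_ ?_
    · intro i _; exact mem_univ _
    · intro b _; exact mem_range.2 (ZMod.val_lt b)
    · intro i hi; exact ZMod.val_cast_of_lt (mem_range.1 hi)
    · intro b _; exact ZMod.natCast_zmod_val b
    · intro i hi; rw [ZMod.val_cast_of_lt (mem_range.1 hi)]
  calc ∑ b : ZMod p, gg M (dm b) ≤ ∑ b : ZMod p, (gg M b.val + gg M (p - b.val)) :=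
        sum_le_sum fun b _ => h1 b
    _ = ∑ i ∈ range p, gg M i + ∑ i ∈ range p, gg M (p - i) := by
        rw [h2 (fun i => gg M i + gg M (p - i)), sum_add_distrib]
    _ ≤ ∑ i ∈ range p, gg M i + ∑ i ∈ range (p + 1), gg M i := by
        gcongr 1
        have h3 : ∑ i ∈ range p, gg M (p - i) ≤ ∑ i ∈ range (p + 1), gg M (p - i) := by
          rw [sum_range_succ _ p]; linarith [gg_nonneg hM0 (p - p)]
        refine h3.trans (le_of_eq ?_)
        have := sum_range_reflect (fun i => gg M i) (p + 1)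
        rw [← this]
        apply sum_congr rfl
        intro i _
        congr 1
    _ ≤ 3 / Real.sqrt M + 3 / Real.sqrt M := add_le_add (gg_sum' hM _) (gg_sum' hM _)
    _ = 6 / Real.sqrt M := by ring

/-- Jordan's inequality for the additive character. -/
theorem norm_ch_sub_one {p : ℕ} [hp : Fact p.Prime] (b : ZMod p) :
    4 * (dm b : ℝ) / p ≤ ‖ch (-b) - 1‖ := by
  have hp0 : (0 : ℝ) < p := by exact_mod_cast hp.out.pos
  have hv : b.val < p := ZMod.val_lt b
  have h1 : ch (-b) = Complex.exp (Complex.I * ((-(2 * Real.pi * b.val / p) : ℝ) : ℂ)) := by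
    have h2 : (-b : ZMod p) = ((-(b.val : ℤ) : ℤ) : ZMod p) := by
      push_cast; rw [ZMod.natCast_zmod_val]
    rw [ch, h2, ZMod.stdAddChar_coe]
    congr 1
    push_cast
    ring
  rw [h1, Complex.norm_exp_I_mul_ofReal_sub_one]
  have h3 : (-(2 * Real.pi * b.val / p) : ℝ) / 2 = -(Real.pi * b.val / p) := by ring
  rw [h3, Real.sin_neg, Real.norm_eq_abs]
  have h4 : |2 * -Real.sin (Real.pi * b.val / p)| = 2 * |Real.sin (Real.pi * b.val / p)| := by
    rw [abs_mul, abs_neg]; simp
  rw [h4]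
  have h5 : 2 * (dm b : ℝ) / p ≤ |Real.sin (Real.pi * b.val / p)| := by
    unfold dm
    have hpi := Real.pi_pos
    rcases le_total (2 * b.val) p with h | h
    · have hmin : min b.val (p - b.val) = b.val := by omega
      rw [hmin]
      have hle : (2 * (b.val : ℝ)) ≤ p := by exact_mod_cast h
      have h6 : Real.pi * b.val / p ≤ Real.pi / 2 := by
        rw [div_le_div_iff₀ hp0 two_pos]; nlinarith
      have h7 := Real.mul_le_sin (x := Real.pi * b.val / p) (by positivity) h6
      refine le_trans (le_of_eq ?_) (h7.trans (le_abs_self _))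
      field_simp
    · have hmin : min b.val (p - b.val) = p - b.val := by omega
      rw [hmin]
      have hle : (p : ℝ) ≤ 2 * (b.val : ℝ) := by exact_mod_cast h
      have hlt : (b.val : ℝ) ≤ p := by exact_mod_cast hv.le
      have hcast : ((p - b.val : ℕ) : ℝ) = p - b.val := by
        rw [Nat.cast_sub hv.le]
      rw [hcast]
      have h8 : Real.sin (Real.pi * b.val / p) = Real.sin (Real.pi * (p - b.val) / p) := by
        rw [← Real.sin_pi_sub]
        congr 1
        field_simp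
      rw [h8]
      have h6 : Real.pi * (p - b.val) / p ≤ Real.pi / 2 := by
        rw [div_le_div_iff₀ hp0 two_pos]; nlinarith
      have h7 := Real.mul_le_sin (x := Real.pi * (p - b.val) / p)
        (div_nonneg (mul_nonneg hpi.le (by linarith)) hp0.le) h6
      refine le_trans (le_of_eq ?_) (h7.trans (le_abs_self _))
      field_simp
  calc 4 * (dm b : ℝ) / p = 2 * (2 * (dm b : ℝ) / p) := by ring
    _ ≤ 2 * |Real.sin (Real.pi * b.val / p)| := by linarith

theorem norm_ch {p : ℕ} [Fact p.Prime] (a : ZMod p) : ‖ch a‖ = 1 := by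
  unfold ch; exact AddChar.norm_apply _ _

/-- The kernel. -/
def KK {p : ℕ} [Fact p.Prime] (N : ℕ) (b : ZMod p) : ℝ :=
  ‖∑ j ∈ range N, ch (-b) ^ j‖ ^ 2 / (N * p)

theorem KK_nonneg {p : ℕ} [Fact p.Prime] (N : ℕ) (b : ZMod p) : 0 ≤ KK N b := by
  unfold KK; positivity

theorem KK_le {p : ℕ} [hp : Fact p.Prime] {N : ℕ} (hN : 1 ≤ N) (b : ZMod p) :
    KK N b ≤ 4 * ((p : ℝ) / N) / ((p : ℝ) / N + dm b) ^ 2 := by
  have hp0 : (0 : ℝ) < p := by exact_mod_cast hp.out.pos
  have hN0 : (0 : ℝ) < N := by exact_mod_cast hN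
  have hM : (0 : ℝ) < (p : ℝ) / N := by positivity
  have h1 : ‖∑ j ∈ range N, ch (-b) ^ j‖ ≤ N := by
    refine (norm_sum_le _ _).trans ?_
    simp [norm_pow, norm_ch]
  have h2 : KK N b ≤ N / p := by
    unfold KK
    rw [div_le_div_iff₀ (by positivity) hp0]
    have : ‖∑ j ∈ range N, ch (-b) ^ j‖ ^ 2 ≤ (N : ℝ) ^ 2 := by gcongr
    nlinarith
  have hd0 : (0 : ℝ) ≤ dm b := Nat.cast_nonneg _
  rcases le_total (dm b : ℝ) ((p : ℝ) / N) with h | h
  · refine h2.trans ?_
    rw [le_div_iff₀ (by positivity)]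
    have h3 : ((p : ℝ) / N + dm b) ^ 2 ≤ 4 * ((p : ℝ) / N) ^ 2 := by nlinarith
    calc (N : ℝ) / p * ((p : ℝ) / N + dm b) ^ 2 ≤ (N : ℝ) / p * (4 * ((p : ℝ) / N) ^ 2) := by
          gcongr
      _ = 4 * ((p : ℝ) / N) := by field_simp
  · have hd : (0 : ℝ) < dm b := by linarith
    have h3 : ‖∑ j ∈ range N, ch (-b) ^ j‖ * ‖ch (-b) - 1‖ ≤ 2 := by
      rw [← norm_mul, geom_sum_mul]
      refine (norm_sub_le _ _).trans ?_
      rw [norm_pow, norm_ch, norm_one]; norm_num
    have h4 := norm_ch_sub_one b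
    have h5 : ‖∑ j ∈ range N, ch (-b) ^ j‖ * (4 * (dm b : ℝ) / p) ≤ 2 :=
      le_trans (mul_le_mul_of_nonneg_left h4 (norm_nonneg _)) h3
    have h6 : ‖∑ j ∈ range N, ch (-b) ^ j‖ ≤ p / (2 * dm b) := by
      rw [le_div_iff₀ (by positivity)]
      have : ‖∑ j ∈ range N, ch (-b) ^ j‖ * (4 * (dm b : ℝ) / p) =
        (‖∑ j ∈ range N, ch (-b) ^ j‖ * (2 * dm b)) * (2 / p) := by ring
      rw [this] at h5
      have h7 : (0 : ℝ) < 2 / p := by positivity
      by_contra hcon
      push Not at hcon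
      have : (p : ℝ) * (2 / p) < ‖∑ j ∈ range N, ch (-b) ^ j‖ * (2 * dm b) * (2 / p) :=
        mul_lt_mul_of_pos_right hcon h7
      have h8 : (p : ℝ) * (2 / p) = 2 := by field_simp
      linarith
    have h7 : KK N b ≤ (p / (2 * dm b)) ^ 2 / (N * p) := by
      unfold KK; gcongr
    refine h7.trans ?_
    have h8 : (p / (2 * (dm b : ℝ))) ^ 2 / (N * p) = ((p : ℝ) / N) / (4 * (dm b : ℝ) ^ 2) := by
      field_simp
      ring
    rw [h8, div_le_div_iff₀ (by positivity) (by positivity)]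
    have h9 : ((p : ℝ) / N + dm b) ^ 2 ≤ 4 * (dm b : ℝ) ^ 2 := by nlinarith
    nlinarith

open Classical in
/-- Sums over the progression. -/
theorem sum_ap {p : ℕ} [hp : Fact p.Prime] {N : ℕ} {x0 r : ZMod p} (hN : N ≤ p) (hr : r ≠ 0)
    {R : Type*} [AddCommMonoid R] (f : ZMod p → R) :
    ∑ x : ZMod p, (if ∃ j : ℕ, j < N ∧ x = x0 + j * r then f x else 0) =
      ∑ j ∈ range N, f (x0 + j * r) := by
  rw [← sum_filter]
  have h1 : (univ.filter fun x : ZMod p => ∃ j : ℕ, j < N ∧ x = x0 + j * r) =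
      (range N).image fun j : ℕ => x0 + j * r := by
    ext x
    simp only [mem_filter, mem_univ, true_and, mem_image, mem_range]
    constructor
    · rintro ⟨j, hj, h⟩; exact ⟨j, hj, h.symm⟩
    · rintro ⟨j, hj, h⟩; exact ⟨j, hj, h.symm⟩
  rw [h1, sum_image]
  intro i hi j hj h
  have h2 : (i : ZMod p) = j := by
    have h3 : (i : ZMod p) * r = j * r := add_left_cancel h
    exact mul_right_cancel₀ hr h3
  have h4 := congrArg ZMod.val h2
  rw [ZMod.val_cast_of_lt, ZMod.val_cast_of_lt] at h4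
  · exact h4
  · exact lt_of_lt_of_le (mem_range.1 (mem_coe.1 hj)) hN
  · exact lt_of_lt_of_le (mem_range.1 (mem_coe.1 hi)) hN

end Intv

open Intv

open Classical in
theorem ap_norm (p : ℕ) [Fact p.Prime] (N : ℕ) (x0 r x : ZMod p) :
    ‖(if ∃ j : ℕ, j < N ∧ x = x0 + j * r then ((1 / Real.sqrt N : ℝ) : ℂ) else 0)‖ ^ 2 =
      if ∃ j : ℕ, j < N ∧ x = x0 + j * r then 1 / (N : ℝ) else 0 := by
  split_ifs with h
  · rw [Complex.norm_real, Real.norm_eq_abs, sq_abs, div_pow, one_pow,
      Real.sq_sqrt (Nat.cast_nonneg _)]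
  · simp

open Classical in
theorem ap_entropy : ∃ C : ℝ, ∀ (p : ℕ) [Fact p.Prime] (N : ℕ) (x0 r : ZMod p), 1 ≤ N → N ≤ p →
    r ≠ 0 →
    ∑ a : ZMod p, Real.negMulLog (nu (fun x : ZMod p =>
      if ∃ j : ℕ, j < N ∧ x = x0 + j * r then ((1 / Real.sqrt N : ℝ) : ℂ) else 0) a) ≤
      Real.log (p / N) + C := by
  refine ⟨Real.log 6 + 72, ?_⟩
  intro p hp N x0 r hN hNp hr
  have hp0 : (0 : ℝ) < p := by exact_mod_cast hp.out.pos
  have hN0 : (0 : ℝ) < N := by exact_mod_cast hN
  set M : ℝ := (p : ℝ) / N with hM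
  have hM1 : 1 ≤ M := by
    rw [hM, le_div_iff₀ hN0, one_mul]; exact_mod_cast hNp
  have hM0 : 0 < M := by linarith
  set z : ZMod p → ℂ := fun x : ZMod p =>
      if ∃ j : ℕ, j < N ∧ x = x0 + j * r then ((1 / Real.sqrt N : ℝ) : ℂ) else 0 with hz
  -- the dual distribution
  have hnu : ∀ a : ZMod p, nu z a = KK N (a * r) := by
    intro a
    have h1 : ∑ x, z x * ch (-(a * x)) =
        ((1 / Real.sqrt N : ℝ) : ℂ) * ch (-(a * x0)) * ∑ j ∈ range N, ch (-(a * r)) ^ j := by
      have h2 : ∀ x, z x * ch (-(a * x)) = if ∃ j : ℕ, j < N ∧ x = x0 + j * r then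
          ((1 / Real.sqrt N : ℝ) : ℂ) * ch (-(a * x)) else 0 := by
        intro x
        rw [hz]
        by_cases h : ∃ j : ℕ, j < N ∧ x = x0 + j * r
        · simp only [h, if_true]
        · simp only [h, if_false, zero_mul]
      rw [sum_congr rfl fun x _ => h2 x, sum_ap hNp hr
        (fun x => ((1 / Real.sqrt N : ℝ) : ℂ) * ch (-(a * x))), mul_sum]
      apply sum_congr rfl
      intro j _
      have h3 : -(a * (x0 + j * r)) = -(a * x0) + j • (-(a * r)) := by
        rw [nsmul_eq_mul]; ring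
      have h4 : ch (j • (-(a * r))) = ch (-(a * r)) ^ j := by
        unfold ch; exact AddChar.map_nsmul_eq_pow _ _ _
      rw [h3, trunc_ch_add, h4]
      ring
    unfold nu KK
    rw [h1, norm_mul, norm_mul, norm_ch, mul_one, Complex.norm_real, Real.norm_eq_abs, mul_pow,
      sq_abs, div_pow, one_pow, Real.sq_sqrt hN0.le]
    field_simp
  have hsum : ∑ b : ZMod p, KK N b = 1 := by
    have h1 := sum_nu z
    rw [sum_congr rfl fun a _ => hnu a] at h1
    have h2 : ∑ a : ZMod p, KK N (a * r) = ∑ b : ZMod p, KK N b :=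
      Equiv.sum_comp (Equiv.mulRight₀ r hr) (fun b => KK N b)
    rw [h2] at h1
    rw [h1, sum_congr rfl fun x _ => ap_norm p N x0 r x, sum_ap hNp hr (fun _ => 1 / (N : ℝ)),
      sum_const, card_range, nsmul_eq_mul]
    field_simp
  rw [sum_congr rfl fun a _ => congrArg Real.negMulLog (hnu a)]
  have h2 : ∑ a : ZMod p, Real.negMulLog (KK N (a * r)) = ∑ b : ZMod p, Real.negMulLog (KK N b) :=
    Equiv.sum_comp (Equiv.mulRight₀ r hr) (fun b => Real.negMulLog (KK N b))
  rw [h2]
  -- Gibbs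
  set q : ZMod p → ℝ := fun b => Real.sqrt M / 6 * gg M (dm b) with hq
  have hsM : 0 < Real.sqrt M := Real.sqrt_pos.2 hM0
  have hqpos : ∀ b, 0 < q b := by
    intro b
    rw [hq]
    have : 0 < gg M (dm b) := by unfold gg; positivity
    positivity
  have hqsum : ∑ b, q b ≤ 1 := by
    rw [hq, ← mul_sum]
    have := sum_dm (p := p) hM1
    calc Real.sqrt M / 6 * ∑ b : ZMod p, gg M (dm b) ≤ Real.sqrt M / 6 * (6 / Real.sqrt M) := by
          gcongr
      _ = 1 := by field_simp
  have hgibbs : ∀ b, Real.negMulLog (KK N b) ≤ q b - KK N b + KK N b * (-Real.log (q b)) := by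
    intro b
    rcases (KK_nonneg N b).eq_or_lt with h | h
    · rw [← h]; simp [(hqpos b).le]
    · have h3 := Real.log_le_sub_one_of_pos (div_pos (hqpos b) h)
      rw [Real.log_div (hqpos b).ne' h.ne'] at h3
      have h4 : KK N b * (Real.log (q b) - Real.log (KK N b)) ≤ KK N b * (q b / KK N b - 1) :=
        mul_le_mul_of_nonneg_left h3 h.le
      have h5 : KK N b * (q b / KK N b - 1) = q b - KK N b := by field_simp
      rw [h5] at h4
      unfold Real.negMulLog
      nlinarith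
  have hlog : ∀ b, -Real.log (q b) = Real.log 6 + Real.log M +
      3 / 2 * Real.log ((M + dm b) / M) := by
    intro b
    have hMb : 0 < M + dm b := by positivity
    have hsb : 0 < Real.sqrt (M + dm b) := Real.sqrt_pos.2 hMb
    rw [hq]
    simp only [gg]
    rw [Real.log_mul (by positivity) (by positivity), Real.log_div hsM.ne' (by norm_num),
      Real.log_div one_ne_zero (by positivity), Real.log_one, Real.log_mul hMb.ne' hsb.ne',
      Real.log_sqrt hM0.le, Real.log_sqrt hMb.le, Real.log_div hMb.ne' hM0.ne']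
    ring
  have hK : ∀ b : ZMod p, KK N b * Real.log ((M + dm b) / M) ≤ 8 * Real.sqrt M * gg M (dm b) := by
    intro b
    have hMb : 0 < M + dm b := by positivity
    have hsb : 0 < Real.sqrt (M + dm b) := Real.sqrt_pos.2 hMb
    have h3 : Real.log ((M + dm b) / M) ≤ 2 * (Real.sqrt (M + dm b) / Real.sqrt M) := by
      have h4 : (M + dm b) / M = (Real.sqrt (M + dm b) / Real.sqrt M) ^ 2 := by
        rw [div_pow, Real.sq_sqrt hMb.le, Real.sq_sqrt hM0.le]
      rw [h4, Real.log_pow]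
      have h5 := Real.log_le_sub_one_of_pos (div_pos hsb hsM)
      push_cast
      linarith
    have h4 := KK_le hN b
    have h5 : (0 : ℝ) ≤ 2 * (Real.sqrt (M + dm b) / Real.sqrt M) := by positivity
    calc KK N b * Real.log ((M + dm b) / M)
        ≤ KK N b * (2 * (Real.sqrt (M + dm b) / Real.sqrt M)) :=
          mul_le_mul_of_nonneg_left h3 (KK_nonneg N b)
      _ ≤ 4 * M / (M + dm b) ^ 2 * (2 * (Real.sqrt (M + dm b) / Real.sqrt M)) :=
          mul_le_mul_of_nonneg_right h4 h5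
      _ = 8 * Real.sqrt M * gg M (dm b) := by
          unfold gg
          have h6 : Real.sqrt M ^ 2 = M := Real.sq_sqrt hM0.le
          have h7 : Real.sqrt (M + dm b) ^ 2 = M + dm b := Real.sq_sqrt hMb.le
          field_simp
          rw [h6, h7]
          ring
  calc ∑ b, Real.negMulLog (KK N b)
      ≤ ∑ b, (q b - KK N b + KK N b * (-Real.log (q b))) := sum_le_sum fun b _ => hgibbs b
    _ = ∑ b, q b - ∑ b, KK N b + ∑ b, KK N b * (-Real.log (q b)) := by
        rw [sum_add_distrib, sum_sub_distrib]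
    _ ≤ 1 - 1 + ∑ b, KK N b * (-Real.log (q b)) := by rw [hsum]; linarith
    _ = ∑ b : ZMod p, (KK N b * (Real.log 6 + Real.log M) +
          3 / 2 * (KK N b * Real.log ((M + dm b) / M))) := by
        rw [sub_self, zero_add]
        apply sum_congr rfl
        intro b _
        rw [hlog b]; ring
    _ = (Real.log 6 + Real.log M) + 3 / 2 * ∑ b : ZMod p, KK N b * Real.log ((M + dm b) / M) := by
        rw [sum_add_distrib, ← sum_mul, hsum, one_mul, mul_sum]
    _ ≤ (Real.log 6 + Real.log M) + 3 / 2 * (8 * Real.sqrt M * (6 / Real.sqrt M)) := by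
        gcongr
        calc ∑ b : ZMod p, KK N b * Real.log ((M + dm b) / M)
            ≤ ∑ b : ZMod p, 8 * Real.sqrt M * gg M (dm b) := sum_le_sum fun b _ => hK b
          _ = 8 * Real.sqrt M * ∑ b : ZMod p, gg M (dm b) := by rw [mul_sum]
          _ ≤ 8 * Real.sqrt M * (6 / Real.sqrt M) := by
              gcongr
              exact sum_dm hM1
    _ = Real.log M + (Real.log 6 + 72) := by
        have : 8 * Real.sqrt M * (6 / Real.sqrt M) = 48 := by field_simp; norm_num
        rw [this]; ring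

end

end Pool.Agent.MP6cc1fa
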