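import Pool.Agent.Lib.MP_6cc1fa_pr.PD.Law

/-!
MP_6cc1fa_pr, module WRAP: the limit law in terms of random variables.
-/

set_option autoImplicit false

namespace Pool.Agent.MP6cc1fa

open Polynomial Finset MeasureTheory ProbabilityTheory

noncomputable section

/-- `PDLimit p μ`: for independent `ZMod p`-valued random variables `ε_0, ε_1, …` with law `μ` (on
any probability space) and `f_n = ∑_{i ≤ n} ε_i X^i`, the sequence `degSeq f_n` of the normalised
degrees of the irreducible factors of `f_n` converges in distribution to the Poisson-Dirichlet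
process, in the space `ℕ → ℝ` with the topology of coordinatewise convergence. -/
def PDLimit (p : ℕ) [Fact p.Prime] (μ : ZMod p → ℝ) : Prop :=
  ∀ (Ω : Type) [MeasurableSpace Ω] (P : Measure Ω) [IsProbabilityMeasure P]
    (ε : ℕ → Ω → ZMod p), (∀ i, Measurable (ε i)) → iIndepFun ε P →
    (∀ i x, P.real {ω | ε i ω = x} = μ x) →
    ∀ g : BoundedContinuousFunction (ℕ → ℝ) ℝ,
      Filter.Tendsto
        (fun n : ℕ => ∫ ω, g (_root_.MP6cc1fa.degSeq (∑ i ∈ range (n + 1), C (ε i ω) * X ^ i)) ∂P)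
        Filter.atTop (nhds (∫ x, g x ∂_root_.MP6cc1fa.PDlaw))

theorem integral_eq_EE {p : ℕ} [Fact p.Prime] (μ : ZMod p → ℝ) (Ω : Type) [MeasurableSpace Ω]
    (P : Measure Ω) [IsProbabilityMeasure P] (ε : ℕ → Ω → ZMod p) (hm : ∀ i, Measurable (ε i))
    (hi : iIndepFun ε P) (hl : ∀ i x, P.real {ω | ε i ω = x} = μ x) (G : (ZMod p)[X] → ℝ)
    (n : ℕ) :
    ∫ ω, G (∑ i ∈ range n, C (ε i ω) * X ^ i) ∂P = _root_.MP6cc1fa.EE μ G n := by
  classical
  have hX : Measurable (fun ω (i : Fin n) => ε (i : ℕ) ω) := measurable_pi_iff.2 fun i => hm i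
  have hi' : iIndepFun (fun i : Fin n => ε (i : ℕ)) P := hi.precomp Fin.val_injective
  have hlaw : P.map (fun ω (i : Fin n) => ε (i : ℕ) ω) =
      Measure.pi (fun i : Fin n => P.map (ε (i : ℕ))) :=
    (iIndepFun_iff_map_fun_eq_pi_map (f := fun (i : Fin n) => ε (i : ℕ))
      (fun i => (hm (i : ℕ)).aemeasurable)).1 hi'
  have h1 : ∫ ω, G (∑ i ∈ range n, C (ε i ω) * X ^ i) ∂P =
      ∫ a, G (_root_.MP6cc1fa.poly a) ∂(P.map (fun ω (i : Fin n) => ε (i : ℕ) ω)) := by
    rw [integral_map hX.aemeasurable (measurable_of_countable _).aestronglyMeasurable]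
    refine integral_congr_ae (Filter.Eventually.of_forall fun ω => ?_)
    simp only
    congr 1
    unfold _root_.MP6cc1fa.poly
    exact (Fin.sum_univ_eq_sum_range (fun i => C (ε i ω) * X ^ i) n).symm
  have hpr : ∀ i : Fin n, IsProbabilityMeasure (P.map (ε (i : ℕ))) := fun i =>
    Measure.isProbabilityMeasure_map (hm i).aemeasurable
  rw [h1, hlaw, integral_fintype _]
  swap
  · exact Integrable.of_finite
  unfold _root_.MP6cc1fa.EE
  refine sum_congr rfl fun a _ => ?_
  rw [smul_eq_mul]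
  congr 1
  rw [Measure.real, Measure.pi_singleton, ENNReal.toReal_prod]
  refine prod_congr rfl fun i _ => ?_
  rw [Measure.map_apply (hm i) (measurableSet_singleton _), ← hl i (a i)]
  rfl

/-- From the monic models to `PDLimit`. -/
theorem pdLimit_of {p : ℕ} [Fact p.Prime] (μ : ZMod p → ℝ) (h0 : ∀ x, 0 ≤ μ x)
    (h1 : ∑ x, μ x = 1) (hμ : μ 0 < 1)
    (H : ∀ c : ZMod p, c ≠ 0 → ∀ g : BoundedContinuousFunction (ℕ → ℝ) ℝ,
      Filter.Tendsto (fun n : ℕ => ∑ a : Fin n → ZMod p, (∏ i, μ (c * a i)) *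
        g (_root_.MP6cc1fa.degSeq (mon a))) Filter.atTop
        (nhds (∫ x, g x ∂_root_.MP6cc1fa.PDlaw))) : PDLimit p μ := by
  intro Ω _ P _ ε hm hi hl g
  have h2 := _root_.MP6cc1fa.EE_tendsto μ h0 h1 hμ
    (fun f => g (_root_.MP6cc1fa.degSeq f))
    (fun c hc f => by rw [_root_.MP6cc1fa.degSeq_C_mul hc]) (∫ x, g x ∂_root_.MP6cc1fa.PDlaw)
    (fun c hc => H c hc g)
  refine (h2.comp (Filter.tendsto_add_atTop_nat 1)).congr fun n => ?_
  exact (integral_eq_EE μ Ω P ε hm hi hl _ (n + 1)).symm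

end

end Pool.Agent.MP6cc1fa
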