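import Pool.Agent.Lib.MP_6cc1fa_pr.Glue
import Pool.Agent.Lib.MP_6cc1fa_pr.Fid
import Pool.Agent.Lib.MP_6cc1fa_pr.Expo
import Pool.Agent.Lib.MP_6cc1fa_pr.Intv
import Pool.Agent.Lib.MP_6cc1fa_pr.Wrap

/-!
MP_6cc1fa_pr, module COR: the limit law in the entropy class and its consequences.
-/

set_option autoImplicit false

namespace Pool.Agent.MP6cc1fa

open Polynomial Finset MeasureTheory ProbabilityTheory

noncomputable section


/-- One pure state. -/
theorem pd_general {p : ℕ} [Fact p.Prime] (μ : ZMod p → ℝ) (z : ZMod p → ℂ)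
    (hz : ∀ x, ‖z x‖ ^ 2 = μ x) (h1 : ∑ x, μ x = 1)
    (hent : ∑ a, Real.negMulLog (nu z a) < Real.log p / 4) : PDLimit p μ := by
  refine pd_mix (J := Unit) μ (fun _ => 1) (fun _ => z) (fun _ => zero_le_one) (by simp)
    (fun _ => ?_) (fun x => ?_) ?_
  · rw [← h1]; exact sum_congr rfl fun x _ => hz x
  · simp [hz]
  · simpa using hent

/-- Every distribution with `μ > 3 / (4 p)` everywhere. -/
theorem pd_min {p : ℕ} [Fact p.Prime] (μ : ZMod p → ℝ) (h1 : ∑ x, μ x = 1)
    (hmin : ∀ x, 3 / (4 * (p : ℝ)) < μ x) : PDLimit p μ := by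
  classical
  have hp2 : 2 ≤ p := (Fact.out : p.Prime).two_le
  have hp1 : (1 : ℝ) < p := by exact_mod_cast (by omega : 1 < p)
  have hpp : (0 : ℝ) < p := by linarith
  have hP : 0 < Real.log p := Real.log_pos hp1
  obtain ⟨x0, -, hx0⟩ := Finset.exists_min_image (univ : Finset (ZMod p)) μ ⟨0, mem_univ 0⟩
  set τ : ℝ := p * μ x0 with hτ
  have hτ1 : 3 / 4 < τ := by
    have := hmin x0
    rw [div_lt_iff₀ (by positivity)] at this
    rw [hτ]
    linarith
  have hle : ∀ x, τ / p ≤ μ x := by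
    intro x
    rw [hτ, mul_div_cancel_left₀ _ hpp.ne']
    exact hx0 x (mem_univ x)
  set lam : Option (ZMod p) → ℝ := fun j => j.elim τ fun y => μ y - τ / p with hlam
  set z : Option (ZMod p) → ZMod p → ℂ := fun j x => j.elim (((1 / Real.sqrt p : ℝ)) : ℂ)
    fun y => if x = y then 1 else 0 with hz
  have hsumN : ∑ x, ‖z none x‖ ^ 2 = 1 := by
    simp only [hz, Option.elim_none]
    rw [sum_const, card_univ, ZMod.card, Complex.norm_real, Real.norm_of_nonneg (by positivity),
      div_pow, one_pow, Real.sq_sqrt hpp.le, nsmul_eq_mul]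
    field_simp
  have hsumS : ∀ y, ∑ x, ‖z (some y) x‖ ^ 2 = 1 := by
    intro y
    simp only [hz, Option.elim_some]
    rw [sum_eq_single y]
    · simp
    · intro x _ hx; simp [hx]
    · intro h; exact absurd (mem_univ _) h
  refine pd_mix μ lam z (fun j => ?_) ?_ (fun j => ?_) (fun x => ?_) ?_
  · cases j with
    | none => simp only [hlam, Option.elim_none]; linarith
    | some y => simp only [hlam, Option.elim_some]; linarith [hle y]
  · rw [Fintype.sum_option]
    simp only [hlam, Option.elim_none, Option.elim_some]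
    rw [sum_sub_distrib, h1, sum_const, card_univ, ZMod.card, nsmul_eq_mul]
    field_simp
    ring
  · cases j with
    | none => exact hsumN
    | some y => exact hsumS y
  · rw [Fintype.sum_option]
    simp only [hlam, hz, Option.elim_none, Option.elim_some]
    rw [sum_eq_single x]
    · rw [Complex.norm_real, Real.norm_of_nonneg (by positivity), div_pow, one_pow,
        Real.sq_sqrt hpp.le]
      simp
      ring
    · intro y _ hy
      rw [if_neg (Ne.symm hy)]
      simp
    · intro h; exact absurd (mem_univ _) h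
  · rw [Fintype.sum_option]
    have hN : ∑ a, Real.negMulLog (nu (z none) a) = 0 := by
      have h2 : nu (z none) 0 = 1 := by
        unfold nu ch
        simp only [hz, Option.elim_none, zero_mul, neg_zero, AddChar.map_zero_eq_one, mul_one]
        rw [sum_const, card_univ, ZMod.card, nsmul_eq_mul, norm_mul, Complex.norm_natCast,
          Complex.norm_real, Real.norm_of_nonneg (by positivity), mul_pow, div_pow, one_pow,
          Real.sq_sqrt hpp.le]
        field_simp
      have h3 : ∑ a, nu (z none) a = 1 := by rw [sum_nu, hsumN]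
      have h4 : ∀ a, a ≠ 0 → nu (z none) a = 0 := by
        intro a ha
        have hnn : ∀ a, 0 ≤ nu (z none) a := fun a => by unfold nu; positivity
        have h5 : nu (z none) 0 + nu (z none) a ≤ 1 := by
          rw [← h3, ← sum_pair ha.symm]
          exact sum_le_sum_of_subset_of_nonneg (subset_univ _) fun y _ _ => hnn y
        linarith [hnn a]
      refine sum_eq_zero fun a _ => ?_
      by_cases ha : a = 0
      · rw [ha, h2]; simp
      · rw [h4 a ha]; simp
    have hS : ∀ y, ∑ a, Real.negMulLog (nu (z (some y)) a) = Real.log p := by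
      intro y
      have h2 : ∀ a, nu (z (some y)) a = 1 / p := by
        intro a
        unfold nu
        rw [sum_eq_single y]
        · simp only [hz, Option.elim_some, if_true, one_mul]
          unfold ch
          rw [AddChar.norm_apply, one_pow]
        · intro x _ hx
          simp only [hz, Option.elim_some, if_neg hx, zero_mul]
        · intro h; exact absurd (mem_univ _) h
      rw [sum_congr rfl fun a _ => by rw [h2 a], sum_const, card_univ, ZMod.card, nsmul_eq_mul]
      unfold Real.negMulLog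
      rw [Real.log_div one_ne_zero (by linarith), Real.log_one]
      field_simp
      ring
    rw [hN, mul_zero, zero_add]
    simp_rw [hS]
    rw [← sum_mul]
    simp only [hlam, Option.elim_some]
    rw [sum_sub_distrib, h1, sum_const, card_univ, ZMod.card, nsmul_eq_mul,
      mul_div_cancel₀ _ hpp.ne']
    nlinarith

theorem pd_fid {p : ℕ} [Fact p.Prime] (μ : ZMod p → ℝ) (h0 : ∀ x, 0 ≤ μ x)
    (h1 : ∑ x, μ x = 1)
    (h : Real.qaryEntropy p (1 - (∑ x, Real.sqrt (μ x)) ^ 2 / p) < Real.log p / 4) :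
    PDLimit p μ :=
  pd_general μ (sq μ) (norm_sq_sq μ h0) h1 (fid_ent μ h0 h1 h)

theorem pd_two (μ : ZMod 2 → ℝ) (h0 : ∀ x, 0 ≤ μ x) (h1 : ∑ x, μ x = 1)
    (h2 : 0.301 ≤ μ 1) (h3 : μ 1 ≤ 0.699) : PDLimit 2 μ :=
  pd_fid μ h0 h1 (two_fid μ h0 h1 h2 h3)

theorem pd_set {p : ℕ} [Fact p.Prime] (ε : ℝ) (hε : 0 < ε) (hp : Real.log 2 < ε * Real.log p)
    (A : Finset (ZMod p)) (hA : (3 / 4 + ε) * p ≤ A.card) :
    PDLimit p (fun x => if x ∈ A then 1 / (A.card : ℝ) else 0) := by
  classical
  have hpp : (0 : ℝ) < p := by exact_mod_cast (Fact.out : p.Prime).pos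
  have hA0 : (0 : ℝ) < A.card := lt_of_lt_of_le (by positivity) hA
  refine pd_fid _ (fun x => ?_) ?_ (set_fid ε hε hp A hA)
  · split_ifs <;> positivity
  · rw [← sum_filter, sum_const, nsmul_eq_mul]
    have : (univ.filter fun x => x ∈ A) = A := by ext x; simp
    rw [this]
    field_simp

open Classical in
theorem ap_card {p : ℕ} [Fact p.Prime] (N : ℕ) (x0 r : ZMod p) (hN : N ≤ p) (hr : r ≠ 0) :
    (univ.filter fun x : ZMod p => ∃ j : ℕ, j < N ∧ x = x0 + j * r).card = N := by
  have h : (univ.filter fun x : ZMod p => ∃ j : ℕ, j < N ∧ x = x0 + j * r) =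
      (range N).image fun j : ℕ => x0 + (j : ZMod p) * r := by
    ext x
    simp only [mem_filter, mem_univ, true_and, mem_image, mem_range]
    constructor
    · rintro ⟨j, hj, rfl⟩; exact ⟨j, hj, rfl⟩
    · rintro ⟨j, hj, rfl⟩; exact ⟨j, hj, rfl⟩
  rw [h, card_image_of_injOn, card_range]
  intro i hi j hj hij
  rw [coe_range, Set.mem_Iio] at hi hj
  have h2 : ((i : ℕ) : ZMod p) = ((j : ℕ) : ZMod p) := by
    have := add_left_cancel hij
    exact mul_right_cancel₀ hr this
  rw [ZMod.natCast_eq_natCast_iff] at h2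
  exact Nat.ModEq.eq_of_lt_of_lt h2 (by omega) (by omega)

open Classical in
theorem pd_ap : ∃ K : ℝ, 0 < K ∧ ∀ (p : ℕ) [Fact p.Prime] (N : ℕ) (x0 r : ZMod p), r ≠ 0 → N ≤ p →
    K * (p : ℝ) ^ (3 / 4 : ℝ) ≤ N →
    PDLimit p (fun x => if ∃ j : ℕ, j < N ∧ x = x0 + j * r then 1 / (N : ℝ) else 0) := by
  obtain ⟨C, hC⟩ := ap_entropy
  refine ⟨Real.exp (C + 1), Real.exp_pos _, fun p _ N x0 r hr hN hK => ?_⟩
  have hpp : (0 : ℝ) < p := by exact_mod_cast (Fact.out : p.Prime).pos
  have hN0 : (0 : ℝ) < N := lt_of_lt_of_le (by positivity) hK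
  have hN1 : 1 ≤ N := by
    have : 0 < N := by exact_mod_cast hN0
    omega
  refine pd_general _ (fun x : ZMod p => if ∃ j : ℕ, j < N ∧ x = x0 + j * r then
    ((1 / Real.sqrt N : ℝ) : ℂ) else 0) (fun x => ?_) ?_ ?_
  · split_ifs
    · rw [Complex.norm_real, Real.norm_of_nonneg (by positivity), div_pow, one_pow,
        Real.sq_sqrt hN0.le]
    · simp
  · rw [← sum_filter, sum_const, nsmul_eq_mul, ap_card N x0 r hN hr]
    field_simp
  · refine lt_of_le_of_lt (hC p N x0 r hN1 hN hr) ?_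
    have h1 := Real.log_le_log (by positivity) hK
    rw [Real.log_mul (by positivity) (by positivity), Real.log_exp, Real.log_rpow hpp] at h1
    rw [Real.log_div hpp.ne' hN0.ne']
    linarith

theorem pd_typ (δ : ℝ) (hδ : 0 < δ) : ∃ p0 : ℕ, ∀ (p : ℕ) [Fact p.Prime], p0 ≤ p →
    (Measure.pi (fun _ : ZMod p => expMeasure 1))
      {w : ZMod p → ℝ | ¬ PDLimit p (fun x => w x / ∑ y, w y)} ≤ ENNReal.ofReal δ := by
  obtain ⟨n0, hn0⟩ := fid_typical δ hδ
  refine ⟨max n0 (2 ^ 34), fun p _ hp => ?_⟩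
  have h1 : n0 ≤ Fintype.card (ZMod p) := by
    rw [ZMod.card]; exact (le_max_left _ _).trans hp
  have h2 : 2 ^ 34 ≤ p := (le_max_right _ _).trans hp
  refine le_trans (measure_mono ?_) (hn0 (ZMod p) h1)
  intro w hw hcon
  apply hw
  obtain ⟨hw0, hf⟩ := hcon
  have hpp : (0 : ℝ) < p := by exact_mod_cast (Fact.out : p.Prime).pos
  have hne : (univ : Finset (ZMod p)).Nonempty := ⟨0, mem_univ 0⟩
  have hS : 0 < ∑ y, w y := sum_pos (fun x _ => hw0 x) hne
  have hsum1 : ∑ x, w x / ∑ y, w y = 1 := by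
    rw [← sum_div, div_self hS.ne']
  have hx0 : ∀ x, 0 ≤ w x / ∑ y, w y := fun x => div_nonneg (hw0 x).le hS.le
  refine pd_fid _ hx0 hsum1 (qary_small p h2 _ ?_ ?_)
  · -- Cauchy-Schwarz
    rw [sub_nonneg, div_le_one hpp]
    have h3 := sq_sum_le_card_mul_sum_sq (s := (univ : Finset (ZMod p)))
      (f := fun x => Real.sqrt (w x / ∑ y, w y))
    rw [card_univ, ZMod.card] at h3
    have h4 : ∑ x, Real.sqrt (w x / ∑ y, w y) ^ 2 = 1 := by
      rw [← hsum1]
      exact sum_congr rfl fun x _ => Real.sq_sqrt (hx0 x)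
    rw [h4, mul_one] at h3
    exact h3
  · rw [ZMod.card] at hf
    have h5 : ∑ x, Real.sqrt (w x / ∑ y, w y) = (∑ x, Real.sqrt (w x)) / Real.sqrt (∑ y, w y) := by
      rw [sum_div]
      exact sum_congr rfl fun x _ => Real.sqrt_div (hw0 x).le _
    have h6 : 0.78 ≤ (∑ x, Real.sqrt (w x / ∑ y, w y)) ^ 2 / p := by
      rw [h5, div_pow, Real.sq_sqrt hS.le, div_div, le_div_iff₀ (by positivity)]
      linarith
    linarith

end

end Pool.Agent.MP6cc1fa
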