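import Pool.Agent.Lib.MP_6cc1fa_pr.Defs

/-!
MP_6cc1fa_pr, module Div: the divisor bound.
-/

set_option autoImplicit false

namespace Pool.Agent.MP6cc1fa

open Polynomial Finset

noncomputable section

variable {p : ℕ} [Fact p.Prime]

theorem div_mon_coeff {n : ℕ} (a : Fin n → ZMod p) (i : ℕ) :
    (mon a).coeff i = if h : i < n then a ⟨i, h⟩ else if i = n then 1 else 0 := by
  classical
  unfold mon
  rw [coeff_add, coeff_X_pow, finsetSum_coeff]
  simp only [coeff_C_mul, coeff_X_pow]
  by_cases h : i < n
  · rw [dif_pos h, if_neg (by omega), zero_add]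
    rw [Finset.sum_eq_single (⟨i, h⟩ : Fin n)]
    · simp
    · intro b _ hb
      rw [if_neg, mul_zero]
      intro hi
      apply hb
      ext
      exact hi.symm
    · intro hn
      exact absurd (Finset.mem_univ _) hn
  · rw [dif_neg h]
    have : ∑ x : Fin n, a x * (if i = (x : ℕ) then (1 : ZMod p) else 0) = 0 := by
      apply Finset.sum_eq_zero
      intro x _
      rw [if_neg, mul_zero]
      have := x.2
      omega
    rw [this, add_zero]

theorem div_mon_monic {n : ℕ} (a : Fin n → ZMod p) : (mon a).Monic ∧ (mon a).natDegree = n := by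
  have h1 : (mon a).natDegree = n := by
    apply Polynomial.natDegree_eq_of_le_of_coeff_ne_zero
    · rw [Polynomial.natDegree_le_iff_coeff_eq_zero]
      intro N hN
      rw [div_mon_coeff, dif_neg (by omega), if_neg (by omega)]
    · rw [div_mon_coeff, dif_neg (by omega), if_pos rfl]
      exact one_ne_zero
  refine ⟨?_, h1⟩
  rw [Polynomial.Monic, Polynomial.leadingCoeff, h1, div_mon_coeff, dif_neg (by omega), if_pos rfl]

theorem div_mem_MD (n : ℕ) (f : (ZMod p)[X]) : f ∈ MD p n ↔ f.Monic ∧ f.natDegree = n := by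
  classical
  unfold MD
  rw [Finset.mem_image]
  constructor
  · rintro ⟨a, _, rfl⟩
    exact div_mon_monic a
  · rintro ⟨h1, h2⟩
    refine ⟨fun i => f.coeff i, Finset.mem_univ _, ?_⟩
    ext i
    rw [div_mon_coeff]
    by_cases h : i < n
    · rw [dif_pos h]
    · rw [dif_neg h]
      by_cases h' : i = n
      · rw [if_pos h', h', ← h2]
        exact h1.coeff_natDegree.symm
      · rw [if_neg h']
        symm
        apply Polynomial.coeff_eq_zero_of_natDegree_lt
        omega

theorem div_mem_tau (f : (ZMod p)[X]) (h : (ZMod p)[X]) :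
    (∃ k ∈ range (f.natDegree + 1), h ∈ MD p k) ∧ h ∣ f ↔
      h.Monic ∧ h.natDegree ≤ f.natDegree ∧ h ∣ f := by
  constructor
  · rintro ⟨⟨k, hk, hm⟩, hd⟩
    rw [div_mem_MD] at hm
    rw [Finset.mem_range] at hk
    exact ⟨hm.1, by omega, hd⟩
  · rintro ⟨h1, h2, h3⟩
    refine ⟨⟨h.natDegree, ?_, ?_⟩, h3⟩
    · rw [Finset.mem_range]; omega
    · rw [div_mem_MD]; exact ⟨h1, rfl⟩

open UniqueFactorizationMonoid in
theorem div_tau_le_prod (f : (ZMod p)[X]) (hf : f ≠ 0) :
    tau f ≤ ∏ P ∈ (normalizedFactors f).toFinset, ((normalizedFactors f).count P + 1) := by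
  classical
  rw [← Multiset.card_Iic]
  unfold tau
  apply Finset.card_le_card_of_injOn (fun h => normalizedFactors h)
  · intro h hh
    rw [Finset.mem_coe, Finset.mem_filter, Finset.mem_biUnion, div_mem_tau] at hh
    obtain ⟨h1, _, h3⟩ := hh
    rw [Finset.mem_coe, Finset.mem_Iic]
    exact (dvd_iff_normalizedFactors_le_normalizedFactors h1.ne_zero hf).1 h3
  · intro h hh h' hh' he
    rw [Finset.mem_coe, Finset.mem_filter, Finset.mem_biUnion, div_mem_tau] at hh hh'
    have e1 := prod_normalizedFactors_eq (a := h) hh.1.ne_zero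
    have e2 := prod_normalizedFactors_eq (a := h') hh'.1.ne_zero
    dsimp only at he
    rw [he, e2, hh.1.normalize_eq_self, hh'.1.normalize_eq_self] at e1
    exact e1.symm

open UniqueFactorizationMonoid in
theorem div_factor_monic {f P : (ZMod p)[X]} (hP : P ∈ normalizedFactors f) : P.Monic := by
  have h1 := normalize_normalized_factor P hP
  have h2 : P ≠ 0 := (irreducible_of_normalized_factor P hP).ne_zero
  rw [← h1]
  exact Polynomial.monic_normalize h2

open UniqueFactorizationMonoid in
theorem div_factor_natDegree {f P : (ZMod p)[X]} (hP : P ∈ normalizedFactors f) :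
    1 ≤ P.natDegree := by
  have h1 : Irreducible P := irreducible_of_normalized_factor P hP
  exact h1.natDegree_pos

open UniqueFactorizationMonoid in
theorem div_sum_natDegree (f : (ZMod p)[X]) (hf : f ≠ 0) :
    ((normalizedFactors f).map natDegree).sum = f.natDegree := by
  classical
  have h0 : (0 : (ZMod p)[X]) ∉ normalizedFactors f := by
    intro h
    exact (irreducible_of_normalized_factor 0 h).ne_zero rfl
  rw [← Polynomial.natDegree_multiset_prod _ h0]
  have h1 := prod_normalizedFactors hf
  exact Polynomial.natDegree_eq_of_degree_eq (Polynomial.degree_eq_degree_of_associated h1)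

open UniqueFactorizationMonoid in
theorem div_sum_count (f : (ZMod p)[X]) (hf : f ≠ 0) :
    ∑ P ∈ (normalizedFactors f).toFinset, (normalizedFactors f).count P * P.natDegree
      = f.natDegree := by
  classical
  rw [← div_sum_natDegree f hf, Finset.sum_multiset_map_count]
  rfl

open UniqueFactorizationMonoid in
theorem div_tau_le_two (f : (ZMod p)[X]) (hf : f ≠ 0) (J : ℕ) (c : ℝ) (hc : 1 < c)
    (hJ : 2 ≤ c ^ J) :
    (tau f : ℝ) ≤ ((f.natDegree + 1 : ℕ) : ℝ) ^ ((range (J + 1)).biUnion (MD p)).card
      * c ^ f.natDegree := by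
  classical
  set m := normalizedFactors f with hm
  have h1 := div_tau_le_prod f hf
  have h2 : (tau f : ℝ) ≤ ∏ P ∈ m.toFinset, ((m.count P + 1 : ℕ) : ℝ) := by
    calc (tau f : ℝ) ≤ ((∏ P ∈ m.toFinset, (m.count P + 1) : ℕ) : ℝ) := by exact_mod_cast h1
      _ = _ := by push_cast; rfl
  refine h2.trans ?_
  rw [← Finset.prod_filter_mul_prod_filter_not m.toFinset (fun P => P.natDegree ≤ J)]
  apply mul_le_mul
  · -- small degrees
    have hb : ∀ P ∈ m.toFinset.filter (fun P => P.natDegree ≤ J),
        ((m.count P + 1 : ℕ) : ℝ) ≤ ((f.natDegree + 1 : ℕ) : ℝ) := by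
      intro P hP
      rw [Finset.mem_filter, Multiset.mem_toFinset] at hP
      have h3 : m.count P * P.natDegree ≤ f.natDegree := by
        rw [← div_sum_count f hf]
        exact Finset.single_le_sum (f := fun P => (normalizedFactors f).count P * P.natDegree)
          (fun _ _ => Nat.zero_le _) (Multiset.mem_toFinset.2 hP.1)
      have h4 := div_factor_natDegree hP.1
      have h5 : m.count P ≤ f.natDegree := by nlinarith
      exact_mod_cast Nat.succ_le_succ h5
    have hpos : (1 : ℝ) ≤ ((f.natDegree + 1 : ℕ) : ℝ) := by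
      push_cast
      have : (0 : ℝ) ≤ f.natDegree := Nat.cast_nonneg _
      linarith
    calc ∏ P ∈ m.toFinset.filter (fun P => P.natDegree ≤ J), ((m.count P + 1 : ℕ) : ℝ)
        ≤ ∏ P ∈ m.toFinset.filter (fun P => P.natDegree ≤ J), ((f.natDegree + 1 : ℕ) : ℝ) := by
          apply Finset.prod_le_prod
          · intro i _; exact Nat.cast_nonneg _
          · exact hb
      _ = ((f.natDegree + 1 : ℕ) : ℝ) ^ (m.toFinset.filter (fun P => P.natDegree ≤ J)).card := by
          rw [Finset.prod_const]
      _ ≤ _ := by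
          apply pow_le_pow_right₀ hpos
          apply Finset.card_le_card
          intro P hP
          rw [Finset.mem_filter, Multiset.mem_toFinset] at hP
          rw [Finset.mem_biUnion]
          refine ⟨P.natDegree, ?_, ?_⟩
          · rw [Finset.mem_range]; omega
          · rw [div_mem_MD]; exact ⟨div_factor_monic hP.1, rfl⟩
  · -- large degrees
    have hb : ∀ P ∈ m.toFinset.filter (fun P => ¬ P.natDegree ≤ J),
        ((m.count P + 1 : ℕ) : ℝ) ≤ c ^ (m.count P * P.natDegree) := by
      intro P hP
      rw [Finset.mem_filter, Multiset.mem_toFinset] at hP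
      have h3 : ((m.count P + 1 : ℕ) : ℝ) ≤ 2 ^ (m.count P) := by
        have : m.count P + 1 ≤ 2 ^ (m.count P) := Nat.lt_two_pow_self
        exact_mod_cast this
      refine h3.trans ?_
      calc (2 : ℝ) ^ (m.count P) ≤ (c ^ J) ^ (m.count P) := by
            apply pow_le_pow_left₀ (by norm_num) hJ
        _ = c ^ (J * m.count P) := by rw [← pow_mul]
        _ ≤ c ^ (m.count P * P.natDegree) := by
            apply pow_le_pow_right₀ hc.le
            have : J ≤ P.natDegree := by omega
            nlinarith
    calc ∏ P ∈ m.toFinset.filter (fun P => ¬ P.natDegree ≤ J), ((m.count P + 1 : ℕ) : ℝ)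
        ≤ ∏ P ∈ m.toFinset.filter (fun P => ¬ P.natDegree ≤ J), c ^ (m.count P * P.natDegree) := by
          apply Finset.prod_le_prod
          · intro i _; exact Nat.cast_nonneg _
          · exact hb
      _ = c ^ (∑ P ∈ m.toFinset.filter (fun P => ¬ P.natDegree ≤ J), m.count P * P.natDegree) := by
          rw [Finset.prod_pow_eq_pow_sum]
      _ ≤ c ^ f.natDegree := by
          apply pow_le_pow_right₀ hc.le
          rw [← div_sum_count f hf]
          exact Finset.sum_le_sum_of_subset (Finset.filter_subset _ _)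
  · apply Finset.prod_nonneg
    intro i _; exact Nat.cast_nonneg _
  · positivity

theorem div_poly_le_exp (A : ℕ) (c : ℝ) (hc : 1 < c) :
    ∃ C : ℝ, 1 ≤ C ∧ ∀ n : ℕ, ((n + 1 : ℕ) : ℝ) ^ A ≤ C * c ^ n := by
  have h1 := tendsto_pow_const_div_const_pow_of_one_lt A hc
  obtain ⟨B, hB⟩ := h1.bddAbove_range
  refine ⟨max 1 (B * c), le_max_left _ _, fun n => ?_⟩
  have h2 : ((n + 1 : ℕ) : ℝ) ^ A / c ^ (n + 1) ≤ B := hB ⟨n + 1, rfl⟩
  have hc0 : (0 : ℝ) < c := by linarith
  rw [div_le_iff₀ (pow_pos hc0 _)] at h2
  calc ((n + 1 : ℕ) : ℝ) ^ A ≤ B * c ^ (n + 1) := h2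
    _ = (B * c) * c ^ n := by ring
    _ ≤ max 1 (B * c) * c ^ n := by
        apply mul_le_mul_of_nonneg_right (le_max_right _ _) (pow_nonneg hc0.le _)

theorem tau_le (δ : ℝ) (hδ : 0 < δ) : ∃ C : ℝ, 1 ≤ C ∧ ∀ f : (ZMod p)[X], f ≠ 0 →
    (tau f : ℝ) ≤ C * (p : ℝ) ^ (δ * f.natDegree) := by
  classical
  have hp : (1 : ℝ) < p := by exact_mod_cast (Fact.out : p.Prime).one_lt
  have hp0 : (0 : ℝ) < p := by linarith
  set c : ℝ := (p : ℝ) ^ (δ / 2) with hcdef
  have hc : 1 < c := Real.one_lt_rpow hp (by linarith)
  obtain ⟨J, hJ⟩ := pow_unbounded_of_one_lt 2 hc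
  obtain ⟨C, hC1, hC⟩ := div_poly_le_exp ((range (J + 1)).biUnion (MD p)).card c hc
  refine ⟨C, hC1, fun f hf => ?_⟩
  have h1 := div_tau_le_two f hf J c hc hJ.le
  have h2 := hC f.natDegree
  have hcn : (0 : ℝ) ≤ c ^ f.natDegree := pow_nonneg (by linarith) _
  calc (tau f : ℝ) ≤ _ := h1
    _ ≤ (C * c ^ f.natDegree) * c ^ f.natDegree := mul_le_mul_of_nonneg_right h2 hcn
    _ = C * (c ^ f.natDegree * c ^ f.natDegree) := by ring
    _ = C * (p : ℝ) ^ (δ * f.natDegree) := by
        congr 1
        rw [← Real.rpow_natCast c, hcdef, ← Real.rpow_mul hp0.le, ← Real.rpow_add hp0]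
        congr 1
        ring

open UniqueFactorizationMonoid in
theorem two_pow_om_le {g : (ZMod p)[X]} (hg : g.Monic) : (2 : ℝ) ^ om g ≤ tau g := by
  classical
  have key : 2 ^ om g ≤ tau g := by
    unfold om tau
    rw [← Finset.card_powerset]
    apply Finset.card_le_card_of_injOn (fun S => ∏ P ∈ S, P)
    · intro S hS
      rw [Finset.mem_coe, Finset.mem_powerset] at hS
      rw [Finset.mem_coe, Finset.mem_filter, Finset.mem_biUnion, div_mem_tau]
      have hdvd : (∏ P ∈ S, P) ∣ g := by
        apply Finset.prod_dvd_of_isRelPrime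
        · intro P hP Q hQ hPQ
          have hP' : P ∈ normalizedFactors g := Multiset.mem_toFinset.1 (hS hP)
          have hQ' : Q ∈ normalizedFactors g := Multiset.mem_toFinset.1 (hS hQ)
          have iP : Irreducible P := irreducible_of_normalized_factor P hP'
          have iQ : Irreducible Q := irreducible_of_normalized_factor Q hQ'
          change IsRelPrime P Q
          rw [iP.isRelPrime_iff_not_dvd]
          intro hd
          apply hPQ
          have ha : Associated P Q := iP.associated_of_dvd iQ hd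
          exact eq_of_monic_of_associated (div_factor_monic hP') (div_factor_monic hQ') ha
        · intro P hP
          exact dvd_of_mem_normalizedFactors (Multiset.mem_toFinset.1 (hS hP))
      refine ⟨?_, ?_, hdvd⟩
      · apply monic_prod_of_monic
        intro P hP
        exact div_factor_monic (Multiset.mem_toFinset.1 (hS hP))
      · exact natDegree_le_of_dvd hdvd hg.ne_zero
    · intro S hS T hT hST
      rw [Finset.mem_coe, Finset.mem_powerset] at hS hT
      dsimp only at hST
      have aux : ∀ S T : Finset (ZMod p)[X], S ⊆ (normalizedFactors g).toFinset →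
          T ⊆ (normalizedFactors g).toFinset → ∏ P ∈ S, P = ∏ P ∈ T, P → S ⊆ T := by
        intro S T hS hT hST P hP
        have hP' : P ∈ normalizedFactors g := Multiset.mem_toFinset.1 (hS hP)
        have hpr : Prime P := prime_of_normalized_factor P hP'
        have hd : P ∣ ∏ Q ∈ T, Q := by
          rw [← hST]
          exact Finset.dvd_prod_of_mem _ hP
        rw [hpr.dvd_finsetProd_iff] at hd
        obtain ⟨Q, hQ, hPQ⟩ := hd
        have hQ' : Q ∈ normalizedFactors g := Multiset.mem_toFinset.1 (hT hQ)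
        have iQ : Irreducible Q := irreducible_of_normalized_factor Q hQ'
        have ha : Associated P Q := hpr.irreducible.associated_of_dvd iQ hPQ
        rw [eq_of_monic_of_associated (div_factor_monic hP') (div_factor_monic hQ') ha]
        exact hQ
      exact Finset.Subset.antisymm (aux S T hS hT hST) (aux T S hT hS hST.symm)
  exact_mod_cast key

end

end Pool.Agent.MP6cc1fa
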