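import Pool.Agent.Lib.MP_6cc1fa_pr.Defs

/-!
MP_6cc1fa_pr, module Ent: Renyi entropy from Shannon entropy.
-/

set_option autoImplicit false

namespace Pool.Agent.MP6cc1fa

open Polynomial Finset

noncomputable section

variable {p : ℕ} [Fact p.Prime]

/-- The function `s ↦ x^(1-s)` written with exponentials, zero at `x = 0`. -/
def ent_F (x s : ℝ) : ℝ := x * Real.exp (-(s * Real.log x))

theorem ent_F_eq {x : ℝ} (hx : 0 ≤ x) {s : ℝ} (hs : s < 1) : ent_F x s = x ^ (1 - s) := by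
  unfold ent_F
  rcases hx.eq_or_lt with h0 | h0
  · rw [← h0, Real.zero_rpow (by linarith)]
    simp
  · rw [Real.rpow_sub h0, Real.rpow_one, Real.exp_neg, Real.rpow_def_of_pos h0, mul_comm s,
      div_eq_mul_inv]

theorem ent_F_deriv (x : ℝ) : HasDerivAt (ent_F x) (Real.negMulLog x) 0 := by
  have h1 : HasDerivAt (fun s : ℝ => -(s * Real.log x)) (-(1 * Real.log x)) 0 :=
    ((hasDerivAt_id' (0 : ℝ)).mul_const (Real.log x)).neg
  have h2 := (h1.exp).const_mul x
  have h3 : x * (Real.exp (-(0 * Real.log x)) * -(1 * Real.log x)) = Real.negMulLog x := by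
    rw [Real.negMulLog]
    simp
  rw [h3] at h2
  exact h2

theorem exists_renyi (ν : ZMod p → ℝ) (hν : ∀ a, 0 ≤ ν a) (hν1 : ∑ a, ν a = 1) (h : ℝ)
    (hh : ∑ a, Real.negMulLog (ν a) < h) :
    ∃ s : ℝ, 0 < s ∧ s < 1 ∧ (∑ a, ν a ^ (1 - s)) / Real.exp h ^ s < 1 := by
  set ψ : ℝ → ℝ := fun s => (∑ a, ent_F (ν a) s) - Real.exp (s * h) with hψ
  have hd1 : HasDerivAt (fun s : ℝ => ∑ a, ent_F (ν a) s) (∑ a, Real.negMulLog (ν a)) 0 := by
    have := HasDerivAt.fun_sum (u := (univ : Finset (ZMod p))) (A := fun a => ent_F (ν a))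
      (A' := fun a => Real.negMulLog (ν a)) (x := (0 : ℝ)) (fun a _ => ent_F_deriv (ν a))
    exact this
  have hd2 : HasDerivAt (fun s : ℝ => Real.exp (s * h)) h 0 := by
    have h2 := ((hasDerivAt_id' (0 : ℝ)).mul_const h).exp
    simpa using h2
  have hd : HasDerivAt ψ ((∑ a, Real.negMulLog (ν a)) - h) 0 := hd1.sub hd2
  have hψ0 : ψ 0 = 0 := by
    have : (∑ a, ent_F (ν a) 0) = 1 := by
      rw [← hν1]
      apply sum_congr rfl
      intro a _
      simp [ent_F]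
    simp only [hψ, this]
    simp
  have hev := (hasDerivAt_iff_tendsto_slope.1 hd).eventually
    (gt_mem_nhds (show (∑ a, Real.negMulLog (ν a)) - h < 0 by linarith))
  have hev2 : ∀ᶠ s in nhdsWithin (0 : ℝ) (Set.Ioi 0), slope ψ 0 s < 0 :=
    hev.filter_mono (nhdsWithin_mono _ (fun s hs => ne_of_gt hs))
  have hev3 : ∀ᶠ s in nhdsWithin (0 : ℝ) (Set.Ioi 0), s < 1 :=
    (gt_mem_nhds (show (0 : ℝ) < 1 by norm_num)).filter_mono nhdsWithin_le_nhds
  obtain ⟨s, ⟨h1, h2⟩, h3⟩ := ((hev2.and hev3).and self_mem_nhdsWithin).exists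
  have hs : 0 < s := h3
  refine ⟨s, hs, h2, ?_⟩
  have h4 : ψ s < 0 := by
    rw [slope_def_field, hψ0, sub_zero, sub_zero] at h1
    by_contra hcon
    push Not at hcon
    exact absurd h1 (not_lt.2 (div_nonneg hcon hs.le))
  have h5 : (∑ a, ν a ^ (1 - s)) < Real.exp (s * h) := by
    have : (∑ a, ent_F (ν a) s) = ∑ a, ν a ^ (1 - s) :=
      sum_congr rfl (fun a _ => ent_F_eq (hν a) h2)
    have h6 : (∑ a, ent_F (ν a) s) - Real.exp (s * h) < 0 := h4
    rw [this] at h6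
    linarith
  rw [div_lt_one (Real.rpow_pos_of_pos (Real.exp_pos _) _), ← Real.exp_mul, mul_comm h s]
  exact h5

end

end Pool.Agent.MP6cc1fa
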