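import Pool.Agent.Lib.MP_6cc1fa_pr.MixDefs
import Pool.Agent.Lib.MP_6cc1fa_pr.Ent

/-!
MP_6cc1fa_pr, module EntN: Renyi entropy from Shannon entropy, for mixtures.
-/

set_option autoImplicit false

namespace Pool.Agent.MP6cc1fa

open Polynomial Finset

noncomputable section

variable {p : ℕ} [Fact p.Prime]

theorem exists_renyi_mix {J : Type} [Fintype J] (lam : J → ℝ) (h0 : ∀ j, 0 ≤ lam j)
    (h1 : ∑ j, lam j = 1) (ν : J → ZMod p → ℝ) (hν : ∀ j a, 0 ≤ ν j a)
    (hν1 : ∀ j, ∑ a, ν j a = 1) (h : ℝ)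
    (hh : ∑ j, lam j * ∑ a, Real.negMulLog (ν j a) < h) :
    ∃ s : ℝ, 0 < s ∧ s < 1 ∧
      (∑ j, lam j * ∑ a, ν j a ^ (1 - s)) / Real.exp h ^ s < 1 := by
  set ψ : ℝ → ℝ := fun s => (∑ j, lam j * ∑ a, ent_F (ν j a) s) - Real.exp (s * h) with hψ
  have hd1 : HasDerivAt (fun s : ℝ => ∑ j, lam j * ∑ a, ent_F (ν j a) s)
      (∑ j, lam j * ∑ a, Real.negMulLog (ν j a)) 0 := by
    have hj : ∀ j ∈ (univ : Finset J), HasDerivAt (fun s : ℝ => lam j * ∑ a, ent_F (ν j a) s)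
        (lam j * ∑ a, Real.negMulLog (ν j a)) 0 := by
      intro j _
      have := HasDerivAt.fun_sum (u := (univ : Finset (ZMod p))) (A := fun a => ent_F (ν j a))
        (A' := fun a => Real.negMulLog (ν j a)) (x := (0 : ℝ)) (fun a _ => ent_F_deriv (ν j a))
      exact this.const_mul (lam j)
    have := HasDerivAt.fun_sum (u := (univ : Finset J))
      (A := fun j => fun s : ℝ => lam j * ∑ a, ent_F (ν j a) s)
      (A' := fun j => lam j * ∑ a, Real.negMulLog (ν j a)) (x := (0 : ℝ)) hj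
    exact this
  have hd2 : HasDerivAt (fun s : ℝ => Real.exp (s * h)) h 0 := by
    have h2 := ((hasDerivAt_id' (0 : ℝ)).mul_const h).exp
    simpa using h2
  have hd : HasDerivAt ψ ((∑ j, lam j * ∑ a, Real.negMulLog (ν j a)) - h) 0 := hd1.sub hd2
  have hψ0 : ψ 0 = 0 := by
    have : (∑ j, lam j * ∑ a, ent_F (ν j a) 0) = 1 := by
      rw [← h1]
      apply sum_congr rfl
      intro j _
      have : (∑ a, ent_F (ν j a) 0) = 1 := by
        rw [← hν1 j]
        apply sum_congr rfl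
        intro a _
        simp [ent_F]
      rw [this, mul_one]
    simp only [hψ, this]
    simp
  have hev := (hasDerivAt_iff_tendsto_slope.1 hd).eventually
    (gt_mem_nhds (show (∑ j, lam j * ∑ a, Real.negMulLog (ν j a)) - h < 0 by linarith))
  have hev2 : ∀ᶠ s in nhdsWithin (0 : ℝ) (Set.Ioi 0), slope ψ 0 s < 0 :=
    hev.filter_mono (nhdsWithin_mono _ (fun s hs => ne_of_gt hs))
  have hev3 : ∀ᶠ s in nhdsWithin (0 : ℝ) (Set.Ioi 0), s < 1 :=
    (gt_mem_nhds (show (0 : ℝ) < 1 by norm_num)).filter_mono nhdsWithin_le_nhds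
  obtain ⟨s, ⟨h1', h2⟩, h3⟩ := ((hev2.and hev3).and self_mem_nhdsWithin).exists
  have hs : 0 < s := h3
  refine ⟨s, hs, h2, ?_⟩
  have h4 : ψ s < 0 := by
    rw [slope_def_field, hψ0, sub_zero, sub_zero] at h1'
    by_contra hcon
    push Not at hcon
    exact absurd h1' (not_lt.2 (div_nonneg hcon hs.le))
  have h5 : (∑ j, lam j * ∑ a, ν j a ^ (1 - s)) < Real.exp (s * h) := by
    have : (∑ j, lam j * ∑ a, ent_F (ν j a) s) = ∑ j, lam j * ∑ a, ν j a ^ (1 - s) := by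
      refine sum_congr rfl (fun j _ => ?_)
      rw [sum_congr rfl (fun a _ => ent_F_eq (hν j a) h2)]
    have h6 : (∑ j, lam j * ∑ a, ent_F (ν j a) s) - Real.exp (s * h) < 0 := h4
    rw [this] at h6
    linarith
  rw [div_lt_one (Real.rpow_pos_of_pos (Real.exp_pos _) _), ← Real.exp_mul, mul_comm h s]
  exact h5

end

end Pool.Agent.MP6cc1fa
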