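import Pool.Agent.Lib.MP_6cc1fa_pr.Defs
import Pool.Agent.Lib.MP_196a10_nt.Defs

/-!
MP_6cc1fa_pr: definitions for the Riemann hypothesis for character sums over `F_p[X]`
(port of `Lib/MP_196a10_nt`, where `p = 2`).
-/

set_option autoImplicit false

namespace Pool.Agent.MP6cc1fa

open Polynomial Finset

noncomputable section

/-- Polynomials over `F_p`. -/
abbrev PP (p : ℕ) : Type := (ZMod p)[X]

/-- von Mangoldt function on monic polynomials: `deg P` for `f = P^m`, `P` monic irreducible,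
`m ≥ 1`; otherwise `0`. -/
def vM {p : ℕ} (f : PP p) : ℕ := by
  classical
  exact if h : ∃ P : PP p, P.Monic ∧ Irreducible P ∧ ∃ m : ℕ, 0 < m ∧ f = P ^ m then
    h.choose.natDegree else 0

/-- Homogenised evaluation: `lam t1 t0 f = ∑ f_i t1^i t0^(deg f - i)`. -/
def lam {p : ℕ} {A : Type} [CommRing A] [Algebra (ZMod p) A] (t1 t0 : A) (f : PP p) : A :=
  ∑ i ∈ Finset.range (f.natDegree + 1), algebraMap (ZMod p) A (f.coeff i) * t1 ^ i *
    t0 ^ (f.natDegree - i)

/-- `∑_{f monic of degree j} Λ(f) ψ(lam f)`. -/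
def SS (p : ℕ) [Fact p.Prime] {A : Type} [CommRing A] [Algebra (ZMod p) A] (t1 t0 : A)
    (ψ : MulChar A ℂ) (j : ℕ) : ℂ :=
  ∑ f ∈ MD p j, (vM f : ℂ) * ψ (lam t1 t0 f)

/-- Multiplication matrices of `A` with entries in the `F_p`-algebra `R`. -/
def LMC (p : ℕ) [Fact p.Prime] (A : Type) [CommRing A] [Algebra (ZMod p) A] [Finite A] (R : Type)
    [CommRing R] [Algebra (ZMod p) R] :
    A →+* Matrix (Fin (Module.finrank (ZMod p) A)) (Fin (Module.finrank (ZMod p) A)) R :=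
  (algebraMap (ZMod p) R).mapMatrix.comp
    ((Algebra.leftMulMatrix (Module.finBasis (ZMod p) A)).toRingHom)

/-- The matrix `c' ∏_{i<f} (t1 - (x0 + X)^(p^i) t0)`. -/
def UU (p : ℕ) [Fact p.Prime] {A : Type} [CommRing A] [Algebra (ZMod p) A] [Finite A]
    (t1 t0 c' : A) (k : Type) [Field k] [Algebra (ZMod p) k] (x0 : k) (f : ℕ) :
    Matrix (Fin (Module.finrank (ZMod p) A)) (Fin (Module.finrank (ZMod p) A)) k[X] :=
  LMC p A k[X] c' * ((List.range f).map (fun i =>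
    LMC p A k[X] t1 - ((C x0 + X) ^ (p ^ i) : k[X]) • LMC p A k[X] t0)).prod

/-- `t1` for `AA g K`. -/
def t1A {p : ℕ} (g : PP p) (K : ℕ) : AA g K := (AdjoinRoot.root g, 1)

/-- `t0` for `AA g K`. -/
def t0A {p : ℕ} (g : PP p) (K : ℕ) : AA g K := (1, AdjoinRoot.root _)

end

end Pool.Agent.MP6cc1fa
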