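import Mathlib
import Pool.Agent.Lib.MP_6cc1fa_pr.RHDefs
import Pool.Agent.Lib.MP_6cc1fa_pr.Mon
import Pool.Agent.Lib.MP_196a10_nt.Base

/-!
MP_6cc1fa_pr: basic facts on monic polynomials over `F_p` and the von Mangoldt function.
-/

open Polynomial

namespace Pool.Agent.MP6cc1fa

noncomputable section

variable {p : ℕ} [Fact p.Prime]

theorem eq_of_associated {f g : PP p} (hf : f.Monic) (hg : g.Monic) (h : Associated f g) :
    f = g := eq_of_monic_of_associated hf hg h

theorem mem_Plt {d : ℕ} {f : PP p} : f ∈ Plt p d ↔ f.degree < d := by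
  unfold Plt
  simp only [Finset.mem_image, Finset.mem_univ, true_and]
  constructor
  · rintro ⟨c, rfl⟩
    rw [← mem_degreeLT]
    apply Submodule.sum_mem
    intro i _
    rw [mem_degreeLT]
    exact (degree_C_mul_X_pow_le _ _).trans_lt (by exact_mod_cast i.2)
  · intro h
    refine ⟨fun i => f.coeff i, ?_⟩
    rw [Finset.sum_range (fun i => C (f.coeff i) * X ^ i) |>.symm]
    by_cases hf : f = 0
    · subst hf; simp
    · rw [← as_sum_range_C_mul_X_pow' f ((natDegree_lt_iff_degree_lt hf).mpr h)]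

theorem coeff_Plt_sum {d : ℕ} (c : Fin d → ZMod p) (i : Fin d) :
    (∑ i : Fin d, C (c i) * X ^ (i : ℕ) : PP p).coeff i = c i := by
  rw [finsetSum_coeff, Finset.sum_eq_single i]
  · simp
  · intro b _ hb
    rw [coeff_C_mul, coeff_X_pow, if_neg, mul_zero]
    intro h
    exact hb (Fin.ext h.symm)
  · simp

theorem card_Plt (d : ℕ) : (Plt p d).card = p ^ d := by
  unfold Plt
  rw [Finset.card_image_of_injective]
  · simp [ZMod.card]
  · intro c c' h
    funext i
    rw [← coeff_Plt_sum c i, ← coeff_Plt_sum c' i]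
    exact congrArg (fun f : PP p => f.coeff i) h

theorem zero_mem_Plt (d : ℕ) : (0 : PP p) ∈ Plt p d := by
  rw [mem_Plt]; simp

theorem add_mem_Plt {d : ℕ} {f g : PP p} (hf : f ∈ Plt p d) (hg : g ∈ Plt p d) :
    f + g ∈ Plt p d := by
  rw [mem_Plt] at *
  exact (degree_add_le f g).trans_lt (max_lt hf hg)

theorem sub_mem_Plt {d : ℕ} {f g : PP p} (hf : f ∈ Plt p d) (hg : g ∈ Plt p d) :
    f - g ∈ Plt p d := by
  rw [mem_Plt] at *
  exact (degree_sub_le f g).trans_lt (max_lt hf hg)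

theorem Plt_zero : Plt p 0 = {0} := by
  ext f
  rw [mem_Plt, Finset.mem_singleton]
  constructor
  · intro h
    rw [← degree_eq_bot]
    exact Nat.WithBot.lt_zero_iff.mp (by exact_mod_cast h)
  · rintro rfl
    simp

theorem monic_of_mem_MD {j : ℕ} {f : PP p} (h : f ∈ MD p j) : f.Monic := ((mem_MD j f).mp h).1

theorem ne_zero_of_mem_MD {j : ℕ} {f : PP p} (h : f ∈ MD p j) : f ≠ 0 :=
  (monic_of_mem_MD h).ne_zero

theorem natDegree_of_mem_MD {j : ℕ} {f : PP p} (h : f ∈ MD p j) : f.natDegree = j :=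
  ((mem_MD j f).mp h).2

theorem degree_of_mem_MD {j : ℕ} {f : PP p} (h : f ∈ MD p j) : f.degree = j := by
  rw [degree_eq_natDegree (ne_zero_of_mem_MD h), natDegree_of_mem_MD h]

theorem MD_zero : MD p 0 = {1} := by
  ext f
  rw [mem_MD, Finset.mem_singleton]
  constructor
  · rintro ⟨h1, h2⟩
    exact h1.natDegree_eq_zero.mp h2
  · rintro rfl
    simp

theorem mul_mem_MD {i j : ℕ} {f g : PP p} (hf : f ∈ MD p i) (hg : g ∈ MD p j) :
    f * g ∈ MD p (i + j) := by
  rw [mem_MD] at *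
  exact ⟨hf.1.mul hg.1, by rw [hf.1.natDegree_mul hg.1, hf.2, hg.2]⟩

/-- `f ↦ X^j + f` is a bijection from the polynomials of degree `< j` to `MD p j`. -/
theorem mem_MD_iff_sub {j : ℕ} {f : PP p} : f ∈ MD p j ↔ f - X ^ j ∈ Plt p j := by
  rw [mem_Plt]
  constructor
  · intro h
    have h1 := degree_sub_lt (p := f) (q := X ^ j)
      (by rw [degree_of_mem_MD h, degree_X_pow]) (ne_zero_of_mem_MD h)
      (by rw [(monic_of_mem_MD h).leadingCoeff, leadingCoeff_X_pow])
    rwa [degree_of_mem_MD h] at h1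
  · intro h
    have h1 : f = X ^ j + (f - X ^ j) := by ring
    rw [h1, mem_MD]
    have h2 : (X ^ j + (f - X ^ j) : PP p).Monic := monic_X_pow_add h
    refine ⟨h2, ?_⟩
    have h3 : (X ^ j + (f - X ^ j) : PP p).degree = j := by
      rw [degree_add_eq_left_of_degree_lt (by rwa [degree_X_pow]), degree_X_pow]
    exact natDegree_eq_of_degree_eq_some h3

/-! ### von Mangoldt -/

theorem irreducible_pow_unique {P Q : PP p} (hPm : P.Monic) (hQm : Q.Monic)
    (hP : Irreducible P) (hQ : Irreducible Q) {m n : ℕ}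
    (hm : 0 < m) (h : P ^ m = Q ^ n) : P = Q ∧ m = n := by
  have h1 : P ∣ Q ^ n := h ▸ dvd_pow_self P hm.ne'
  have h2 : P = Q := eq_of_associated hPm hQm
    ((hP.prime.dvd_of_dvd_pow h1 |> fun h3 => hP.associated_of_dvd hQ h3))
  subst h2
  refine ⟨rfl, ?_⟩
  have h3 := congrArg natDegree h
  rw [natDegree_pow, natDegree_pow] at h3
  exact Nat.eq_of_mul_eq_mul_right hP.natDegree_pos h3

theorem vM_pow {P : PP p} (hPm : P.Monic) (hP : Irreducible P) {m : ℕ} (hm : 0 < m) :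
    vM (P ^ m) = P.natDegree := by
  unfold vM
  have h : ∃ Q : PP p, Q.Monic ∧ Irreducible Q ∧ ∃ n : ℕ, 0 < n ∧ P ^ m = Q ^ n :=
    ⟨P, hPm, hP, m, hm, rfl⟩
  rw [dif_pos h]
  obtain ⟨h0, h1, n, h2, h3⟩ := h.choose_spec
  rw [← (irreducible_pow_unique hPm h0 hP h1 hm h3).1]

theorem vM_irreducible {P : PP p} (hPm : P.Monic) (hP : Irreducible P) : vM P = P.natDegree := by
  have := vM_pow hPm hP (m := 1) one_pos
  rwa [pow_one] at this

theorem vM_eq_zero {f : PP p}
    (h : ¬ ∃ P : PP p, P.Monic ∧ Irreducible P ∧ ∃ m : ℕ, 0 < m ∧ f = P ^ m) :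
    vM f = 0 := by
  unfold vM
  rw [dif_neg h]

theorem vM_one : vM (1 : PP p) = 0 := by
  apply vM_eq_zero
  rintro ⟨P, _, hP, m, hm, h⟩
  have h1 : IsUnit (P ^ m) := h ▸ isUnit_one
  exact hP.not_isUnit ((isUnit_pow_iff hm.ne').mp h1)

end

end Pool.Agent.MP6cc1fa
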