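import Mathlib
import Pool.Agent.Lib.MP_6cc1fa_pr.RHBase

/-!
MP_6cc1fa_pr: von Mangoldt sums over `F_p[X]` (port of Newton, VTot, PPow of MP_196a10_nt).
-/

set_option autoImplicit false

namespace Pool.Agent.MP6cc1fa

open Polynomial

noncomputable section

variable {p : ℕ} [hpF : Fact p.Prime]

namespace RHNewton

open UniqueFactorizationMonoid

theorem pow_dvd_iff {P f : PP p} (hPm : P.Monic) (hP : Irreducible P) (hf : f ≠ 0) (m : ℕ) :
    P ^ m ∣ f ↔ m ≤ (normalizedFactors f).count P := by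
  rw [pow_dvd_iff_le_emultiplicity, emultiplicity_eq_count_normalizedFactors hP hf,
    hPm.normalize_eq_self]
  exact_mod_cast Iff.rfl

theorem irreducible_of_mem {P f : PP p} (h : P ∈ normalizedFactors f) : Irreducible P :=
  irreducible_of_normalized_factor P h

theorem monic_of_mem {P f : PP p} (h : P ∈ normalizedFactors f) : P.Monic := by
  rw [← normalize_normalized_factor P h]
  exact monic_normalize (irreducible_of_mem h).ne_zero

theorem sum_degree {f : PP p} (hf : f.Monic) :
    ((normalizedFactors f).map natDegree).sum = f.natDegree := by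
  have h1 : (normalizedFactors f).prod = f := by
    rw [prod_normalizedFactors_eq hf.ne_zero, hf.normalize_eq_self]
  have h2 : (0 : PP p) ∉ normalizedFactors f := zero_notMem_normalizedFactors f
  have h3 := natDegree_multiset_prod (normalizedFactors f) h2
  rw [h1] at h3
  exact h3.symm

/-- the sum of von Mangoldt over the divisors -/
theorem key {f : PP p} (hf : f.Monic) (S : Finset (PP p))
    (hS : ∀ d, d ∈ S → d ∣ f) (hS' : ∀ d : PP p, d.Monic → d ∣ f → d ≠ 1 → d ∈ S) :
    ∑ d ∈ S, vM d = f.natDegree := by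
  classical
  have hf0 := hf.ne_zero
  set s := normalizedFactors f with hs
  have hsub : s.toFinset.biUnion (fun P => (Finset.Icc 1 (s.count P)).image (fun m => P ^ m))
      ⊆ S := by
    intro d hd
    simp only [Finset.mem_biUnion, Multiset.mem_toFinset, Finset.mem_image,
      Finset.mem_Icc] at hd
    obtain ⟨P, hP, m, ⟨hm1, hm2⟩, rfl⟩ := hd
    have hPi := irreducible_of_mem hP
    have hPm := monic_of_mem hP
    refine hS' _ (hPm.pow m) ((pow_dvd_iff hPm hPi hf0 m).mpr hm2) ?_
    intro h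
    have h1 : IsUnit (P ^ m) := h ▸ isUnit_one
    exact hPi.not_isUnit ((isUnit_pow_iff (by omega)).mp h1)
  rw [← Finset.sum_subset hsub, Finset.sum_biUnion]
  · have h1 : ∀ P ∈ s.toFinset, ∑ d ∈ (Finset.Icc 1 (s.count P)).image (fun m => P ^ m), vM d
        = s.count P • P.natDegree := by
      intro P hP
      have hPi := irreducible_of_mem (Multiset.mem_toFinset.mp hP)
      have hPm := monic_of_mem (Multiset.mem_toFinset.mp hP)
      rw [Finset.sum_image]
      · have h2 : ∀ m ∈ Finset.Icc 1 (s.count P), vM (P ^ m) = P.natDegree := by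
          intro m hm
          rw [Finset.mem_Icc] at hm
          exact vM_pow hPm hPi (by omega)
        rw [Finset.sum_congr rfl h2, Finset.sum_const, Nat.card_Icc]
        simp
      · intro m hm n _ hmn
        rw [Finset.mem_coe, Finset.mem_Icc] at hm
        exact (irreducible_pow_unique hPm hPm hPi hPi (by omega) hmn).2
    rw [Finset.sum_congr rfl h1, ← Finset.sum_multiset_map_count]
    exact sum_degree hf
  · intro P hP Q hQ hne
    rw [Function.onFun, Finset.disjoint_left]
    intro d hd hd'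
    simp only [Finset.mem_image, Finset.mem_Icc] at hd hd'
    obtain ⟨m, hm, rfl⟩ := hd
    obtain ⟨n, hn, h⟩ := hd'
    have hPi := irreducible_of_mem (Multiset.mem_toFinset.mp hP)
    have hQi := irreducible_of_mem (Multiset.mem_toFinset.mp hQ)
    have hPm := monic_of_mem (Multiset.mem_toFinset.mp hP)
    have hQm := monic_of_mem (Multiset.mem_toFinset.mp hQ)
    exact hne (irreducible_pow_unique hPm hQm hPi hQi (by omega) h.symm).1
  · intro d hd hd'
    apply vM_eq_zero
    rintro ⟨P, hPm, hP, m, hm, rfl⟩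
    apply hd'
    simp only [Finset.mem_biUnion, Multiset.mem_toFinset, Finset.mem_image, Finset.mem_Icc]
    have h1 := (pow_dvd_iff hPm hP hf0 m).mp (hS _ hd)
    refine ⟨P, ?_, m, ⟨by omega, h1⟩, rfl⟩
    exact Multiset.count_pos.mp (lt_of_lt_of_le hm h1)

open scoped Classical in
theorem key' {j : ℕ} {f : PP p} (hf : f ∈ MD p j) :
    ∑ i ∈ Finset.range j, ∑ d ∈ MD p (i + 1), (if d ∣ f then (vM d : ℂ) else 0) = j := by
  have hf0 := ne_zero_of_mem_MD hf
  have h1 := key (monic_of_mem_MD hf)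
    ((Finset.range j).biUnion (fun i => (MD p (i + 1)).filter (fun d => d ∣ f)))
    (by
      intro d hd
      simp only [Finset.mem_biUnion, Finset.mem_filter] at hd
      obtain ⟨i, _, _, h⟩ := hd
      exact h)
    (by
      intro d hdm hd hd1
      have hd0 : d ≠ 0 := ne_zero_of_dvd_ne_zero hf0 hd
      have h2 : d.natDegree ≤ j := by
        rw [← natDegree_of_mem_MD hf]
        exact natDegree_le_of_dvd hd hf0
      have h3 : d.natDegree ≠ 0 := by
        intro h
        exact hd1 (hdm.natDegree_eq_zero.mp h)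
      simp only [Finset.mem_biUnion, Finset.mem_filter, Finset.mem_range]
      refine ⟨d.natDegree - 1, by omega, ?_, hd⟩
      rw [mem_MD]
      exact ⟨hdm, by omega⟩)
  rw [Finset.sum_biUnion] at h1
  · rw [natDegree_of_mem_MD hf] at h1
    have h2 := congrArg (Nat.cast : ℕ → ℂ) h1
    push_cast at h2
    rw [← h2]
    refine Finset.sum_congr rfl fun i _ => ?_
    rw [Finset.sum_filter]
  · intro i _ i' _ hne
    rw [Function.onFun, Finset.disjoint_left]
    intro d hd hd'
    rw [Finset.mem_filter] at hd hd'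
    have h2 := natDegree_of_mem_MD hd.1
    have h3 := natDegree_of_mem_MD hd'.1
    omega

open scoped Classical in
theorem multiples (Φ : PP p → ℂ)
    (hm : ∀ f g : PP p, f.Monic → g.Monic → Φ (f * g) = Φ f * Φ g) {i j : ℕ}
    (hij : i ≤ j) {d : PP p} (hd : d ∈ MD p i) :
    ∑ f ∈ MD p j, (if d ∣ f then Φ f else 0) = Φ d * ∑ h ∈ MD p (j - i), Φ h := by
  have hd0 := ne_zero_of_mem_MD hd
  have hdm := monic_of_mem_MD hd
  rw [← Finset.sum_filter, Finset.mul_sum]
  symm
  refine Finset.sum_bij (fun h _ => d * h) ?_ ?_ ?_ ?_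
  · intro h hh
    rw [Finset.mem_filter]
    refine ⟨?_, dvd_mul_right d h⟩
    have := mul_mem_MD hd hh
    rwa [show i + (j - i) = j by omega] at this
  · intro h _ h' _ e
    exact mul_left_cancel₀ hd0 e
  · intro f hf
    rw [Finset.mem_filter] at hf
    obtain ⟨hf, h, rfl⟩ := hf
    have hh : h.Monic := hdm.of_mul_monic_left (monic_of_mem_MD hf)
    refine ⟨h, ?_, rfl⟩
    have h1 := natDegree_of_mem_MD hf
    have h2 := natDegree_of_mem_MD hd
    rw [hdm.natDegree_mul hh] at h1
    rw [mem_MD]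
    exact ⟨hh, by omega⟩
  · intro h hh
    exact (hm d h hdm (monic_of_mem_MD hh)).symm

end RHNewton

theorem newton (Φ : PP p → ℂ) (hm : ∀ f g : PP p, f.Monic → g.Monic → Φ (f * g) = Φ f * Φ g)
    (j : ℕ) :
    (j : ℂ) * ∑ f ∈ MD p j, Φ f =
      ∑ i ∈ Finset.range j, (∑ d ∈ MD p (i + 1), (vM d : ℂ) * Φ d) *
        ∑ h ∈ MD p (j - 1 - i), Φ h := by
  classical
  rw [Finset.mul_sum]
  have h1 : ∀ f ∈ MD p j, (j : ℂ) * Φ f = ∑ i ∈ Finset.range j, ∑ d ∈ MD p (i + 1),
      (vM d : ℂ) * (if d ∣ f then Φ f else 0) := by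
    intro f hf
    rw [← RHNewton.key' hf, Finset.sum_mul]
    refine Finset.sum_congr rfl fun i _ => ?_
    rw [Finset.sum_mul]
    refine Finset.sum_congr rfl fun d _ => ?_
    split_ifs <;> simp
  rw [Finset.sum_congr rfl h1, Finset.sum_comm]
  refine Finset.sum_congr rfl fun i hi => ?_
  rw [Finset.mem_range] at hi
  rw [Finset.sum_comm, Finset.sum_mul]
  refine Finset.sum_congr rfl fun d hd => ?_
  rw [← Finset.mul_sum, RHNewton.multiples Φ hm (show i + 1 ≤ j by omega) hd,
    show j - 1 - i = j - (i + 1) by omega, mul_assoc]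

theorem vM_total (j : ℕ) (hj : 1 ≤ j) : ∑ f ∈ MD p j, vM f = p ^ j := by
  induction j using Nat.strong_induction_on with
  | _ j ih =>
    obtain ⟨k, rfl⟩ : ∃ k, j = k + 1 := ⟨j - 1, by omega⟩
    have h := newton (p := p) (fun _ => 1) (fun f g _ _ => by norm_num) (k + 1)
    simp only [mul_one, Finset.sum_const, card_MD, nsmul_eq_mul] at h
    rw [Finset.sum_range_succ] at h
    have h1 : ∑ i ∈ Finset.range k, (∑ d ∈ MD p (i + 1), (vM d : ℂ)) *
        ((p ^ (k + 1 - 1 - i) : ℕ) : ℂ) = k * (p : ℂ) ^ (k + 1) := by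
      rw [Finset.sum_congr rfl (g := fun _ => (p : ℂ) ^ (k + 1))]
      · simp
      · intro i hi
        rw [Finset.mem_range] at hi
        have h2 := ih (i + 1) (by omega) (by omega)
        have h3 : (∑ d ∈ MD p (i + 1), (vM d : ℂ)) = ((p ^ (i + 1) : ℕ) : ℂ) := by
          rw [← h2]; push_cast; rfl
        rw [h3]
        push_cast
        rw [← pow_add]
        congr 1
        omega
    rw [h1] at h
    have h4 : k + 1 - 1 - k = 0 := by omega
    rw [h4] at h
    push_cast at h
    have h5 : ((∑ f ∈ MD p (k + 1), vM f : ℕ) : ℂ) = ((p ^ (k + 1) : ℕ) : ℂ) := by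
      push_cast
      linear_combination -h
    exact_mod_cast h5

open Classical in
theorem sum_vM_nonprime (j : ℕ) :
    ∑ f ∈ MD p j, (if Irreducible f then (0 : ℝ) else (vM f : ℝ)) ≤ j * (Real.sqrt p) ^ j := by
  classical
  set S : Finset (PP p) := (Finset.range (j / 2 + 1)).biUnion
    (fun d => (MD p d).filter (fun P => Irreducible P ∧ P.natDegree ∣ j)) with hS
  have hmem : ∀ P ∈ S, P.Monic ∧ Irreducible P ∧ P.natDegree ∣ j ∧ P.natDegree ≤ j / 2 := by
    intro P hP
    rw [hS, Finset.mem_biUnion] at hP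
    obtain ⟨d, hd, hP⟩ := hP
    rw [Finset.mem_range] at hd
    rw [Finset.mem_filter] at hP
    refine ⟨monic_of_mem_MD hP.1, hP.2.1, hP.2.2, ?_⟩
    rw [natDegree_of_mem_MD hP.1]
    omega
  rcases Nat.eq_zero_or_pos j with rfl | hj
  · rw [MD_zero]
    simp [vM_one]
  have hpos : ∀ P ∈ S, 0 < j / P.natDegree := by
    intro P hP
    have := hmem P hP
    exact Nat.div_pos (Nat.le_of_dvd (by omega) this.2.2.1) this.2.1.natDegree_pos
  have h1 : S.image (fun P => P ^ (j / P.natDegree)) ⊆ MD p j := by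
    intro f hf
    rw [Finset.mem_image] at hf
    obtain ⟨P, hP, rfl⟩ := hf
    have := hmem P hP
    rw [mem_MD]
    refine ⟨this.1.pow _, ?_⟩
    rw [natDegree_pow, Nat.div_mul_cancel this.2.2.1]
  have hp1 : (1 : ℝ) ≤ p := by exact_mod_cast hpF.out.one_lt.le
  have hp2 : 2 ≤ p := hpF.out.two_le
  have hsq : (1 : ℝ) ≤ Real.sqrt p := by
    rw [Real.one_le_sqrt]; exact hp1
  rw [← Finset.sum_subset h1, Finset.sum_image]
  · have h2 : ∀ P ∈ S, (if Irreducible (P ^ (j / P.natDegree)) then (0 : ℝ)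
        else (vM (P ^ (j / P.natDegree)) : ℝ)) ≤ ((j / 2 : ℕ) : ℝ) := by
      intro P hP
      split_ifs
      · positivity
      · rw [vM_pow (hmem P hP).1 (hmem P hP).2.1 (hpos P hP)]
        exact_mod_cast (hmem P hP).2.2.2
    refine le_trans (Finset.sum_le_card_nsmul _ _ _ h2) ?_
    have h3 : S.card ≤ 2 * p ^ (j / 2) := by
      have h30 : S.card ≤ ∑ d ∈ Finset.range (j / 2 + 1), p ^ d := by
        refine Finset.card_biUnion_le.trans (Finset.sum_le_sum fun d _ => ?_)
        rw [← card_MD (p := p) d]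
        exact Finset.card_le_card (Finset.filter_subset _ _)
      have h31 : ∀ m : ℕ, ∑ d ∈ Finset.range (m + 1), p ^ d ≤ 2 * p ^ m := by
        intro m
        induction m with
        | zero => simp
        | succ m ih =>
          rw [Finset.sum_range_succ]
          have h32 : p ^ (m + 1) = p * p ^ m := by ring
          have h33 : 2 * p ^ m ≤ p * p ^ m := Nat.mul_le_mul_right _ hp2
          omega
      exact h30.trans (h31 _)
    rw [nsmul_eq_mul]
    have h4 : (S.card : ℝ) ≤ 2 * (p : ℝ) ^ (j / 2) := by exact_mod_cast h3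
    have h5 : (p : ℝ) ^ (j / 2) ≤ (Real.sqrt p) ^ j := by
      have h6 : (p : ℝ) ^ (j / 2) = (Real.sqrt p) ^ (2 * (j / 2)) := by
        rw [pow_mul, Real.sq_sqrt (by positivity)]
      rw [h6]
      exact pow_le_pow_right₀ hsq (Nat.mul_div_le j 2)
    have h7 : (((j / 2 : ℕ) : ℝ)) * 2 ≤ j := by
      have := Nat.div_mul_le_self j 2
      exact_mod_cast this
    calc (S.card : ℝ) * ((j / 2 : ℕ) : ℝ) ≤ (2 * (p : ℝ) ^ (j / 2)) * ((j / 2 : ℕ) : ℝ) := by
          gcongr
      _ = (((j / 2 : ℕ) : ℝ) * 2) * (p : ℝ) ^ (j / 2) := by ring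
      _ ≤ j * (Real.sqrt p) ^ j := by
          gcongr
  · intro P hP Q hQ h
    exact (irreducible_pow_unique (hmem P hP).1 (hmem Q hQ).1 (hmem P hP).2.1 (hmem Q hQ).2.1
      (hpos P hP) h).1
  · intro f hf hf2
    split_ifs with hirr
    · rfl
    · rw [vM_eq_zero, Nat.cast_zero]
      rintro ⟨P, hPm, hP, m, hm0, rfl⟩
      apply hf2
      have hdeg := natDegree_of_mem_MD hf
      rw [natDegree_pow] at hdeg
      have hm2 : 2 ≤ m := by
        by_contra hlt
        have : m = 1 := by omega
        subst this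
        rw [pow_one] at hirr
        exact hirr hP
      rw [Finset.mem_image]
      refine ⟨P, ?_, ?_⟩
      · rw [hS, Finset.mem_biUnion]
        have h8 : 2 * P.natDegree ≤ j := by rw [← hdeg]; exact Nat.mul_le_mul_right _ hm2
        refine ⟨P.natDegree, Finset.mem_range.2 (by omega), ?_⟩
        rw [Finset.mem_filter, mem_MD]
        exact ⟨⟨hPm, rfl⟩, hP, ⟨m, by rw [← hdeg, mul_comm]⟩⟩
      · rw [← hdeg, Nat.mul_div_cancel _ hP.natDegree_pos]

theorem card_Irr_le (d : ℕ) : d * (Irr p d).card ≤ p ^ d := by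
  classical
  rcases Nat.eq_zero_or_pos d with rfl | hd
  · simp
  rw [← vM_total (p := p) d hd]
  have h1 : ∑ f ∈ Irr p d, vM f = d * (Irr p d).card := by
    rw [Finset.sum_congr rfl (g := fun _ => d)]
    · rw [Finset.sum_const, smul_eq_mul, mul_comm]
    · intro f hf
      unfold Irr at hf
      rw [Finset.mem_filter] at hf
      rw [vM_irreducible (monic_of_mem_MD hf.1) hf.2, natDegree_of_mem_MD hf.1]
  rw [← h1]
  refine Finset.sum_le_sum_of_subset ?_
  unfold Irr
  exact Finset.filter_subset _ _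

theorem card_Irr_ge (d : ℕ) (hd : 1 ≤ d) :
    (p : ℝ) ^ d - d * Real.sqrt p ^ d ≤ d * (Irr p d).card := by
  classical
  have h0 := vM_total (p := p) d hd
  have h1 := sum_vM_nonprime (p := p) d
  have h2 : ∑ f ∈ MD p d, (if Irreducible f then (vM f : ℝ) else 0) = d * (Irr p d).card := by
    rw [← Finset.sum_filter]
    rw [Finset.sum_congr rfl (g := fun _ => (d : ℝ))]
    · rw [Finset.sum_const, nsmul_eq_mul, mul_comm]
      congr 2
    · intro f hf
      rw [Finset.mem_filter] at hf
      rw [vM_irreducible (monic_of_mem_MD hf.1) hf.2, natDegree_of_mem_MD hf.1]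
  have h3 : ∑ f ∈ MD p d, (vM f : ℝ) = ∑ f ∈ MD p d, (if Irreducible f then (0 : ℝ)
      else (vM f : ℝ)) + ∑ f ∈ MD p d, (if Irreducible f then (vM f : ℝ) else 0) := by
    rw [← Finset.sum_add_distrib]
    refine Finset.sum_congr rfl fun f _ => ?_
    split_ifs <;> simp
  have h4 : ∑ f ∈ MD p d, (vM f : ℝ) = (p : ℝ) ^ d := by
    exact_mod_cast h0
  rw [h2] at h3
  have h5 : ∑ f ∈ MD p d, (if Irreducible f then (0 : ℝ) else (vM f : ℝ)) ≤
      d * (Real.sqrt p) ^ d := by
    convert h1
  linarith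

end

end Pool.Agent.MP6cc1fa
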