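import Pool.Agent.Lib.MP_6cc1fa_pr.Mon
import Pool.Agent.Lib.MP_6cc1fa_pr.Cnt
import Pool.Agent.Lib.MP_6cc1fa_pr.Ann2

set_option autoImplicit false

namespace Pool.Agent.MP6cc1fa

open Polynomial Finset

noncomputable section

variable {p : ℕ} [Fact p.Prime]

/-! ### The number of irreducible polynomials -/

theorem s1_card_Irr_le (d : ℕ) : d * (Irr p d).card ≤ p ^ d := by
  classical
  rcases Nat.eq_zero_or_pos d with rfl | hd
  · simp
  have hp1 : 1 < p := (Fact.out : p.Prime).one_lt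
  have h0 : (X ^ p ^ d - X : (ZMod p)[X]) ≠ 0 :=
    FiniteField.X_pow_card_pow_sub_X_ne_zero _ hd.ne' hp1
  have h1 : (∏ P ∈ Irr p d, P) ∣ (X ^ p ^ d - X : (ZMod p)[X]) := by
    refine Finset.prod_dvd_of_coprime ?_ ?_
    · intro P hP Q hQ hPQ
      rw [Finset.mem_coe, mem_Irr] at hP hQ
      refine (hP.2.2.coprime_iff_not_dvd).2 fun hdvd => hPQ ?_
      exact Polynomial.eq_of_monic_of_associated hP.1 hQ.1
        (hP.2.2.associated_of_dvd hQ.2.2 hdvd)
    · intro P hP
      rw [mem_Irr] at hP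
      have := (hP.2.2.natDegree_dvd_iff_dvd_X_pow_card_pow_sub_X (n := d)).1
        (dvd_of_eq hP.2.1)
      rwa [Nat.card_zmod] at this
  have h2 := Polynomial.natDegree_le_of_dvd h1 h0
  rw [Polynomial.natDegree_prod_of_monic _ _ fun P hP => ((mem_Irr d P).1 hP).1,
    Finset.sum_congr rfl fun P hP => ((mem_Irr d P).1 hP).2.1, Finset.sum_const, smul_eq_mul,
    FiniteField.X_pow_card_pow_sub_X_natDegree_eq _ hd.ne' hp1] at h2
  rwa [mul_comm]

/-! ### The inner sum -/

/-- The linear functional. -/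
def s1_L {n : ℕ} (η : Fin n → ZMod p) (f : (ZMod p)[X]) : ZMod p := ∑ j : Fin n, η j * f.coeff j

theorem s1_L_add {n : ℕ} (η : Fin n → ZMod p) (f g : (ZMod p)[X]) :
    s1_L η (f + g) = s1_L η f + s1_L η g := by
  simp [s1_L, mul_add, Finset.sum_add_distrib]

theorem s1_L_sum {n : ℕ} {ι : Type} (s : Finset ι) (η : Fin n → ZMod p) (f : ι → (ZMod p)[X]) :
    s1_L η (∑ i ∈ s, f i) = ∑ i ∈ s, s1_L η (f i) := by
  classical
  induction s using Finset.induction_on with
  | empty => simp [s1_L]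
  | insert a s ha ih => rw [Finset.sum_insert ha, Finset.sum_insert ha, s1_L_add, ih]

theorem s1_L_C {n : ℕ} (η : Fin n → ZMod p) (c : ZMod p) (f : (ZMod p)[X]) :
    s1_L η (C c * f) = c * s1_L η f := by
  simp only [s1_L, coeff_C_mul, Finset.mul_sum]
  refine Finset.sum_congr rfl fun j _ => by ring

theorem s1_L_mon {n e : ℕ} (η : Fin n → ZMod p) (b : Fin e → ZMod p) (D : (ZMod p)[X]) :
    s1_L η (mon b * D) = s1_L η (X ^ e * D) + ∑ i, b i * s1_L η (X ^ (i : ℕ) * D) := by
  rw [mon, add_mul, s1_L_add, Finset.sum_mul, s1_L_sum]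
  congr 1
  refine Finset.sum_congr rfl fun i _ => ?_
  rw [mul_assoc, s1_L_C]

theorem s1_L_act {n : ℕ} (η : Fin n → ZMod p) (D : (ZMod p)[X]) (i : ℕ)
    (h : i + D.natDegree < n) : s1_L η (X ^ i * D) = act D (ext η) i := by
  rw [act, s1_L]
  have h1 : ∑ j : Fin n, η j * (X ^ i * D).coeff j =
      ∑ j ∈ range n, ext η j * (X ^ i * D).coeff j := by
    rw [Finset.sum_range]
    refine Finset.sum_congr rfl fun j _ => ?_
    simp [ext, j.2]
  rw [h1]
  have h2 : (range (D.natDegree + 1)).image (fun l => l + i) ⊆ range n := by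
    intro j hj
    simp only [Finset.mem_image, Finset.mem_range] at hj ⊢
    obtain ⟨l, hl, rfl⟩ := hj
    omega
  rw [← Finset.sum_subset h2, Finset.sum_image]
  · refine Finset.sum_congr rfl fun l _ => ?_
    rw [add_comm l i, Polynomial.coeff_X_pow_mul' , if_pos (Nat.le_add_right i l),
      Nat.add_sub_cancel_left]
    ring
  · intro a _ b _ hab
    simpa using hab
  · intro j hj hj'
    rw [Polynomial.coeff_X_pow_mul']
    split_ifs with hij
    · have : D.coeff (j - i) = 0 := by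
        apply Polynomial.coeff_eq_zero_of_natDegree_lt
        by_contra hcon
        apply hj'
        simp only [Finset.mem_image, Finset.mem_range]
        exact ⟨j - i, by omega, by omega⟩
      rw [this, mul_zero]
    · rw [mul_zero]

theorem s1_ch_add (a b : ZMod p) : ch (a + b) = ch a * ch b := by
  simp [ch, AddChar.map_add_eq_mul]

theorem s1_ch_sum {ι : Type} (s : Finset ι) (f : ι → ZMod p) :
    ch (∑ i ∈ s, f i) = ∏ i ∈ s, ch (f i) := by
  classical
  induction s using Finset.induction_on with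
  | empty => simp [ch]
  | insert a s ha ih => rw [Finset.sum_insert ha, Finset.prod_insert ha, s1_ch_add, ih]

theorem s1_ch_norm (a : ZMod p) : ‖ch a‖ = 1 := by
  simp [ch]

theorem s1_sum_ch (c : ZMod p) : ‖∑ x : ZMod p, ch (x * c)‖ = if c = 0 then (p : ℝ) else 0 := by
  by_cases hc : c = 0
  · subst hc
    simp [ch]
  · rw [if_neg hc]
    have h1 := AddChar.sum_mulShift (R' := ℂ) (ψ := ZMod.stdAddChar (N := p)) c
      (ZMod.isPrimitive_stdAddChar p)
    rw [if_neg hc] at h1
    have h2 : ∑ x : ZMod p, ch (x * c) = 0 := by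
      simpa [ch] using h1
    rw [h2, norm_zero]

theorem s1_inner {n e : ℕ} (η : Fin n → ZMod p) (D : (ZMod p)[X]) (hD : D.natDegree + e = n) :
    ‖∑ m ∈ MD p e, ch (s1_L η (m * D))‖ ≤
      (open Classical in if Ann n D (ext η) then (p : ℝ) ^ e else 0) := by
  classical
  rw [← sum_mon (n := e) (fun m => ch (s1_L η (m * D)))]
  have h1 : ∀ b : Fin e → ZMod p, ch (s1_L η (mon b * D)) =
      ch (s1_L η (X ^ e * D)) * ∏ i, ch (b i * act D (ext η) i) := by
    intro b
    rw [s1_L_mon, s1_ch_add, s1_ch_sum]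
    congr 1
    refine Finset.prod_congr rfl fun i _ => ?_
    rw [s1_L_act]
    have := i.2
    omega
  rw [Finset.sum_congr rfl fun b _ => h1 b, ← Finset.mul_sum, norm_mul, s1_ch_norm, one_mul]
  have h2 : ∑ b : Fin e → ZMod p, ∏ i, ch (b i * act D (ext η) i) =
      ∏ i : Fin e, ∑ x : ZMod p, ch (x * act D (ext η) i) := by
    rw [Finset.prod_univ_sum]
    simp
  rw [h2, norm_prod]
  have h3 : ∏ b : Fin e, ‖∑ x : ZMod p, ch (x * act D (ext η) (b : ℕ))‖ =
      ∏ b : Fin e, if act D (ext η) (b : ℕ) = 0 then (p : ℝ) else 0 :=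
    Finset.prod_congr rfl fun i _ => s1_sum_ch (act D (ext η) (i : ℕ))
  rw [h3]
  split_ifs with hA
  · rw [Finset.prod_congr rfl (g := fun _ => (p : ℝ))]
    · simp
    · intro i _
      rw [if_pos]
      apply hA
      have := i.2
      omega
  · apply le_of_eq
    unfold Ann at hA
    push Not at hA
    obtain ⟨j, hj, hj'⟩ := hA
    refine Finset.prod_eq_zero (i := (⟨j, by omega⟩ : Fin e)) (Finset.mem_univ _) ?_
    rw [if_neg]
    exact hj'

/-! ### Tuples -/

theorem s1_prod_monic {k : ℕ} (d : Fin k → ℕ) (P : Fin k → (ZMod p)[X]) (hP : P ∈ IrrT p d) :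
    (∏ i, P i).natDegree = ∑ i, d i := by
  classical
  have hP' : ∀ i, (P i).Monic ∧ (P i).natDegree = d i ∧ Irreducible (P i) := by
    intro i
    rw [← mem_Irr]
    simp only [IrrT, Fintype.mem_piFinset] at hP
    exact hP i
  rw [Polynomial.natDegree_prod_of_monic _ _ fun i _ => (hP' i).1]
  exact Finset.sum_congr rfl fun i _ => (hP' i).2.1

theorem s1_card {k : ℕ} (d : Fin k → ℕ) (Q : (ZMod p)[X]) (i : Fin k) :
    (open Classical in (((IrrT p d).filter fun P => P i = Q).card : ℝ)) * ∏ i, (d i : ℝ) ≤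
      d i * (p : ℝ) ^ (∑ j ∈ univ.erase i, d j) := by
  classical
  have h1 : ((IrrT p d).filter fun P => P i = Q) ⊆
      Fintype.piFinset (fun j => if j = i then {Q} else Irr p (d j)) := by
    intro P hP
    simp only [IrrT, Finset.mem_filter, Fintype.mem_piFinset] at hP ⊢
    intro j
    split_ifs with hj
    · subst hj
      simp [hP.2]
    · exact hP.1 j
  have h2 := Finset.card_le_card h1
  rw [Fintype.card_piFinset] at h2
  have h3 : ∏ j, (if j = i then {Q} else Irr p (d j) : Finset (ZMod p)[X]).card =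
      ∏ j ∈ univ.erase i, (Irr p (d j)).card := by
    rw [← Finset.mul_prod_erase _ _ (Finset.mem_univ i)]
    simp only [if_true, Finset.card_singleton, one_mul]
    refine Finset.prod_congr rfl fun j hj => ?_
    rw [if_neg (Finset.ne_of_mem_erase hj)]
  rw [h3] at h2
  have h4 : (((IrrT p d).filter fun P => P i = Q).card : ℝ) ≤
      ∏ j ∈ univ.erase i, ((Irr p (d j)).card : ℝ) := by exact_mod_cast h2
  have h5 : ∏ i, (d i : ℝ) = d i * ∏ j ∈ univ.erase i, (d j : ℝ) :=
    (Finset.mul_prod_erase _ _ (Finset.mem_univ i)).symm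
  rw [h5]
  have h6 : (∏ j ∈ univ.erase i, (d j : ℝ)) * ∏ j ∈ univ.erase i, ((Irr p (d j)).card : ℝ) ≤
      (p : ℝ) ^ (∑ j ∈ univ.erase i, d j) := by
    rw [← Finset.prod_mul_distrib, ← Finset.prod_pow_eq_pow_sum]
    refine Finset.prod_le_prod (fun j _ => by positivity) fun j _ => ?_
    exact_mod_cast s1_card_Irr_le (p := p) (d j)
  calc (((IrrT p d).filter fun P => P i = Q).card : ℝ) *
        ((d i : ℝ) * ∏ j ∈ univ.erase i, (d j : ℝ))
      ≤ (∏ j ∈ univ.erase i, ((Irr p (d j)).card : ℝ)) *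
        ((d i : ℝ) * ∏ j ∈ univ.erase i, (d j : ℝ)) := by
        refine mul_le_mul_of_nonneg_right h4 (by positivity)
    _ = d i * ((∏ j ∈ univ.erase i, (d j : ℝ)) *
        ∏ j ∈ univ.erase i, ((Irr p (d j)).card : ℝ)) := by ring
    _ ≤ _ := mul_le_mul_of_nonneg_left h6 (by positivity)

theorem S_small {n e k : ℕ} (d : Fin k → ℕ) (hd : ∀ i, 1 ≤ d i) (hn : ∑ i, d i + e = n)
    (η : Fin n → ZMod p) (h1 : 1 ≤ cx n (ext η)) (h2 : cx n (ext η) ≤ e) :
    ‖expS n (fun f => ((∏ i, d i : ℕ) : ℂ) * cnt d f) η‖ ≤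
      ∑ i, (d i : ℝ) / (p : ℝ) ^ d i := by
  classical
  have _ := hd
  have hp : (0 : ℝ) < p := by exact_mod_cast (Fact.out : p.Prime).pos
  obtain ⟨G, hGm, hGd, -, hG⟩ := exists_gen (p := p) n (ext η)
  have hGu : ¬ IsUnit G := by
    intro hu
    have := Polynomial.natDegree_eq_zero_of_isUnit hu
    omega
  obtain ⟨Q, hQm, hQi, hQG⟩ := Polynomial.exists_monic_irreducible_factor G hGu
  -- the sum
  have e1 : (∑ a : Fin n → ZMod p, (((∏ i, d i : ℕ) : ℂ) * cnt d (mon a)) *
      ch (∑ i, η i * a i)) = ((∏ i, d i : ℕ) : ℂ) *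
        ∑ P ∈ IrrT p d, ∑ m ∈ MD p e, ch (s1_L η (m * ∏ i, P i)) := by
    have e2 : ∀ a : Fin n → ZMod p, (((∏ i, d i : ℕ) : ℂ) * cnt d (mon a)) *
        ch (∑ i, η i * a i) = ((∏ i, d i : ℕ) : ℂ) *
          ((fun f : (ZMod p)[X] => (cnt d f : ℂ) * ch (s1_L η f)) (mon a)) := by
      intro a
      have : s1_L η (mon a) = ∑ i, η i * a i := by
        refine Finset.sum_congr rfl fun j _ => ?_
        rw [mon_coeff, dif_pos j.2]
      simp only [this]
      ring
    rw [Finset.sum_congr rfl fun a _ => e2 a, ← Finset.mul_sum,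
      sum_mon (fun f : (ZMod p)[X] => (cnt d f : ℂ) * ch (s1_L η f)),
      sum_cnt d hn (fun f => ch (s1_L η f)), Finset.sum_comm]
  rw [expS, e1, norm_div, norm_mul, norm_pow, Complex.norm_natCast, Complex.norm_natCast]
  rw [div_le_iff₀ (by positivity)]
  have e3 : ‖∑ P ∈ IrrT p d, ∑ m ∈ MD p e, ch (s1_L η (m * ∏ i, P i))‖ ≤
      ∑ P ∈ IrrT p d, ∑ i, if P i = Q then (p : ℝ) ^ e else 0 := by
    refine (norm_sum_le _ _).trans (Finset.sum_le_sum fun P hP => ?_)
    have hdeg := s1_prod_monic d P hP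
    refine (s1_inner η (∏ i, P i) (by rw [hdeg]; exact hn)).trans ?_
    split_ifs with hA
    · have hdvd : G ∣ ∏ i, P i := hG _ hA (by rw [hdeg]; omega)
      have hQd : Q ∣ ∏ i, P i := hQG.trans hdvd
      obtain ⟨i, -, hi⟩ := (hQi.prime.dvd_finsetProd_iff _).1 hQd
      have hPi : P i ∈ Irr p (d i) := by
        simp only [IrrT, Fintype.mem_piFinset] at hP
        exact hP i
      rw [mem_Irr] at hPi
      have hassoc : Associated Q (P i) := hQi.associated_of_dvd hPi.2.2 hi
      have heq : Q = P i := Polynomial.eq_of_monic_of_associated hQm hPi.1 hassoc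
      calc (p : ℝ) ^ e = if P i = Q then (p : ℝ) ^ e else 0 := by rw [if_pos heq.symm]
        _ ≤ _ := Finset.single_le_sum (f := fun i => if P i = Q then (p : ℝ) ^ e else 0)
            (fun j _ => by positivity) (Finset.mem_univ i)
    · exact Finset.sum_nonneg fun j _ => by positivity
  calc ((∏ i, d i : ℕ) : ℝ) * ‖∑ P ∈ IrrT p d, ∑ m ∈ MD p e, ch (s1_L η (m * ∏ i, P i))‖
      ≤ ((∏ i, d i : ℕ) : ℝ) * ∑ P ∈ IrrT p d, ∑ i, if P i = Q then (p : ℝ) ^ e else 0 :=
        mul_le_mul_of_nonneg_left e3 (by positivity)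
    _ = ∑ i, (((IrrT p d).filter fun P => P i = Q).card : ℝ) * (∏ i, (d i : ℝ)) *
        (p : ℝ) ^ e := by
        rw [Finset.sum_comm, Finset.mul_sum]
        refine Finset.sum_congr rfl fun i _ => ?_
        rw [← Finset.sum_filter, Finset.sum_const, nsmul_eq_mul]
        push_cast
        ring
    _ ≤ ∑ i, (d i * (p : ℝ) ^ (∑ j ∈ univ.erase i, d j)) * (p : ℝ) ^ e := by
        refine Finset.sum_le_sum fun i _ => ?_
        exact mul_le_mul_of_nonneg_right (s1_card d Q i) (by positivity)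
    _ = (∑ i, (d i : ℝ) / (p : ℝ) ^ d i) * (p : ℝ) ^ n := by
        rw [Finset.sum_mul]
        refine Finset.sum_congr rfl fun i _ => ?_
        have h5 : n = d i + (∑ j ∈ univ.erase i, d j) + e := by
          rw [← hn, ← Finset.add_sum_erase _ _ (Finset.mem_univ i)]
        rw [h5, pow_add, pow_add]
        field_simp

end

end Pool.Agent.MP6cc1fa
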