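import Mathlib
import Pool.Agent.Lib.MP_6cc1fa_pr.RHBase

/-!
MP_6cc1fa_pr: von Mangoldt sums over monic polynomials as sums over points
(port of `Lib/MP_196a10_nt/SPts.lean`).
-/

open Polynomial

namespace Pool.Agent.MP6cc1fa

noncomputable section

variable {p : ℕ} [hpF : Fact p.Prime]

namespace RHSPts

theorem one_lt_pow' {M : ℕ} (hM : 1 ≤ M) : 1 < p ^ M :=
  Nat.one_lt_pow (by omega) hpF.out.one_lt

variable (p) in
/-- Monic irreducible polynomials of degree dividing `M`. -/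
def II (M : ℕ) : Finset (PP p) := by
  classical
  exact ((Finset.range (M + 1)).biUnion (MD p)).filter
    (fun P => Irreducible P ∧ P.natDegree ∣ M)

theorem mem_II {M : ℕ} (hM : 1 ≤ M) {P : PP p} :
    P ∈ II p M ↔ P.Monic ∧ Irreducible P ∧ P.natDegree ∣ M := by
  classical
  unfold II
  rw [Finset.mem_filter, Finset.mem_biUnion]
  constructor
  · rintro ⟨⟨j, _, hj⟩, h⟩
    exact ⟨monic_of_mem_MD hj, h⟩
  · intro h
    refine ⟨⟨P.natDegree, ?_, ?_⟩, h.2⟩
    · rw [Finset.mem_range]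
      have := Nat.le_of_dvd (by omega) h.2.2
      omega
    · rw [mem_MD]
      exact ⟨h.1, rfl⟩

omit hpF in
theorem Phi_pow (Φ : PP p → ℂ) (hm : ∀ f g : PP p, f.Monic → g.Monic → Φ (f * g) = Φ f * Φ g)
    {P : PP p} (hP : P.Monic) {m : ℕ} (h : 0 < m) : Φ (P ^ m) = Φ P ^ m := by
  induction m with
  | zero => omega
  | succ m ih =>
    rcases Nat.eq_zero_or_pos m with rfl | h0
    · simp
    · rw [pow_succ, hm _ _ (hP.pow _) hP, ih h0, pow_succ]

theorem div_deg_pos {M : ℕ} (hM : 1 ≤ M) {P : PP p} (h : P ∈ II p M) :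
    0 < M / P.natDegree := by
  rw [mem_II hM] at h
  exact Nat.div_pos (Nat.le_of_dvd (by omega) h.2.2) h.2.1.natDegree_pos

theorem left_side (Φ : PP p → ℂ)
    (hm : ∀ f g : PP p, f.Monic → g.Monic → Φ (f * g) = Φ f * Φ g) (M : ℕ) (hM : 1 ≤ M) :
    ∑ f ∈ MD p M, (vM f : ℂ) * Φ f =
      ∑ P ∈ II p M, (P.natDegree : ℂ) * Φ P ^ (M / P.natDegree) := by
  classical
  have h1 : (II p M).image (fun P => P ^ (M / P.natDegree)) ⊆ MD p M := by
    intro f hf
    rw [Finset.mem_image] at hf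
    obtain ⟨P, hP, rfl⟩ := hf
    rw [mem_II hM] at hP
    rw [mem_MD]
    refine ⟨hP.1.pow _, ?_⟩
    rw [natDegree_pow, Nat.div_mul_cancel hP.2.2]
  rw [← Finset.sum_subset h1, Finset.sum_image]
  · apply Finset.sum_congr rfl
    intro P hP
    have hpos := div_deg_pos hM hP
    rw [mem_II hM] at hP
    rw [vM_pow hP.1 hP.2.1 hpos, Phi_pow Φ hm hP.1 hpos]
  · intro P hP Q hQ h
    have hpos := div_deg_pos hM (Finset.mem_coe.mp hP)
    have hP' := (mem_II hM).mp (Finset.mem_coe.mp hP)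
    have hQ' := (mem_II hM).mp (Finset.mem_coe.mp hQ)
    exact (irreducible_pow_unique hP'.1 hQ'.1 hP'.2.1 hQ'.2.1 hpos h).1
  · intro f hf hf2
    rw [vM_eq_zero, Nat.cast_zero, zero_mul]
    rintro ⟨P, hPm, hP, m, hm0, rfl⟩
    apply hf2
    have hdeg := natDegree_of_mem_MD hf
    rw [natDegree_pow] at hdeg
    rw [Finset.mem_image]
    refine ⟨P, ?_, ?_⟩
    · rw [mem_II hM]
      exact ⟨hPm, hP, ⟨m, by rw [← hdeg, mul_comm]⟩⟩
    · rw [← hdeg, Nat.mul_div_cancel _ hP.natDegree_pos]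

theorem isIntegral_of_pow (Ω : Type) [Field Ω] [Algebra (ZMod p) Ω] {Q : ℕ} (hQ : 1 < Q) {x : Ω}
    (hx : x ^ Q = x) : IsIntegral (ZMod p) x := by
  refine ⟨X ^ Q - X, monic_X_pow_sub (by rw [degree_X]; exact_mod_cast hQ), ?_⟩
  rw [← aeval_def]
  simp [hx]

theorem minpoly_mem (Ω : Type) [Field Ω] [Algebra (ZMod p) Ω] {M : ℕ} (hM : 1 ≤ M) {x : Ω}
    (hx : x ^ (p ^ M) = x) : minpoly (ZMod p) x ∈ II p M := by
  have hQ : 1 < p ^ M := one_lt_pow' hM
  have hi : IsIntegral (ZMod p) x := isIntegral_of_pow Ω hQ hx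
  have hirr := minpoly.irreducible hi
  rw [mem_II hM]
  refine ⟨minpoly.monic hi, hirr, ?_⟩
  apply hirr.natDegree_dvd_of_dvd_X_pow_card_pow_sub_X
  apply minpoly.dvd
  rw [Nat.card_zmod]
  simp [hx]

theorem fibre_card (Ω : Type) [Field Ω] [Algebra (ZMod p) Ω] [IsAlgClosed Ω] {M : ℕ}
    (hM : 1 ≤ M) {P : PP p} (hP : P ∈ II p M) [DecidableEq (PP p)] :
    ((MP196.Pt Ω (p ^ M)).filter (fun x => minpoly (ZMod p) x = P)).card = P.natDegree := by
  classical
  have hP' := (mem_II hM).mp hP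
  have hQ : 1 < p ^ M := one_lt_pow' hM
  have hsep : P.Separable := PerfectField.separable_of_irreducible hP'.2.1
  have h1 := card_rootSet_eq_natDegree (K := Ω) hsep (IsAlgClosed.splits _)
  rw [← h1, ← Set.toFinset_card]
  congr 1
  ext x
  rw [Finset.mem_filter, MP196.mem_Pt hQ, Set.mem_toFinset, mem_rootSet_of_ne hP'.1.ne_zero]
  constructor
  · rintro ⟨_, rfl⟩
    exact minpoly.aeval _ _
  · intro h
    constructor
    · have hd := hP'.2.1.natDegree_dvd_iff_dvd_X_pow_card_pow_sub_X.mp hP'.2.2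
      rw [Nat.card_zmod] at hd
      obtain ⟨c, hc⟩ := hd
      have h2 := congrArg (aeval x) hc
      rw [map_mul, h, zero_mul] at h2
      simpa [sub_eq_zero] using h2
    · exact (minpoly.eq_of_irreducible_of_monic hP'.2.1 h hP'.1).symm

end RHSPts

theorem sum_points (Ω : Type) [Field Ω] [Algebra (ZMod p) Ω] [IsAlgClosed Ω] (Φ : PP p → ℂ)
    (hm : ∀ f g : PP p, f.Monic → g.Monic → Φ (f * g) = Φ f * Φ g) (M : ℕ) (hM : 1 ≤ M) :
    ∑ f ∈ MD p M, (vM f : ℂ) * Φ f =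
      ∑ x ∈ MP196.Pt Ω (p ^ M), Φ (minpoly (ZMod p) x) ^ (M / (minpoly (ZMod p) x).natDegree) := by
  classical
  have hQ : 1 < p ^ M := RHSPts.one_lt_pow' hM
  rw [RHSPts.left_side Φ hm M hM]
  rw [← Finset.sum_fiberwise_of_maps_to (s := MP196.Pt Ω (p ^ M)) (t := RHSPts.II p M)
    (g := fun x => minpoly (ZMod p) x)]
  · apply Finset.sum_congr rfl
    intro P hP
    rw [Finset.sum_congr rfl (g := fun _ => Φ P ^ (M / P.natDegree))]
    · rw [Finset.sum_const, RHSPts.fibre_card Ω hM hP, nsmul_eq_mul]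
    · intro x hx
      rw [Finset.mem_filter] at hx
      rw [hx.2]
  · intro x hx
    rw [MP196.mem_Pt hQ] at hx
    exact RHSPts.minpoly_mem Ω hM hx

theorem div_deg_pos {M : ℕ} (hM : 1 ≤ M) {Ω : Type} [Field Ω] [Algebra (ZMod p) Ω] {x : Ω}
    (hx : x ^ (p ^ M) = x) : 0 < M / (minpoly (ZMod p) x).natDegree :=
  RHSPts.div_deg_pos hM (RHSPts.minpoly_mem Ω hM hx)

end

end Pool.Agent.MP6cc1fa
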