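import Mathlib
import Pool.Agent.Lib.MP_6cc1fa_pr.RHBase
import Pool.Agent.Lib.MP_196a10_nt.Eqd
import Pool.Agent.Lib.MP_6cc1fa_pr.RHMatU
import Pool.Agent.Lib.MP_6cc1fa_pr.RHSPts
import Pool.Agent.Lib.MP_6cc1fa_pr.RHNewton
import Pool.Agent.Lib.MP_6cc1fa_pr.RHLamMul
import Pool.Agent.Lib.MP_196a10_nt.PSum
import Pool.Agent.Lib.MP_196a10_nt.RBound

open Polynomial

namespace Pool.Agent.MP6cc1fa

noncomputable section

variable {p : ℕ} [hpF : Fact p.Prime]

namespace Eqa

theorem norm_of_isUnit {A : Type} [CommRing A] [Finite A] (ψ : MulChar A ℂ) {a : A}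
    (ha : IsUnit a) : ‖ψ a‖ = 1 := by
  classical
  have := Fintype.ofFinite A
  obtain ⟨u, rfl⟩ := ha
  have h1 : (ψ u) ^ (Fintype.card Aˣ) = 1 := by
    rw [← map_pow, ← Units.val_pow_eq_pow_val, pow_card_eq_one, Units.val_one, map_one]
  exact Complex.norm_eq_one_of_pow_eq_one h1 Fintype.card_ne_zero

theorem card_Pt (Ω : Type) [Field Ω] [Algebra (ZMod p) Ω] [IsAlgClosed Ω] (M : ℕ) (hM : 1 ≤ M) :
    (MP196.Pt Ω (p ^ M)).card = p ^ M := by
  have h := sum_points (p := p) Ω (fun _ => 1) (fun _ _ _ _ => by norm_num) M hM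
  simp only [mul_one, one_pow, Finset.sum_const, nsmul_eq_mul] at h
  have h2 := vM_total (p := p) M hM
  have h3 : ((∑ f ∈ MD p M, vM f : ℕ) : ℂ) = ((MP196.Pt Ω (p ^ M)).card : ℂ) := by
    rw [← h]; push_cast; rfl
  rw [h2] at h3
  exact_mod_cast h3.symm

theorem LMC_map {A : Type} [CommRing A] [Algebra (ZMod p) A] [Finite A] (k Ω : Type) [Field k]
    [Field Ω] [Algebra (ZMod p) k] [Algebra (ZMod p) Ω] [Algebra k Ω]
    [IsScalarTower (ZMod p) k Ω] (a : A) :
    LMC p A Ω a = (LMC p A k a).map (algebraMap k Ω) := by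
  ext i j
  simp only [LMC, RingHom.comp_apply, RingHom.mapMatrix_apply, Matrix.map_apply]
  rw [← IsScalarTower.algebraMap_apply (ZMod p) k Ω]

/-- The combinatorial core: equidistribution in `H` from upper bounds. -/
theorem counting {X G : Type} [Fintype G] [DecidableEq G] (n : ℕ) (hn : Fintype.card G ≤ n)
    (P : Finset X) (y : X → G) (T s : ℝ) (c D : ℝ) (hc : 0 ≤ c) (hD : 0 ≤ D)
    (hs : 1 ≤ s) (hT : T = s ^ 2)
    (hub : ∀ a, n * ((P.filter (fun x => y x = a)).card : ℝ) ≤ T + c * s)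
    (hlb : T - D ≤ P.card) (hbig : n * (D + c) < s) :
    ∀ a, |((P.filter (fun x => y x = a)).card : ℝ) - T / n| ≤ (D + c) * s := by
  classical
  intro a
  have hG : 0 < Fintype.card G := Fintype.card_pos_iff.mpr ⟨a⟩
  have hn0 : (0 : ℝ) < n := by exact_mod_cast (by omega : 0 < n)
  have hn1 : (1 : ℝ) ≤ n := by exact_mod_cast (by omega : 1 ≤ n)
  have hub' : ∀ a, ((P.filter (fun x => y x = a)).card : ℝ) ≤ (T + c * s) / n := by
    intro a
    rw [le_div_iff₀ hn0, mul_comm]
    exact hub a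
  have hsum : (P.card : ℝ) = ∑ a, ((P.filter (fun x => y x = a)).card : ℝ) := by
    rw [← Nat.cast_sum, ← Finset.card_eq_sum_card_fiberwise]
    intro x _
    exact Finset.mem_univ _
  have hcard : (P.card : ℝ) ≤ Fintype.card G * ((T + c * s) / n) := by
    rw [hsum]
    calc _ ≤ ∑ _a : G, (T + c * s) / n := Finset.sum_le_sum fun a _ => hub' a
      _ = _ := by simp
  have hTpos : 0 < T := by rw [hT]; positivity
  have heq : Fintype.card G = n := by
    by_contra hne
    have hlt : (Fintype.card G : ℝ) ≤ n - 1 := by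
      have : Fintype.card G + 1 ≤ n := by omega
      have : ((Fintype.card G + 1 : ℕ) : ℝ) ≤ n := by exact_mod_cast this
      push_cast at this
      linarith
    have h1 : T - D ≤ (n - 1) * ((T + c * s) / n) := by
      refine le_trans hlb (le_trans hcard ?_)
      apply mul_le_mul_of_nonneg_right hlt
      positivity
    have h2 : (T - D) * n ≤ (n - 1) * (T + c * s) := by
      calc (T - D) * n ≤ ((n - 1) * ((T + c * s) / n)) * n :=
            mul_le_mul_of_nonneg_right h1 hn0.le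
        _ = (n - 1) * (T + c * s) := by field_simp
    have h3 : T ≤ n * D + (n - 1) * (c * s) := by nlinarith
    have h4 : T ≤ n * (D + c) * s := by
      have h5 : n * D ≤ n * D * s := le_mul_of_one_le_right (by positivity) hs
      have h6 : (n - 1) * (c * s) ≤ n * (c * s) :=
        mul_le_mul_of_nonneg_right (by linarith) (by positivity)
      nlinarith
    rw [hT, sq] at h4
    have h7 : s ≤ n * (D + c) := le_of_mul_le_mul_right h4 (by linarith)
    linarith
  have hlow : T - D - (n - 1) * ((T + c * s) / n) ≤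
      ((P.filter (fun x => y x = a)).card : ℝ) := by
    have h1 : (P.card : ℝ) = ((P.filter (fun x => y x = a)).card : ℝ) +
        ∑ b ∈ Finset.univ.erase a, ((P.filter (fun x => y x = b)).card : ℝ) := by
      rw [hsum]
      exact (Finset.add_sum_erase Finset.univ
        (fun b => ((P.filter (fun x => y x = b)).card : ℝ)) (Finset.mem_univ a)).symm
    have h2 : ∑ b ∈ Finset.univ.erase a, ((P.filter (fun x => y x = b)).card : ℝ) ≤
        (n - 1) * ((T + c * s) / n) := by
      calc _ ≤ ∑ _b ∈ Finset.univ.erase a, (T + c * s) / n :=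
            Finset.sum_le_sum fun b _ => hub' b
        _ = ((Finset.univ.erase a).card : ℝ) * ((T + c * s) / n) := by simp
        _ = (n - 1) * ((T + c * s) / n) := by
            congr 1
            rw [Finset.card_erase_of_mem (Finset.mem_univ a), Finset.card_univ, heq]
            rw [Nat.cast_sub (by omega)]
            simp
    linarith
  have hdiv : (T + c * s) / n = T / n + c * s / n := add_div _ _ _
  have hcs : c * s / n ≤ c * s := div_le_self (by positivity) hn1
  have hTn : (n : ℝ) * (T / n) = T := by field_simp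
  have hcsn : (n : ℝ) * (c * s / n) = c * s := by field_simp
  have hDs : D ≤ D * s := le_mul_of_one_le_right hD hs
  have hcsn0 : 0 ≤ c * s / n := by positivity
  rw [abs_le]
  constructor
  · have h1 : (n - 1 : ℝ) * ((T + c * s) / n) = T - T / n + (c * s - c * s / n) := by
      rw [hdiv, sub_mul, one_mul, mul_add, hTn, hcsn]; ring
    rw [h1] at hlow
    nlinarith
  · have h1 := hub' a
    rw [hdiv] at h1
    nlinarith

end Eqa

open Eqa in
theorem eqa (A : Type) [CommRing A] [Finite A] [Nontrivial A] [Algebra (ZMod p) A] (t1 t0 : A)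
    (Ps : PP p) (hPm : Ps.Monic) (hPs : Irreducible Ps) (hu : IsUnit (lam t1 t0 Ps)) :
    ∃ (H : Subgroup Aˣ) (c μ0 : ℕ), ∀ μ ≥ μ0, ∀ ψ : MulChar A ℂ,
      ((∀ h ∈ H, ψ (h : Aˣ) = 1) →
        ‖SS p t1 t0 ψ (2 * μ * Ps.natDegree) -
          ψ (lam t1 t0 Ps) ^ (2 * μ) * p ^ (2 * μ * Ps.natDegree)‖ ≤ c) ∧
      ((∃ h ∈ H, ψ (h : Aˣ) ≠ 1) →
        ‖SS p t1 t0 ψ (2 * μ * Ps.natDegree)‖ ≤ c * p ^ (μ * Ps.natDegree)) := by
  classical
  have hfact : Fact (Irreducible Ps) := ⟨hPs⟩
  set f := Ps.natDegree with hf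
  have hf1 : 1 ≤ f := hPs.natDegree_pos
  let k : Type := AdjoinRoot Ps
  let x0 : k := AdjoinRoot.root Ps
  have hx0 : aeval x0 Ps = 0 := by
    have h1 := AdjoinRoot.eval₂_root Ps
    rw [aeval_def]
    exact h1
  have hfink : Module.Finite (ZMod p) k := (AdjoinRoot.powerBasis hPs.ne_zero).finite
  have hfinite : Finite k := Module.finite_of_finite (ZMod p)
  have hcard : Nat.card k = p ^ f := by
    rw [Module.natCard_eq_pow_finrank (K := ZMod p) (V := k), Nat.card_zmod,
      (AdjoinRoot.powerBasis hPs.ne_zero).finrank, AdjoinRoot.powerBasis_dim]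
  let Ω : Type := AlgebraicClosure k
  obtain ⟨uc, huc⟩ := hu
  let c' : A := ((uc⁻¹ : Aˣ) : A)
  have hc' : c' * lam t1 t0 Ps = 1 := by rw [← huc]; simp [c']
  have hc'u : IsUnit c' := Units.isUnit _
  let U := UU p t1 t0 c' k x0 f
  have hU0 : U.map (fun f => f.coeff 0) = 1 := UU_zero t1 t0 c' k x0 Ps hPm hPs hx0 hc'
  have hUc : ∀ i j, Commute (U.map (fun h => h.coeff i)) (U.map (fun h => h.coeff j)) :=
    fun i j => UU_comm t1 t0 c' k x0 f i j
  obtain ⟨Hm, c, μ0, hmain⟩ := MP196.equidist k (p ^ f) hcard _ U hU0 hUc Ω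
  let mk : Aˣ →* (Matrix (Fin (Module.finrank (ZMod p) A)) (Fin (Module.finrank (ZMod p) A)) k)ˣ :=
    Units.map (LMC p A k).toMonoidHom
  have hmkval : ∀ a : Aˣ, ((mk a : (Matrix _ _ k)ˣ) : Matrix _ _ k) = LMC p A k (a : A) := fun a => rfl
  have hmkinj : Function.Injective mk := by
    intro a b hab
    apply Units.ext
    apply LMC_injective (p := p) A k
    rw [← hmkval, ← hmkval, hab]
  let H : Subgroup Aˣ := Hm.comap mk
  let n := Nat.card Hm
  let D := U.det.natDegree
  have hdetU : U.det ≠ 0 := by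
    intro h
    have h1 : (U.map (fun f => f.coeff 0)).det = (U.det).coeff 0 := by
      have h2 := (evalRingHom (0 : k)).map_det U
      have h3 : (evalRingHom (0 : k)).mapMatrix U = U.map (fun f => f.coeff 0) := by
        ext i j
        simp [coeff_zero_eq_eval_zero]
      rw [h3] at h2
      rw [← h2, coeff_zero_eq_eval_zero]
      rfl
    rw [hU0, h, Matrix.det_one] at h1
    simp at h1
  refine ⟨H, n * (D + c) + D, max (max μ0 1) (n * (D + c) + 1), ?_⟩
  intro μ hμ ψ
  have hμ0 : μ0 ≤ μ := le_trans (le_trans (le_max_left _ _) (le_max_left _ _)) hμ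
  have hμ1 : 1 ≤ μ := le_trans (le_trans (le_max_right _ _) (le_max_left _ _)) hμ
  have hμ2 : n * (D + c) + 1 ≤ μ := le_trans (le_max_right _ _) hμ
  obtain ⟨heq1, heq2⟩ := hmain μ hμ0
  let M := 2 * μ * f
  have hM : 1 ≤ M := by
    have h1 : 1 ≤ 2 * μ := by omega
    exact Nat.mul_le_mul h1 hf1
  have hqm : (p ^ f) ^ (2 * μ) = p ^ M := by
    rw [← pow_mul]; congr 1; show f * (2 * μ) = 2 * μ * f; ring
  have hfm : f * (2 * μ) = M := by show f * (2 * μ) = 2 * μ * f; ring
  have h2M : 1 < p ^ M := MatM.one_lt_pow (by omega)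
  let x0' : Ω := algebraMap k Ω x0
  let Fr : Ω →ₐ[ZMod p] Ω := MP196.frobm (k := ZMod p) (q := p) (by rw [Nat.card_zmod]) Ω M
  have hFr : ∀ x : Ω, Fr x = x ^ (p ^ M) := fun x => rfl
  have hx0' : x0' ^ (p ^ M) = x0' := by
    rw [← hqm, ← map_pow, MP196.pow_qm hcard]
  let v : Ω → A := fun x => lam t1 t0 (minpoly (ZMod p) x)
  let ex : Ω → ℕ := fun x => M / (minpoly (ZMod p) x).natDegree
  have hex : ∀ x ∈ MP196.Pt Ω (p ^ M), 1 ≤ ex x := by
    intro x hx
    exact div_deg_pos hM ((MP196.mem_Pt h2M).mp hx)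
  have hsum : SS p t1 t0 ψ M = ∑ x ∈ MP196.Pt Ω (p ^ M), ψ (v x) ^ ex x :=
    sum_points Ω (fun f => ψ (lam t1 t0 f))
      (fun f g hf hg => by rw [lam_mul t1 t0 hf.ne_zero hg.ne_zero, map_mul]) M hM
  -- evaluation of the twisted powers
  have hG : ∀ x ∈ MP196.Pt Ω (p ^ M), (MP196.Gm (p ^ f) U (2 * μ)).map (aeval (x - x0')) =
      LMC p A Ω (c' ^ (2 * μ) * v x ^ ex x) := by
    intro x hx
    rw [MP196.mem_Pt h2M] at hx
    have h1 := UU_eval t1 t0 c' k x0 Ω f hcard (2 * μ) (x - x0')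
    have h2 : algebraMap k Ω x0 + (x - x0') = x := by
      show x0' + (x - x0') = x
      ring
    rw [h2, hfm] at h1
    rw [show MP196.Gm (p ^ f) U (2 * μ) = MP196.Gm (p ^ f) (UU p t1 t0 c' k x0 f) (2 * μ) from rfl, h1,
      prod_conj t1 t0 Ω M hM x hx, ← map_mul]
  have hw : ∀ x ∈ MP196.Pt Ω (p ^ M), (x - x0') ^ ((p ^ f) ^ (2 * μ)) = x - x0' := by
    intro x hx
    rw [MP196.mem_Pt h2M] at hx
    rw [hqm, ← hFr, map_sub, hFr, hFr, hx, hx0']
  let δ : Ω → Ω := fun x => (LMC p A Ω t1 - x • LMC p A Ω t0).det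
  have hprod : ∀ (x : Ω) (N : ℕ), ((List.range N).map (fun i =>
      LMC p A Ω t1 - (x ^ (p ^ i) : Ω) • LMC p A Ω t0)).prod.det ≠ 0 ↔ (N = 0 ∨ δ x ≠ 0) := by
    intro x N
    induction N with
    | zero => simp
    | succ N ih =>
      rw [List.range_succ, List.map_append, List.prod_append, Matrix.det_mul, List.map_singleton,
        List.prod_singleton, det_conj, mul_ne_zero_iff, ih,
        pow_ne_zero_iff (pow_ne_zero N hpF.out.ne_zero : p ^ N ≠ 0)]
      show (N = 0 ∨ δ x ≠ 0) ∧ δ x ≠ 0 ↔ _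
      constructor
      · rintro ⟨_, h⟩; exact Or.inr h
      · rintro (h | h)
        · omega
        · exact ⟨Or.inr h, h⟩
  have hUdet : ∀ x : Ω, (U.map (aeval (x - x0'))).det ≠ 0 ↔ δ x ≠ 0 := by
    intro x
    have h1 := UU_eval t1 t0 c' k x0 Ω f hcard 1 (x - x0')
    have h2 : algebraMap k Ω x0 + (x - x0') = x := by
      show x0' + (x - x0') = x
      ring
    rw [h2, mul_one, pow_one] at h1
    have h3 : MP196.Gm (p ^ f) (UU p t1 t0 c' k x0 f) 1 = U := by
      show (1 : Matrix _ _ k[X]).map _ * U = U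
      rw [Matrix.map_one _ (map_zero _) (map_one _), Matrix.one_mul]
    rw [h3] at h1
    rw [h1, Matrix.det_mul, mul_ne_zero_iff, hprod]
    have h4 : (LMC p A Ω c').det ≠ 0 := (det_LMC c' Ω).mpr hc'u
    constructor
    · rintro ⟨_, h | h⟩
      · omega
      · exact h
    · exact fun h => ⟨h4, Or.inr h⟩
  have hunit : ∀ x ∈ MP196.Pt Ω (p ^ M), IsUnit (v x) ↔ δ x ≠ 0 := by
    intro x hx
    have hx' := (MP196.mem_Pt h2M).mp hx
    have h1 := hprod x M
    rw [prod_conj t1 t0 Ω M hM x hx', det_LMC] at h1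
    have h3 : IsUnit (v x ^ ex x) ↔ IsUnit (v x) :=
      isUnit_pow_iff (by have := hex x hx; omega)
    have h2 : M ≠ 0 := by omega
    simp only [h2, false_or] at h1
    exact h3.symm.trans h1
  let PU := (MP196.Pt Ω (p ^ M)).filter (fun x => IsUnit (v x))
  let y : Ω → Aˣ := fun x => if h : IsUnit (c' ^ (2 * μ) * v x ^ ex x) then h.unit else 1
  have hy : ∀ x ∈ PU, ((y x : Aˣ) : A) = c' ^ (2 * μ) * v x ^ ex x := by
    intro x hx
    have h1 : IsUnit (c' ^ (2 * μ) * v x ^ ex x) :=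
      (hc'u.pow _).mul ((Finset.mem_filter.mp hx).2.pow _)
    simp only [y, dif_pos h1, IsUnit.unit_spec]
  have hyval : ∀ x ∈ PU, ψ (v x) ^ ex x = ψ (lam t1 t0 Ps) ^ (2 * μ) * ψ ((y x : Aˣ) : A) := by
    intro x hx
    rw [hy x hx, map_mul, map_pow, map_pow, ← mul_assoc, ← mul_pow, ← map_mul,
      mul_comm (lam t1 t0 Ps) c', hc', map_one, one_pow, one_mul]
  have hyH : ∀ x ∈ PU, y x ∈ H := by
    intro x hx
    obtain ⟨hx1, hx2⟩ := Finset.mem_filter.mp hx
    obtain ⟨h, hh1, hh2⟩ := heq1 (x - x0') (hw x hx1) ((hUdet x).mpr ((hunit x hx1).mp hx2))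
    rw [hG x hx1, ← hy x hx, LMC_map k Ω] at hh2
    have h3 : mk (y x) = h := by
      apply Units.ext
      rw [hmkval]
      ext i j
      have := congrFun (congrFun hh2 i) j
      simp only [Matrix.map_apply] at this
      exact (algebraMap k Ω).injective this
    show mk (y x) ∈ Hm
    rw [h3]; exact hh1
  have hsum2 : SS p t1 t0 ψ M = ψ (lam t1 t0 Ps) ^ (2 * μ) * ∑ x ∈ PU, ψ ((y x : Aˣ) : A) := by
    rw [hsum, Finset.mul_sum, ← Finset.sum_filter_add_sum_filter_not _ (fun x => IsUnit (v x))]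
    have h1 : ∑ x ∈ (MP196.Pt Ω (p ^ M)).filter (fun x => ¬ IsUnit (v x)), ψ (v x) ^ ex x = 0 := by
      apply Finset.sum_eq_zero
      intro x hx
      obtain ⟨hx1, hx2⟩ := Finset.mem_filter.mp hx
      rw [MulChar.map_nonunit ψ hx2, zero_pow (by have := hex x hx1; omega)]
    rw [h1, add_zero]
    exact Finset.sum_congr rfl hyval
  -- counting
  have hlb : ((p : ℝ) ^ M) - D ≤ PU.card := by
    have h1 : ((MP196.Pt Ω (p ^ M)).filter (fun x => ¬ IsUnit (v x))).card ≤ D := by
      have h2 : (((MP196.Pt Ω (p ^ M)).filter (fun x => ¬ IsUnit (v x))).image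
          (fun x => x - x0')).card = ((MP196.Pt Ω (p ^ M)).filter (fun x => ¬ IsUnit (v x))).card :=
        Finset.card_image_of_injective _ (sub_left_injective)
      rw [← h2]
      calc _ ≤ ((U.det.map (algebraMap k Ω)).roots.toFinset).card := by
            apply Finset.card_le_card
            intro w hw'
            obtain ⟨x, hx, rfl⟩ := Finset.mem_image.mp hw'
            obtain ⟨hx1, hx2⟩ := Finset.mem_filter.mp hx
            rw [hunit x hx1, ← hUdet x] at hx2
            push Not at hx2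
            have h3 : aeval (x - x0') U.det = (U.map (aeval (x - x0'))).det :=
              (aeval (x - x0') : k[X] →ₐ[k] Ω).toRingHom.map_det _
            rw [Multiset.mem_toFinset, mem_roots (Polynomial.map_ne_zero hdetU), IsRoot.def,
              eval_map_algebraMap, h3, hx2]
        _ ≤ Multiset.card (U.det.map (algebraMap k Ω)).roots := Multiset.toFinset_card_le _
        _ ≤ (U.det.map (algebraMap k Ω)).natDegree := card_roots' _
        _ ≤ D := natDegree_map_le
    have h2 := Finset.card_filter_add_card_filter_not (s := MP196.Pt Ω (p ^ M)) (fun x => IsUnit (v x))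
    rw [card_Pt Ω M hM] at h2
    have h3 : (p : ℝ) ^ M = (PU.card : ℝ) +
        (((MP196.Pt Ω (p ^ M)).filter (fun x => ¬ IsUnit (v x))).card : ℝ) := by
      exact_mod_cast h2.symm
    have h4 : ((((MP196.Pt Ω (p ^ M)).filter (fun x => ¬ IsUnit (v x))).card : ℕ) : ℝ) ≤ D := by
      exact_mod_cast h1
    linarith
  have hub0 : PU.card ≤ p ^ M := by
    rw [← card_Pt Ω M hM]
    exact Finset.card_filter_le _ _
  have hfinA : Finite A := inferInstance
  have hFH : Fintype H := Fintype.ofFinite H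
  let yH : Ω → H := fun x => if h : y x ∈ H then ⟨y x, h⟩ else 1
  have hyH' : ∀ x ∈ PU, ((yH x : H) : Aˣ) = y x := by
    intro x hx
    simp only [yH, dif_pos (hyH x hx)]
  have hn : Fintype.card H ≤ n := by
    rw [← Nat.card_eq_fintype_card]
    exact Nat.card_le_card_of_injective (fun a : H => (⟨mk a, a.2⟩ : Hm))
      (fun a b hab => Subtype.ext (hmkinj (congrArg Subtype.val hab)))
  have hub : ∀ a : H, (n : ℝ) * ((PU.filter (fun x => yH x = a)).card : ℝ) ≤
      (p : ℝ) ^ M + c * p ^ (μ * f) := by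
    intro a
    have h1 := heq2 (mk a) a.2 ((PU.filter (fun x => yH x = a)).image (fun x => x - x0')) (by
      intro w hw'
      obtain ⟨x, hx, rfl⟩ := Finset.mem_image.mp hw'
      obtain ⟨hx1, hx2⟩ := Finset.mem_filter.mp hx
      obtain ⟨hx3, hx4⟩ := Finset.mem_filter.mp hx1
      refine ⟨hw x hx3, (hUdet x).mpr ((hunit x hx3).mp hx4), ?_⟩
      rw [hG x hx3, ← hy x hx1, ← hyH' x hx1, hx2, hmkval, LMC_map k Ω])
    rw [Finset.card_image_of_injective _ (sub_left_injective), hqm] at h1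
    have h2 : (p ^ f) ^ μ = p ^ (μ * f) := by rw [← pow_mul, mul_comm]
    rw [h2] at h1
    exact_mod_cast h1
  have hp1 : 1 < p := (Fact.out : p.Prime).one_lt
  have hp1R : (1 : ℝ) ≤ (p : ℝ) := by exact_mod_cast hp1.le
  have hcount := counting n hn PU yH ((p : ℝ) ^ M) ((p : ℝ) ^ (μ * f)) c D (by positivity)
    (by positivity) (one_le_pow₀ hp1R) (by rw [← pow_mul]; congr 1; show 2 * μ * f = _; ring)
    hub hlb (by
      have h1 : n * (D + c) < p ^ μ := lt_of_lt_of_le (by omega) (Nat.lt_pow_self hp1).le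
      have h2 : p ^ μ ≤ p ^ (μ * f) := Nat.pow_le_pow_right (by omega)
        (Nat.le_mul_of_pos_right _ (by omega))
      exact_mod_cast lt_of_lt_of_le h1 h2)
  constructor
  · intro htriv
    have h1 : ∑ x ∈ PU, ψ ((y x : Aˣ) : A) = (PU.card : ℂ) := by
      rw [Finset.sum_congr rfl fun x hx => htriv (y x) (hyH x hx)]
      simp
    show ‖SS p t1 t0 ψ M - ψ (lam t1 t0 Ps) ^ (2 * μ) * p ^ M‖ ≤ _
    rw [hsum2, h1, ← mul_sub, norm_mul, norm_pow, norm_of_isUnit ψ (huc ▸ Units.isUnit uc),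
      one_pow, one_mul]
    have h2 : ‖((PU.card : ℂ) - p ^ M)‖ = |((PU.card : ℝ) - p ^ M)| := by
      have h6 : ((PU.card : ℂ) - p ^ M) = (((PU.card : ℝ) - p ^ M : ℝ) : ℂ) := by
        push_cast; rfl
      rw [h6, Complex.norm_real, Real.norm_eq_abs]
    rw [h2, abs_le]
    have h3 : (PU.card : ℝ) ≤ p ^ M := by exact_mod_cast hub0
    have h4 : (0 : ℝ) ≤ n * (D + c) := by positivity
    have h5 : (0 : ℝ) ≤ D := by positivity
    push_cast
    constructor <;> linarith
  · rintro ⟨h, hh1, hh2⟩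
    show ‖SS p t1 t0 ψ M‖ ≤ _
    rw [hsum2, norm_mul, norm_pow, norm_of_isUnit ψ (huc ▸ Units.isUnit uc), one_pow, one_mul]
    have h0 : ∑ a : H, ψ (((a : H) : Aˣ) : A) = 0 := by
      let h' : H := ⟨h, hh1⟩
      have h1 : ψ (((h' : H) : Aˣ) : A) * ∑ a : H, ψ (((a : H) : Aˣ) : A) =
          ∑ a : H, ψ (((a : H) : Aˣ) : A) := by
        rw [Finset.mul_sum]
        apply Fintype.sum_equiv (Equiv.mulLeft h')
        intro a
        simp only [Equiv.coe_mulLeft, Subgroup.coe_mul, Units.val_mul, map_mul]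
      have h2 : (ψ (((h' : H) : Aˣ) : A) - 1) * ∑ a : H, ψ (((a : H) : Aˣ) : A) = 0 := by
        rw [sub_mul, h1, one_mul, sub_self]
      rcases mul_eq_zero.mp h2 with h3 | h3
      · exact absurd (sub_eq_zero.mp h3) hh2
      · exact h3
    have h1 : ∑ x ∈ PU, ψ ((y x : Aˣ) : A) =
        ∑ a : H, ψ (((a : H) : Aˣ) : A) * (((PU.filter (fun x => yH x = a)).card : ℂ) -
          (((p : ℝ) ^ M / n : ℝ) : ℂ)) := by
      simp only [mul_sub]
      rw [Finset.sum_sub_distrib, ← Finset.sum_mul, h0, zero_mul, sub_zero,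
        ← Finset.sum_fiberwise_of_maps_to (s := PU) (t := Finset.univ) (g := yH)
          (fun x _ => Finset.mem_univ _)]
      apply Finset.sum_congr rfl
      intro a _
      rw [Finset.sum_congr rfl (g := fun _ => ψ (((a : H) : Aˣ) : A))]
      · rw [Finset.sum_const, nsmul_eq_mul, mul_comm]
      · intro x hx
        obtain ⟨hx1, hx2⟩ := Finset.mem_filter.mp hx
        rw [← hyH' x hx1, hx2]
    rw [h1]
    calc _ ≤ ∑ a : H, ‖ψ (((a : H) : Aˣ) : A) * (((PU.filter (fun x => yH x = a)).card : ℂ) -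
          (((p : ℝ) ^ M / n : ℝ) : ℂ))‖ := norm_sum_le _ _
      _ ≤ ∑ _a : H, ((D : ℝ) + c) * p ^ (μ * f) := by
          apply Finset.sum_le_sum
          intro a _
          rw [norm_mul, norm_of_isUnit ψ (Units.isUnit _), one_mul]
          have h2 := hcount a
          rw [← Real.norm_eq_abs, ← Complex.norm_real] at h2
          push_cast at h2 ⊢
          exact h2
      _ = Fintype.card H * (((D : ℝ) + c) * p ^ (μ * f)) := by simp
      _ ≤ n * (((D : ℝ) + c) * p ^ (μ * f)) := by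
          apply mul_le_mul_of_nonneg_right _ (by positivity)
          exact_mod_cast hn
      _ ≤ _ := by
          push_cast
          have h3 : (0 : ℝ) ≤ D * p ^ (μ * f) := by positivity
          nlinarith

theorem rh_char (A : Type) [CommRing A] [Finite A] [Nontrivial A] [Algebra (ZMod p) A]
    (t1 t0 : A) (Ps : PP p) (hPm : Ps.Monic) (hPs : Irreducible Ps) (hu : IsUnit (lam t1 t0 Ps))
    (ψ : MulChar A ℂ) (R : ℕ) (hR : ∀ j ≥ R, ∑ f ∈ MD p j, ψ (lam t1 t0 f) = 0)
    (j : ℕ) (hj : 1 ≤ j) : ‖SS p t1 t0 ψ j‖ ≤ R * (Real.sqrt p) ^ j := by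
  have hp1 : 1 < p := (Fact.out : p.Prime).one_lt
  have hp1R : (1 : ℝ) < (p : ℝ) := by exact_mod_cast hp1
  have hp0R : (0 : ℝ) < (p : ℝ) := by linarith
  have hm : ∀ f g : PP p, f.Monic → g.Monic →
      ψ (lam t1 t0 (f * g)) = ψ (lam t1 t0 f) * ψ (lam t1 t0 g) := by
    intro f g hf hg
    rw [lam_mul t1 t0 hf.ne_zero hg.ne_zero, map_mul]
  obtain ⟨r, α, hr, hα⟩ := MP196.power_sums (fun j => ∑ f ∈ MD p j, ψ (lam t1 t0 f))
    (fun j => SS p t1 t0 ψ j) R (by simp [MD_zero, lam_one]) hR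
    (fun j => newton (fun f => ψ (lam t1 t0 f)) hm j)
  obtain ⟨H, c, μ0, hH⟩ := eqa A t1 t0 Ps hPm hPs hu
  have hd : 1 ≤ Ps.natDegree := hPs.natDegree_pos
  have hbound : ∀ i, ‖α i‖ ≤ Real.sqrt p := by
    by_cases htriv : ∀ h ∈ H, ψ ((h : Aˣ) : A) = 1
    · exfalso
      refine MP196.no_pole α (2 * Ps.natDegree) (ψ (lam t1 t0 Ps) ^ 2 * (p : ℂ) ^ (2 * Ps.natDegree)) ?_ c
        (max μ0 1) ?_
      · rw [norm_mul, norm_pow, Eqa.norm_of_isUnit ψ hu, norm_pow]
        simp only [one_pow, one_mul, Complex.norm_natCast]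
        exact one_lt_pow₀ hp1R (by omega)
      · intro μ hμ
        have h1 := (hH μ (le_trans (le_max_left _ _) hμ) ψ).1 htriv
        have hμ1 : 1 ≤ μ := le_trans (le_max_right μ0 1) hμ
        have h2 : 1 ≤ 2 * μ * Ps.natDegree := by
          have := Nat.mul_le_mul hμ1 hd
          nlinarith
        rw [hα _ h2] at h1
        have h3 : 2 * Ps.natDegree * μ = 2 * μ * Ps.natDegree := by ring
        rw [h3, mul_pow, ← pow_mul, ← pow_mul, h3]
        exact h1
    · push Not at htriv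
      have hc : ∃ h ∈ H, ψ ((h : Aˣ) : A) ≠ 1 := htriv
      refine MP196.root_bound α (2 * Ps.natDegree) (by omega) c (Real.sqrt p)
        (Real.sqrt_pos.mpr hp0R) (max μ0 1) ?_
      intro μ hμ
      have h1 := (hH μ (le_trans (le_max_left _ _) hμ) ψ).2 hc
      have hμ1 : 1 ≤ μ := le_trans (le_max_right μ0 1) hμ
      have h2 : 1 ≤ 2 * μ * Ps.natDegree := by
        have := Nat.mul_le_mul hμ1 hd
        nlinarith
      rw [hα _ h2, norm_neg] at h1
      have h3 : 2 * Ps.natDegree * μ = 2 * μ * Ps.natDegree := by ring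
      have h4 : Real.sqrt p ^ (2 * Ps.natDegree * μ) = (p : ℝ) ^ (μ * Ps.natDegree) := by
        have h5 : 2 * Ps.natDegree * μ = 2 * (μ * Ps.natDegree) := by ring
        rw [h5, pow_mul, Real.sq_sqrt hp0R.le]
      rw [h4, h3]
      exact h1
  rw [hα j hj, norm_neg]
  calc ‖∑ i, α i ^ j‖ ≤ ∑ i, ‖α i ^ j‖ := norm_sum_le _ _
    _ ≤ ∑ _i : Fin r, Real.sqrt p ^ j := by
        apply Finset.sum_le_sum
        intro i _
        rw [norm_pow]
        exact pow_le_pow_left₀ (norm_nonneg _) (hbound i) j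
    _ = r * Real.sqrt p ^ j := by simp
    _ ≤ R * Real.sqrt p ^ j := by
        apply mul_le_mul_of_nonneg_right _ (by positivity)
        exact_mod_cast (by omega : r ≤ R)

end

end Pool.Agent.MP6cc1fa
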