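import Mathlib
import Pool.Agent.Lib.MP_6cc1fa_pr.RHBase
import Pool.Agent.Lib.MP_6cc1fa_pr.RHLamMul

/-!
MP_6cc1fa_pr: vanishing of complete character sums (port of `LamA`, `Van` of `MP_196a10_nt`).
-/

set_option autoImplicit false

open Polynomial

namespace Pool.Agent.MP6cc1fa

noncomputable section

variable {p : ℕ} [hpF : Fact p.Prime]

theorem lamA_eq (g : PP p) (K : ℕ) (f : PP p) :
    lam (t1A g K) (t0A g K) f = lamA g K f := by
  apply Prod.ext
  · show (RingHom.fst _ _) (lam (t1A g K) (t0A g K) f) = AdjoinRoot.mk g f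
    unfold lam
    rw [map_sum]
    simp only [map_mul, map_pow, t1A, t0A, RingHom.coe_fst, one_pow, mul_one]
    conv_rhs => rw [as_sum_range_C_mul_X_pow f]
    rw [map_sum]
    apply Finset.sum_congr rfl
    intro i _
    rw [map_mul, map_pow, AdjoinRoot.mk_X]
    rfl
  · show (RingHom.snd _ _) (lam (t1A g K) (t0A g K) f) = AdjoinRoot.mk _ f.reverse
    unfold lam
    rw [map_sum]
    simp only [map_mul, map_pow, t1A, t0A, RingHom.coe_snd, one_pow, mul_one]
    have h2 : f.reverse = ∑ i ∈ Finset.range (f.natDegree + 1),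
        C (f.coeff i) * X ^ (f.natDegree - i) := by
      ext n
      rw [coeff_reverse, finsetSum_coeff]
      simp only [coeff_C_mul, coeff_X_pow]
      by_cases hn : n ≤ f.natDegree
      · rw [revAt_le hn, Finset.sum_eq_single (f.natDegree - n)]
        · rw [if_pos (by omega), mul_one]
        · intro i hi hne
          rw [Finset.mem_range] at hi
          rw [if_neg (by omega), mul_zero]
        · intro h
          exact absurd (Finset.mem_range.mpr (by omega)) h
      · push Not at hn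
        rw [revAt_eq_self_of_lt hn, coeff_eq_zero_of_natDegree_lt hn, Finset.sum_eq_zero]
        intro i _
        rw [if_neg (by omega), mul_zero]
    rw [h2, map_sum]
    apply Finset.sum_congr rfl
    intro i _
    rw [map_mul, map_pow, AdjoinRoot.mk_X]
    rfl

namespace RHVan

theorem finite_adjoinRoot (h : PP p) (hh : h ≠ 0) : Finite (AdjoinRoot h) := by
  have h2 : Module.Finite (ZMod p) (AdjoinRoot h) := (AdjoinRoot.powerBasis hh).finite
  exact Module.finite_of_finite (ZMod p)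

theorem isUnit_mk_iff (r f : PP p) : IsUnit (AdjoinRoot.mk r f) ↔ IsCoprime f r := by
  constructor
  · intro h
    obtain ⟨u, hu⟩ := h
    obtain ⟨g, hg⟩ := AdjoinRoot.mk_surjective ((u⁻¹ : (AdjoinRoot r)ˣ) : AdjoinRoot r)
    have h1 : AdjoinRoot.mk r (f * g) = AdjoinRoot.mk r 1 := by
      rw [map_mul, hg, ← hu, map_one, Units.mul_inv]
    rw [AdjoinRoot.mk_eq_mk] at h1
    obtain ⟨s, hs⟩ := h1
    exact ⟨g, -s, by linear_combination hs⟩
  · rintro ⟨a, b, hab⟩
    rw [isUnit_iff_exists_inv']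
    refine ⟨AdjoinRoot.mk r a, ?_⟩
    rw [← map_mul, ← map_one (AdjoinRoot.mk r), AdjoinRoot.mk_eq_mk]
    exact ⟨-b, by linear_combination hab⟩

end RHVan

theorem finite_AA (g : PP p) (hg : g.Monic) (K : ℕ) : Finite (AA g K) := by
  have h3 := RHVan.finite_adjoinRoot g hg.ne_zero
  have h4 := RHVan.finite_adjoinRoot (p := p) (X ^ (K + 1)) (pow_ne_zero _ X_ne_zero)
  exact inferInstanceAs (Finite (AdjoinRoot g × AdjoinRoot (X ^ (K + 1) : PP p)))

theorem isUnit_AA_iff (g : PP p) (K : ℕ) (f v : PP p) :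
    IsUnit ((AdjoinRoot.mk g f, AdjoinRoot.mk (X ^ (K + 1)) v) : AA g K) ↔
      IsCoprime f g ∧ v.coeff 0 ≠ 0 := by
  rw [Prod.isUnit_iff, RHVan.isUnit_mk_iff, RHVan.isUnit_mk_iff]
  apply and_congr Iff.rfl
  rw [IsCoprime.pow_right_iff (Nat.succ_pos K)]
  constructor
  · intro h h0
    have h1 : (X : PP p) ∣ v := X_dvd_iff.mpr h0
    have h2 : IsUnit (X : PP p) := isUnit_of_dvd_unit (dvd_refl _) (h.isUnit_of_dvd' h1 (dvd_refl _))
    exact not_isUnit_X h2
  · intro h
    refine IsCoprime.symm ((Irreducible.coprime_iff_not_dvd irreducible_X).mpr ?_)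
    rwa [X_dvd_iff]

namespace RHVan

omit hpF in
theorem ep_mk (r : PP p) (K : ℕ) (y : AdjoinRoot r) (v : PP p) :
    ep r K (y, AdjoinRoot.mk (X ^ (K + 1)) v) = v.coeff 0 := by
  unfold ep
  simp only [RingHom.coe_comp, Function.comp_apply, RingHom.coe_snd, AdjoinRoot.lift_mk]
  rw [eval₂_at_zero]
  simp

theorem add_mem_MD {j : ℕ} {f d : PP p} (hf : f ∈ MD p j) (hd : d ∈ Plt p j) :
    f + d ∈ MD p j := by
  rw [mem_MD_iff_sub] at *
  have h : f + d - X ^ j = (f - X ^ j) + d := by ring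
  rw [h]
  exact add_mem_Plt hf hd

theorem L_add (r : PP p) (K : ℕ) {j : ℕ} {f d : PP p} (hf : f ∈ MD p j) (hd : d ∈ Plt p j) :
    lamA r K (f + d) = lamA r K f +
      (AdjoinRoot.mk r d, AdjoinRoot.mk (X ^ (K + 1)) (d.reflect j)) := by
  have h1 : f.natDegree = j := natDegree_of_mem_MD hf
  have h2 : (f + d).natDegree = j := natDegree_of_mem_MD (add_mem_MD hf hd)
  unfold lamA reverse
  rw [h1, h2, reflect_add, map_add, map_add]
  rfl

theorem ep_L (r : PP p) (K : ℕ) {j : ℕ} {f : PP p} (hf : f ∈ MD p j) :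
    ep r K (lamA r K f) = 1 := by
  unfold lamA
  rw [ep_mk, coeff_zero_reverse]
  exact monic_of_mem_MD hf

/-- surjectivity of the linear part -/
theorem exists_d (r : PP p) (hr : r.Monic) (K j : ℕ) (hj : r.natDegree + K ≤ j) (δ : AA r K)
    (hδ : ep r K δ = 0) :
    ∃ d ∈ Plt p j, (AdjoinRoot.mk r d, AdjoinRoot.mk (X ^ (K + 1)) (d.reflect j)) = δ := by
  obtain ⟨y₀, w₀⟩ := δ
  obtain ⟨y, rfl⟩ := AdjoinRoot.mk_surjective y₀
  obtain ⟨w, rfl⟩ := AdjoinRoot.mk_surjective w₀
  rw [ep_mk] at hδ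
  have hX : (X ^ (K + 1) : PP p).Monic := monic_X_pow _
  set w' : PP p := w %ₘ X ^ (K + 1) with hw'
  have hw'd : w'.degree < (K + 1 : ℕ) := by
    have := degree_modByMonic_lt w hX
    rwa [degree_X_pow] at this
  have hw'c : ∀ i, K < i → w'.coeff i = 0 := fun i hi => by
    apply coeff_eq_zero_of_degree_lt
    refine hw'd.trans_le ?_
    exact_mod_cast hi
  have hw'0 : w'.coeff 0 = 0 := by
    have h1 : w = w' + X ^ (K + 1) * (w /ₘ X ^ (K + 1)) := by
      rw [hw']; exact (modByMonic_add_div w (X ^ (K + 1))).symm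
    have h2 := congrArg (fun q : PP p => q.coeff 0) h1
    simp only [coeff_add, hδ] at h2
    rw [mul_coeff_zero, coeff_X_pow, if_neg (by omega), zero_mul, add_zero] at h2
    exact h2.symm
  set d₁ : PP p := w'.reflect j with hd₁
  have hd₁c : ∀ i, d₁.coeff i = w'.coeff (revAt j i) := fun i => by rw [hd₁, coeff_reflect]
  have hd₁m : d₁ ∈ Plt p j := by
    rw [mem_Plt, degree_lt_iff_coeff_zero]
    intro i hi
    rw [hd₁c]
    rcases eq_or_lt_of_le hi with h | h
    · rw [← h, revAt_le le_rfl, Nat.sub_self, hw'0]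
    · rw [revAt_eq_self_of_lt h]
      exact hw'c i (by omega)
  set e : PP p := (y - d₁) %ₘ r with he
  have hed : e.degree < (j - K : ℕ) := by
    have h1 := degree_modByMonic_lt (y - d₁) hr
    refine h1.trans_le ?_
    rw [degree_eq_natDegree hr.ne_zero]
    exact_mod_cast (by omega : r.natDegree ≤ j - K)
  have hem : e ∈ Plt p j := by
    rw [mem_Plt]
    refine hed.trans_le ?_
    exact_mod_cast Nat.sub_le j K
  refine ⟨d₁ + e, add_mem_Plt hd₁m hem, ?_⟩
  have h1 : AdjoinRoot.mk r (d₁ + e) = AdjoinRoot.mk r y := by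
    rw [AdjoinRoot.mk_eq_mk]
    have h2 : y - d₁ = e + r * ((y - d₁) /ₘ r) := by
      rw [he]; exact (modByMonic_add_div (y - d₁) r).symm
    refine ⟨-((y - d₁) /ₘ r), ?_⟩
    linear_combination (-1 : PP p) * h2
  have h2 : AdjoinRoot.mk (X ^ (K + 1) : PP p) ((d₁ + e).reflect j) =
      AdjoinRoot.mk (X ^ (K + 1)) w := by
    rw [AdjoinRoot.mk_eq_mk, reflect_add]
    have h3 : d₁.reflect j = w' := by
      ext i
      rw [coeff_reflect, hd₁c, revAt_invol]
    rw [h3]
    have h4 : (X ^ (K + 1) : PP p) ∣ w' - w := by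
      refine ⟨-(w /ₘ X ^ (K + 1)), ?_⟩
      have h5 : w = w' + X ^ (K + 1) * (w /ₘ X ^ (K + 1)) := by
        rw [hw']; exact (modByMonic_add_div w (X ^ (K + 1))).symm
      conv_lhs => rw [h5]
      ring
    have h6 : (X ^ (K + 1) : PP p) ∣ e.reflect j := by
      rw [X_pow_dvd_iff]
      intro i hi
      rw [coeff_reflect]
      apply coeff_eq_zero_of_degree_lt
      have h7 : revAt j i = j - i := revAt_le (by omega)
      rw [h7]
      refine hed.trans_le ?_
      exact_mod_cast (by omega : j - K ≤ j - i)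
    have h8 : w' + e.reflect j - w = (w' - w) + e.reflect j := by ring
    rw [h8]
    exact dvd_add h4 h6
  rw [h1, h2]

end RHVan

open RHVan in
theorem sum_char_zero (g : PP p) (hg : g.Monic) (K j : ℕ) (hj : g.natDegree + K ≤ j)
    (ψ : MulChar (AA g K) ℂ) (hψ : ∃ x ∈ Gam g K, ψ x ≠ 1) :
    ∑ f ∈ MD p j, ψ (lamA g K f) = 0 := by
  classical
  have := finite_AA g hg K
  let _ : Fintype (AA g K) := Fintype.ofFinite _
  obtain ⟨x₀, hxG, hx⟩ := hψ
  obtain ⟨hxu, hxe⟩ := hxG
  obtain ⟨x, rfl⟩ := hxu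
  set L : PP p → AA g K := fun f => lamA g K f with hL
  set N : AA g K → ℕ := fun h => ((MD p j).filter (fun f => L f = h)).card with hN
  -- the fibres have equal cardinality
  have hcomp : ∀ h h' : AA g K, ep g K h = 1 → ep g K h' = 1 → N h ≤ N h' := by
    intro h h' h1 h2
    obtain ⟨d, hd, hd2⟩ := exists_d g hg K j hj (h' - h) (by rw [map_sub, h1, h2, sub_self])
    refine Finset.card_le_card_of_injOn (fun f => f + d) ?_ ?_
    · intro f hf
      simp only [Finset.coe_filter, Set.mem_ofPred_eq] at hf ⊢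
      refine ⟨add_mem_MD hf.1 hd, ?_⟩
      have h3 := L_add g K hf.1 hd
      rw [hd2] at h3
      show L (f + d) = h'
      rw [hL]
      simp only
      rw [h3]
      have h4 : lamA g K f = h := hf.2
      rw [h4]
      ring
    · intro f _ f' _ hfg
      exact add_right_cancel hfg
  have hzero : ∀ h : AA g K, ep g K h ≠ 1 → N h = 0 := by
    intro h hh
    rw [hN]
    simp only
    rw [Finset.card_eq_zero, Finset.filter_eq_empty_iff]
    intro f hf hfh
    apply hh
    rw [← hfh]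
    exact ep_L g K hf
  have hinv : ∀ h : AA g K, N ((x : AA g K) * h) = N h := by
    intro h
    have h1 : ep g K ((x : AA g K) * h) = ep g K h := by
      rw [map_mul, hxe, one_mul]
    by_cases h2 : ep g K h = 1
    · exact le_antisymm (hcomp _ _ (h1.trans h2) h2) (hcomp _ _ h2 (h1.trans h2))
    · rw [hzero h h2, hzero _ (by rwa [h1])]
  have hsum : ∑ f ∈ MD p j, ψ (L f) = ∑ h : AA g K, (N h : ℂ) * ψ h := by
    rw [← Finset.sum_fiberwise (MD p j) L]
    refine Finset.sum_congr rfl (fun h _ => ?_)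
    rw [Finset.sum_congr rfl (g := fun _ => ψ h) (fun f hf => by rw [(Finset.mem_filter.1 hf).2])]
    rw [Finset.sum_const, nsmul_eq_mul]
  have hs2 : ∑ h : AA g K, (N h : ℂ) * ψ h = ψ x * ∑ h : AA g K, (N h : ℂ) * ψ h := by
    calc ∑ h : AA g K, (N h : ℂ) * ψ h
        = ∑ h : AA g K, (N ((x : AA g K) * h) : ℂ) * ψ ((x : AA g K) * h) :=
          (Equiv.sum_comp (Units.mulLeft x : AA g K ≃ AA g K) (fun h => (N h : ℂ) * ψ h)).symm
      _ = ψ x * ∑ h : AA g K, (N h : ℂ) * ψ h := by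
          rw [Finset.mul_sum]
          refine Finset.sum_congr rfl (fun h _ => ?_)
          rw [hinv, map_mul]
          ring
  have h3 : (1 - ψ x) * ∑ h : AA g K, (N h : ℂ) * ψ h = 0 := by
    rw [sub_mul, one_mul, ← hs2, sub_self]
  have h4 : (1 - ψ (x : AA g K)) ≠ 0 := sub_ne_zero.2 (Ne.symm hx)
  rw [hL] at hsum
  simp only at hsum
  rw [hsum]
  exact (mul_eq_zero.1 h3).resolve_left h4

end

end Pool.Agent.MP6cc1fa
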