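import Pool.Agent.Lib.MP_6cc1fa_pr.RHBase
import Pool.Agent.Lib.MP_6cc1fa_pr.RHLamMul
import Pool.Agent.Lib.MP_6cc1fa_pr.RHNewton
import Pool.Agent.Lib.MP_6cc1fa_pr.RHVan
import Pool.Agent.Lib.MP_6cc1fa_pr.RHEqa
import Pool.Agent.Lib.MP_196a10_nt.Base

open Polynomial

namespace Pool.Agent.MP6cc1fa

noncomputable section

variable {p : ℕ} [hpF : Fact p.Prime]

/-! ## RhIrr -/

namespace RhIrr

theorem exists_irr (r : PP p) (hr : r ≠ 0) :
    ∃ P : PP p, P.Monic ∧ Irreducible P ∧ IsCoprime P r := by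
  have h1 : (X * r + 1 : PP p).natDegree = r.natDegree + 1 := by
    rw [natDegree_add_eq_left_of_natDegree_lt]
    · rw [natDegree_X_mul hr]
    · rw [natDegree_X_mul hr, natDegree_one]; omega
  have h2 : (X * r + 1 : PP p).natDegree ≠ 0 := by omega
  obtain ⟨P, hPm, hP, hd⟩ := exists_monic_irreducible_factor (X * r + 1 : PP p)
    (by
      intro h
      exact h2 (natDegree_eq_zero_of_isUnit h))
  refine ⟨P, hPm, hP, ?_⟩
  obtain ⟨s, hs⟩ := hd
  refine ⟨s, -X, ?_⟩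
  rw [mul_comm s P, ← hs]
  ring

theorem norm_le_one {A : Type} [CommRing A] [Finite A] (ψ : MulChar A ℂ) (a : A) :
    ‖ψ a‖ ≤ 1 := by
  classical
  have := Fintype.ofFinite A
  by_cases ha : IsUnit a
  · obtain ⟨u, rfl⟩ := ha
    have h1 : (ψ u) ^ (Fintype.card Aˣ) = 1 := by
      rw [← map_pow, ← Units.val_pow_eq_pow_val, pow_card_eq_one, Units.val_one, map_one]
    exact (Complex.norm_eq_one_of_pow_eq_one h1 Fintype.card_ne_zero).le
  · rw [MulChar.map_nonunit ψ ha]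
    simp

theorem rh_AA {g : PP p} (hg : g.Monic) (K : ℕ) (ψ : MulChar (AA g K) ℂ)
    (hψ : ∃ x ∈ Gam g K, ψ x ≠ 1) (d : ℕ) (hd : 1 ≤ d) :
    ‖∑ f ∈ MD p d, (vM f : ℂ) * ψ (lamA g K f)‖ ≤
      ((g.natDegree + K : ℕ) : ℝ) * Real.sqrt p ^ d := by
  have hfin := finite_AA g hg K
  have hnt : Nontrivial (AdjoinRoot (X ^ (K + 1) : PP p)) := by
    apply AdjoinRoot.nontrivial
    rw [degree_X_pow]
    have : (0 : WithBot ℕ) < ((K + 1 : ℕ) : WithBot ℕ) := by exact_mod_cast Nat.succ_pos K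
    exact this.ne'
  have hne : Nonempty (AdjoinRoot g) := ⟨0⟩
  have : Nontrivial (AA g K) := nontrivial_prod_right
  obtain ⟨P, hPm, hP, hc⟩ := exists_irr g hg.ne_zero
  have h := rh_char (AA g K) (t1A g K) (t0A g K) P hPm hP
    (by
      rw [lamA_eq]
      unfold lamA
      rw [isUnit_AA_iff]
      refine ⟨hc, ?_⟩
      rw [coeff_zero_reverse, hPm.leadingCoeff]
      exact one_ne_zero)
    ψ (g.natDegree + K)
    (by
      intro i hi
      rw [← sum_char_zero g hg K i hi ψ hψ]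
      exact Finset.sum_congr rfl fun f _ => by rw [lamA_eq])
    d hd
  unfold SS at h
  refine le_trans (le_of_eq ?_) h
  congr 1
  exact Finset.sum_congr rfl fun f _ => by rw [lamA_eq]

end RhIrr

open RhIrr in
theorem rh_irr {g : (ZMod p)[X]} (hg : g.Monic) (K : ℕ) (ψ : MulChar (AA g K) ℂ)
    (hψ : ∃ x ∈ Gam g K, ψ x ≠ 1) (d : ℕ) (hd : 1 ≤ d) :
    ‖∑ P ∈ Irr p d, (d : ℂ) * ψ (lamA g K P)‖ ≤
      (g.natDegree + K + d : ℝ) * Real.sqrt p ^ d := by
  classical
  have hfin := finite_AA g hg K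
  have h1 := rh_AA hg K ψ hψ d hd
  have hI : ∑ P ∈ Irr p d, (d : ℂ) * ψ (lamA g K P) =
      ∑ f ∈ MD p d, if Irreducible f then (vM f : ℂ) * ψ (lamA g K f) else 0 := by
    unfold Irr
    rw [← Finset.sum_filter]
    apply Finset.sum_congr
    · ext f
      simp only [Finset.mem_filter]
    · intro f hf
      rw [Finset.mem_filter] at hf
      rw [vM_irreducible (monic_of_mem_MD hf.1) hf.2, natDegree_of_mem_MD hf.1]
  have h2 : ∑ P ∈ Irr p d, (d : ℂ) * ψ (lamA g K P) =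
      ∑ f ∈ MD p d, (vM f : ℂ) * ψ (lamA g K f) -
        ∑ f ∈ MD p d, (if Irreducible f then (0 : ℂ) else (vM f : ℂ)) * ψ (lamA g K f) := by
    rw [hI, ← Finset.sum_sub_distrib]
    apply Finset.sum_congr rfl
    intro f _
    split_ifs <;> simp
  have h3 : ‖∑ f ∈ MD p d, (if Irreducible f then (0 : ℂ) else (vM f : ℂ)) * ψ (lamA g K f)‖ ≤
      d * Real.sqrt p ^ d := by
    refine le_trans (norm_sum_le _ _) (le_trans (Finset.sum_le_sum fun f _ => ?_)
      (sum_vM_nonprime (p := p) d))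
    rw [norm_mul]
    refine le_trans (mul_le_of_le_one_right (norm_nonneg _) (norm_le_one ψ _)) ?_
    split_ifs <;> simp
  rw [h2]
  refine le_trans (norm_sub_le _ _) (le_trans (add_le_add h1 h3) (le_of_eq ?_))
  push_cast
  ring

end

end Pool.Agent.MP6cc1fa
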