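import Pool.Agent.Lib.MP_6cc1fa_pr.RHBase
import Pool.Agent.Lib.MP_196a10_nt.FAbs

/-!
MP_6cc1fa_pr, module FOUR: tuple sums of a function of the residue modulo `g` and of the top
coefficients, by characters.
-/

set_option autoImplicit false

namespace Pool.Agent.MP6cc1fa

open Polynomial Finset Pool.Agent.MP196.FAbs

noncomputable section

variable {p : ℕ} [Fact p.Prime]

/-! ### The ring `AA g K` -/

theorem four_finite {g : (ZMod p)[X]} (hg : g.Monic) (K : ℕ) : Finite (AA g K) := by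
  have h1 : ∀ g : (ZMod p)[X], g ≠ 0 → Finite (AdjoinRoot g) := by
    intro g hg
    have h2 : Module.Finite (ZMod p) (AdjoinRoot g) := (AdjoinRoot.powerBasis hg).finite
    exact Module.finite_of_finite (ZMod p)
  have h3 := h1 g hg.ne_zero
  have h4 := h1 (X ^ (K + 1)) (pow_ne_zero _ X_ne_zero)
  exact inferInstanceAs (Finite (AdjoinRoot g × AdjoinRoot (X ^ (K + 1) : (ZMod p)[X])))

theorem four_isUnit_mk_iff (r f : (ZMod p)[X]) : IsUnit (AdjoinRoot.mk r f) ↔ IsCoprime f r := by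
  constructor
  · intro h
    obtain ⟨u, hu⟩ := h
    obtain ⟨g, hg⟩ := AdjoinRoot.mk_surjective ((u⁻¹ : (AdjoinRoot r)ˣ) : AdjoinRoot r)
    have h1 : AdjoinRoot.mk r (f * g) = AdjoinRoot.mk r 1 := by
      rw [map_mul, hg, ← hu, map_one, Units.mul_inv]
    rw [AdjoinRoot.mk_eq_mk] at h1
    obtain ⟨s, hs⟩ := h1
    exact ⟨g, -s, by linear_combination hs⟩
  · rintro ⟨a, b, hab⟩
    rw [isUnit_iff_exists_inv']
    refine ⟨AdjoinRoot.mk r a, ?_⟩
    rw [← map_mul, ← map_one (AdjoinRoot.mk r), AdjoinRoot.mk_eq_mk]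
    exact ⟨-b, by linear_combination hab⟩

theorem four_ep_mk (g : (ZMod p)[X]) (K : ℕ) (u v : (ZMod p)[X]) :
    ep g K (AdjoinRoot.mk g u, AdjoinRoot.mk (X ^ (K + 1)) v) = v.coeff 0 := by
  have h1 : ep g K (AdjoinRoot.mk g u, AdjoinRoot.mk (X ^ (K + 1)) v) =
      eval₂ (RingHom.id (ZMod p)) 0 v := by
    unfold ep
    rw [RingHom.comp_apply]
    exact AdjoinRoot.lift_mk (i := RingHom.id (ZMod p)) (a := 0) _ v
  rw [h1, eval₂_id, coeff_zero_eq_eval_zero]

theorem four_mem_Gam (g : (ZMod p)[X]) (K : ℕ) (u v : (ZMod p)[X]) :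
    ((AdjoinRoot.mk g u, AdjoinRoot.mk (X ^ (K + 1)) v) : AA g K) ∈ Gam g K ↔
      IsCoprime u g ∧ v.coeff 0 = 1 := by
  unfold Gam
  rw [Set.mem_ofPred_eq, Prod.isUnit_iff, four_isUnit_mk_iff, four_isUnit_mk_iff, four_ep_mk]
  constructor
  · rintro ⟨⟨h1, -⟩, h2⟩
    exact ⟨h1, h2⟩
  · rintro ⟨h1, h2⟩
    refine ⟨⟨h1, ?_⟩, h2⟩
    rw [IsCoprime.pow_right_iff (Nat.succ_pos K)]
    refine IsCoprime.symm ((Irreducible.coprime_iff_not_dvd irreducible_X).mpr ?_)
    rw [X_dvd_iff, h2]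
    exact one_ne_zero

theorem four_one_mem (g : (ZMod p)[X]) (K : ℕ) : (1 : AA g K) ∈ Gam g K := by
  unfold Gam
  rw [Set.mem_ofPred_eq]
  exact ⟨isUnit_one, map_one _⟩

theorem four_mul_mem {g : (ZMod p)[X]} {K : ℕ} {x y : AA g K} (hx : x ∈ Gam g K)
    (hy : y ∈ Gam g K) : x * y ∈ Gam g K := by
  unfold Gam at hx hy ⊢
  rw [Set.mem_ofPred_eq] at hx hy ⊢
  exact ⟨hx.1.mul hy.1, by rw [map_mul, hx.2, hy.2, one_mul]⟩

theorem four_isUnit_of_mem {g : (ZMod p)[X]} {K : ℕ} {x : AA g K} (hx : x ∈ Gam g K) :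
    IsUnit x := by
  unfold Gam at hx
  exact hx.1

/-! ### `lamA` is multiplicative -/

theorem four_lamA_mul (g : (ZMod p)[X]) (K : ℕ) (f f' : (ZMod p)[X]) :
    lamA g K (f * f') = lamA g K f * lamA g K f' := by
  unfold lamA
  rw [reverse_mul_of_domain, map_mul, map_mul]
  rfl

theorem four_lamA_one (g : (ZMod p)[X]) (K : ℕ) : lamA g K 1 = 1 := by
  unfold lamA
  rw [← C_1, reverse_C, C_1, map_one, map_one]
  rfl

theorem four_lamA_prod (g : (ZMod p)[X]) (K : ℕ) {k : ℕ} (P : Fin k → (ZMod p)[X]) :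
    lamA g K (∏ i, P i) = ∏ i, lamA g K (P i) := by
  let φ : (ZMod p)[X] →* AA g K :=
    { toFun := lamA g K
      map_one' := four_lamA_one g K
      map_mul' := four_lamA_mul g K }
  exact map_prod φ P univ

theorem four_coeff_reverse {f : (ZMod p)[X]} (hf : f.Monic) : f.reverse.coeff 0 = 1 := by
  rw [coeff_zero_reverse]
  exact hf

theorem four_lamA_mem {g f : (ZMod p)[X]} (K : ℕ) (hf : f.Monic) (hc : IsCoprime f g) :
    lamA g K f ∈ Gam g K :=
  (four_mem_Gam g K f f.reverse).mpr ⟨hc, four_coeff_reverse hf⟩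

theorem four_lamA_notMem {g f : (ZMod p)[X]} (K : ℕ) (hc : ¬ IsCoprime f g) :
    ¬ IsUnit (lamA g K f) := by
  unfold lamA
  rw [Prod.isUnit_iff, four_isUnit_mk_iff]
  exact fun h => hc h.1

/-! ### Representatives -/

/-- canonical representatives -/
def four_rep {g : (ZMod p)[X]} (hg : g.Monic) (x : AdjoinRoot g) : (ZMod p)[X] :=
  AdjoinRoot.modByMonicHom hg x

theorem four_rep_mk {g : (ZMod p)[X]} (hg : g.Monic) (u : (ZMod p)[X]) :
    four_rep hg (AdjoinRoot.mk g u) = u %ₘ g := by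
  rw [four_rep, AdjoinRoot.modByMonicHom_mk]

theorem four_XK (K : ℕ) : (X ^ (K + 1) : (ZMod p)[X]).Monic := monic_X_pow _

open Classical in
/-- the transported function -/
def four_Psi {g : (ZMod p)[X]} (hg : g.Monic) (K : ℕ) (A B : (ZMod p)[X] → ℂ) (x : AA g K) : ℂ :=
  if x ∈ Gam g K then A (four_rep hg x.1) * B (four_rep (four_XK K) x.2) else 0

theorem four_Psi_nonunit {g : (ZMod p)[X]} (hg : g.Monic) (K : ℕ) (A B : (ZMod p)[X] → ℂ)
    (x : AA g K) (hx : ¬ IsUnit x) : four_Psi hg K A B x = 0 := by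
  rw [four_Psi, if_neg fun h => hx (four_isUnit_of_mem h)]

theorem four_Psi_mk {g : (ZMod p)[X]} (hg : g.Monic) (K : ℕ) {A B : (ZMod p)[X] → ℂ}
    (hA : ∀ f f', g ∣ f - f' → A f = A f') (hB : ∀ v v', X ^ (K + 1) ∣ v - v' → B v = B v')
    {u v : (ZMod p)[X]} (hu : IsCoprime u g) (hv : v.coeff 0 = 1) :
    four_Psi hg K A B (AdjoinRoot.mk g u, AdjoinRoot.mk (X ^ (K + 1)) v) = A u * B v := by
  rw [four_Psi, if_pos ((four_mem_Gam g K u v).mpr ⟨hu, hv⟩), four_rep_mk, four_rep_mk]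
  congr 1
  · apply hA
    refine ⟨-(u /ₘ g), ?_⟩
    have h := modByMonic_add_div u g
    linear_combination h
  · apply hB
    refine ⟨-(v /ₘ X ^ (K + 1)), ?_⟩
    have h := modByMonic_add_div v (X ^ (K + 1))
    linear_combination h

theorem four_norm_Psi_le {g : (ZMod p)[X]} (hg : g.Monic) (K : ℕ) {A B : (ZMod p)[X] → ℂ}
    (hA1 : ∀ f, ‖A f‖ ≤ 1) (hB1 : ∀ v, ‖B v‖ ≤ 1) (x : AA g K) :
    ‖four_Psi hg K A B x‖ ≤ 1 := by
  unfold four_Psi
  split_ifs
  · rw [norm_mul]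
    exact mul_le_one₀ (hA1 _) (norm_nonneg _) (hB1 _)
  · simp

theorem four_mk_inj {g : (ZMod p)[X]} (hg : g.Monic) {u u' : (ZMod p)[X]}
    (hu : u ∈ Plt p g.natDegree) (hu' : u' ∈ Plt p g.natDegree)
    (h : AdjoinRoot.mk g u = AdjoinRoot.mk g u') : u = u' := by
  rw [AdjoinRoot.mk_eq_mk] at h
  have h1 : u - u' ∈ Plt p g.natDegree := sub_mem_Plt hu hu'
  rw [mem_Plt] at h1
  have h2 : (u - u').degree < g.degree := by
    rw [degree_eq_natDegree hg.ne_zero]
    exact h1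
  exact sub_eq_zero.mp (eq_zero_of_dvd_of_degree_lt h h2)

theorem four_mk_surj {g : (ZMod p)[X]} (hg : g.Monic) (x : AdjoinRoot g) :
    ∃ u ∈ Plt p g.natDegree, AdjoinRoot.mk g u = x := by
  obtain ⟨f, rfl⟩ := AdjoinRoot.mk_surjective x
  refine ⟨f %ₘ g, ?_, ?_⟩
  · rw [mem_Plt]
    have := degree_modByMonic_lt f hg
    rwa [degree_eq_natDegree hg.ne_zero] at this
  · rw [AdjoinRoot.mk_eq_mk]
    have h := modByMonic_add_div f g
    refine ⟨-(f /ₘ g), ?_⟩
    linear_combination h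

/-- Sum over `Gam`. -/
theorem four_sum_Gam {g : (ZMod p)[X]} (hg : g.Monic) (K : ℕ) [Fintype (AA g K)]
    (F : AA g K → ℂ) (hF : ∀ x, x ∉ Gam g K → F x = 0) :
    ∑ x, F x = ∑ u ∈ Cop g, ∑ v ∈ V1 p K,
      F (AdjoinRoot.mk g u, AdjoinRoot.mk (X ^ (K + 1)) v) := by
  classical
  have hXd : (X ^ (K + 1) : (ZMod p)[X]).natDegree = K + 1 := natDegree_X_pow _
  have himg : (Finset.univ : Finset (AA g K)) = (Plt p g.natDegree ×ˢ Plt p (K + 1)).image
      (fun q => ((AdjoinRoot.mk g q.1, AdjoinRoot.mk (X ^ (K + 1)) q.2) : AA g K)) := by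
    symm
    rw [Finset.eq_univ_iff_forall]
    rintro ⟨x, y⟩
    obtain ⟨u, hu, rfl⟩ := four_mk_surj hg x
    obtain ⟨v, hv, rfl⟩ := four_mk_surj (four_XK K) y
    rw [hXd] at hv
    rw [Finset.mem_image]
    exact ⟨(u, v), Finset.mem_product.mpr ⟨hu, hv⟩, rfl⟩
  rw [himg, Finset.sum_image, Finset.sum_product]
  · have h1 : ∑ u ∈ Cop g, ∑ v ∈ Plt p (K + 1),
        F (AdjoinRoot.mk g u, AdjoinRoot.mk (X ^ (K + 1)) v) =
        ∑ u ∈ Plt p g.natDegree, ∑ v ∈ Plt p (K + 1),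
        F (AdjoinRoot.mk g u, AdjoinRoot.mk (X ^ (K + 1)) v) := by
      refine Finset.sum_subset (Finset.filter_subset _ _) ?_
      intro u hu hu'
      refine Finset.sum_eq_zero (fun v _ => hF _ ?_)
      rw [four_mem_Gam]
      rintro ⟨h, _⟩
      apply hu'
      unfold Cop
      rw [Finset.mem_filter]
      exact ⟨hu, h⟩
    rw [← h1]
    refine Finset.sum_congr rfl (fun u _ => ?_)
    symm
    refine Finset.sum_subset (Finset.filter_subset _ _) ?_
    intro v hv hv'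
    apply hF
    rw [four_mem_Gam]
    rintro ⟨_, h⟩
    apply hv'
    unfold V1
    rw [Finset.mem_filter]
    exact ⟨hv, h⟩
  · rintro ⟨u, v⟩ huv ⟨u', v'⟩ huv' h
    rw [Finset.mem_coe, Finset.mem_product] at huv huv'
    rw [Prod.mk.injEq] at h
    rw [Prod.mk.injEq]
    refine ⟨four_mk_inj hg huv.1 huv'.1 h.1, four_mk_inj (four_XK K) ?_ ?_ h.2⟩
    · rw [hXd]; exact huv.2
    · rw [hXd]; exact huv'.2

theorem four_card_V1 (K : ℕ) : (V1 p K).card = p ^ K := by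
  classical
  have h1 : V1 p K = (Plt p K).image fun w => 1 + X * w := by
    ext v
    unfold V1
    rw [Finset.mem_filter, mem_Plt, Finset.mem_image]
    constructor
    · rintro ⟨hv, hv0⟩
      refine ⟨v.divX, ?_, ?_⟩
      · rw [mem_Plt, degree_lt_iff_coeff_zero]
        intro m hm
        rw [coeff_divX]
        apply coeff_eq_zero_of_degree_lt
        refine hv.trans_le ?_
        exact_mod_cast (by omega : K + 1 ≤ m + 1)
      · have := X_mul_divX_add v
        rw [hv0, C_1] at this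
        rw [add_comm]
        exact this
    · rintro ⟨w, hw, rfl⟩
      rw [mem_Plt, degree_lt_iff_coeff_zero] at hw
      refine ⟨?_, by simp⟩
      rw [degree_lt_iff_coeff_zero]
      intro m hm
      obtain ⟨m, rfl⟩ : ∃ m', m = m' + 1 := ⟨m - 1, by omega⟩
      rw [coeff_add, coeff_X_mul, hw m (by omega), coeff_one, if_neg (by omega), add_zero]
  rw [h1, Finset.card_image_of_injective, card_Plt]
  intro a b hab
  have h2 : (X : (ZMod p)[X]) * a = X * b := add_left_cancel hab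
  exact mul_left_cancel₀ X_ne_zero h2

open Classical in
/-- The tuple sum, assuming the bound for characters and the prime number theorem. -/
theorem four_tuple_of {g : (ZMod p)[X]} (hg : g.Monic) (K : ℕ) (A B : (ZMod p)[X] → ℂ)
    (hA : ∀ f f', g ∣ f - f' → A f = A f') (hB : ∀ v v', X ^ (K + 1) ∣ v - v' → B v = B v')
    (hA1 : ∀ f, ‖A f‖ ≤ 1) (hB1 : ∀ v, ‖B v‖ ≤ 1) {k : ℕ} (d : Fin k → ℕ) (hd : ∀ i, 1 ≤ d i)
    (hcard : ∀ d : ℕ, d * (Irr p d).card ≤ p ^ d)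
    (hrh : ∀ ψ : MulChar (AA g K) ℂ, (∃ x ∈ Gam g K, ψ x ≠ 1) → ∀ d : ℕ, 1 ≤ d →
      ‖∑ P ∈ Irr p d, (d : ℂ) * ψ (lamA g K P)‖ ≤
        (g.natDegree + K + d : ℝ) * Real.sqrt p ^ d) :
    ‖∑ P ∈ (IrrT p d).filter (fun P => ∀ i, ¬ P i ∣ g),
        ((∏ i, d i : ℕ) : ℂ) * (A (∏ i, P i) * B (∏ i, P i).reverse)‖ ≤
      ‖avg g K A B‖ * (p : ℝ) ^ (∑ i, d i) +
        (∏ i, (g.natDegree + K + d i : ℝ)) * Real.sqrt p ^ (∑ i, d i + g.natDegree + K) := by
  have hfin : Finite (AA g K) := four_finite hg K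
  let _ : Fintype (AA g K) := Fintype.ofFinite _
  let _ : Fintype (MulChar (AA g K) ℂ) := Fintype.ofFinite _
  set Ψ : AA g K → ℂ := four_Psi hg K A B with hΨ
  have hΨ0 : ∀ x, ¬ IsUnit x → Ψ x = 0 := four_Psi_nonunit hg K A B
  have hΨG : ∀ x, x ∉ Gam g K → Ψ x = 0 := fun x hx => by
    rw [hΨ, four_Psi, if_neg hx]
  set U : ℕ := Nat.card (AA g K)ˣ with hU
  have hU0 : 0 < U := Nat.card_pos
  have hUC : (U : ℂ) ≠ 0 := Nat.cast_ne_zero.mpr hU0.ne'
  have hUR : (0 : ℝ) < (U : ℝ) := Nat.cast_pos.mpr hU0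
  have hIrr : ∀ {P : Fin k → (ZMod p)[X]}, P ∈ IrrT p d → ∀ i, (P i).Monic ∧ Irreducible (P i) := by
    intro P hP i
    unfold IrrT at hP
    rw [Fintype.mem_piFinset] at hP
    have := (mem_Irr (d i) (P i)).mp (hP i)
    exact ⟨this.1, this.2.2⟩
  -- the sum in terms of `Ψ`
  set S : ℂ := ∑ P ∈ (IrrT p d).filter (fun P => ∀ i, ¬ P i ∣ g),
        ((∏ i, d i : ℕ) : ℂ) * (A (∏ i, P i) * B (∏ i, P i).reverse) with hS
  have hS1 : S = ∑ P ∈ IrrT p d, ((∏ i, d i : ℕ) : ℂ) * Ψ (∏ i, lamA g K (P i)) := by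
    rw [hS, Finset.sum_filter]
    refine Finset.sum_congr rfl fun P hP => ?_
    split_ifs with h
    · congr 1
      rw [← four_lamA_prod, hΨ]
      unfold lamA
      rw [four_Psi_mk hg K hA hB]
      · exact IsCoprime.prod_left fun i _ =>
          ((hIrr hP i).2.coprime_iff_not_dvd).mpr (h i)
      · exact four_coeff_reverse (monic_prod_of_monic _ _ fun i _ => (hIrr hP i).1)
    · push Not at h
      obtain ⟨i, hi⟩ := h
      rw [hΨ0, mul_zero]
      intro hu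
      have h1 : IsUnit (lamA g K (P i)) :=
        isUnit_of_dvd_unit (Finset.dvd_prod_of_mem (fun i => lamA g K (P i)) (Finset.mem_univ i)) hu
      exact four_lamA_notMem K (fun hc => ((hIrr hP i).2.coprime_iff_not_dvd).mp hc hi) h1
  -- the character sums
  set T : MulChar (AA g K) ℂ → ℂ := fun χ =>
    ∏ i, ∑ P ∈ Irr p (d i), (d i : ℂ) * χ (lamA g K P) with hT
  have hT1 : ∀ χ, T χ = ∑ P ∈ IrrT p d, ((∏ i, d i : ℕ) : ℂ) * χ (∏ i, lamA g K (P i)) := by
    intro χ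
    simp only [hT]
    unfold IrrT
    rw [Finset.prod_univ_sum]
    refine Finset.sum_congr rfl fun P _ => ?_
    rw [Finset.prod_mul_distrib, map_prod]
    push_cast
    rfl
  have hS2 : (U : ℂ) * S = ∑ χ, ft Ψ χ * T χ := by
    rw [hS1, Finset.mul_sum]
    have h1 : ∀ χ, ft Ψ χ * T χ =
        ∑ P ∈ IrrT p d, ((∏ i, d i : ℕ) : ℂ) * (ft Ψ χ * χ (∏ i, lamA g K (P i))) := by
      intro χ
      rw [hT1, Finset.mul_sum]
      exact Finset.sum_congr rfl fun P _ => by ring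
    rw [Finset.sum_congr rfl fun χ _ => h1 χ, Finset.sum_comm]
    refine Finset.sum_congr rfl fun P _ => ?_
    rw [← Finset.mul_sum, inversion Ψ hΨ0]
    ring
  -- the characters which are trivial on `Gam`
  set X2 : Finset (MulChar (AA g K) ℂ) := univ.filter fun χ => ∀ x ∈ Gam g K, χ x = 1 with hX2
  set W : AA g K → ℂ := fun x => if x ∈ Gam g K then 1 else 0 with hW
  have hW0 : ∀ x, ¬ IsUnit x → W x = 0 := fun x hx => by
    rw [hW]; exact if_neg fun h => hx (four_isUnit_of_mem h)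
  have hWG : ∀ x, x ∉ Gam g K → W x = 0 := fun x hx => if_neg hx
  set γ : ℂ := ((Cop g).card : ℂ) * (p : ℂ) ^ K with hγ
  have hWsum : ∑ x, W x = γ := by
    rw [four_sum_Gam hg K W hWG]
    have h1 : ∀ u ∈ Cop g, ∀ v ∈ V1 p K,
        W (AdjoinRoot.mk g u, AdjoinRoot.mk (X ^ (K + 1)) v) = 1 := by
      intro u hu v hv
      unfold Cop at hu
      unfold V1 at hv
      rw [Finset.mem_filter] at hu hv
      exact if_pos ((four_mem_Gam g K u v).mpr ⟨hu.2, hv.2⟩)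
    rw [Finset.sum_congr rfl fun u hu => Finset.sum_congr rfl fun v hv => h1 u hu v hv]
    simp only [Finset.sum_const, nsmul_eq_mul, mul_one, four_card_V1]
    rw [hγ]
    push_cast
    rfl
  have hinv : ∀ χ ∈ X2, ∀ x ∈ Gam g K, χ⁻¹ x = 1 := by
    intro χ hχ x hx
    obtain ⟨u, hu⟩ := four_isUnit_of_mem hx
    have h1 : χ x = 1 := (Finset.mem_filter.mp hχ).2 x hx
    have h2 : (χ * χ⁻¹) x = 1 := by
      rw [mul_inv_cancel, ← hu, MulChar.one_apply_coe]
    rw [MulChar.mul_apply, h1, one_mul] at h2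
    exact h2
  have hftG : ∀ (F : AA g K → ℂ), (∀ x, x ∉ Gam g K → F x = 0) → ∀ χ ∈ X2, ft F χ = ∑ x, F x := by
    intro F hF χ hχ
    unfold ft
    refine Finset.sum_congr rfl fun x _ => ?_
    by_cases hx : x ∈ Gam g K
    · rw [hinv χ hχ x hx, mul_one]
    · rw [hF x hx, zero_mul]
  have hftW : ∀ χ, χ ∉ X2 → ft W χ = 0 := by
    intro χ hχ
    have h1 : ∃ x ∈ Gam g K, χ x ≠ 1 := by
      by_contra hcon
      push Not at hcon
      exact hχ (Finset.mem_filter.mpr ⟨Finset.mem_univ _, hcon⟩)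
    obtain ⟨x, hx, hχx⟩ := h1
    obtain ⟨u, hu⟩ := four_isUnit_of_mem hx
    have hxinv : ((u⁻¹ : (AA g K)ˣ) : AA g K) ∈ Gam g K := by
      unfold Gam at hx ⊢
      rw [Set.mem_ofPred_eq] at hx ⊢
      refine ⟨(u⁻¹).isUnit, ?_⟩
      have h2 : ep g K (u : AA g K) * ep g K ((u⁻¹ : (AA g K)ˣ) : AA g K) = 1 := by
        rw [← map_mul, Units.mul_inv, map_one]
      rw [hu, hx.2, one_mul] at h2
      exact h2
    have h3 : χ⁻¹ (u : AA g K) * ft W χ = ft W χ := by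
      unfold ft
      rw [Finset.mul_sum]
      refine Finset.sum_bijective (fun y => (u : AA g K) * y) (Units.mulLeft_bijective u)
        (fun _ => by simp) fun y _ => ?_
      have h4 : W ((u : AA g K) * y) = W y := by
        simp only [hW]
        congr 1
        refine propext ⟨fun h => ?_, fun h => ?_⟩
        · have h5 := four_mul_mem hxinv h
          rwa [← mul_assoc, Units.inv_mul, one_mul] at h5
        · rw [← hu] at hx
          exact four_mul_mem hx h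
      rw [h4, map_mul]
      ring
    have h6 : χ⁻¹ (u : AA g K) ≠ 1 := by
      intro h7
      apply hχx
      have h8 : (χ * χ⁻¹) (u : AA g K) = 1 := by
        rw [mul_inv_cancel, MulChar.one_apply_coe]
      rw [MulChar.mul_apply, h7, mul_one] at h8
      rw [← hu]
      exact h8
    have h9 : (χ⁻¹ (u : AA g K) - 1) * ft W χ = 0 := by
      rw [sub_mul, h3, one_mul, sub_self]
    exact (mul_eq_zero.mp h9).resolve_left (sub_ne_zero.mpr h6)
  have hcardX2 : (X2.card : ℂ) * γ = U := by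
    have h1 := inversion W hW0 1
    have h2 : W 1 = 1 := if_pos (four_one_mem g K)
    rw [h2, mul_one, ← Finset.sum_filter_add_sum_filter_not univ
      (fun χ : MulChar (AA g K) ℂ => ∀ x ∈ Gam g K, χ x = 1)] at h1
    have h3 : ∑ χ ∈ univ.filter (fun χ : MulChar (AA g K) ℂ => ¬ ∀ x ∈ Gam g K, χ x = 1),
        ft W χ * χ 1 = 0 := by
      refine Finset.sum_eq_zero fun χ hχ => ?_
      rw [hftW χ (fun h => (Finset.mem_filter.mp hχ).2 (Finset.mem_filter.mp h).2), zero_mul]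
    have h4 : ∑ χ ∈ X2, ft W χ * χ 1 = (X2.card : ℂ) * γ := by
      rw [Finset.sum_congr rfl fun χ hχ => by
        rw [hftG W hWG χ hχ, hWsum, map_one, mul_one], Finset.sum_const, nsmul_eq_mul]
    rw [h3, add_zero] at h1
    rw [← h4]
    exact h1
  have hγ0 : γ ≠ 0 := by
    intro h
    rw [h, mul_zero] at hcardX2
    exact hUC hcardX2.symm
  -- the value of `T` at the characters trivial on `Gam`
  set t : ℝ := ∏ i, ((d i : ℝ) * (((Irr p (d i)).filter fun P => ¬ P ∣ g).card : ℝ)) with ht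
  have htX2 : ∀ χ ∈ X2, T χ = (t : ℂ) := by
    intro χ hχ
    rw [hT, ht]
    push_cast
    refine Finset.prod_congr rfl fun i _ => ?_
    rw [← Finset.mul_sum]
    congr 1
    rw [Finset.card_filter, Nat.cast_sum]
    refine Finset.sum_congr rfl fun P hP => ?_
    have hP' := (mem_Irr (d i) P).mp hP
    by_cases h : P ∣ g
    · rw [if_neg (not_not.mpr h), MulChar.map_nonunit χ (four_lamA_notMem K
        fun hc => ((hP'.2.2.coprime_iff_not_dvd).mp hc) h), Nat.cast_zero]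
    · rw [if_pos h, (Finset.mem_filter.mp hχ).2 _
        (four_lamA_mem K hP'.1 ((hP'.2.2.coprime_iff_not_dvd).mpr h)), Nat.cast_one]
  have ht0 : 0 ≤ t := Finset.prod_nonneg fun i _ => by positivity
  have ht1 : t ≤ (p : ℝ) ^ (∑ i, d i) := by
    rw [ht, ← Finset.prod_pow_eq_pow_sum]
    refine Finset.prod_le_prod (fun i _ => by positivity) fun i _ => ?_
    calc (d i : ℝ) * (((Irr p (d i)).filter fun P => ¬ P ∣ g).card : ℝ) ≤
        (d i : ℝ) * ((Irr p (d i)).card : ℝ) := by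
          refine mul_le_mul_of_nonneg_left ?_ (Nat.cast_nonneg _)
          exact_mod_cast Finset.card_filter_le _ _
      _ ≤ (p : ℝ) ^ d i := by exact_mod_cast hcard (d i)
  -- the decomposition
  have hsplit : (U : ℂ) * S = ((X2.card : ℂ) * (∑ x, Ψ x) * t) + ∑ χ ∈ X2ᶜ, ft Ψ χ * T χ := by
    rw [hS2, ← Finset.sum_add_sum_compl X2]
    congr 1
    rw [Finset.sum_congr rfl fun χ hχ => by rw [hftG Ψ hΨG χ hχ, htX2 χ hχ], Finset.sum_const,
      nsmul_eq_mul, mul_assoc]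
  have havg : avg g K A B = (∑ x, Ψ x) / γ := by
    rw [avg, four_sum_Gam hg K Ψ hΨG]
    congr 1
    refine Finset.sum_congr rfl fun u hu => Finset.sum_congr rfl fun v hv => ?_
    unfold Cop at hu
    unfold V1 at hv
    rw [Finset.mem_filter] at hu hv
    rw [hΨ, four_Psi_mk hg K hA hB hu.2 hv.2]
  have hmain : S = avg g K A B * t + (∑ χ ∈ X2ᶜ, ft Ψ χ * T χ) / U := by
    rw [havg, eq_comm, ← mul_right_inj' hUC, mul_add, mul_div_cancel₀ _ hUC, hsplit,
      ← hcardX2]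
    field_simp
  -- the error term
  set R : ℝ := (∏ i, (g.natDegree + K + d i : ℝ)) * Real.sqrt p ^ (∑ i, d i) with hR
  have hR0 : 0 ≤ R := by
    rw [hR]
    refine mul_nonneg (Finset.prod_nonneg fun i _ => by positivity) (by positivity)
  have hTR : ∀ χ ∈ X2ᶜ, ‖T χ‖ ≤ R := by
    intro χ hχ
    have h1 : ∃ x ∈ Gam g K, χ x ≠ 1 := by
      by_contra hcon
      push Not at hcon
      exact (Finset.mem_compl.mp hχ) (Finset.mem_filter.mpr ⟨Finset.mem_univ _, hcon⟩)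
    rw [hT, hR]
    simp only [norm_prod]
    rw [← Finset.prod_pow_eq_pow_sum, ← Finset.prod_mul_distrib]
    exact Finset.prod_le_prod (fun i _ => norm_nonneg _) fun i _ => hrh χ h1 (d i) (hd i)
  have hΨsq : ∑ x, ‖Ψ x‖ ^ 2 ≤ (p : ℝ) ^ (g.natDegree + K) := by
    have h1 : ∀ x, ‖Ψ x‖ ^ 2 ≤ ‖W x‖ := by
      intro x
      by_cases hx : x ∈ Gam g K
      · have h2 : W x = 1 := if_pos hx
        rw [h2, norm_one]
        exact pow_le_one₀ (norm_nonneg _) (four_norm_Psi_le hg K hA1 hB1 x)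
      · rw [hΨG x hx, norm_zero, zero_pow two_ne_zero]
        exact norm_nonneg _
    have h3 : ∑ x, ‖W x‖ = ((Cop g).card : ℝ) * (p : ℝ) ^ K := by
      have h4 : ∀ x, ((‖W x‖ : ℝ) : ℂ) = W x := by
        intro x
        simp only [hW]
        split_ifs <;> simp
      have h5 : ((∑ x, ‖W x‖ : ℝ) : ℂ) = ((((Cop g).card : ℝ) * (p : ℝ) ^ K : ℝ) : ℂ) := by
        rw [Complex.ofReal_sum, Finset.sum_congr rfl fun x _ => h4 x, hWsum, hγ]
        push_cast
        rfl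
      exact_mod_cast h5
    calc ∑ x, ‖Ψ x‖ ^ 2 ≤ ∑ x, ‖W x‖ := Finset.sum_le_sum fun x _ => h1 x
      _ = ((Cop g).card : ℝ) * (p : ℝ) ^ K := h3
      _ ≤ (p : ℝ) ^ g.natDegree * (p : ℝ) ^ K := by
          refine mul_le_mul_of_nonneg_right ?_ (by positivity)
          have h6 : (Cop g).card ≤ p ^ g.natDegree := by
            rw [← card_Plt (p := p) g.natDegree]
            unfold Cop
            exact Finset.card_filter_le _ _
          exact_mod_cast h6
      _ = (p : ℝ) ^ (g.natDegree + K) := (pow_add _ _ _).symm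
  have hcardχ : (Fintype.card (MulChar (AA g K) ℂ) : ℝ) = (U : ℝ) := by
    rw [← Nat.card_eq_fintype_card, MulChar.card_eq_card_units_of_hasEnoughRootsOfUnity (AA g K) ℂ]
  have hsqrt : Real.sqrt ((p : ℝ) ^ (g.natDegree + K)) = Real.sqrt p ^ (g.natDegree + K) := by
    rw [Real.sqrt_eq_iff_mul_self_eq (by positivity) (by positivity), ← mul_pow,
      Real.mul_self_sqrt (Nat.cast_nonneg _)]
  have hft : ∑ χ, ‖ft Ψ χ‖ ≤ (U : ℝ) * Real.sqrt p ^ (g.natDegree + K) := by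
    rw [← hsqrt]
    have hcs : (∑ χ : MulChar (AA g K) ℂ, ‖ft Ψ χ‖) ^ 2 ≤
        (Fintype.card (MulChar (AA g K) ℂ) : ℝ) * ∑ χ : MulChar (AA g K) ℂ, ‖ft Ψ χ‖ ^ 2 := by
      have := sq_sum_le_card_mul_sum_sq (s := (Finset.univ : Finset (MulChar (AA g K) ℂ)))
        (f := fun χ => ‖ft Ψ χ‖)
      simpa using this
    rw [parseval Ψ hΨ0, hcardχ] at hcs
    have h5 : (∑ χ : MulChar (AA g K) ℂ, ‖ft Ψ χ‖) ^ 2 ≤
        ((U : ℝ) * Real.sqrt ((p : ℝ) ^ (g.natDegree + K))) ^ 2 := by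
      rw [mul_pow, Real.sq_sqrt (by positivity)]
      calc _ ≤ _ := hcs
        _ = (U : ℝ) ^ 2 * ∑ x, ‖Ψ x‖ ^ 2 := by rw [hU]; ring
        _ ≤ _ := mul_le_mul_of_nonneg_left hΨsq (by positivity)
    exact le_of_sq_le_sq h5 (mul_nonneg hUR.le (Real.sqrt_nonneg _))
  have herr : ‖(∑ χ ∈ X2ᶜ, ft Ψ χ * T χ) / (U : ℂ)‖ ≤
      (∏ i, (g.natDegree + K + d i : ℝ)) * Real.sqrt p ^ (∑ i, d i + g.natDegree + K) := by
    rw [norm_div, Complex.norm_natCast, div_le_iff₀ hUR]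
    calc ‖∑ χ ∈ X2ᶜ, ft Ψ χ * T χ‖ ≤ ∑ χ ∈ X2ᶜ, ‖ft Ψ χ‖ * R := by
          refine (norm_sum_le _ _).trans (Finset.sum_le_sum fun χ hχ => ?_)
          rw [norm_mul]
          exact mul_le_mul_of_nonneg_left (hTR χ hχ) (norm_nonneg _)
      _ ≤ ∑ χ, ‖ft Ψ χ‖ * R := Finset.sum_le_sum_of_subset_of_nonneg (Finset.subset_univ _)
          fun χ _ _ => mul_nonneg (norm_nonneg _) hR0
      _ = (∑ χ, ‖ft Ψ χ‖) * R := (Finset.sum_mul _ _ _).symm
      _ ≤ ((U : ℝ) * Real.sqrt p ^ (g.natDegree + K)) * R :=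
          mul_le_mul_of_nonneg_right hft hR0
      _ = _ := by
          rw [hR, add_assoc (∑ i, d i), pow_add (Real.sqrt p) (∑ i, d i)]
          ring
  rw [hmain]
  refine (norm_add_le _ _).trans (add_le_add ?_ herr)
  rw [norm_mul, Complex.norm_real, Real.norm_of_nonneg ht0]
  exact mul_le_mul_of_nonneg_left ht1 (norm_nonneg _)

end

end Pool.Agent.MP6cc1fa
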