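import Pool.Agent.Lib.MP_6cc1fa_pr.Defs

/-!
MP_6cc1fa_pr, module SPLIT: the exponential factors through residues and top coefficients.
-/

set_option autoImplicit false

namespace Pool.Agent.MP6cc1fa

open Polynomial Finset

noncomputable section

variable {p : ℕ} [Fact p.Prime]

theorem split_mem_MD {n : ℕ} {f : (ZMod p)[X]} (h : f ∈ MD p n) :
    f.Monic ∧ f.natDegree = n := by
  classical
  unfold MD at h
  rw [mem_image] at h
  obtain ⟨a, -, rfl⟩ := h
  unfold mon
  have hd : (∑ i : Fin n, C (a i) * X ^ (i : ℕ)).degree < (n : WithBot ℕ) :=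
    degree_sum_fin_lt a
  refine ⟨monic_X_pow_add hd, natDegree_eq_of_degree_eq_some ?_⟩
  rw [degree_add_eq_left_of_degree_lt (by rwa [degree_X_pow]), degree_X_pow]

theorem split_lamb_add (g : (ZMod p)[X]) (ζ : ℕ → ZMod p) (f f' : (ZMod p)[X]) :
    lamb g ζ (f + f') = lamb g ζ f + lamb g ζ f' := by
  unfold lamb
  rw [add_modByMonic, ← sum_add_distrib]
  exact sum_congr rfl fun j _ => by rw [coeff_add, add_mul]

theorem split_lamb_C (g : (ZMod p)[X]) (ζ : ℕ → ZMod p) (c : ZMod p) (f : (ZMod p)[X]) :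
    lamb g ζ (C c * f) = c * lamb g ζ f := by
  unfold lamb
  rw [← smul_eq_C_mul, smul_modByMonic, mul_sum]
  exact sum_congr rfl fun j _ => by rw [coeff_smul, smul_eq_mul, mul_assoc]

theorem split_lamb_zero (g : (ZMod p)[X]) (ζ : ℕ → ZMod p) : lamb g ζ 0 = 0 := by
  have h := split_lamb_C g ζ 0 0
  rwa [map_zero, zero_mul, zero_mul] at h

theorem split_lamb_sum (g : (ZMod p)[X]) (ζ : ℕ → ZMod p) (s : Finset ℕ) (c : ℕ → ZMod p)
    (f : ℕ → (ZMod p)[X]) :
    lamb g ζ (∑ i ∈ s, C (c i) * f i) = ∑ i ∈ s, c i * lamb g ζ (f i) := by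
  classical
  induction s using Finset.induction_on with
  | empty => simp [split_lamb_zero]
  | insert i s hi ih => rw [sum_insert hi, sum_insert hi, split_lamb_add, split_lamb_C, ih]

theorem split_lamb_dvd {g : (ZMod p)[X]} (hg : g.Monic) (ζ : ℕ → ZMod p) {f : (ZMod p)[X]}
    (h : g ∣ f) : lamb g ζ f = 0 := by
  unfold lamb
  rw [(modByMonic_eq_zero_iff_dvd hg).2 h]
  simp

theorem split_lamb_congr {g : (ZMod p)[X]} (hg : g.Monic) (ζ : ℕ → ZMod p) {f f' : (ZMod p)[X]}
    (h : g ∣ f - f') : lamb g ζ f = lamb g ζ f' := by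
  have e : f = (f - f') + f' := by ring
  rw [e, split_lamb_add, split_lamb_dvd hg ζ h, zero_add]

theorem lamb_pow {g : (ZMod p)[X]} (hg : g.Monic) {a : ℕ} {ζ : ℕ → ZMod p}
    (ha : ∀ j < a, act g ζ j = 0) : ∀ j < a + g.natDegree, lamb g ζ (X ^ j) = ζ j := by
  intro j
  induction j using Nat.strong_induction_on with
  | _ j ih =>
    intro hj
    rcases lt_or_ge j g.natDegree with hlt | hge
    · have h1 : (X ^ j : (ZMod p)[X]) %ₘ g = X ^ j := by
        rw [modByMonic_eq_self_iff hg, degree_X_pow, degree_eq_natDegree hg.ne_zero]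
        exact_mod_cast hlt
      unfold lamb
      rw [h1]
      simp only [coeff_X_pow, ite_mul, one_mul, zero_mul]
      rw [sum_ite_eq' (range g.natDegree) j fun i => ζ i, if_pos (mem_range.2 hlt)]
    · obtain ⟨t, rfl⟩ := Nat.exists_eq_add_of_le hge
      have ht : t < a := by omega
      have h2 := ha t ht
      unfold act at h2
      rw [sum_range_succ, hg.coeff_natDegree, one_mul] at h2
      have h3 : lamb g ζ (g * X ^ t) = 0 := split_lamb_dvd hg ζ (dvd_mul_right _ _)
      have h4 : g * X ^ t = ∑ i ∈ range (g.natDegree + 1), C (g.coeff i) * X ^ (i + t) := by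
        conv_lhs => rw [g.as_sum_range_C_mul_X_pow]
        rw [sum_mul]
        exact sum_congr rfl fun i _ => by rw [mul_assoc, ← pow_add]
      rw [h4, split_lamb_sum, sum_range_succ, hg.coeff_natDegree, one_mul] at h3
      have h5 : ∑ i ∈ range g.natDegree, g.coeff i * lamb g ζ (X ^ (i + t)) =
          ∑ i ∈ range g.natDegree, g.coeff i * ζ (i + t) := by
        refine sum_congr rfl fun i hi => ?_
        have hi' := mem_range.1 hi
        rw [ih (i + t) (by omega) (by omega)]
      rw [h5] at h3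
      linear_combination h3 - h2

theorem split {g : (ZMod p)[X]} (hg : g.Monic) {N a : ℕ} {ζ : ℕ → ZMod p}
    (ha : ∀ j < a, act g ζ j = 0) (hN : a + g.natDegree ≤ N) {F : (ZMod p)[X]}
    (hF : F ∈ MD p N) :
    ∑ j ∈ range N, F.coeff j * ζ j = - lamb g ζ (X ^ N) + lamb g ζ F +
      ∑ l ∈ Icc 1 (N - a - g.natDegree), kap g ζ N l * F.reverse.coeff l := by
  obtain ⟨hm, hdeg⟩ := split_mem_MD hF
  have hFl : lamb g ζ F = ∑ j ∈ range N, F.coeff j * lamb g ζ (X ^ j) + lamb g ζ (X ^ N) := by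
    conv_lhs => rw [F.as_sum_range_C_mul_X_pow]
    rw [split_lamb_sum, hdeg, sum_range_succ]
    have : F.coeff N = 1 := by rw [← hdeg]; exact hm.coeff_natDegree
    rw [this, one_mul]
  set h : ℕ → ZMod p := fun j => F.coeff j * (ζ j - lamb g ζ (X ^ j)) with hh
  have e1 : ∑ j ∈ range N, F.coeff j * ζ j =
      ∑ j ∈ range N, F.coeff j * lamb g ζ (X ^ j) + ∑ j ∈ range N, h j := by
    rw [← sum_add_distrib]
    exact sum_congr rfl fun j _ => by rw [hh]; ring
  have e2 : ∑ j ∈ range N, h j = ∑ j ∈ Ico (a + g.natDegree) N, h j := by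
    rw [← sum_range_add_sum_Ico h hN]
    have : ∑ j ∈ range (a + g.natDegree), h j = 0 := by
      refine sum_eq_zero fun j hj => ?_
      rw [hh]
      simp only
      rw [lamb_pow hg ha j (mem_range.1 hj), sub_self, mul_zero]
    rw [this, zero_add]
  have e3 : ∑ j ∈ Ico (a + g.natDegree) N, h j =
      ∑ l ∈ Icc 1 (N - a - g.natDegree), kap g ζ N l * F.reverse.coeff l := by
    refine sum_nbij' (fun j => N - j) (fun l => N - l) ?_ ?_ ?_ ?_ ?_
    · intro j hj
      rw [mem_Ico] at hj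
      rw [mem_Icc]
      omega
    · intro l hl
      rw [mem_Icc] at hl
      rw [mem_Ico]
      omega
    · intro j hj
      rw [mem_Ico] at hj
      omega
    · intro l hl
      rw [mem_Icc] at hl
      omega
    · intro j hj
      rw [mem_Ico] at hj
      have h1 : N - (N - j) = j := by omega
      rw [hh]
      simp only [kap]
      rw [h1, coeff_reverse, hdeg, revAt_le (by omega : N - j ≤ N), h1, mul_comm]
  rw [e1, e2, e3, hFl]
  ring

theorem split_ch_add (x y : ZMod p) : ch (x + y) = ch x * ch y := by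
  unfold ch
  exact AddChar.map_add_eq_mul _ _ _

theorem ch_split {g : (ZMod p)[X]} (hg : g.Monic) {N a : ℕ} {ζ : ℕ → ZMod p}
    (ha : ∀ j < a, act g ζ j = 0) (hN : a + g.natDegree ≤ N) {D F : (ZMod p)[X]}
    (hF : D * F ∈ MD p N) :
    ch (∑ j ∈ range N, (D * F).coeff j * ζ j) = ch (- lamb g ζ (X ^ N)) *
      (AD g ζ D F * BD g ζ N (N - a - g.natDegree) D F.reverse) := by
  rw [split hg ha hN hF, split_ch_add, split_ch_add, reverse_mul_of_domain, mul_assoc]
  rfl

theorem AD_congr {g : (ZMod p)[X]} (hg : g.Monic) (ζ : ℕ → ZMod p) (D f f' : (ZMod p)[X])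
    (h : g ∣ f - f') : AD g ζ D f = AD g ζ D f' := by
  unfold AD
  rw [split_lamb_congr hg ζ (f := D * f) (f' := D * f')]
  rw [← mul_sub]
  exact h.mul_left D

theorem BD_congr {g : (ZMod p)[X]} (ζ : ℕ → ZMod p) (N K : ℕ) (D v v' : (ZMod p)[X])
    (h : X ^ (K + 1) ∣ v - v') : BD g ζ N K D v = BD g ζ N K D v' := by
  unfold BD
  congr 1
  refine sum_congr rfl fun l hl => ?_
  rw [mem_Icc] at hl
  have h1 : X ^ (K + 1) ∣ D.reverse * v - D.reverse * v' := by
    rw [← mul_sub]
    exact h.mul_left _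
  have h2 := (X_pow_dvd_iff.1 h1) l (by omega)
  rw [coeff_sub, sub_eq_zero] at h2
  rw [h2]

end

end Pool.Agent.MP6cc1fa
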