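import Pool.Agent.Lib.MP_6cc1fa_pr.Ann1
import Pool.Agent.Lib.MP_6cc1fa_pr.Div
import Pool.Agent.Lib.MP_6cc1fa_pr.Split

set_option autoImplicit false

/-!
Ramanujan type averages.
-/

namespace Pool.Agent.MP6cc1fa

open Polynomial Finset

noncomputable section

variable {p : ℕ} [Fact p.Prime]

/-! ### Polynomials of small degree -/

/-- The polynomial with given coefficients. -/
def prin_pol {d : ℕ} (a : Fin d → ZMod p) : (ZMod p)[X] := ∑ i : Fin d, C (a i) * X ^ (i : ℕ)

theorem prin_coeff {d : ℕ} (a : Fin d → ZMod p) (j : ℕ) :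
    (prin_pol a).coeff j = if h : j < d then a ⟨j, h⟩ else 0 := by
  rw [prin_pol, finsetSum_coeff]
  simp only [coeff_C_mul, coeff_X_pow]
  by_cases h : j < d
  · rw [dif_pos h, sum_eq_single (⟨j, h⟩ : Fin d)]
    · simp
    · intro b _ hb
      rw [if_neg, mul_zero]
      intro h1
      exact hb (Fin.ext h1.symm)
    · simp
  · rw [dif_neg h]
    refine sum_eq_zero fun b _ => ?_
    rw [if_neg, mul_zero]
    have := b.2
    omega

theorem prin_pol_inj {d : ℕ} : Function.Injective (prin_pol : (Fin d → ZMod p) → (ZMod p)[X]) := by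
  intro a b h
  funext i
  have h1 := congrArg (fun f => f.coeff (i : ℕ)) h
  simp only [prin_coeff, i.2, dif_pos] at h1
  exact h1

theorem prin_mem_Plt {d : ℕ} {f : (ZMod p)[X]} : f ∈ Plt p d ↔ f.degree < d := by
  classical
  rw [Plt, mem_image]
  constructor
  · rintro ⟨a, _, rfl⟩
    rw [degree_lt_iff_coeff_zero]
    intro m hm
    have := prin_coeff a m
    rw [dif_neg (by omega)] at this
    exact this
  · intro h
    refine ⟨fun i => f.coeff i, mem_univ _, ?_⟩
    ext j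
    have h1 := prin_coeff (fun i : Fin d => f.coeff i) j
    rw [prin_pol] at h1
    rw [h1]
    by_cases hj : j < d
    · rw [dif_pos hj]
    · rw [dif_neg hj]
      exact ((degree_lt_iff_coeff_zero f d).mp h j (by omega)).symm

theorem prin_card_Plt (d : ℕ) : (Plt p d).card = p ^ d := by
  classical
  have h : Plt p d = (univ : Finset (Fin d → ZMod p)).image prin_pol := rfl
  rw [h, card_image_of_injective _ prin_pol_inj, card_univ, Fintype.card_fun, ZMod.card,
    Fintype.card_fin]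

theorem prin_zero_mem (d : ℕ) : (0 : (ZMod p)[X]) ∈ Plt p d := by
  rw [prin_mem_Plt, degree_zero]
  exact WithBot.bot_lt_coe d

theorem prin_add_mem {d : ℕ} {f g : (ZMod p)[X]} (hf : f ∈ Plt p d) (hg : g ∈ Plt p d) :
    f + g ∈ Plt p d := by
  rw [prin_mem_Plt] at *
  exact lt_of_le_of_lt (degree_add_le f g) (max_lt hf hg)

theorem prin_neg_mem {d : ℕ} {f : (ZMod p)[X]} (hf : f ∈ Plt p d) : -f ∈ Plt p d := by
  rw [prin_mem_Plt] at *
  rwa [degree_neg]

/-! ### Characters -/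

theorem prin_ch_add (a b : ZMod p) : ch (a + b) = ch a * ch b := AddChar.map_add_eq_mul _ _ _

theorem prin_ch_zero : ch (0 : ZMod p) = 1 := AddChar.map_zero_eq_one _

theorem prin_ch_ne_one {a : ZMod p} (ha : a ≠ 0) : ch a ≠ 1 := by
  intro h
  apply ha
  apply ZMod.injective_stdAddChar (N := p)
  rw [AddChar.map_zero_eq_one]
  exact h

theorem prin_norm_ch (a : ZMod p) : ‖ch a‖ = 1 := by
  unfold ch
  exact AddChar.norm_apply _ _

/-- A nontrivial character of the group of the polynomials of small degree has sum `0`. -/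
theorem prin_sum_zero {d : ℕ} (φ : (ZMod p)[X] → ZMod p) (hφ : ∀ f g, φ (f + g) = φ f + φ g)
    {w : (ZMod p)[X]} (hw : w ∈ Plt p d) (hw0 : φ w ≠ 0) : ∑ f ∈ Plt p d, ch (φ f) = 0 := by
  have h1 : ∑ f ∈ Plt p d, ch (φ f) = ch (φ w) * ∑ f ∈ Plt p d, ch (φ f) := by
    rw [mul_sum]
    refine sum_nbij' (fun f => f - w) (fun f => f + w) ?_ ?_ ?_ ?_ ?_
    · intro f hf
      rw [sub_eq_add_neg]
      exact prin_add_mem hf (prin_neg_mem hw)
    · intro f hf
      exact prin_add_mem hf hw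
    · intro f _
      simp
    · intro f _
      simp
    · intro f _
      rw [← prin_ch_add, ← hφ]
      congr 2
      ring
  have h2 : (1 - ch (φ w)) * ∑ f ∈ Plt p d, ch (φ f) = 0 := by
    rw [sub_mul, one_mul, ← h1, sub_self]
  rcases mul_eq_zero.mp h2 with h3 | h3
  · exact absurd (sub_eq_zero.mp h3).symm (prin_ch_ne_one hw0)
  · exact h3

/-! ### The top coefficients -/

/-- The map `w ↦ 1 + X w`. -/
def prin_emb (p : ℕ) [Fact p.Prime] : (ZMod p)[X] ↪ (ZMod p)[X] :=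
  ⟨fun w => 1 + X * w, fun _ _ h => mul_left_cancel₀ X_ne_zero (add_left_cancel h)⟩

theorem prin_V1_eq (K : ℕ) : V1 p K = (Plt p K).map (prin_emb p) := by
  classical
  ext v
  rw [V1, mem_filter, mem_map]
  constructor
  · rintro ⟨h1, h2⟩
    refine ⟨v.divX, ?_, ?_⟩
    · rw [prin_mem_Plt, degree_lt_iff_coeff_zero] at h1 ⊢
      intro m hm
      rw [coeff_divX]
      exact h1 (m + 1) (by omega)
    · show 1 + X * v.divX = v
      conv_rhs => rw [← divX_mul_X_add v, h2]
      rw [map_one]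
      ring
  · rintro ⟨w, hw, rfl⟩
    rw [prin_mem_Plt, degree_lt_iff_coeff_zero] at hw ⊢
    constructor
    · intro m hm
      obtain ⟨k, rfl⟩ : ∃ k, m = k + 1 := ⟨m - 1, by omega⟩
      show (1 + X * w).coeff (k + 1) = 0
      rw [coeff_add, coeff_X_mul, hw k (by omega), coeff_one]
      simp
    · show (1 + X * w).coeff 0 = 1
      simp

theorem card_V1 (K : ℕ) : (V1 p K).card = p ^ K := by
  rw [prin_V1_eq, card_map, prin_card_Plt]

theorem sum_V1_eq_zero {g : (ZMod p)[X]} (ζ : ℕ → ZMod p) (N K : ℕ) {D : (ZMod p)[X]}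
    (hD : D.Monic) (h : ∃ l ∈ Icc 1 K, kap g ζ N l ≠ 0) :
    ∑ v ∈ V1 p K, BD g ζ N K D v = 0 := by
  classical
  rw [prin_V1_eq, sum_map]
  set φ : (ZMod p)[X] → ZMod p := fun w =>
    ∑ l ∈ Icc 1 K, kap g ζ N l * (D.reverse * (X * w)).coeff l with hφdef
  have hφ : ∀ f g, φ (f + g) = φ f + φ g := by
    intro f f'
    rw [hφdef]
    simp only
    rw [← sum_add_distrib]
    refine sum_congr rfl fun l _ => ?_
    rw [mul_add, mul_add, coeff_add, mul_add]
  -- the largest index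
  have hne : ((Icc 1 K).filter fun l => kap g ζ N l ≠ 0).Nonempty := by
    obtain ⟨l, hl, hl'⟩ := h
    exact ⟨l, mem_filter.mpr ⟨hl, hl'⟩⟩
  set l0 := ((Icc 1 K).filter fun l => kap g ζ N l ≠ 0).max' hne with hl0
  have hl0m := Finset.max'_mem _ hne
  rw [← hl0, mem_filter, mem_Icc] at hl0m
  obtain ⟨⟨hl1, hlK⟩, hlne⟩ := hl0m
  have hw0 : φ (X ^ (l0 - 1)) = kap g ζ N l0 := by
    rw [hφdef]
    simp only
    have h1 : (X : (ZMod p)[X]) * X ^ (l0 - 1) = X ^ l0 := by
      rw [← pow_succ', Nat.sub_add_cancel hl1]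
    rw [h1, sum_eq_single l0]
    · rw [coeff_mul_X_pow', if_pos le_rfl, Nat.sub_self, coeff_zero_reverse, hD.leadingCoeff,
        mul_one]
    · intro l hl hne'
      rw [coeff_mul_X_pow']
      split_ifs with h2
      · have h3 : kap g ζ N l = 0 := by
          by_contra h4
          have h5 := Finset.le_max' ((Icc 1 K).filter fun l => kap g ζ N l ≠ 0) l
            (mem_filter.mpr ⟨hl, h4⟩)
          rw [← hl0] at h5
          omega
        rw [h3, zero_mul]
      · rw [mul_zero]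
    · intro h2
      exact absurd (mem_Icc.mpr ⟨hl1, hlK⟩) h2
  have hmem : (X ^ (l0 - 1) : (ZMod p)[X]) ∈ Plt p K := by
    rw [prin_mem_Plt, degree_X_pow]
    exact_mod_cast (by omega : l0 - 1 < K)
  have hzero := prin_sum_zero φ hφ hmem (by rw [hw0]; exact hlne)
  have h2 : ∀ w ∈ Plt p K, BD g ζ N K D (1 + X * w) =
      ch (∑ l ∈ Icc 1 K, kap g ζ N l * D.reverse.coeff l) * ch (φ w) := by
    intro w _
    rw [BD, ← prin_ch_add, hφdef]
    congr 1
    rw [← sum_add_distrib]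
    refine sum_congr rfl fun l _ => ?_
    rw [mul_add, mul_one, coeff_add, mul_add]
  calc _ = ∑ w ∈ Plt p K, BD g ζ N K D (1 + X * w) := rfl
    _ = _ := by rw [sum_congr rfl h2, ← mul_sum, hzero, mul_zero]

/-! ### Inclusion-exclusion -/

/-- The monic irreducible factors. -/
def prin_pf (g : (ZMod p)[X]) : Finset (ZMod p)[X] := by
  classical
  exact (UniqueFactorizationMonoid.normalizedFactors g).toFinset

theorem prin_om (g : (ZMod p)[X]) : om g = (prin_pf g).card := rfl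

theorem prin_mem_pf {g P : (ZMod p)[X]} (hP : P ∈ prin_pf g) :
    Irreducible P ∧ P.Monic ∧ P ∣ g := by
  classical
  rw [prin_pf, Multiset.mem_toFinset] at hP
  have h1 := UniqueFactorizationMonoid.irreducible_of_normalized_factor P hP
  refine ⟨h1, ?_, UniqueFactorizationMonoid.dvd_of_mem_normalizedFactors hP⟩
  have h2 := UniqueFactorizationMonoid.normalize_normalized_factor P hP
  exact (normalize_eq_self_iff_monic h1.ne_zero).mp h2

theorem prin_coprime_iff {g u : (ZMod p)[X]} (hg : g ≠ 0) :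
    IsCoprime u g ↔ ∀ P ∈ prin_pf g, ¬ P ∣ u := by
  classical
  constructor
  · intro h P hP hPu
    obtain ⟨h1, _, h3⟩ := prin_mem_pf hP
    exact h1.not_isUnit (h.isUnit_of_dvd' hPu h3)
  · intro h
    refine isCoprime_of_irreducible_dvd (fun h1 => hg h1.2) ?_
    intro z hz hzu hzg
    obtain ⟨q, hq, hzq⟩ := UniqueFactorizationMonoid.exists_mem_normalizedFactors_of_dvd hg hz hzg
    refine h q ?_ (hzq.symm.dvd.trans hzu)
    rw [prin_pf, Multiset.mem_toFinset]
    exact hq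

theorem prin_prod_dvd_iff {g u : (ZMod p)[X]} {S : Finset (ZMod p)[X]} (hS : S ⊆ prin_pf g) :
    (∏ P ∈ S, P) ∣ u ↔ ∀ P ∈ S, P ∣ u := by
  constructor
  · intro h P hP
    exact (Finset.dvd_prod_of_mem _ hP).trans h
  · intro h
    refine Finset.prod_dvd_of_coprime ?_ h
    intro P hP Q hQ hPQ
    obtain ⟨h1, h2, _⟩ := prin_mem_pf (hS hP)
    obtain ⟨h3, h4, _⟩ := prin_mem_pf (hS hQ)
    show IsCoprime P Q
    rw [h1.coprime_iff_not_dvd]
    intro h5
    exact hPQ (eq_of_monic_of_associated h2 h4 (h1.associated_of_dvd h3 h5))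

theorem prin_prod_monic {g : (ZMod p)[X]} {S : Finset (ZMod p)[X]} (hS : S ⊆ prin_pf g) :
    (∏ P ∈ S, P).Monic :=
  monic_prod_of_monic _ _ fun P hP => (prin_mem_pf (hS hP)).2.1

theorem prin_prod_dvd {g : (ZMod p)[X]} {S : Finset (ZMod p)[X]} (hS : S ⊆ prin_pf g) :
    (∏ P ∈ S, P) ∣ g :=
  (prin_prod_dvd_iff hS).mpr fun _ hP => (prin_mem_pf (hS hP)).2.2

theorem prin_natDegree_prod {g : (ZMod p)[X]} {S : Finset (ZMod p)[X]} (hS : S ⊆ prin_pf g) :
    (∏ P ∈ S, P).natDegree = ∑ P ∈ S, P.natDegree :=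
  natDegree_prod_of_monic _ _ fun P hP => (prin_mem_pf (hS hP)).2.1

/-- Multiplication by a nonzero polynomial. -/
def prin_mulEmb {Q : (ZMod p)[X]} (hQ : Q ≠ 0) : (ZMod p)[X] ↪ (ZMod p)[X] :=
  ⟨fun w => Q * w, fun _ _ h => mul_left_cancel₀ hQ h⟩

open Classical in
theorem prin_filter_dvd {g Q : (ZMod p)[X]} (hg : g ≠ 0) (hQ : Q ≠ 0) (hQg : Q ∣ g) :
    (Plt p g.natDegree).filter (fun u => Q ∣ u) =
      (Plt p (g.natDegree - Q.natDegree)).map (prin_mulEmb hQ) := by
  have hdeg : Q.natDegree ≤ g.natDegree := natDegree_le_of_dvd hQg hg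
  ext u
  rw [mem_filter, mem_map]
  have key : ∀ w : (ZMod p)[X], Q * w ∈ Plt p g.natDegree ↔
      w ∈ Plt p (g.natDegree - Q.natDegree) := by
    intro w
    rw [prin_mem_Plt, prin_mem_Plt]
    by_cases hw : w = 0
    · subst hw
      rw [mul_zero, degree_zero]
      exact ⟨fun _ => WithBot.bot_lt_coe _, fun _ => WithBot.bot_lt_coe _⟩
    · rw [← natDegree_lt_iff_degree_lt (mul_ne_zero hQ hw), ← natDegree_lt_iff_degree_lt hw,
        natDegree_mul hQ hw]
      omega
  constructor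
  · rintro ⟨h1, w, rfl⟩
    exact ⟨w, (key w).mp h1, rfl⟩
  · rintro ⟨w, hw, rfl⟩
    exact ⟨(key w).mpr hw, Dvd.intro _ rfl⟩

/-- Inclusion-exclusion. -/
theorem prin_sum_Cop {g : (ZMod p)[X]} (hg : g ≠ 0) (F : (ZMod p)[X] → ℂ) :
    ∑ u ∈ Cop g, F u = ∑ S ∈ (prin_pf g).powerset, (-1 : ℂ) ^ S.card *
      ∑ w ∈ Plt p (g.natDegree - (∏ P ∈ S, P).natDegree), F ((∏ P ∈ S, P) * w) := by
  classical
  have h1 : ∑ u ∈ Cop g, F u = ∑ u ∈ Plt p g.natDegree,
      (if IsCoprime u g then 1 else 0) * F u := by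
    rw [Cop, sum_filter]
    refine sum_congr rfl fun u _ => ?_
    split_ifs <;> simp
  have h2 : ∀ u : (ZMod p)[X], (if IsCoprime u g then (1 : ℂ) else 0) =
      ∑ S ∈ (prin_pf g).powerset, (-1 : ℂ) ^ S.card * (if (∏ P ∈ S, P) ∣ u then 1 else 0) := by
    intro u
    have h3 : (if IsCoprime u g then (1 : ℂ) else 0) =
        ∏ P ∈ prin_pf g, (1 + (if P ∣ u then (-1 : ℂ) else 0)) := by
      by_cases h : IsCoprime u g
      · rw [if_pos h, prod_eq_one]
        intro P hP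
        rw [if_neg ((prin_coprime_iff hg).mp h P hP), add_zero]
      · rw [if_neg h]
        rw [prin_coprime_iff hg] at h
        push Not at h
        obtain ⟨P, hP, hPu⟩ := h
        symm
        apply prod_eq_zero hP
        rw [if_pos hPu]
        ring
    rw [h3, prod_one_add]
    refine sum_congr rfl fun S hS => ?_
    rw [mem_powerset] at hS
    by_cases h : (∏ P ∈ S, P) ∣ u
    · rw [if_pos h, mul_one]
      rw [prin_prod_dvd_iff hS] at h
      rw [prod_congr rfl fun P hP => if_pos (h P hP), prod_const]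
    · rw [if_neg h, mul_zero]
      rw [prin_prod_dvd_iff hS] at h
      push Not at h
      obtain ⟨P, hP, hPu⟩ := h
      exact prod_eq_zero hP (if_neg hPu)
  rw [h1]
  simp_rw [h2, sum_mul]
  rw [sum_comm]
  refine sum_congr rfl fun S hS => ?_
  rw [mem_powerset] at hS
  have hQ := (prin_prod_monic hS).ne_zero
  have h4 : ∑ u ∈ (Plt p g.natDegree).filter (fun u => (∏ P ∈ S, P) ∣ u), F u =
      ∑ w ∈ Plt p (g.natDegree - (∏ P ∈ S, P).natDegree), F ((∏ P ∈ S, P) * w) := by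
    rw [prin_filter_dvd hg hQ (prin_prod_dvd hS), sum_map]
    rfl
  rw [← h4, sum_filter, mul_sum]
  refine sum_congr rfl fun u _ => ?_
  split_ifs <;> simp

theorem card_Cop_ge {g : (ZMod p)[X]} (hg : g.Monic) :
    (p : ℝ) ^ g.natDegree / 2 ^ om g ≤ ((Cop g).card : ℝ) := by
  classical
  have hp : 2 ≤ p := (Fact.out : p.Prime).two_le
  have hpR : (2 : ℝ) ≤ p := by exact_mod_cast hp
  have hpC : (p : ℂ) ≠ 0 := by exact_mod_cast (by omega : p ≠ 0)
  have h1 : ((Cop g).card : ℂ) = (p : ℂ) ^ g.natDegree *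
      ∏ P ∈ prin_pf g, (1 + -((p : ℂ) ^ P.natDegree)⁻¹) := by
    have h2 := prin_sum_Cop hg.ne_zero (fun _ => (1 : ℂ))
    rw [sum_const, nsmul_eq_mul, mul_one] at h2
    rw [h2, prod_one_add, mul_sum]
    refine sum_congr rfl fun S hS => ?_
    rw [mem_powerset] at hS
    have h3 : (∏ P ∈ S, P).natDegree ≤ g.natDegree :=
      natDegree_le_of_dvd (prin_prod_dvd hS) hg.ne_zero
    rw [sum_const, prin_card_Plt, nsmul_eq_mul, mul_one, prod_neg, prod_inv_distrib,
      prod_pow_eq_pow_sum, ← prin_natDegree_prod hS]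
    push_cast
    rw [pow_sub₀ _ hpC h3]
    ring
  have h2 : ((Cop g).card : ℝ) = (p : ℝ) ^ g.natDegree *
      ∏ P ∈ prin_pf g, (1 + -((p : ℝ) ^ P.natDegree)⁻¹) := by
    have h3 : (((Cop g).card : ℝ) : ℂ) = (((p : ℝ) ^ g.natDegree *
      ∏ P ∈ prin_pf g, (1 + -((p : ℝ) ^ P.natDegree)⁻¹) : ℝ) : ℂ) := by
      push_cast
      exact h1
    exact_mod_cast h3
  rw [h2, div_eq_mul_inv]
  refine mul_le_mul_of_nonneg_left ?_ (by positivity)
  rw [prin_om, ← inv_pow, ← prod_const]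
  refine prod_le_prod (fun _ _ => by positivity) fun P hP => ?_
  obtain ⟨h3, _, _⟩ := prin_mem_pf hP
  have h4 : 1 ≤ P.natDegree := h3.natDegree_pos
  have h5 : (2 : ℝ) ≤ (p : ℝ) ^ P.natDegree := by
    calc (2 : ℝ) ≤ p := hpR
      _ = (p : ℝ) ^ 1 := (pow_one _).symm
      _ ≤ (p : ℝ) ^ P.natDegree := pow_le_pow_right₀ (by linarith) h4
  have h6 : ((p : ℝ) ^ P.natDegree)⁻¹ ≤ 2⁻¹ := inv_anti₀ (by norm_num) h5
  norm_num at h6 ⊢
  linarith

/-! ### The functional -/

theorem prin_lamb_add {g : (ZMod p)[X]} (ζ : ℕ → ZMod p) (f f' : (ZMod p)[X]) :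
    lamb g ζ (f + f') = lamb g ζ f + lamb g ζ f' := by
  rw [lamb, lamb, lamb, add_modByMonic, ← sum_add_distrib]
  refine sum_congr rfl fun j _ => ?_
  rw [coeff_add, add_mul]

theorem prin_lamb_C_mul {g : (ZMod p)[X]} (ζ : ℕ → ZMod p) (c : ZMod p) (f : (ZMod p)[X]) :
    lamb g ζ (C c * f) = c * lamb g ζ f := by
  rw [lamb, lamb, ← smul_eq_C_mul, smul_modByMonic, mul_sum]
  refine sum_congr rfl fun j _ => ?_
  rw [coeff_smul, smul_eq_mul, mul_assoc]

theorem prin_lamb_zero (g : (ZMod p)[X]) (ζ : ℕ → ZMod p) : lamb g ζ 0 = 0 := by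
  rw [lamb, zero_modByMonic]
  simp

theorem prin_lamb_sum {g : (ZMod p)[X]} (ζ : ℕ → ZMod p) (s : Finset ℕ)
    (F : ℕ → (ZMod p)[X]) : lamb g ζ (∑ i ∈ s, F i) = ∑ i ∈ s, lamb g ζ (F i) := by
  classical
  induction s using Finset.induction_on with
  | empty => rw [sum_empty, sum_empty, prin_lamb_zero]
  | insert i s hi ih => rw [sum_insert hi, sum_insert hi, prin_lamb_add, ih]

theorem prin_lamb_mul {g : (ZMod p)[X]} (hg : g.Monic) (ζ : ℕ → ZMod p) {f : (ZMod p)[X]}
    (h : g ∣ f) : lamb g ζ f = 0 := by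
  rw [lamb]
  refine sum_eq_zero fun j _ => ?_
  rw [(modByMonic_eq_zero_iff_dvd hg).mpr h, coeff_zero, zero_mul]

/-- Ramanujan type sum. -/
theorem sum_Cop_le {g : (ZMod p)[X]} (hg : g.Monic) (ζ : ℕ → ZMod p) {D : (ZMod p)[X]}
    (hD : D.Monic) (c : ℕ)
    (hc : ∀ Q : (ZMod p)[X], Q.Monic → Q ∣ g → (∀ f, lamb g ζ (D * Q * f) = 0) →
      c ≤ D.natDegree + Q.natDegree) :
    ‖∑ u ∈ Cop g, AD g ζ D u‖ ≤
      2 ^ om g * ((p : ℝ) ^ (g.natDegree + D.natDegree) / (p : ℝ) ^ c) := by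
  classical
  have hp : 2 ≤ p := (Fact.out : p.Prime).two_le
  have hpR : (1 : ℝ) ≤ p := by exact_mod_cast (by omega : 1 ≤ p)
  have hp0 : (0 : ℝ) < p := by linarith
  rw [prin_sum_Cop hg.ne_zero]
  have h1 : ∀ S ∈ (prin_pf g).powerset, ‖(-1 : ℂ) ^ S.card *
      ∑ w ∈ Plt p (g.natDegree - (∏ P ∈ S, P).natDegree), AD g ζ D ((∏ P ∈ S, P) * w)‖ ≤
      (p : ℝ) ^ (g.natDegree + D.natDegree) / (p : ℝ) ^ c := by
    intro S hS
    rw [mem_powerset] at hS
    set Q : (ZMod p)[X] := ∏ P ∈ S, P with hQ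
    have hQm : Q.Monic := prin_prod_monic hS
    have hQg : Q ∣ g := prin_prod_dvd hS
    have hdeg : Q.natDegree ≤ g.natDegree := natDegree_le_of_dvd hQg hg.ne_zero
    rw [norm_mul, norm_pow, norm_neg, norm_one, one_pow, one_mul]
    by_cases hex : ∃ w ∈ Plt p (g.natDegree - Q.natDegree), lamb g ζ (D * (Q * w)) ≠ 0
    · obtain ⟨w, hw, hw0⟩ := hex
      have h2 := prin_sum_zero (fun w => lamb g ζ (D * (Q * w))) (by
        intro f f'
        rw [mul_add, mul_add, prin_lamb_add]) hw hw0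
      have h3 : ∑ w ∈ Plt p (g.natDegree - Q.natDegree), AD g ζ D (Q * w) = 0 := h2
      rw [h3, norm_zero]
      positivity
    · push Not at hex
      have h2 : ∀ f, lamb g ζ (D * Q * f) = 0 := by
        intro f
        obtain ⟨R, hR⟩ := hQg
        have hRm : R.Monic := by
          rw [hR] at hg
          exact hQm.of_mul_monic_left hg
        have hdR : g.natDegree = Q.natDegree + R.natDegree := by
          rw [hR, hQm.natDegree_mul hRm]
        have h3 : D * Q * f = g * (D * (f /ₘ R)) + D * (Q * (f %ₘ R)) := by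
          conv_lhs => rw [← modByMonic_add_div f R]
          rw [hR]
          ring
        rw [h3, prin_lamb_add, prin_lamb_mul hg ζ (Dvd.intro _ rfl), zero_add]
        refine hex _ ?_
        rw [prin_mem_Plt, hdR, Nat.add_sub_cancel_left]
        have h4 := degree_modByMonic_lt f hRm
        rwa [degree_eq_natDegree hRm.ne_zero] at h4
      have h3 := hc Q hQm hQg h2
      have h4 : ‖∑ w ∈ Plt p (g.natDegree - Q.natDegree), AD g ζ D (Q * w)‖ ≤
          (p : ℝ) ^ (g.natDegree - Q.natDegree) := by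
        refine (norm_sum_le _ _).trans ?_
        have h5 : ∀ w ∈ Plt p (g.natDegree - Q.natDegree), ‖AD g ζ D (Q * w)‖ = 1 :=
          fun w _ => prin_norm_ch _
        rw [sum_congr rfl h5, sum_const, prin_card_Plt, nsmul_eq_mul, mul_one]
        push_cast
        exact le_rfl
      refine h4.trans ?_
      rw [le_div_iff₀ (by positivity), ← pow_add]
      exact pow_le_pow_right₀ hpR (by omega)
  refine (norm_sum_le _ _).trans ((sum_le_sum h1).trans (le_of_eq ?_))
  rw [sum_const, card_powerset, nsmul_eq_mul, prin_om]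
  push_cast
  rfl

theorem prin_avg_eq (g : (ZMod p)[X]) (K : ℕ) (A B : (ZMod p)[X] → ℂ) :
    avg g K A B = ((∑ u ∈ Cop g, A u) * ∑ v ∈ V1 p K, B v) / (((Cop g).card : ℂ) * (p : ℂ) ^ K) := by
  rw [avg, sum_mul_sum]

/-- Average of the two characters. -/
theorem prin_bound {g : (ZMod p)[X]} (hg : g.Monic) {N a : ℕ} {ζ : ℕ → ZMod p}
    (ha : ∀ j < a, act g ζ j = 0) (hga : g.natDegree ≤ a) (haN : 2 * a ≤ N)
    {D : (ZMod p)[X]} (hD : D.Monic) :
    ‖avg g (N - a - g.natDegree) (AD g ζ D) (BD g ζ N (N - a - g.natDegree) D)‖ ≤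
      (tau g : ℝ) ^ 2 *
        (if cx N ζ ≤ a then (p : ℝ) ^ D.natDegree / (p : ℝ) ^ cx N ζ else 0) := by
  classical
  have hp : 2 ≤ p := (Fact.out : p.Prime).two_le
  have hpR : (1 : ℝ) ≤ p := by exact_mod_cast (by omega : 1 ≤ p)
  have hp0 : (0 : ℝ) < p := by linarith
  set K := N - a - g.natDegree with hK
  rw [prin_avg_eq]
  by_cases hex : ∃ l ∈ Icc 1 K, kap g ζ N l ≠ 0
  · rw [sum_V1_eq_zero ζ N K hD hex, mul_zero, zero_div, norm_zero]
    refine mul_nonneg (by positivity) ?_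
    split_ifs
    · positivity
    · exact le_rfl
  · push Not at hex
    -- ζ is given by the functional
    have h1 : ∀ j < N, lamb g ζ (X ^ j) = ζ j := by
      intro j hj
      by_cases h : j < a + g.natDegree
      · exact lamb_pow hg ha j h
      · have h2 := hex (N - j) (mem_Icc.mpr ⟨by omega, by omega⟩)
        rw [kap, show N - (N - j) = j by omega] at h2
        exact (sub_eq_zero.mp h2).symm
    have hact : ∀ Q : (ZMod p)[X], (∀ f, lamb g ζ (Q * f) = 0) → Ann N Q ζ := by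
      intro Q hQ j hj
      have h2 := hQ (X ^ j)
      have h3 : lamb g ζ (Q * X ^ j) =
          ∑ i ∈ range (Q.natDegree + 1), Q.coeff i * lamb g ζ (X ^ (i + j)) := by
        conv_lhs => rw [Q.as_sum_range_C_mul_X_pow, sum_mul]
        rw [prin_lamb_sum]
        refine sum_congr rfl fun i _ => ?_
        rw [mul_assoc, ← pow_add, prin_lamb_C_mul]
      rw [h3] at h2
      rw [act, ← h2]
      refine sum_congr rfl fun i hi => ?_
      rw [mem_range] at hi
      rw [h1 (i + j) (by omega)]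
    have hcx : cx N ζ ≤ a := by
      refine (cx_le_of_ann hg (hact g fun f => prin_lamb_mul hg ζ (Dvd.intro _ rfl))).trans hga
    rw [if_pos hcx]
    have h2 := sum_Cop_le hg ζ hD (cx N ζ) (by
      intro Q hQ _ hQ0
      have h3 := cx_le_of_ann (hD.mul hQ) (hact (D * Q) hQ0)
      rwa [hD.natDegree_mul hQ] at h3)
    have h3 : ‖∑ v ∈ V1 p K, BD g ζ N K D v‖ ≤ (p : ℝ) ^ K := by
      refine (norm_sum_le _ _).trans ?_
      have h5 : ∀ v ∈ V1 p K, ‖BD g ζ N K D v‖ = 1 := fun w _ => prin_norm_ch _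
      rw [sum_congr rfl h5, sum_const, card_V1, nsmul_eq_mul, mul_one]
      push_cast
      exact le_rfl
    have h4 := card_Cop_ge hg
    have h5 := two_pow_om_le hg
    have hcop : (0 : ℝ) < ((Cop g).card : ℝ) := lt_of_lt_of_le (by positivity) h4
    rw [norm_div, norm_mul, norm_mul, norm_pow, Complex.norm_natCast, Complex.norm_natCast,
      div_le_iff₀ (by positivity)]
    set c := cx N ζ with hc
    have h6 : ‖∑ u ∈ Cop g, AD g ζ D u‖ * ‖∑ v ∈ V1 p K, BD g ζ N K D v‖ ≤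
        2 ^ om g * ((p : ℝ) ^ (g.natDegree + D.natDegree) / (p : ℝ) ^ c) * (p : ℝ) ^ K :=
      mul_le_mul h2 h3 (norm_nonneg _) (by positivity)
    refine h6.trans ?_
    have h7 : (2 : ℝ) ^ om g * ((p : ℝ) ^ (g.natDegree + D.natDegree) / (p : ℝ) ^ c) =
        (2 ^ om g) ^ 2 * ((p : ℝ) ^ D.natDegree / (p : ℝ) ^ c) *
          ((p : ℝ) ^ g.natDegree / 2 ^ om g) := by
      rw [pow_add]
      field_simp
    rw [h7]
    have h8 : ((2 : ℝ) ^ om g) ^ 2 ≤ (tau g : ℝ) ^ 2 := pow_le_pow_left₀ (by positivity) h5 2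
    calc _ ≤ (tau g : ℝ) ^ 2 * ((p : ℝ) ^ D.natDegree / (p : ℝ) ^ c) * ((Cop g).card : ℝ) *
          (p : ℝ) ^ K := by
          refine mul_le_mul_of_nonneg_right (mul_le_mul ?_ h4 (by positivity) (by positivity))
            (by positivity)
          exact mul_le_mul_of_nonneg_right h8 (by positivity)
      _ = _ := by ring

end

end Pool.Agent.MP6cc1fa
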