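import Pool.Agent.Lib.MP_6cc1fa_pr.Mon
import Pool.Agent.Lib.MP_6cc1fa_pr.Ann2
import Pool.Agent.Lib.MP_6cc1fa_pr.Split
import Pool.Agent.Lib.MP_6cc1fa_pr.Prin
import Pool.Agent.Lib.MP_6cc1fa_pr.Four
import Pool.Agent.Lib.MP_6cc1fa_pr.RHNewton

/-!
MP_6cc1fa_pr: the tuple bound, from the Riemann hypothesis for the character sums over the
irreducible polynomials (module RhIrr; here a hypothesis `RHI p`).
-/

set_option autoImplicit false

namespace Pool.Agent.MP6cc1fa

open Polynomial Finset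

noncomputable section

variable {p : ℕ} [Fact p.Prime]

theorem tup_mem_IrrT {k : ℕ} (d : Fin k → ℕ) (P : Fin k → (ZMod p)[X]) :
    P ∈ IrrT p d ↔ ∀ i, P i ∈ Irr p (d i) := by
  classical
  unfold IrrT
  exact Fintype.mem_piFinset

/-- sums over tuples, splitting off the first entry -/
theorem tup_sum_succ {k : ℕ} (d : Fin (k + 1) → ℕ) (f : (Fin (k + 1) → (ZMod p)[X]) → ℂ) :
    ∑ P ∈ IrrT p d, f P =
      ∑ P0 ∈ Irr p (d 0), ∑ P ∈ IrrT p (fun i => d i.succ), f (Fin.cons P0 P) := by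
  classical
  rw [← Finset.sum_product']
  refine (Finset.sum_nbij' (fun x => (Fin.cons x.1 x.2 : Fin (k + 1) → (ZMod p)[X]))
    (fun P => (P 0, fun i => P i.succ)) ?_ ?_ ?_ ?_ ?_).symm
  · rintro ⟨P0, P⟩ hP
    rw [mem_product, tup_mem_IrrT] at hP
    rw [tup_mem_IrrT]
    refine Fin.cases ?_ ?_
    · exact hP.1
    · intro i
      exact hP.2 i
  · intro P hP
    rw [tup_mem_IrrT] at hP
    rw [mem_product, tup_mem_IrrT]
    exact ⟨hP 0, fun i => hP i.succ⟩
  · rintro ⟨P0, P⟩ _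
    rfl
  · intro P _
    exact Fin.cons_self_tail P
  · rintro ⟨P0, P⟩ _
    rfl

/-- the primes dividing `g` -/
theorem tup_card_dvd {g : (ZMod p)[X]} (hg : g.Monic) (d : ℕ) [DecidablePred fun P => P ∣ g] :
    d * ((Irr p d).filter fun P => P ∣ g).card ≤ g.natDegree := by
  classical
  set s := (Irr p d).filter fun P => P ∣ g with hs
  have h1 : ∀ P ∈ s, P.Monic ∧ P.natDegree = d ∧ Irreducible P ∧ P ∣ g := by
    intro P hP
    rw [hs, mem_filter, mem_Irr] at hP
    exact ⟨hP.1.1, hP.1.2.1, hP.1.2.2, hP.2⟩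
  have h2 : ∏ P ∈ s, P ∣ g := by
    apply Finset.prod_dvd_of_coprime
    · intro P hP Q hQ hPQ
      have hP' := h1 P hP
      have hQ' := h1 Q hQ
      rcases hP'.2.2.1.isCoprime_or_dvd Q with h | h
      · exact h
      · exfalso
        apply hPQ
        have h3 : Associated P Q := (hP'.2.2.1.dvd_irreducible_iff_associated hQ'.2.2.1).1 h
        exact Polynomial.eq_of_monic_of_associated hP'.1 hQ'.1 h3
    · intro P hP
      exact (h1 P hP).2.2.2
  have h3 : (∏ P ∈ s, P).natDegree = d * s.card := by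
    rw [Polynomial.natDegree_prod_of_monic _ _ fun P hP => (h1 P hP).1]
    rw [Finset.sum_congr rfl fun P hP => (h1 P hP).2.1]
    rw [Finset.sum_const, smul_eq_mul, mul_comm]
  rw [← h3]
  exact Polynomial.natDegree_le_of_dvd h2 hg.ne_zero

/-- The sum over tuples of primes not dividing `g`. -/
def tup_S (g : (ZMod p)[X]) (W : (ZMod p)[X] → ℂ) {l : ℕ} (e : Fin l → ℕ) (D : (ZMod p)[X]) : ℂ :=
  by
    classical
    exact ∑ R ∈ (IrrT p e).filter (fun R => ∀ i, ¬ R i ∣ g),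
      ((∏ i, e i : ℕ) : ℂ) * W (D * ∏ i, R i)

theorem tup_S_cons (g : (ZMod p)[X]) (W : (ZMod p)[X] → ℂ) {l : ℕ} (e : Fin l → ℕ) (d0 : ℕ)
    (D : (ZMod p)[X]) [DecidablePred fun P => ¬ P ∣ g] :
    tup_S g W (Fin.cons d0 e : Fin (l + 1) → ℕ) D =
      ∑ P0 ∈ (Irr p d0).filter (fun P => ¬ P ∣ g), (d0 : ℂ) * tup_S g W e (D * P0) := by
  classical
  unfold tup_S
  rw [Finset.sum_filter, tup_sum_succ, Finset.sum_filter]
  refine Finset.sum_congr rfl fun P0 _ => ?_
  by_cases h : P0 ∣ g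
  · simp [h, Fin.forall_fin_succ]
  · rw [if_pos h, Finset.mul_sum, Finset.sum_filter]
    refine Finset.sum_congr rfl fun R _ => ?_
    have h1 : (∀ i, ¬ (Fin.cons P0 R : Fin (l + 1) → (ZMod p)[X]) i ∣ g) ↔ ∀ i, ¬ R i ∣ g := by
      rw [Fin.forall_fin_succ]
      simp [h]
    by_cases h2 : ∀ i, ¬ R i ∣ g
    · rw [if_pos (h1.2 h2), if_pos h2]
      rw [Fin.prod_univ_succ, Fin.prod_univ_succ]
      simp only [Fin.cons_zero, Fin.cons_succ]
      push_cast
      rw [mul_assoc D P0]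
      ring
    · rw [if_neg (fun h3 => h2 (h1.1 h3)), if_neg h2]

/-- the induction -/
theorem tup_induct {g : (ZMod p)[X]} (hg : g.Monic) (W : (ZMod p)[X] → ℂ) {k N : ℕ} (β : ℝ)
    (hgN : g.natDegree ≤ N) (hβ0 : 0 ≤ β)
    (hβ : ∀ (l : ℕ) (e : Fin l → ℕ) (D : (ZMod p)[X]), l ≤ k → (∀ i, 1 ≤ e i) → D.Monic →
      D.natDegree + ∑ i, e i = N → ‖tup_S g W e D‖ ≤ β) :
    ∀ (m l : ℕ) (d : Fin m → ℕ) (e : Fin l → ℕ) (D : (ZMod p)[X]), m + l ≤ k → (∀ i, 1 ≤ d i) →
      (∀ i, 1 ≤ e i) → D.Monic → D.natDegree + ∑ i, d i + ∑ i, e i = N →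
      ‖∑ P ∈ IrrT p d, ((∏ i, d i : ℕ) : ℂ) * tup_S g W e (D * ∏ i, P i)‖ ≤
        (N + 1 : ℝ) ^ m * β := by
  classical
  intro m
  induction m with
  | zero =>
    intro l d e D hl _ he hD hdeg
    have h1 : IrrT p d = {fun i => i.elim0} := by
      ext P
      rw [tup_mem_IrrT, mem_singleton]
      constructor
      · intro _
        exact Subsingleton.elim _ _
      · intro _ i
        exact i.elim0
    rw [h1, Finset.sum_singleton]
    simp only [univ_eq_empty, prod_empty, Nat.cast_one, one_mul, mul_one, pow_zero]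
    exact hβ l e D (by omega) he hD (by simpa using hdeg)
  | succ m ih =>
    intro l d e D hl hd he hD hdeg
    rw [Fin.sum_univ_succ] at hdeg
    rw [tup_sum_succ]
    rw [← Finset.sum_filter_add_sum_filter_not (Irr p (d 0)) (fun P => P ∣ g)]
    have hN1 : (0 : ℝ) ≤ (N + 1 : ℝ) ^ m * β := by positivity
    have hfirst : ‖∑ P0 ∈ (Irr p (d 0)).filter (fun P => P ∣ g),
        ∑ P ∈ IrrT p (fun i => d i.succ), ((∏ i, d i : ℕ) : ℂ) *
          tup_S g W e (D * ∏ i, (Fin.cons P0 P : Fin (m + 1) → (ZMod p)[X]) i)‖ ≤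
        N * ((N + 1 : ℝ) ^ m * β) := by
      calc _ ≤ ∑ P0 ∈ (Irr p (d 0)).filter (fun P => P ∣ g), (d 0 : ℝ) * ((N + 1 : ℝ) ^ m * β) := by
            refine norm_sum_le_of_le _ fun P0 hP0 => ?_
            rw [mem_filter, mem_Irr] at hP0
            have h1 : ∑ P ∈ IrrT p (fun i => d i.succ), ((∏ i, d i : ℕ) : ℂ) *
                tup_S g W e (D * ∏ i, (Fin.cons P0 P : Fin (m + 1) → (ZMod p)[X]) i) =
                (d 0 : ℂ) * ∑ P ∈ IrrT p (fun i => d i.succ), ((∏ i, d (Fin.succ i) : ℕ) : ℂ) *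
                  tup_S g W e ((D * P0) * ∏ i, P i) := by
              rw [Finset.mul_sum]
              refine Finset.sum_congr rfl fun P _ => ?_
              rw [Fin.prod_univ_succ, Fin.prod_univ_succ]
              simp only [Fin.cons_zero, Fin.cons_succ]
              rw [← mul_assoc D P0]
              push_cast
              ring
            rw [h1, norm_mul, Complex.norm_natCast]
            refine mul_le_mul_of_nonneg_left ?_ (Nat.cast_nonneg _)
            refine ih l (fun i => d i.succ) e (D * P0) (by omega) (fun i => hd _) he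
              (hD.mul hP0.1.1) ?_
            rw [hD.natDegree_mul hP0.1.1, hP0.1.2.1]
            omega
        _ = ((d 0 * ((Irr p (d 0)).filter (fun P => P ∣ g)).card : ℕ) : ℝ) *
            ((N + 1 : ℝ) ^ m * β) := by
            rw [Finset.sum_const, nsmul_eq_mul]
            push_cast
            ring
        _ ≤ N * ((N + 1 : ℝ) ^ m * β) := by
            refine mul_le_mul_of_nonneg_right ?_ hN1
            exact_mod_cast (tup_card_dvd hg (d 0)).trans hgN
    have hsecond : ‖∑ P0 ∈ (Irr p (d 0)).filter (fun P => ¬ P ∣ g),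
        ∑ P ∈ IrrT p (fun i => d i.succ), ((∏ i, d i : ℕ) : ℂ) *
          tup_S g W e (D * ∏ i, (Fin.cons P0 P : Fin (m + 1) → (ZMod p)[X]) i)‖ ≤
        (N + 1 : ℝ) ^ m * β := by
      have h1 : ∑ P0 ∈ (Irr p (d 0)).filter (fun P => ¬ P ∣ g),
          ∑ P ∈ IrrT p (fun i => d i.succ), ((∏ i, d i : ℕ) : ℂ) *
            tup_S g W e (D * ∏ i, (Fin.cons P0 P : Fin (m + 1) → (ZMod p)[X]) i) =
          ∑ P ∈ IrrT p (fun i => d i.succ), ((∏ i, d (Fin.succ i) : ℕ) : ℂ) *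
            tup_S g W (Fin.cons (d 0) e : Fin (l + 1) → ℕ) (D * ∏ i, P i) := by
        rw [Finset.sum_comm]
        refine Finset.sum_congr rfl fun P _ => ?_
        rw [tup_S_cons, Finset.mul_sum]
        refine Finset.sum_congr rfl fun P0 _ => ?_
        rw [Fin.prod_univ_succ, Fin.prod_univ_succ]
        simp only [Fin.cons_zero, Fin.cons_succ]
        have h2 : D * (P0 * ∏ i, P i) = D * (∏ i, P i) * P0 := by ring
        rw [h2]
        push_cast
        ring
      rw [h1]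
      refine ih (l + 1) (fun i => d i.succ) (Fin.cons (d 0) e) D (by omega) (fun i => hd _) ?_ hD ?_
      · refine Fin.cases ?_ ?_
        · exact hd 0
        · intro i
          exact he i
      · rw [Fin.sum_univ_succ (Fin.cons (d 0) e : Fin (l + 1) → ℕ)]
        simp only [Fin.cons_zero, Fin.cons_succ]
        omega
    calc _ ≤ N * ((N + 1 : ℝ) ^ m * β) + (N + 1 : ℝ) ^ m * β := (norm_add_le _ _).trans
            (add_le_add hfirst hsecond)
      _ = (N + 1 : ℝ) ^ (m + 1) * β := by ring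

theorem tup_norm_ch (x : ZMod p) : ‖ch x‖ = 1 := by
  unfold ch
  exact AddChar.norm_apply _ _

theorem tup_prod_mem {l N : ℕ} {e : Fin l → ℕ} {D : (ZMod p)[X]} (hD : D.Monic)
    (hdeg : D.natDegree + ∑ i, e i = N) {R : Fin l → (ZMod p)[X]} (hR : R ∈ IrrT p e) :
    D * ∏ i, R i ∈ MD p N := by
  rw [tup_mem_IrrT] at hR
  have h1 : ∀ i, (R i).Monic ∧ (R i).natDegree = e i ∧ Irreducible (R i) := fun i =>
    (mem_Irr _ _).1 (hR i)
  have h2 : (∏ i, R i).Monic := Polynomial.monic_prod_of_monic _ _ fun i _ => (h1 i).1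
  rw [mem_MD]
  refine ⟨hD.mul h2, ?_⟩
  rw [hD.natDegree_mul h2, Polynomial.natDegree_prod_of_monic _ _ fun i _ => (h1 i).1]
  rw [Finset.sum_congr rfl fun i _ => (h1 i).2.1]
  exact hdeg

/-- The statement of `rh_irr` (module RhIrr). -/
def RHI (p : ℕ) [Fact p.Prime] : Prop :=
  ∀ {g : (ZMod p)[X]} (_ : g.Monic) (K : ℕ) (ψ : MulChar (AA g K) ℂ)
    (_ : ∃ x ∈ Gam g K, ψ x ≠ 1) (d : ℕ) (_ : 1 ≤ d),
    ‖∑ P ∈ Irr p d, (d : ℂ) * ψ (lamA g K P)‖ ≤ (g.natDegree + K + d : ℝ) * Real.sqrt p ^ d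

open Classical in
/-- Tuple sums of a function of the residue modulo `g` and of the top coefficients. -/
theorem four_tuple_rhi (hR : RHI p) {g : (ZMod p)[X]} (hg : g.Monic) (K : ℕ)
    (A B : (ZMod p)[X] → ℂ)
    (hA : ∀ f f', g ∣ f - f' → A f = A f') (hB : ∀ v v', X ^ (K + 1) ∣ v - v' → B v = B v')
    (hA1 : ∀ f, ‖A f‖ ≤ 1) (hB1 : ∀ v, ‖B v‖ ≤ 1) {k : ℕ} (d : Fin k → ℕ) (hd : ∀ i, 1 ≤ d i) :
    ‖∑ P ∈ (IrrT p d).filter (fun P => ∀ i, ¬ P i ∣ g),
        ((∏ i, d i : ℕ) : ℂ) * (A (∏ i, P i) * B (∏ i, P i).reverse)‖ ≤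
      ‖avg g K A B‖ * (p : ℝ) ^ (∑ i, d i) +
        (∏ i, (g.natDegree + K + d i : ℝ)) * Real.sqrt p ^ (∑ i, d i + g.natDegree + K) :=
  four_tuple_of hg K A B hA hB hA1 hB1 d hd card_Irr_le fun ψ hψ d hd => hR hg K ψ hψ d hd

theorem tup_base_rhi (hR : RHI p) {g : (ZMod p)[X]} (hg : g.Monic) {N a k : ℕ} {ζ : ℕ → ZMod p}
    (ha : ∀ j < a, act g ζ j = 0) (hga : g.natDegree ≤ a) (haN : 2 * a ≤ N) (M : ℝ)
    (hM : (tau g : ℝ) ≤ M) (hk : k = 0 ∨ 1 ≤ N) {l : ℕ} (e : Fin l → ℕ) (D : (ZMod p)[X])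
    (hl : l ≤ k) (he : ∀ i, 1 ≤ e i) (hD : D.Monic) (hdeg : D.natDegree + ∑ i, e i = N) :
    ‖tup_S g (fun F => ch (∑ j ∈ range N, F.coeff j * ζ j)) e D‖ ≤
      M ^ 2 * (if cx N ζ ≤ a then (p : ℝ) ^ N / (p : ℝ) ^ cx N ζ else 0) +
        (2 * N : ℝ) ^ k * Real.sqrt p ^ (2 * N - a) := by
  classical
  set K := N - a - g.natDegree with hK
  have haN' : a + g.natDegree ≤ N := by omega
  have h1 : tup_S g (fun F => ch (∑ j ∈ range N, F.coeff j * ζ j)) e D =
      ch (- lamb g ζ (X ^ N)) * ∑ R ∈ (IrrT p e).filter (fun R => ∀ i, ¬ R i ∣ g),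
        ((∏ i, e i : ℕ) : ℂ) * (AD g ζ D (∏ i, R i) * BD g ζ N K D (∏ i, R i).reverse) := by
    unfold tup_S
    rw [Finset.mul_sum]
    refine Finset.sum_congr (by congr) fun R hR => ?_
    rw [mem_filter] at hR
    beta_reduce
    rw [ch_split hg ha haN' (tup_prod_mem hD hdeg hR.1)]
    ring
  rw [h1, norm_mul, tup_norm_ch, one_mul]
  have h2 := four_tuple_rhi hR hg K (AD g ζ D) (BD g ζ N K D) (fun f f' h => AD_congr hg ζ D f f' h)
    (fun v v' h => BD_congr ζ N K D v v' h) (fun f => (tup_norm_ch _).le)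
    (fun v => (tup_norm_ch _).le) e he
  have h3 := prin_bound hg ha hga haN hD
  rw [← hK] at h3
  have hp1 : (1 : ℝ) ≤ p := by exact_mod_cast (Fact.out : p.Prime).one_le
  have hp0 : (0 : ℝ) < p := by linarith
  have htau : (0 : ℝ) ≤ tau g := Nat.cast_nonneg _
  have hM0 : 0 ≤ M := htau.trans hM
  refine le_trans (le_of_eq ?_) (h2.trans (add_le_add ?_ ?_))
  · congr 1
  · have h4 : (tau g : ℝ) ^ 2 *
        (if cx N ζ ≤ a then (p : ℝ) ^ D.natDegree / (p : ℝ) ^ cx N ζ else 0) ≤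
        M ^ 2 * (if cx N ζ ≤ a then (p : ℝ) ^ D.natDegree / (p : ℝ) ^ cx N ζ else 0) := by
      refine mul_le_mul_of_nonneg_right ?_ ?_
      · exact pow_le_pow_left₀ htau hM 2
      · split_ifs
        · positivity
        · exact le_refl _
    calc _ ≤ (M ^ 2 * (if cx N ζ ≤ a then (p : ℝ) ^ D.natDegree / (p : ℝ) ^ cx N ζ else 0)) *
          (p : ℝ) ^ (∑ i, e i) := mul_le_mul_of_nonneg_right (h3.trans h4) (by positivity)
      _ = M ^ 2 * (if cx N ζ ≤ a then (p : ℝ) ^ N / (p : ℝ) ^ cx N ζ else 0) := by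
          rw [mul_assoc]
          congr 1
          split_ifs
          · rw [← hdeg, pow_add]
            ring
          · simp
  · have hs1 : (1 : ℝ) ≤ Real.sqrt p := by
      rw [show (1 : ℝ) = Real.sqrt 1 by simp]
      exact Real.sqrt_le_sqrt hp1
    refine mul_le_mul ?_ ?_ (by positivity) (by positivity)
    · calc ∏ i, (g.natDegree + K + e i : ℝ) ≤ ∏ _i : Fin l, (2 * N : ℝ) := by
            refine Finset.prod_le_prod (fun i _ => by positivity) fun i _ => ?_
            have h5 : e i ≤ ∑ i, e i := Finset.single_le_sum (fun _ _ => Nat.zero_le _)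
              (Finset.mem_univ i)
            have h6 : g.natDegree + K + e i ≤ 2 * N := by omega
            exact_mod_cast h6
        _ = (2 * N : ℝ) ^ l := by simp
        _ ≤ (2 * N : ℝ) ^ k := by
            rcases hk with hk | hk
            · subst hk
              rw [Nat.le_zero.1 hl]
            · apply pow_le_pow_right₀ _ hl
              have : (1 : ℝ) ≤ N := by exact_mod_cast hk
              linarith
    · apply pow_le_pow_right₀ hs1
      omega

/-- The tuple bound, from the Riemann hypothesis. -/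
theorem tup_bound_rhi (hR : RHI p) {k N a : ℕ} (d : Fin k → ℕ) (hd : ∀ i, 1 ≤ d i) (hN : ∑ i, d i = N)
    (ha : 2 * a ≤ N) (M : ℝ) (hM : ∀ f : (ZMod p)[X], f.Monic → f.natDegree ≤ a →
      (tau f : ℝ) ≤ M) (ζ : ℕ → ZMod p) :
    ‖∑ P ∈ IrrT p d, ((∏ i, d i : ℕ) : ℂ) * ch (∑ j ∈ range N, (∏ i, P i).coeff j * ζ j)‖ ≤
      (N + 1 : ℝ) ^ k * (M ^ 2 * (if cx N ζ ≤ a then (p : ℝ) ^ N / (p : ℝ) ^ cx N ζ else 0) +
        (2 * N : ℝ) ^ k * Real.sqrt p ^ (2 * N - a)) := by
  classical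
  obtain ⟨g, hg, hga, hann⟩ := exists_approx ha ζ
  have hk : k = 0 ∨ 1 ≤ N := by
    rcases Nat.eq_zero_or_pos k with h | h
    · exact Or.inl h
    · right
      rw [← hN]
      exact (hd ⟨0, h⟩).trans (Finset.single_le_sum (fun _ _ => Nat.zero_le _)
        (Finset.mem_univ _))
  have h1 := tup_induct hg (fun F => ch (∑ j ∈ range N, F.coeff j * ζ j)) (k := k) (N := N)
    (M ^ 2 * (if cx N ζ ≤ a then (p : ℝ) ^ N / (p : ℝ) ^ cx N ζ else 0) +
        (2 * N : ℝ) ^ k * Real.sqrt p ^ (2 * N - a)) (by omega) (by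
      apply add_nonneg
      · apply mul_nonneg (sq_nonneg _)
        split_ifs
        · positivity
        · exact le_refl _
      · positivity)
    (fun l e D hl he hD hdeg => tup_base_rhi hR hg hann hga ha M (hM g hg hga) hk e D hl he hD hdeg)
    k 0 d (fun i => i.elim0) 1 (by omega) hd (fun i => i.elim0) Polynomial.monic_one (by
      simpa using hN)
  refine le_trans (le_of_eq ?_) h1
  congr 1
  refine Finset.sum_congr rfl fun P _ => ?_
  congr 1
  unfold tup_S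
  have h2 : (IrrT p (fun i : Fin 0 => (i.elim0 : ℕ))).filter (fun R => ∀ i, ¬ R i ∣ g) =
      {fun i => i.elim0} := by
    ext R
    rw [mem_filter, tup_mem_IrrT, mem_singleton]
    constructor
    · intro _
      exact Subsingleton.elim _ _
    · intro _
      exact ⟨fun i => i.elim0, fun i => i.elim0⟩
  rw [h2, Finset.sum_singleton]
  simp

end

end Pool.Agent.MP6cc1fa
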