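import Pool.Agent.Lib.MP_6cc1fa_pr.S2Of
import Pool.Agent.Lib.MP_6cc1fa_pr.Tup
import Pool.Agent.Lib.MP_6cc1fa_pr.RhIrr

set_option autoImplicit false

/-!
# The Fourier transform of the factor counts, general case
-/

namespace Pool.Agent.MP6cc1fa

open Polynomial Finset

noncomputable section

variable {p : ℕ} [Fact p.Prime]

/-- The bound `S_big`, from the Riemann hypothesis for sums over irreducibles (`RHI p`, which is
the statement of `rh_irr`). -/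
theorem S_big_rhi (hR : RHI p) {n e k a : ℕ} (d : Fin k → ℕ) (hd : ∀ i, 1 ≤ d i)
    (hn : ∑ i, d i + e = n)
    (ha : 2 * a + 2 * e ≤ n) (M : ℝ) (hM : ∀ f : (ZMod p)[X], f.Monic → f.natDegree ≤ n →
      (tau f : ℝ) ≤ M) (η : Fin n → ZMod p) :
    ‖expS n (fun f => ((∏ i, d i : ℕ) : ℂ) * cnt d f) η‖ ≤
      (n + 1 : ℝ) ^ k * ((n + 1) * M ^ 3 *
        (if cx n (ext η) ≤ a + e then 1 / (p : ℝ) ^ cx n (ext η) else 0) +
        (2 * n : ℝ) ^ k / Real.sqrt p ^ a) :=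
  S_big_of (fun _ _ _ d hd hN ha M hM ζ => tup_bound_rhi hR d hd hN ha M hM ζ)
    d hd hn ha M hM η

theorem rhi : RHI p := fun hg K ψ hψ d hd => rh_irr hg K ψ hψ d hd

theorem tup_bound {k N a : ℕ} (d : Fin k → ℕ) (hd : ∀ i, 1 ≤ d i) (hN : ∑ i, d i = N)
    (ha : 2 * a ≤ N) (M : ℝ) (hM : ∀ f : (ZMod p)[X], f.Monic → f.natDegree ≤ a →
      (tau f : ℝ) ≤ M) (ζ : ℕ → ZMod p) :
    ‖∑ P ∈ IrrT p d, ((∏ i, d i : ℕ) : ℂ) * ch (∑ j ∈ range N, (∏ i, P i).coeff j * ζ j)‖ ≤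
      (N + 1 : ℝ) ^ k * (M ^ 2 * (if cx N ζ ≤ a then (p : ℝ) ^ N / (p : ℝ) ^ cx N ζ else 0) +
        (2 * N : ℝ) ^ k * Real.sqrt p ^ (2 * N - a)) :=
  tup_bound_rhi rhi d hd hN ha M hM ζ

theorem S_big {n e k a : ℕ} (d : Fin k → ℕ) (hd : ∀ i, 1 ≤ d i) (hn : ∑ i, d i + e = n)
    (ha : 2 * a + 2 * e ≤ n) (M : ℝ) (hM : ∀ f : (ZMod p)[X], f.Monic → f.natDegree ≤ n →
      (tau f : ℝ) ≤ M) (η : Fin n → ZMod p) :
    ‖expS n (fun f => ((∏ i, d i : ℕ) : ℂ) * cnt d f) η‖ ≤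
      (n + 1 : ℝ) ^ k * ((n + 1) * M ^ 3 *
        (if cx n (ext η) ≤ a + e then 1 / (p : ℝ) ^ cx n (ext η) else 0) +
        (2 * n : ℝ) ^ k / Real.sqrt p ^ a) :=
  S_big_rhi rhi d hd hn ha M hM η

end

end Pool.Agent.MP6cc1fa
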