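import Pool.Agent.Lib.MP_6cc1fa_pr.MixDefs
import Pool.Agent.Lib.MP_6cc1fa_pr.Trunc

/-!
MP_6cc1fa_pr, module TruncN: truncation of the Fourier transform of the square root, where the
function depends on the position.
-/

set_option autoImplicit false

namespace Pool.Agent.MP6cc1fa

open Polynomial Finset

noncomputable section

variable {p : ℕ} [Fact p.Prime]

/-- The transform of the tensor power. -/
def truncN_sh {n : ℕ} (z : Fin n → ZMod p → ℂ) (θ : Fin n → ZMod p) : ℂ :=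
  ∏ i, ∑ x, z i x * ch (-(θ i * x))

theorem truncN_sh_eq {n : ℕ} (z : Fin n → ZMod p → ℂ) (θ : Fin n → ZMod p) :
    truncN_sh z θ = ∑ b : Fin n → ZMod p, (∏ i, z i (b i)) * ch (-∑ i, θ i * b i) := by
  unfold truncN_sh
  rw [Finset.prod_univ_sum, Fintype.piFinset_univ]
  refine Finset.sum_congr rfl fun b _ => ?_
  rw [Finset.prod_mul_distrib, ← Finset.sum_neg_distrib, trunc_ch_sum]

theorem truncN_sh_norm {n : ℕ} (z : Fin n → ZMod p → ℂ) (θ : Fin n → ZMod p) :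
    ‖truncN_sh z θ‖ ^ 2 = (p : ℝ) ^ n * ∏ i, nu (z i) (θ i) := by
  have hp : (p : ℝ) ≠ 0 := Nat.cast_ne_zero.2 (Fact.out : p.Prime).ne_zero
  unfold truncN_sh nu
  rw [norm_prod, ← Finset.prod_pow, Finset.prod_div_distrib, Finset.prod_const, card_univ,
    Fintype.card_fin]
  field_simp

theorem truncN_inv {n : ℕ} (z : Fin n → ZMod p → ℂ) (a : Fin n → ZMod p) :
    ∑ θ : Fin n → ZMod p, truncN_sh z θ * ch (∑ i, θ i * a i) = (p : ℂ) ^ n * ∏ i, z i (a i) := by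
  simp_rw [truncN_sh_eq, Finset.sum_mul]
  rw [Finset.sum_comm, Finset.sum_eq_single a]
  · have h1 : ∀ θ : Fin n → ZMod p, (∏ i, z i (a i)) * ch (-∑ i, θ i * a i) * ch (∑ i, θ i * a i)
        = ∏ i, z i (a i) := by
      intro θ
      rw [mul_assoc, ← trunc_ch_add, neg_add_cancel, trunc_ch_zero, mul_one]
    rw [Finset.sum_congr rfl fun θ _ => h1 θ, Finset.sum_const, card_univ, nsmul_eq_mul]
    congr 1
    simp [ZMod.card]
  · intro b _ hb
    have h1 : ∀ θ : Fin n → ZMod p, (∏ i, z i (b i)) * ch (-∑ i, θ i * b i) * ch (∑ i, θ i * a i)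
        = (∏ i, z i (b i)) * ch (∑ i, θ i * (a - b) i) := by
      intro θ
      rw [mul_assoc, ← trunc_ch_add]
      congr 2
      rw [neg_add_eq_sub, ← Finset.sum_sub_distrib]
      exact Finset.sum_congr rfl fun i _ => by rw [Pi.sub_apply, mul_sub]
    rw [Finset.sum_congr rfl fun θ _ => h1 θ, ← Finset.mul_sum, trunc_orth,
      if_neg (sub_ne_zero.2 (Ne.symm hb)), mul_zero]
  · intro h5
    exact absurd (mem_univ _) h5

theorem truncN_sh_norm' {n : ℕ} (z : Fin n → ZMod p → ℂ) (θ : Fin n → ZMod p) :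
    ‖truncN_sh z θ‖ = Real.sqrt ((p : ℝ) ^ n) * Real.sqrt (∏ i, nu (z i) (θ i)) := by
  rw [← Real.sqrt_mul (by positivity), ← truncN_sh_norm, Real.sqrt_sq (norm_nonneg _)]

theorem truncN_sum_prod_nu {n : ℕ} (z : Fin n → ZMod p → ℂ) (hz : ∀ i, ∑ x, ‖z i x‖ ^ 2 = 1) :
    ∑ θ : Fin n → ZMod p, ∏ i, nu (z i) (θ i) = 1 := by
  have h : ∏ i : Fin n, ∑ x, nu (z i) x = ∑ θ : Fin n → ZMod p, ∏ i, nu (z i) (θ i) := by
    rw [Finset.prod_univ_sum, Fintype.piFinset_univ]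
  rw [← h]
  simp_rw [sum_nu, hz]
  simp

theorem truncN_sum_prod_z {n : ℕ} (z : Fin n → ZMod p → ℂ) (hz : ∀ i, ∑ x, ‖z i x‖ ^ 2 = 1) :
    ∑ a : Fin n → ZMod p, ∏ i, ‖z i (a i)‖ ^ 2 = 1 := by
  have h : ∏ i : Fin n, ∑ x, ‖z i x‖ ^ 2 = ∑ a : Fin n → ZMod p, ∏ i, ‖z i (a i)‖ ^ 2 := by
    rw [Finset.prod_univ_sum, Fintype.piFinset_univ]
  rw [← h]
  simp_rw [hz]
  simp

/-- The part of the Fourier expansion with frequencies in `T`. -/
def truncN_R {n : ℕ} (z : Fin n → ZMod p → ℂ) (T : Finset (Fin n → ZMod p)) (a : Fin n → ZMod p) : ℂ :=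
  ∑ θ : Fin n → ZMod p, (if θ ∈ T then truncN_sh z θ / (p : ℂ) ^ n else 0) * ch (∑ i, θ i * a i)

theorem truncN_R_norm {n : ℕ} (z : Fin n → ZMod p → ℂ) (T : Finset (Fin n → ZMod p)) :
    ∑ a : Fin n → ZMod p, ‖truncN_R z T a‖ ^ 2 = ∑ θ ∈ T, ∏ i, nu (z i) (θ i) := by
  have hp : (p : ℝ) ≠ 0 := Nat.cast_ne_zero.2 (Fact.out : p.Prime).ne_zero
  have hN : (p : ℝ) ^ n ≠ 0 := pow_ne_zero _ hp
  unfold truncN_R
  rw [trunc_planch]
  have h1 : ∀ θ : Fin n → ZMod p, ‖(if θ ∈ T then truncN_sh z θ / (p : ℂ) ^ n else 0)‖ ^ 2 =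
      if θ ∈ T then (∏ i, nu (z i) (θ i)) / (p : ℝ) ^ n else 0 := by
    intro θ
    split_ifs
    · rw [norm_div, div_pow, truncN_sh_norm, norm_pow, Complex.norm_natCast]
      field_simp
    · simp
  rw [Finset.sum_congr rfl fun θ _ => h1 θ, ← Finset.sum_filter]
  rw [Finset.filter_mem_eq_inter, Finset.univ_inter, ← Finset.sum_div]
  field_simp

theorem truncN_sub_R {n : ℕ} (z : Fin n → ZMod p → ℂ) (T : Finset (Fin n → ZMod p))
    (a : Fin n → ZMod p) : ∏ i, z i (a i) - truncN_R z T a = truncN_R z (univ \ T) a := by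
  have hp : (p : ℂ) ≠ 0 := Nat.cast_ne_zero.2 (Fact.out : p.Prime).ne_zero
  have hN : (p : ℂ) ^ n ≠ 0 := pow_ne_zero _ hp
  have h1 : ∏ i, z i (a i) = truncN_R z T a + truncN_R z (univ \ T) a := by
    have h2 := truncN_inv z a
    unfold truncN_R
    rw [← Finset.sum_add_distrib]
    have h3 : ∀ θ : Fin n → ZMod p,
        (if θ ∈ T then truncN_sh z θ / (p : ℂ) ^ n else 0) * ch (∑ i, θ i * a i) +
        (if θ ∈ univ \ T then truncN_sh z θ / (p : ℂ) ^ n else 0) * ch (∑ i, θ i * a i) =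
        (truncN_sh z θ * ch (∑ i, θ i * a i)) / (p : ℂ) ^ n := by
      intro θ
      by_cases hθ : θ ∈ T
      · simp only [hθ, if_true, mem_sdiff, mem_univ, not_true_eq_false, and_false, if_false]
        ring
      · simp only [hθ, if_false, mem_sdiff, mem_univ, not_false_eq_true, and_true, if_true]
        ring
    rw [Finset.sum_congr rfl fun θ _ => h3 θ, ← Finset.sum_div, h2]
    field_simp
  rw [h1]
  ring

theorem truncN_R_weight {n : ℕ} (z : Fin n → ZMod p → ℂ) (T : Finset (Fin n → ZMod p))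
    (G : (ZMod p)[X] → ℂ) :
    ∑ a : Fin n → ZMod p, ((‖truncN_R z T a‖ ^ 2 : ℝ) : ℂ) * G (mon a) =
      ∑ θ ∈ T, ∑ θ' ∈ T, truncN_sh z θ * (starRingEnd ℂ) (truncN_sh z θ') / (p : ℂ) ^ n *
        expS n G (θ - θ') := by
  have hp : (p : ℂ) ≠ 0 := Nat.cast_ne_zero.2 (Fact.out : p.Prime).ne_zero
  have hN : (p : ℂ) ^ n ≠ 0 := pow_ne_zero _ hp
  have hT : ∀ f : (Fin n → ZMod p) → ℂ, ∑ θ ∈ T, f θ = ∑ θ, if θ ∈ T then f θ else 0 := by
    intro f
    rw [Finset.sum_ite_mem, Finset.univ_inter]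
  unfold truncN_R
  rw [trunc_bilin, hT]
  refine Finset.sum_congr rfl fun θ _ => ?_
  by_cases hθ : θ ∈ T
  · rw [if_pos hθ, hT, if_pos hθ]
    refine Finset.sum_congr rfl fun θ' _ => ?_
    by_cases hθ' : θ' ∈ T
    · rw [if_pos hθ', if_pos hθ']
      unfold expS
      rw [map_div₀, map_pow, Complex.conj_natCast]
      field_simp
    · rw [if_neg hθ', if_neg hθ', map_zero, mul_zero, zero_mul]
  · rw [if_neg hθ, if_neg hθ]
    exact Finset.sum_eq_zero fun θ' _ => by rw [zero_mul, zero_mul]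

theorem truncN {n : ℕ} (z : Fin n → ZMod p → ℂ) (hz : ∀ i, ∑ x, ‖z i x‖ ^ 2 = 1) (T : Finset (Fin n → ZMod p))
    (G : (ZMod p)[X] → ℂ) (B : ℝ) (hG : ∀ a : Fin n → ZMod p, ‖G (mon a)‖ ≤ B) :
    ‖∑ a : Fin n → ZMod p, ((∏ i, ‖z i (a i)‖ ^ 2 : ℝ) : ℂ) * G (mon a) -
        (∑ a : Fin n → ZMod p, G (mon a)) / (p : ℂ) ^ n‖ ≤
      3 * B * Real.sqrt (∑ θ ∈ univ \ T, ∏ i, nu (z i) (θ i)) +
      ∑ θ ∈ T, ∑ θ' ∈ T, if θ' = θ then 0 else
        Real.sqrt (∏ i, nu (z i) (θ i)) * Real.sqrt (∏ i, nu (z i) (θ' i)) * ‖expS n G (θ - θ')‖ := by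
  have hp : (p : ℝ) ≠ 0 := Nat.cast_ne_zero.2 (Fact.out : p.Prime).ne_zero
  have hp0 : (0 : ℝ) < p := Nat.cast_pos.2 (Fact.out : p.Prime).pos
  have hN : (p : ℝ) ^ n ≠ 0 := pow_ne_zero _ hp
  have hpC : (p : ℂ) ≠ 0 := Nat.cast_ne_zero.2 (Fact.out : p.Prime).ne_zero
  have hNC : (p : ℂ) ^ n ≠ 0 := pow_ne_zero _ hpC
  have hB : 0 ≤ B := le_trans (norm_nonneg _) (hG 0)
  set t : ℝ := ∑ θ ∈ univ \ T, ∏ i, nu (z i) (θ i) with ht
  set U : ℂ := (∑ a : Fin n → ZMod p, G (mon a)) / (p : ℂ) ^ n with hU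
  have hnn : ∀ θ : Fin n → ZMod p, 0 ≤ ∏ i, nu (z i) (θ i) := fun θ =>
    Finset.prod_nonneg fun i _ => trunc_nu_nonneg (z i) _
  have ht0 : 0 ≤ t := Finset.sum_nonneg fun θ _ => hnn θ
  have htT : ∑ θ ∈ T, ∏ i, nu (z i) (θ i) = 1 - t := by
    have h1 := Finset.sum_sdiff (f := fun θ : Fin n → ZMod p => ∏ i, nu (z i) (θ i))
      (Finset.subset_univ T)
    rw [truncN_sum_prod_nu z hz] at h1
    rw [ht]
    linarith
  have hT0 : 0 ≤ ∑ θ ∈ T, ∏ i, nu (z i) (θ i) := Finset.sum_nonneg fun θ _ => hnn θ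
  have ht1 : t ≤ 1 := by linarith
  have htsq : t ≤ Real.sqrt t := by
    calc t = Real.sqrt t * Real.sqrt t := (Real.mul_self_sqrt ht0).symm
      _ ≤ Real.sqrt t * 1 := by
          apply mul_le_mul_of_nonneg_left _ (Real.sqrt_nonneg _)
          rw [show (1 : ℝ) = Real.sqrt 1 by simp]
          exact Real.sqrt_le_sqrt ht1
      _ = Real.sqrt t := mul_one _
  have hs : ∀ a : Fin n → ZMod p, ∏ i, ‖z i (a i)‖ ^ 2 = ‖∏ i, z i (a i)‖ ^ 2 := by
    intro a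
    rw [norm_prod, Finset.prod_pow]
  have hUB : ‖U‖ ≤ B := by
    rw [hU, norm_div, norm_pow, Complex.norm_natCast, div_le_iff₀ (by positivity)]
    calc ‖∑ a : Fin n → ZMod p, G (mon a)‖ ≤ ∑ a : Fin n → ZMod p, ‖G (mon a)‖ := norm_sum_le _ _
      _ ≤ ∑ _a : Fin n → ZMod p, B := Finset.sum_le_sum fun a _ => hG a
      _ = B * (p : ℝ) ^ n := by
          rw [Finset.sum_const, card_univ, nsmul_eq_mul]
          simp [ZMod.card]
          ring
  -- the first part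
  have hpart1 : ‖∑ a : Fin n → ZMod p, ((‖∏ i, z i (a i)‖ ^ 2 - ‖truncN_R z T a‖ ^ 2 : ℝ) : ℂ) *
      G (mon a)‖ ≤ 2 * B * Real.sqrt t := by
    have hD : ∑ a : Fin n → ZMod p, ‖truncN_R z (univ \ T) a‖ ^ 2 = t := truncN_R_norm z _
    have hR : ∑ a : Fin n → ZMod p, ‖truncN_R z T a‖ ^ 2 ≤ 1 := by
      rw [truncN_R_norm]
      linarith
    have hS : ∑ a : Fin n → ZMod p, ‖∏ i, z i (a i)‖ ^ 2 = 1 := by
      rw [← truncN_sum_prod_z z hz]
      exact Finset.sum_congr rfl fun a _ => (hs a).symm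
    have hCS1 : ∑ a : Fin n → ZMod p, ‖truncN_R z (univ \ T) a‖ * ‖∏ i, z i (a i)‖ ≤ Real.sqrt t := by
      have h := Real.sum_mul_le_sqrt_mul_sqrt (univ : Finset (Fin n → ZMod p))
        (fun a => ‖truncN_R z (univ \ T) a‖) (fun a => ‖∏ i, z i (a i)‖)
      rw [hD, hS, Real.sqrt_one, mul_one] at h
      exact h
    have hCS2 : ∑ a : Fin n → ZMod p, ‖truncN_R z (univ \ T) a‖ * ‖truncN_R z T a‖ ≤
        Real.sqrt t := by
      have h := Real.sum_mul_le_sqrt_mul_sqrt (univ : Finset (Fin n → ZMod p))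
        (fun a => ‖truncN_R z (univ \ T) a‖) (fun a => ‖truncN_R z T a‖)
      rw [hD] at h
      refine h.trans ?_
      calc Real.sqrt t * Real.sqrt (∑ a : Fin n → ZMod p, ‖truncN_R z T a‖ ^ 2)
          ≤ Real.sqrt t * 1 := by
            apply mul_le_mul_of_nonneg_left _ (Real.sqrt_nonneg _)
            rw [show (1 : ℝ) = Real.sqrt 1 by simp]
            exact Real.sqrt_le_sqrt hR
        _ = Real.sqrt t := mul_one _
    calc ‖∑ a : Fin n → ZMod p, ((‖∏ i, z i (a i)‖ ^ 2 - ‖truncN_R z T a‖ ^ 2 : ℝ) : ℂ) *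
        G (mon a)‖
        ≤ ∑ a : Fin n → ZMod p, ‖((‖∏ i, z i (a i)‖ ^ 2 - ‖truncN_R z T a‖ ^ 2 : ℝ) : ℂ) *
          G (mon a)‖ := norm_sum_le _ _
      _ ≤ ∑ a : Fin n → ZMod p, B * (‖truncN_R z (univ \ T) a‖ * ‖∏ i, z i (a i)‖ +
          ‖truncN_R z (univ \ T) a‖ * ‖truncN_R z T a‖) := by
          refine Finset.sum_le_sum fun a _ => ?_
          rw [norm_mul, Complex.norm_real, Real.norm_eq_abs]
          have h1 : |‖∏ i, z i (a i)‖ ^ 2 - ‖truncN_R z T a‖ ^ 2| ≤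
              ‖truncN_R z (univ \ T) a‖ * ‖∏ i, z i (a i)‖ +
              ‖truncN_R z (univ \ T) a‖ * ‖truncN_R z T a‖ := by
            rw [sq_sub_sq, abs_mul, ← truncN_sub_R]
            have h2 : |‖∏ i, z i (a i)‖ - ‖truncN_R z T a‖| ≤ ‖∏ i, z i (a i) - truncN_R z T a‖ :=
              abs_norm_sub_norm_le _ _
            have h3 : |‖∏ i, z i (a i)‖ + ‖truncN_R z T a‖| = ‖∏ i, z i (a i)‖ + ‖truncN_R z T a‖ :=
              abs_of_nonneg (by positivity)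
            rw [h3]
            nlinarith [norm_nonneg (∏ i, z i (a i)), norm_nonneg (truncN_R z T a)]
          rw [mul_comm]
          exact mul_le_mul (hG a) h1 (abs_nonneg _) hB
      _ ≤ 2 * B * Real.sqrt t := by
          rw [← Finset.mul_sum, Finset.sum_add_distrib]
          nlinarith
  -- the second part
  have hpart2 : ‖∑ a : Fin n → ZMod p, ((‖truncN_R z T a‖ ^ 2 : ℝ) : ℂ) * G (mon a) - U‖ ≤
      B * Real.sqrt t + ∑ θ ∈ T, ∑ θ' ∈ T, if θ' = θ then 0 else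
        Real.sqrt (∏ i, nu (z i) (θ i)) * Real.sqrt (∏ i, nu (z i) (θ' i)) * ‖expS n G (θ - θ')‖ := by
    rw [truncN_R_weight]
    have hdiag : ∀ θ : Fin n → ZMod p, truncN_sh z θ * (starRingEnd ℂ) (truncN_sh z θ) /
        (p : ℂ) ^ n * expS n G (θ - θ) = ((∏ i, nu (z i) (θ i) : ℝ) : ℂ) * U := by
      intro θ
      rw [Complex.mul_conj', sub_self]
      have h1 : ((‖truncN_sh z θ‖ : ℂ)) ^ 2 = (p : ℂ) ^ n * ((∏ i, nu (z i) (θ i) : ℝ) : ℂ) := by
        exact_mod_cast congrArg (fun x : ℝ => (x : ℂ)) (truncN_sh_norm z θ)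
      rw [h1, hU]
      unfold expS
      simp only [Pi.zero_apply, zero_mul, Finset.sum_const_zero, trunc_ch_zero, mul_one]
      field_simp
    have hsplit : ∑ θ ∈ T, ∑ θ' ∈ T, truncN_sh z θ * (starRingEnd ℂ) (truncN_sh z θ') /
        (p : ℂ) ^ n * expS n G (θ - θ') - U =
        -((t : ℂ) * U) + ∑ θ ∈ T, ∑ θ' ∈ T, (if θ' = θ then 0 else
          truncN_sh z θ * (starRingEnd ℂ) (truncN_sh z θ') / (p : ℂ) ^ n * expS n G (θ - θ')) := by
      have h1 : ∀ θ ∈ T, ∑ θ' ∈ T, truncN_sh z θ * (starRingEnd ℂ) (truncN_sh z θ') /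
          (p : ℂ) ^ n * expS n G (θ - θ') = ((∏ i, nu (z i) (θ i) : ℝ) : ℂ) * U +
          ∑ θ' ∈ T, (if θ' = θ then 0 else
          truncN_sh z θ * (starRingEnd ℂ) (truncN_sh z θ') / (p : ℂ) ^ n * expS n G (θ - θ')) := by
        intro θ hθ
        have h2 : ∑ θ' ∈ T, (if θ' = θ then ((∏ i, nu (z i) (θ i) : ℝ) : ℂ) * U else 0) =
            ((∏ i, nu (z i) (θ i) : ℝ) : ℂ) * U := by
          rw [Finset.sum_ite_eq' T θ, if_pos hθ]
        rw [← h2, ← Finset.sum_add_distrib]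
        refine Finset.sum_congr rfl fun θ' _ => ?_
        split_ifs with h3
        · subst h3
          rw [hdiag, add_zero]
        · rw [zero_add]
      rw [Finset.sum_congr rfl h1, Finset.sum_add_distrib, ← Finset.sum_mul]
      have h4 : ∑ θ ∈ T, ((∏ i, nu (z i) (θ i) : ℝ) : ℂ) = 1 - (t : ℂ) := by
        rw [← Complex.ofReal_sum, htT]
        push_cast
        ring
      rw [h4]
      ring
    rw [hsplit]
    refine (norm_add_le _ _).trans (add_le_add ?_ ?_)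
    · rw [norm_neg, norm_mul, Complex.norm_real, Real.norm_eq_abs, abs_of_nonneg ht0]
      calc t * ‖U‖ ≤ Real.sqrt t * B := mul_le_mul htsq hUB (norm_nonneg _) (Real.sqrt_nonneg _)
        _ = B * Real.sqrt t := mul_comm _ _
    · refine (norm_sum_le _ _).trans (Finset.sum_le_sum fun θ _ => ?_)
      refine (norm_sum_le _ _).trans (Finset.sum_le_sum fun θ' _ => ?_)
      split_ifs with h3
      · simp
      · rw [norm_mul, norm_div, norm_mul, norm_pow, Complex.norm_natCast, RCLike.norm_conj,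
          truncN_sh_norm', truncN_sh_norm']
        apply le_of_eq
        have h5 : Real.sqrt ((p : ℝ) ^ n) * Real.sqrt ((p : ℝ) ^ n) = (p : ℝ) ^ n :=
          Real.mul_self_sqrt (by positivity)
        have h6 : Real.sqrt ((p : ℝ) ^ n) * Real.sqrt (∏ i, nu (z i) (θ i)) *
            (Real.sqrt ((p : ℝ) ^ n) * Real.sqrt (∏ i, nu (z i) (θ' i))) =
            (p : ℝ) ^ n * (Real.sqrt (∏ i, nu (z i) (θ i)) * Real.sqrt (∏ i, nu (z i) (θ' i))) := by
          calc _ = (Real.sqrt ((p : ℝ) ^ n) * Real.sqrt ((p : ℝ) ^ n)) *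
              (Real.sqrt (∏ i, nu (z i) (θ i)) * Real.sqrt (∏ i, nu (z i) (θ' i))) := by ring
            _ = _ := by rw [h5]
        rw [h6, mul_div_assoc, mul_comm ((p : ℝ) ^ n), div_mul_cancel₀ _ hN]
  have hfin : ∑ a : Fin n → ZMod p, ((∏ i, ‖z i (a i)‖ ^ 2 : ℝ) : ℂ) * G (mon a) - U =
      ∑ a : Fin n → ZMod p, ((‖∏ i, z i (a i)‖ ^ 2 - ‖truncN_R z T a‖ ^ 2 : ℝ) : ℂ) * G (mon a) +
      (∑ a : Fin n → ZMod p, ((‖truncN_R z T a‖ ^ 2 : ℝ) : ℂ) * G (mon a) - U) := by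
    rw [← add_sub_assoc, ← Finset.sum_add_distrib]
    congr 1
    refine Finset.sum_congr rfl fun a _ => ?_
    rw [hs a]
    push_cast
    ring
  rw [hfin]
  refine (norm_add_le _ _).trans ?_
  have h7 := add_le_add hpart1 hpart2
  refine h7.trans (le_of_eq ?_)
  ring

end

end Pool.Agent.MP6cc1fa
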