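import Pool.Agent.Lib.MP_6cc1fa_pr.MixDefs
import Pool.Agent.Lib.MP_6cc1fa_pr.Win

/-!
MP_6cc1fa_pr: pairs of typical sequences, the distribution depends on the position.
-/

set_option autoImplicit false

namespace Pool.Agent.MP6cc1fa

open Polynomial Finset

noncomputable section

variable {p : ℕ} [Fact p.Prime]

theorem winN_mass (ν : ℕ → ZMod p → ℝ) (hν1 : ∀ i, ∑ a, ν i a = 1) (m : ℕ) :
    ∑ x : Fin m → ZMod p, ∏ i : Fin m, ν i (x i) = 1 := by
  have h := Finset.prod_univ_sum (fun _ : Fin m => (univ : Finset (ZMod p)))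
    (fun i a => ν (i : ℕ) a)
  rw [Fintype.piFinset_univ] at h
  rw [← h]
  simp [hν1]

omit [Fact p.Prime] in
theorem winN_r_sq (ν : ℕ → ZMod p → ℝ) (hν : ∀ i a, 0 ≤ ν i a) {m : ℕ} (x : Fin m → ZMod p) :
    Real.sqrt (∏ i : Fin m, ν i (x i)) ^ 2 = ∏ i : Fin m, ν i (x i) :=
  Real.sq_sqrt (Finset.prod_nonneg fun _ _ => hν _ _)

/-- The square of the sum over S is at most the size of S. -/
theorem winN_sq_le (ν : ℕ → ZMod p → ℝ) (hν : ∀ i a, 0 ≤ ν i a) (hν1 : ∀ i, ∑ a, ν i a = 1)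
    {m : ℕ} (S : Finset (Fin m → ZMod p)) :
    ∑ x ∈ S, ∑ x' ∈ S, Real.sqrt (∏ i : Fin m, ν i (x i)) *
      Real.sqrt (∏ i : Fin m, ν i (x' i)) ≤ (S.card : ℝ) := by
  have e : ∑ x ∈ S, ∑ x' ∈ S, Real.sqrt (∏ i : Fin m, ν i (x i)) *
      Real.sqrt (∏ i : Fin m, ν i (x' i)) =
      (∑ x ∈ S, Real.sqrt (∏ i : Fin m, ν i (x i))) ^ 2 := by
    rw [sq, Finset.sum_mul_sum]
  rw [e]
  refine (sq_sum_le_card_mul_sum_sq).trans ?_
  have h1 : ∑ x ∈ S, Real.sqrt (∏ i : Fin m, ν i (x i)) ^ 2 ≤ 1 := by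
    calc ∑ x ∈ S, Real.sqrt (∏ i : Fin m, ν i (x i)) ^ 2 = ∑ x ∈ S, ∏ i : Fin m, ν i (x i) :=
          Finset.sum_congr rfl fun x _ => winN_r_sq ν hν x
      _ ≤ ∑ x : Fin m → ZMod p, ∏ i : Fin m, ν i (x i) :=
          Finset.sum_le_sum_of_subset_of_nonneg (Finset.subset_univ S)
            fun _ _ _ => Finset.prod_nonneg fun _ _ => hν _ _
      _ = 1 := winN_mass ν hν1 m
  have h0 : (0 : ℝ) ≤ (S.card : ℝ) := Nat.cast_nonneg _
  nlinarith

/-- The set of typical words of length `m` has at most `b^m` elements. -/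
theorem winN_card_le (ν : ℕ → ZMod p → ℝ) (hν : ∀ i a, 0 ≤ ν i a) (hν1 : ∀ i, ∑ a, ν i a = 1)
    (b : ℝ) (hb : 1 ≤ b) {m : ℕ} (S : Finset (Fin m → ZMod p))
    (hS : ∀ x ∈ S, 1 / b ^ m ≤ ∏ i : Fin m, ν i (x i)) : (S.card : ℝ) ≤ b ^ m := by
  have hb' : 0 < b ^ m := by positivity
  have h1 : (S.card : ℝ) * (1 / b ^ m) ≤ 1 := by
    calc (S.card : ℝ) * (1 / b ^ m) = ∑ x ∈ S, 1 / b ^ m := by
          rw [Finset.sum_const, nsmul_eq_mul]
      _ ≤ ∑ x ∈ S, ∏ i : Fin m, ν i (x i) := Finset.sum_le_sum hS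
      _ ≤ ∑ x : Fin m → ZMod p, ∏ i : Fin m, ν i (x i) :=
          Finset.sum_le_sum_of_subset_of_nonneg (Finset.subset_univ S)
            fun _ _ _ => Finset.prod_nonneg fun _ _ => hν _ _
      _ = 1 := winN_mass ν hν1 m
  rw [mul_one_div, div_le_one hb'] at h1
  exact h1

/-- Cauchy-Schwarz for a shift. -/
theorem winN_shift (ν : ℕ → ZMod p → ℝ) (hν : ∀ i a, 0 ≤ ν i a) (hν1 : ∀ i, ∑ a, ν i a = 1)
    {k : ℕ} (δ : Fin k → ZMod p) :
    ∑ y : Fin k → ZMod p, Real.sqrt (∏ i : Fin k, ν i (y i)) *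
      Real.sqrt (∏ i : Fin k, ν i ((y - δ) i)) ≤ 1 := by
  have h1 : ∀ y : Fin k → ZMod p, Real.sqrt (∏ i : Fin k, ν i (y i)) *
      Real.sqrt (∏ i : Fin k, ν i ((y - δ) i)) ≤
      (∏ i : Fin k, ν i (y i)) / 2 + (∏ i : Fin k, ν i ((y - δ) i)) / 2 := by
    intro y
    have a1 := winN_r_sq ν hν y
    have a2 := winN_r_sq ν hν (y - δ)
    nlinarith [sq_nonneg (Real.sqrt (∏ i : Fin k, ν i (y i)) -
      Real.sqrt (∏ i : Fin k, ν i ((y - δ) i)))]
  refine (Finset.sum_le_sum fun y _ => h1 y).trans ?_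
  rw [Finset.sum_add_distrib, ← Finset.sum_div, ← Finset.sum_div, winN_mass ν hν1 k]
  have h2 : ∑ y : Fin k → ZMod p, ∏ i : Fin k, ν i ((y - δ) i) = 1 := by
    rw [← winN_mass ν hν1 k]
    exact Fintype.sum_equiv (Equiv.subRight δ) _ _ fun y => rfl
  rw [h2]
  norm_num

omit [Fact p.Prime] in
/-- The suffix has the distributions `ν (m + i)`. -/
theorem winN_prod_append (ν : ℕ → ZMod p → ℝ) {m k : ℕ} (x : Fin m → ZMod p)
    (y : Fin k → ZMod p) :
    ∏ i : Fin (m + k), ν i (Fin.append x y i) =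
      (∏ i : Fin m, ν i (x i)) * ∏ i : Fin k, ν (m + i) (y i) := by
  rw [Fin.prod_univ_add]
  simp

/-- For fixed prefixes the suffixes contribute at most one. -/
theorem winN_inner (ν : ℕ → ZMod p → ℝ) (hν : ∀ i a, 0 ≤ ν i a) (hν1 : ∀ i, ∑ a, ν i a = 1)
    {k c : ℕ} (w : Fin (2 * c) → ZMod p) :
    ∑ y : Fin k → ZMod p, ∑ y' : Fin k → ZMod p,
      (if cx (2 * c + k) (ext (Fin.append w (y - y'))) = c then
        Real.sqrt (∏ i : Fin k, ν i (y i)) * Real.sqrt (∏ i : Fin k, ν i (y' i)) else 0) ≤ 1 := by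
  classical
  by_cases hex : ∃ δ : Fin k → ZMod p, cx (2 * c + k) (ext (Fin.append w δ)) = c
  · obtain ⟨δ, hδ⟩ := hex
    have huniq : ∀ δ' : Fin k → ZMod p, cx (2 * c + k) (ext (Fin.append w δ')) = c → δ' = δ := by
      intro δ' hδ'
      have h := window_inj (n := 2 * c + k) (c := c) (s := ext (Fin.append w δ'))
        (s' := ext (Fin.append w δ)) hδ'.le hδ.le (by omega) (by
          intro i hi
          rw [win_ext_append _ _ hi, win_ext_append _ _ hi])
      funext j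
      have hj := h (2 * c + j) (by omega)
      have hj' : 2 * c + (j : ℕ) < 2 * c + k := by omega
      have e : (⟨2 * c + (j : ℕ), hj'⟩ : Fin (2 * c + k)) = Fin.natAdd (2 * c) j := rfl
      simp only [ext, hj', dif_pos] at hj
      rw [e, Fin.append_right, Fin.append_right] at hj
      exact hj
    have h1 : ∀ y y' : Fin k → ZMod p,
        (if cx (2 * c + k) (ext (Fin.append w (y - y'))) = c then
          Real.sqrt (∏ i : Fin k, ν i (y i)) * Real.sqrt (∏ i : Fin k, ν i (y' i)) else 0) ≤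
        (if y' = y - δ then Real.sqrt (∏ i : Fin k, ν i (y i)) *
          Real.sqrt (∏ i : Fin k, ν i (y' i)) else 0) := by
      intro y y'
      by_cases h : cx (2 * c + k) (ext (Fin.append w (y - y'))) = c
      · have h2 : y' = y - δ := by
          rw [← huniq _ h]
          abel
        rw [if_pos h, if_pos h2]
      · rw [if_neg h]
        split_ifs
        · positivity
        · exact le_rfl
    refine (Finset.sum_le_sum fun y _ => Finset.sum_le_sum fun y' _ => h1 y y').trans ?_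
    simp only [Finset.sum_ite_eq', Finset.mem_univ, if_true]
    exact winN_shift ν hν hν1 δ
  · push Not at hex
    have h0 : ∀ y y' : Fin k → ZMod p,
        (if cx (2 * c + k) (ext (Fin.append w (y - y'))) = c then
          Real.sqrt (∏ i : Fin k, ν i (y i)) * Real.sqrt (∏ i : Fin k, ν i (y' i)) else 0) = 0 := by
      intro y y'
      rw [if_neg (hex _)]
    simp only [h0, Finset.sum_const_zero]
    exact zero_le_one

theorem winN_core (ν : ℕ → ZMod p → ℝ) (hν : ∀ i a, 0 ≤ ν i a) (hν1 : ∀ i, ∑ a, ν i a = 1)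
    (b : ℝ) {L c k : ℕ} (S : Finset (Fin (2 * c) → ZMod p))
    (hS : ∀ x y, Fin.append x y ∈ TypN ν b L (2 * c + k) → x ∈ S) :
    pairSumN ν b L (2 * c + k) c ≤ (S.card : ℝ) := by
  classical
  set F : (Fin (2 * c + k) → ZMod p) → (Fin (2 * c + k) → ZMod p) → ℝ := fun θ θ' =>
    if cx (2 * c + k) (ext (θ - θ')) = c then
      Real.sqrt (∏ i : Fin (2 * c + k), ν i (θ i)) *
        Real.sqrt (∏ i : Fin (2 * c + k), ν i (θ' i)) else 0 with hF
  have hF0 : ∀ θ θ', 0 ≤ F θ θ' := by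
    intro θ θ'
    simp only [hF]
    split_ifs
    · positivity
    · exact le_rfl
  have h1 : pairSumN ν b L (2 * c + k) c =
      ∑ θ : Fin (2 * c + k) → ZMod p, ∑ θ' : Fin (2 * c + k) → ZMod p,
        if θ ∈ TypN ν b L (2 * c + k) ∧ θ' ∈ TypN ν b L (2 * c + k) then F θ θ' else 0 :=
    (win_sum_mem (TypN ν b L (2 * c + k)) F).symm
  rw [h1, win_sum_append]
  have h2 : ∀ x : Fin (2 * c) → ZMod p, ∀ y : Fin k → ZMod p,
      (∑ θ' : Fin (2 * c + k) → ZMod p,
        if Fin.append x y ∈ TypN ν b L (2 * c + k) ∧ θ' ∈ TypN ν b L (2 * c + k) then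
          F (Fin.append x y) θ' else 0) ≤
      ∑ x' : Fin (2 * c) → ZMod p, ∑ y' : Fin k → ZMod p,
        if x ∈ S ∧ x' ∈ S then F (Fin.append x y) (Fin.append x' y') else 0 := by
    intro x y
    rw [win_sum_append]
    refine Finset.sum_le_sum fun x' _ => Finset.sum_le_sum fun y' _ => ?_
    by_cases h : Fin.append x y ∈ TypN ν b L (2 * c + k) ∧
        Fin.append x' y' ∈ TypN ν b L (2 * c + k)
    · rw [if_pos h, if_pos ⟨hS _ _ h.1, hS _ _ h.2⟩]
    · rw [if_neg h]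
      split_ifs
      · exact hF0 _ _
      · exact le_rfl
  refine (Finset.sum_le_sum fun x _ => Finset.sum_le_sum fun y _ => h2 x y).trans ?_
  have h3 : ∀ x : Fin (2 * c) → ZMod p,
      (∑ y : Fin k → ZMod p, ∑ x' : Fin (2 * c) → ZMod p, ∑ y' : Fin k → ZMod p,
        if x ∈ S ∧ x' ∈ S then F (Fin.append x y) (Fin.append x' y') else 0) ≤
      ∑ x' : Fin (2 * c) → ZMod p, if x ∈ S ∧ x' ∈ S then
        Real.sqrt (∏ i : Fin (2 * c), ν i (x i)) *
          Real.sqrt (∏ i : Fin (2 * c), ν i (x' i)) else 0 := by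
    intro x
    rw [Finset.sum_comm]
    refine Finset.sum_le_sum fun x' _ => ?_
    by_cases h : x ∈ S ∧ x' ∈ S
    · simp only [if_pos h]
      have e : ∀ y y' : Fin k → ZMod p, F (Fin.append x y) (Fin.append x' y') =
          (Real.sqrt (∏ i : Fin (2 * c), ν i (x i)) *
            Real.sqrt (∏ i : Fin (2 * c), ν i (x' i))) *
          (if cx (2 * c + k) (ext (Fin.append (x - x') (y - y'))) = c then
            Real.sqrt (∏ i : Fin k, ν (2 * c + i) (y i)) *
              Real.sqrt (∏ i : Fin k, ν (2 * c + i) (y' i)) else 0) := by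
        intro y y'
        have e1 : Fin.append x y - Fin.append x' y' = Fin.append (x - x') (y - y') := by
          funext i
          refine Fin.addCases (fun j => ?_) (fun j => ?_) i <;> simp
        simp only [hF]
        rw [e1, winN_prod_append, winN_prod_append,
          Real.sqrt_mul (Finset.prod_nonneg fun i _ => hν _ _),
          Real.sqrt_mul (Finset.prod_nonneg fun i _ => hν _ _)]
        split_ifs
        · ring
        · ring
      simp only [e, ← Finset.mul_sum]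
      have h4 := winN_inner (fun i => ν (2 * c + i)) (fun i a => hν _ a) (fun i => hν1 _)
        (k := k) (x - x')
      have h5 : 0 ≤ Real.sqrt (∏ i : Fin (2 * c), ν i (x i)) *
        Real.sqrt (∏ i : Fin (2 * c), ν i (x' i)) := by positivity
      nlinarith
    · simp only [if_neg h, Finset.sum_const_zero]
      exact le_rfl
  refine (Finset.sum_le_sum fun x _ => h3 x).trans ?_
  exact (le_of_eq (win_sum_mem S fun x x' => Real.sqrt (∏ i : Fin (2 * c), ν i (x i)) *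
    Real.sqrt (∏ i : Fin (2 * c), ν i (x' i)))).trans (winN_sq_le ν hν hν1 S)

theorem pairSumN_le_typ (ν : ℕ → ZMod p → ℝ) (hν : ∀ i a, 0 ≤ ν i a)
    (hν1 : ∀ i, ∑ a, ν i a = 1) (b : ℝ)
    (hb : 1 ≤ b) {L n c : ℕ} (hL : L ≤ 2 * c) (hc : 2 * c ≤ n) :
    pairSumN ν b L n c ≤ b ^ (2 * c) := by
  classical
  obtain ⟨k, rfl⟩ := Nat.exists_eq_add_of_le hc
  refine (winN_core ν hν hν1 b (L := L) (k := k)
    (univ.filter fun x : Fin (2 * c) → ZMod p => 1 / b ^ (2 * c) ≤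
      ∏ i : Fin (2 * c), ν i (x i)) ?_).trans
    (winN_card_le ν hν hν1 b hb _ fun x hx => (Finset.mem_filter.1 hx).2)
  intro x y hxy
  refine Finset.mem_filter.2 ⟨Finset.mem_univ _, ?_⟩
  unfold TypN at hxy
  have h := (Finset.mem_filter.1 hxy).2 (2 * c) hL (by omega)
  refine h.trans (le_of_eq ?_)
  rw [Fin.prod_univ_add]
  simp

theorem pairSumN_le (ν : ℕ → ZMod p → ℝ) (hν : ∀ i a, 0 ≤ ν i a)
    (hν1 : ∀ i, ∑ a, ν i a = 1) (b : ℝ)
    {L n c : ℕ} (hc : 2 * c ≤ n) :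
    pairSumN ν b L n c ≤ (p : ℝ) ^ (2 * c) := by
  classical
  obtain ⟨k, rfl⟩ := Nat.exists_eq_add_of_le hc
  refine (winN_core ν hν hν1 b (L := L) (k := k) univ fun x y _ => Finset.mem_univ _).trans
    (le_of_eq ?_)
  rw [Finset.card_univ, Fintype.card_fun, ZMod.card, Fintype.card_fin]
  push_cast
  rfl

theorem pairSumN_total (ν : ℕ → ZMod p → ℝ) (hν : ∀ i a, 0 ≤ ν i a)
    (hν1 : ∀ i, ∑ a, ν i a = 1) (b : ℝ)
    (hb : 1 ≤ b) {L n : ℕ} (hL : L ≤ n) :
    ∑ θ ∈ TypN ν b L n, ∑ θ' ∈ TypN ν b L n,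
      Real.sqrt (∏ i : Fin n, ν i (θ i)) * Real.sqrt (∏ i : Fin n, ν i (θ' i)) ≤ b ^ n := by
  classical
  refine (winN_sq_le ν hν hν1 _).trans (winN_card_le ν hν hν1 b hb _ fun θ hθ => ?_)
  unfold TypN at hθ
  have h := (Finset.mem_filter.1 hθ).2 n hL le_rfl
  refine h.trans (le_of_eq ?_)
  exact Finset.prod_congr rfl fun i _ => if_pos i.2

end

end Pool.Agent.MP6cc1fa
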