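import Pool.Agent.Lib.MP_6cc1fa_pr.Mon
import Pool.Agent.Lib.MP_6cc1fa_pr.Cnt
import Pool.Agent.Lib.MP_6cc1fa_pr.Ann1
import Pool.Agent.Lib.MP_6cc1fa_pr.S1
import Pool.Agent.Lib.MP_6cc1fa_pr.S2
import Pool.Agent.Lib.MP_6cc1fa_pr.Div
import Pool.Agent.Lib.MP_6cc1fa_pr.RHNewton
import Pool.Agent.Lib.MP_6cc1fa_pr.WinN
import Pool.Agent.Lib.MP_6cc1fa_pr.CTypN
import Pool.Agent.Lib.MP_6cc1fa_pr.TruncN
import Pool.Agent.Lib.MP_6cc1fa_pr.EntN

/-!
MP_6cc1fa_pr, module CORE: lower bound for the correlations of tuples of irreducible factors of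
random monic polynomials (mixtures).
-/

set_option autoImplicit false

namespace Pool.Agent.MP6cc1fa

open Polynomial Finset

noncomputable section

variable {p : ℕ} [Fact p.Prime]

/-! ## Core -/

theorem core_natDegree_mon {n : ℕ} (a : Fin n → ZMod p) : (mon a).natDegree = n ∧ mon a ≠ 0 := by
  have h := (mem_MD n (mon a)).1 (by
    unfold MD
    exact Finset.mem_image_of_mem _ (Finset.mem_univ _))
  exact ⟨h.2, h.1.ne_zero⟩

theorem core_nu_nonneg (z : ZMod p → ℂ) (a : ZMod p) : 0 ≤ nu z a := by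
  unfold nu
  positivity

/-- Deterministic inequality. -/
theorem core_ineq {n e k a c0 : ℕ} (d : Fin k → ℕ) (hd : ∀ i, 1 ≤ d i) (hn : ∑ i, d i + e = n)
    (ha : 2 * a + 2 * e ≤ n) (hc0 : c0 ≤ e) (hL : 2 * (c0 + 1) ≤ n)
    (z : ℕ → ZMod p → ℂ) (hz : ∀ i, ∑ x, ‖z i x‖ ^ 2 = 1) (b : ℝ) (hb : 1 ≤ b) (M : ℝ)
    (hM : ∀ f : (ZMod p)[X], f.Monic → f.natDegree ≤ n → (tau f : ℝ) ≤ M) :
    ‖∑ x : Fin n → ZMod p, ((∏ i : Fin n, ‖z i (x i)‖ ^ 2 : ℝ) : ℂ) *
          (((∏ i, d i : ℕ) : ℂ) * cnt d (mon x)) -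
        (∑ x : Fin n → ZMod p, ((∏ i, d i : ℕ) : ℂ) * cnt d (mon x)) / (p : ℂ) ^ n‖ ≤
      3 * (n : ℝ) ^ k * Real.sqrt (∑ θ ∈ univ \ TypN (fun i => nu (z i)) b (2 * (c0 + 1)) n,
          ∏ i : Fin n, nu (z i) (θ i)) +
      (c0 * (p : ℝ) ^ (2 * c0) * ∑ i, (d i : ℝ) / (p : ℝ) ^ d i +
       ∑ c ∈ Icc (c0 + 1) (a + e), b ^ (2 * c) * ((n + 1 : ℝ) ^ k * ((n + 1) * M ^ 3) /
          (p : ℝ) ^ c) +
       b ^ n * ((n + 1 : ℝ) ^ k * ((2 * n : ℝ) ^ k / Real.sqrt p ^ a))) := by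
  classical
  have hp0 : 0 < p := (Fact.out : p.Prime).pos
  have hp : (0 : ℝ) < p := by exact_mod_cast hp0
  have hp1 : (1 : ℝ) ≤ p := by exact_mod_cast hp0
  have hν : ∀ i a, 0 ≤ nu (z i) a := fun i => core_nu_nonneg (z i)
  have hν1 : ∀ i, ∑ a, nu (z i) a = 1 := fun i => by rw [sum_nu, hz]
  set ν : ℕ → ZMod p → ℝ := fun i => nu (z i) with hνdef
  set L := 2 * (c0 + 1) with hLdef
  have hM0 : 0 ≤ M := by
    have h1 := hM (1 : (ZMod p)[X]) monic_one (by simp)
    exact le_trans (Nat.cast_nonneg _) h1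
  have htr := truncN (fun i : Fin n => z i) (fun i => hz i) (TypN ν b L n) (fun f => ((∏ i, d i : ℕ) : ℂ) * cnt d f) ((n : ℝ) ^ k)
    (by
      intro x
      have h1 := core_natDegree_mon x
      have h2 := cnt_le d hd (mon x) h1.2
      rw [h1.1] at h2
      rw [norm_mul, Complex.norm_natCast, Complex.norm_natCast]
      exact_mod_cast h2)
  refine htr.trans ?_
  gcongr
  -- pointwise bound
  set r : (Fin n → ZMod p) → ℝ := fun θ => Real.sqrt (∏ i : Fin n, ν i (θ i)) with hr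
  have hr0 : ∀ θ, 0 ≤ r θ := fun θ => Real.sqrt_nonneg _
  set F1 : ℝ := ∑ i, (d i : ℝ) / (p : ℝ) ^ d i with hF1
  have hF10 : 0 ≤ F1 := Finset.sum_nonneg fun i _ => by positivity
  set K2 : ℝ := (n + 1 : ℝ) ^ k * ((n + 1) * M ^ 3) with hK2
  have hK20 : 0 ≤ K2 := by positivity
  set K3 : ℝ := (n + 1 : ℝ) ^ k * ((2 * n : ℝ) ^ k / Real.sqrt p ^ a) with hK3
  have hK30 : 0 ≤ K3 := by positivity
  have hpt : ∀ θ θ' : Fin n → ZMod p, (if θ' = θ then 0 else
        r θ * r θ' * ‖expS n (fun f => ((∏ i, d i : ℕ) : ℂ) * cnt d f) (θ - θ')‖) ≤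
      ∑ c ∈ Icc 1 c0, (if cx n (ext (θ - θ')) = c then r θ * r θ' else 0) * F1 +
      ∑ c ∈ Icc (c0 + 1) (a + e), (if cx n (ext (θ - θ')) = c then r θ * r θ' else 0) *
        (K2 / (p : ℝ) ^ c) + r θ * r θ' * K3 := by
    intro θ θ'
    have hrr : 0 ≤ r θ * r θ' := mul_nonneg (hr0 _) (hr0 _)
    have hA0 : 0 ≤ ∑ c ∈ Icc 1 c0, (if cx n (ext (θ - θ')) = c then r θ * r θ' else 0) * F1 :=
      Finset.sum_nonneg fun c _ => by split_ifs <;> positivity
    have hB0 : 0 ≤ ∑ c ∈ Icc (c0 + 1) (a + e),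
        (if cx n (ext (θ - θ')) = c then r θ * r θ' else 0) * (K2 / (p : ℝ) ^ c) :=
      Finset.sum_nonneg fun c _ => by split_ifs <;> positivity
    have hC0 : 0 ≤ r θ * r θ' * K3 := by positivity
    by_cases hθ : θ' = θ
    · rw [if_pos hθ]
      positivity
    · rw [if_neg hθ]
      have hc1 : 1 ≤ cx n (ext (θ - θ')) := by
        by_contra hlt
        have h0 : cx n (ext (θ - θ')) = 0 := by omega
        rw [cx_eq_zero_iff] at h0
        apply hθ
        funext i
        have h1 := h0 i i.2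
        simp only [ext, i.2, dif_pos, Pi.sub_apply] at h1
        exact (sub_eq_zero.1 h1).symm
      by_cases hcc : cx n (ext (θ - θ')) ≤ c0
      · have hS := S_small d hd hn (θ - θ') hc1 (hcc.trans hc0)
        have h1 : ∑ c ∈ Icc 1 c0, (if cx n (ext (θ - θ')) = c then r θ * r θ' else 0) * F1 =
            r θ * r θ' * F1 := by
          rw [Finset.sum_eq_single_of_mem (cx n (ext (θ - θ'))) (Finset.mem_Icc.2 ⟨hc1, hcc⟩)]
          · rw [if_pos rfl]
          · intro c _ hne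
            rw [if_neg (Ne.symm hne), zero_mul]
        rw [h1]
        have h2 : r θ * r θ' * ‖expS n (fun f => ((∏ i, d i : ℕ) : ℂ) * cnt d f) (θ - θ')‖ ≤
            r θ * r θ' * F1 := mul_le_mul_of_nonneg_left hS hrr
        linarith
      · have hS := S_big d hd hn ha M hM (θ - θ')
        have h2 : r θ * r θ' * ‖expS n (fun f => ((∏ i, d i : ℕ) : ℂ) * cnt d f) (θ - θ')‖ ≤
            r θ * r θ' * (K2 * (if cx n (ext (θ - θ')) ≤ a + e then
              1 / (p : ℝ) ^ cx n (ext (θ - θ')) else 0) + K3) := by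
          refine mul_le_mul_of_nonneg_left (hS.trans (le_of_eq ?_)) hrr
          rw [hK2, hK3]
          ring
        by_cases hce : cx n (ext (θ - θ')) ≤ a + e
        · have h1 : ∑ c ∈ Icc (c0 + 1) (a + e),
              (if cx n (ext (θ - θ')) = c then r θ * r θ' else 0) * (K2 / (p : ℝ) ^ c) =
              r θ * r θ' * (K2 / (p : ℝ) ^ cx n (ext (θ - θ'))) := by
            rw [Finset.sum_eq_single_of_mem (cx n (ext (θ - θ')))
              (Finset.mem_Icc.2 ⟨by omega, hce⟩)]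
            · rw [if_pos rfl]
            · intro c _ hne
              rw [if_neg (Ne.symm hne), zero_mul]
          rw [h1]
          rw [if_pos hce] at h2
          have h3 : r θ * r θ' * (K2 * (1 / (p : ℝ) ^ cx n (ext (θ - θ'))) + K3) =
            r θ * r θ' * (K2 / (p : ℝ) ^ cx n (ext (θ - θ'))) + r θ * r θ' * K3 := by ring
          linarith
        · rw [if_neg hce] at h2
          have h3 : r θ * r θ' * (K2 * 0 + K3) = r θ * r θ' * K3 := by ring
          linarith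
  calc (∑ θ ∈ TypN ν b L n, ∑ θ' ∈ TypN ν b L n, if θ' = θ then 0 else
        Real.sqrt (∏ i : Fin n, ν i (θ i)) * Real.sqrt (∏ i : Fin n, ν i (θ' i)) *
          ‖expS n (fun f => ((∏ i, d i : ℕ) : ℂ) * cnt d f) (θ - θ')‖)
      ≤ ∑ θ ∈ TypN ν b L n, ∑ θ' ∈ TypN ν b L n,
        (∑ c ∈ Icc 1 c0, (if cx n (ext (θ - θ')) = c then r θ * r θ' else 0) * F1 +
      ∑ c ∈ Icc (c0 + 1) (a + e), (if cx n (ext (θ - θ')) = c then r θ * r θ' else 0) *
        (K2 / (p : ℝ) ^ c) + r θ * r θ' * K3) :=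
        Finset.sum_le_sum fun θ _ => Finset.sum_le_sum fun θ' _ => hpt θ θ'
    _ = ∑ c ∈ Icc 1 c0, pairSumN ν b L n c * F1 +
        ∑ c ∈ Icc (c0 + 1) (a + e), pairSumN ν b L n c * (K2 / (p : ℝ) ^ c) +
        (∑ θ ∈ TypN ν b L n, ∑ θ' ∈ TypN ν b L n, r θ * r θ') * K3 := by
      simp only [Finset.sum_add_distrib]
      congr 1
      · congr 1
        · rw [Finset.sum_congr rfl fun θ _ => Finset.sum_comm]
          rw [Finset.sum_comm]
          refine Finset.sum_congr rfl fun c _ => ?_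
          unfold pairSumN
          simp only [Finset.sum_mul, hr]
        · rw [Finset.sum_congr rfl fun θ _ => Finset.sum_comm]
          rw [Finset.sum_comm]
          refine Finset.sum_congr rfl fun c _ => ?_
          unfold pairSumN
          simp only [Finset.sum_mul, hr]
      · simp only [Finset.sum_mul]
    _ ≤ c0 * (p : ℝ) ^ (2 * c0) * F1 +
        ∑ c ∈ Icc (c0 + 1) (a + e), b ^ (2 * c) * (K2 / (p : ℝ) ^ c) + b ^ n * K3 := by
      have h1 : ∑ c ∈ Icc 1 c0, pairSumN ν b L n c * F1 ≤ c0 * (p : ℝ) ^ (2 * c0) * F1 := by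
        calc ∑ c ∈ Icc 1 c0, pairSumN ν b L n c * F1 ≤
            ∑ _c ∈ Icc 1 c0, (p : ℝ) ^ (2 * c0) * F1 := by
              refine Finset.sum_le_sum fun c hc => mul_le_mul_of_nonneg_right ?_ hF10
              rw [Finset.mem_Icc] at hc
              refine (pairSumN_le ν hν hν1 b (by omega)).trans ?_
              exact pow_le_pow_right₀ hp1 (by omega)
          _ = c0 * (p : ℝ) ^ (2 * c0) * F1 := by
              rw [Finset.sum_const, Nat.card_Icc, nsmul_eq_mul]
              simp only [Nat.add_sub_cancel]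
              ring
      have h2 : ∑ c ∈ Icc (c0 + 1) (a + e), pairSumN ν b L n c * (K2 / (p : ℝ) ^ c) ≤
          ∑ c ∈ Icc (c0 + 1) (a + e), b ^ (2 * c) * (K2 / (p : ℝ) ^ c) := by
        refine Finset.sum_le_sum fun c hc => mul_le_mul_of_nonneg_right ?_ (by positivity)
        rw [Finset.mem_Icc] at hc
        exact pairSumN_le_typ ν hν hν1 b hb (by omega) (by omega)
      have h3 : (∑ θ ∈ TypN ν b L n, ∑ θ' ∈ TypN ν b L n, r θ * r θ') * K3 ≤ b ^ n * K3 :=
        mul_le_mul_of_nonneg_right (pairSumN_total ν hν hν1 b hb hL) hK30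
      linarith

theorem core_tend (A : ℕ) (κ : ℝ) (hκ : 0 < κ) :
    Filter.Tendsto (fun n : ℕ => ((n : ℝ) + 1) ^ A * Real.exp (-(κ * n))) Filter.atTop (nhds 0) := by
  have h1 := Real.tendsto_pow_mul_exp_neg_atTop_nhds_zero A
  have h2 : Filter.Tendsto (fun n : ℕ => κ * ((n : ℝ) + 1)) Filter.atTop Filter.atTop := by
    apply Filter.Tendsto.const_mul_atTop hκ
    exact Filter.tendsto_atTop_add_const_right _ _ tendsto_natCast_atTop_atTop
  have h3 := (h1.comp h2).const_mul ((1 / κ) ^ A * Real.exp κ)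
  rw [mul_zero] at h3
  refine h3.congr fun n => ?_
  simp only [Function.comp]
  have h4 : Real.exp (-(κ * ((n : ℝ) + 1))) = Real.exp (-(κ * n)) * Real.exp (-κ) := by
    rw [← Real.exp_add]
    congr 1
    ring
  rw [h4, mul_pow, Real.exp_neg κ, one_div, inv_pow]
  have h5 : κ ^ A ≠ 0 := pow_ne_zero _ hκ.ne'
  have h6 := Real.exp_ne_zero κ
  field_simp

theorem core_prod {ι : Type} (s : Finset ι) (f : ι → ℝ) (h0 : ∀ i ∈ s, 0 ≤ f i)
    (h1 : ∀ i ∈ s, f i ≤ 1) : 1 - ∑ i ∈ s, f i ≤ ∏ i ∈ s, (1 - f i) := by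
  classical
  induction s using Finset.induction_on with
  | empty => simp
  | insert a s ha ih =>
    rw [Finset.sum_insert ha, Finset.prod_insert ha]
    have h2 := ih (fun i hi => h0 i (Finset.mem_insert_of_mem hi))
      (fun i hi => h1 i (Finset.mem_insert_of_mem hi))
    have h3 : ∏ i ∈ s, (1 - f i) ≤ 1 := by
      apply Finset.prod_le_one
      · intro i hi
        have := h1 i (Finset.mem_insert_of_mem hi)
        linarith
      · intro i hi
        have := h0 i (Finset.mem_insert_of_mem hi)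
        linarith
    have h4 := h0 a (Finset.mem_insert_self _ _)
    nlinarith

/-- The average over all monic polynomials. -/
theorem core_unif {n e k : ℕ} (d : Fin k → ℕ) (hd : ∀ i, 1 ≤ d i) (hn : ∑ i, d i + e = n) :
    ∃ U : ℝ, (∑ x : Fin n → ZMod p, ((∏ i, d i : ℕ) : ℂ) * cnt d (mon x)) / (p : ℂ) ^ n = U ∧
      1 - ∑ i, (d i : ℝ) / Real.sqrt p ^ d i ≤ U := by
  classical
  have hp0 : 0 < p := (Fact.out : p.Prime).pos
  have hp : (0 : ℝ) < p := by exact_mod_cast hp0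
  have h1 : ∑ x : Fin n → ZMod p, ((∏ i, d i : ℕ) : ℂ) * cnt d (mon x) =
      ((∏ i, d i : ℕ) : ℂ) * (p ^ e * ∏ i, (Irr p (d i)).card) := by
    rw [sum_mon (fun f => ((∏ i, d i : ℕ) : ℂ) * cnt d f), ← Finset.mul_sum]
    congr 1
    have h2 := sum_cnt (p := p) d hn (fun _ => 1)
    simp only [mul_one, Finset.sum_const, nsmul_eq_mul, card_MD] at h2
    rw [h2]
    unfold IrrT
    rw [Fintype.card_piFinset]
    push_cast
    ring
  refine ⟨∏ i, ((d i : ℝ) * (Irr p (d i)).card / (p : ℝ) ^ d i), ?_, ?_⟩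
  · rw [h1]
    rw [Finset.prod_div_distrib, Finset.prod_mul_distrib, Finset.prod_pow_eq_pow_sum]
    rw [← hn, pow_add]
    push_cast
    have h3 : (p : ℂ) ≠ 0 := by exact_mod_cast hp0.ne'
    field_simp
  · have h2 : ∀ i, 0 ≤ 1 - (d i : ℝ) * (Irr p (d i)).card / (p : ℝ) ^ d i ∧
        1 - (d i : ℝ) * (Irr p (d i)).card / (p : ℝ) ^ d i ≤ (d i : ℝ) / Real.sqrt p ^ d i := by
      intro i
      have h3 : ((d i : ℝ) * (Irr p (d i)).card) ≤ (p : ℝ) ^ d i := by
        exact_mod_cast card_Irr_le (p := p) (d i)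
      have h4 := card_Irr_ge (p := p) (d i) (hd i)
      have h5 : (0 : ℝ) < (p : ℝ) ^ d i := by positivity
      constructor
      · rw [sub_nonneg, div_le_one h5]
        exact h3
      · have h6 : (p : ℝ) ^ d i = Real.sqrt p ^ d i * Real.sqrt p ^ d i := by
          rw [← mul_pow, Real.mul_self_sqrt hp.le]
        have h7 : 0 < Real.sqrt p ^ d i := pow_pos (Real.sqrt_pos.2 hp) _
        rw [sub_le_iff_le_add, div_add_div _ _ h7.ne' h5.ne', le_div_iff₀ (by positivity)]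
        have h8 : (d i : ℝ) * (p : ℝ) ^ d i + Real.sqrt p ^ d i * ((d i : ℝ) * (Irr p (d i)).card) ≥
            (d i : ℝ) * (p : ℝ) ^ d i + Real.sqrt p ^ d i * ((p : ℝ) ^ d i - d i * Real.sqrt p ^ d i) := by
          have := mul_le_mul_of_nonneg_left h4 h7.le
          linarith
        have h9 : (d i : ℝ) * (p : ℝ) ^ d i + Real.sqrt p ^ d i *
            ((p : ℝ) ^ d i - d i * Real.sqrt p ^ d i) = Real.sqrt p ^ d i * (p : ℝ) ^ d i := by
          rw [h6]
          ring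
        linarith
    have h3 := core_prod (univ : Finset (Fin k))
      (fun i => 1 - (d i : ℝ) * (Irr p (d i)).card / (p : ℝ) ^ d i) (fun i _ => (h2 i).1)
      (fun i _ => by
        have : 0 ≤ (d i : ℝ) * (Irr p (d i)).card / (p : ℝ) ^ d i := by positivity
        linarith)
    have h4 : ∏ i, (1 - (1 - (d i : ℝ) * (Irr p (d i)).card / (p : ℝ) ^ d i)) =
        ∏ i, ((d i : ℝ) * (Irr p (d i)).card / (p : ℝ) ^ d i) := by
      refine Finset.prod_congr rfl fun i _ => by ring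
    rw [h4] at h3
    refine le_trans ?_ h3
    have h5 := Finset.sum_le_sum fun (i : Fin k) (_ : i ∈ univ) => (h2 i).2
    linarith

/-- The error function. -/
def coreErr (p k : ℕ) (e1 h C : ℝ) (n : ℕ) : ℝ :=
  2 * (k * (((n : ℝ) + 1) ^ 2 * Real.exp (-(Real.log p * e1 / 2 * n)))) +
  C ^ 3 * (((n : ℝ) + 1) ^ (k + 2) * Real.exp (-(Real.log p * e1 / 16 * n))) +
  2 ^ k * Real.exp (Real.log p / 4) *
    (((n : ℝ) + 1) ^ (2 * k) * Real.exp (-((Real.log p / 4 - h) / 2 * n)))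

theorem coreErr_tendsto (p k : ℕ) (hp : 2 ≤ p) (e1 h C : ℝ) (he1 : 0 < e1)
    (hh : h < Real.log p / 4) :
    Filter.Tendsto (coreErr p k e1 h C) Filter.atTop (nhds 0) := by
  have hP : 0 < Real.log p := Real.log_pos (by exact_mod_cast hp)
  have t2 := ((core_tend 2 (Real.log p * e1 / 2) (by positivity)).const_mul (k : ℝ)).const_mul 2
  have t3 := (core_tend (k + 2) (Real.log p * e1 / 16) (by positivity)).const_mul (C ^ 3)
  have t4 := (core_tend (2 * k) ((Real.log p / 4 - h) / 2) (by linarith)).const_mul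
    (2 ^ k * Real.exp (Real.log p / 4))
  have t := (t2.add t3).add t4
  simp only [mul_zero, add_zero] at t
  exact t

/-- The mass of the atypical sequences. -/
def atyp (z : ℕ → ZMod p → ℂ) (b : ℝ) (L n : ℕ) : ℝ :=
  ∑ θ ∈ univ \ TypN (fun i => nu (z i)) b L n, ∏ i : Fin n, nu (z i) (θ i)

/-- The quantitative core inequality. -/
theorem core_quant (z : ℕ → ZMod p → ℂ) (hz : ∀ i, ∑ x, ‖z i x‖ ^ 2 = 1) (h : ℝ) (hh0 : 0 ≤ h)
    (hh : h < Real.log p / 4)
    (e1 C : ℝ) (he1 : 0 < e1) (hC : 1 ≤ C)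
    (htau : ∀ f : (ZMod p)[X], f ≠ 0 → (tau f : ℝ) ≤ C * (p : ℝ) ^ (e1 / 48 * f.natDegree))
    (k n : ℕ) (hn4 : 4 ≤ n) (d : Fin k → ℕ) (h1 : ∀ i, e1 * n ≤ d i)
    (h2 : e1 * n + ∑ i, (d i : ℝ) ≤ n)
    (h3 : (n : ℝ) - ∑ i, (d i : ℝ) ≤ ((Real.log p / 4 - h) / Real.log p) * n) :
    1 - (3 * ((n : ℝ) + 1) ^ k *
        Real.sqrt (atyp z (Real.exp h) (2 * (⌊e1 * n / 4⌋₊ + 1)) n) +
        coreErr p k e1 h C n) ≤ (∏ i, (d i : ℝ)) * ∑ a : Fin n → ZMod p,
      (∏ i : Fin n, ‖z i (a i)‖ ^ 2) * (cnt d (mon a) : ℝ) := by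
  have hp2 : 2 ≤ p := (Fact.out : p.Prime).two_le
  have hp : (0 : ℝ) < p := by exact_mod_cast (by omega : 0 < p)
  have hp1 : (1 : ℝ) < p := by exact_mod_cast (by omega : 1 < p)
  set P := Real.log p with hPdef
  have hP : 0 < P := Real.log_pos hp1
  have hpexp : (p : ℝ) = Real.exp P := (Real.exp_log hp).symm
  have hn0 : (0 : ℝ) < n := by exact_mod_cast (by omega : 0 < n)
  -- the number e
  have hDle : ∑ i, d i ≤ n := by
    have : (∑ i, (d i : ℝ)) ≤ n := by
      have : 0 ≤ e1 * n := by positivity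
      linarith
    exact_mod_cast this
  obtain ⟨e, he⟩ : ∃ e, ∑ i, d i + e = n := ⟨n - ∑ i, d i, by omega⟩
  have heR : (∑ i, (d i : ℝ)) + e = n := by exact_mod_cast he
  have he1' : e1 * n ≤ e := by linarith
  have he2 : (e : ℝ) ≤ ((P / 4 - h) / P) * n := by linarith
  have he3 : (P / 4 - h) / P ≤ 1 / 4 := by
    rw [div_le_div_iff₀ hP (by norm_num)]
    linarith
  have he4 : (e : ℝ) ≤ n / 4 := by
    have := mul_le_mul_of_nonneg_right he3 hn0.le
    linarith
  have he5 : 4 * e ≤ n := by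
    have : (4 : ℝ) * e ≤ n := by linarith
    exact_mod_cast this
  have he1le : e1 ≤ 1 / 4 := by
    by_contra hcon
    push Not at hcon
    have := mul_lt_mul_of_pos_right hcon hn0
    linarith
  have hdi : ∀ i, 1 ≤ d i := by
    intro i
    have h4 : (0 : ℝ) < d i := lt_of_lt_of_le (by positivity) (h1 i)
    have h5 : 0 < d i := by exact_mod_cast h4
    omega
  -- parameters
  set c0 := ⌊e1 * n / 4⌋₊ with hc0def
  have hc0le : (c0 : ℝ) ≤ e1 * n / 4 := Nat.floor_le (by positivity)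
  have hc0ge : e1 * n / 4 < c0 + 1 := Nat.lt_floor_add_one _
  have hc0e : c0 ≤ e := by
    have : (c0 : ℝ) ≤ e := by
      have : 0 ≤ e1 * n := by positivity
      linarith
    exact_mod_cast this
  have hc0n : 2 * (c0 + 1) ≤ n := by
    have : (c0 : ℝ) ≤ n / 16 := by
      have := mul_le_mul_of_nonneg_right he1le hn0.le
      linarith
    have h5 : (16 : ℝ) * c0 ≤ n := by linarith
    have h6 : 16 * c0 ≤ n := by exact_mod_cast h5
    omega
  set a := (n - 2 * e) / 2 with hadef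
  have ha : 2 * a + 2 * e ≤ n := by omega
  have haR : ((n : ℝ) - 2 * e) / 2 - 1 / 2 ≤ a := by
    have h5 : n ≤ 2 * a + 2 * e + 1 := by omega
    have h6 : (n : ℝ) ≤ 2 * a + 2 * e + 1 := by exact_mod_cast h5
    linarith
  set M : ℝ := C * (p : ℝ) ^ (e1 / 48 * n) with hMdef
  have hM : ∀ f : (ZMod p)[X], f.Monic → f.natDegree ≤ n → (tau f : ℝ) ≤ M := by
    intro f hf hfn
    refine (htau f hf.ne_zero).trans ?_
    refine mul_le_mul_of_nonneg_left ?_ (by linarith)
    apply Real.rpow_le_rpow_of_exponent_le hp1.le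
    have : (f.natDegree : ℝ) ≤ n := by exact_mod_cast hfn
    have h5 : 0 ≤ e1 / 48 := by positivity
    exact mul_le_mul_of_nonneg_left this h5
  have hb : 1 ≤ Real.exp h := Real.one_le_exp hh0
  have hmain := core_ineq d hdi he ha hc0e hc0n z hz (Real.exp h) hb M hM
  obtain ⟨U, hU, hU1⟩ := core_unif (p := p) d hdi he
  rw [hU] at hmain
  -- the left side is real
  have hleft : (∑ x : Fin n → ZMod p, ((∏ i : Fin n, ‖z i (x i)‖ ^ 2 : ℝ) : ℂ) *
          (((∏ i, d i : ℕ) : ℂ) * cnt d (mon x))) =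
      (((∏ i, (d i : ℝ)) * ∑ a : Fin n → ZMod p,
        (∏ i : Fin n, ‖z i (a i)‖ ^ 2) * (cnt d (mon a) : ℝ) : ℝ) : ℂ) := by
    push_cast
    rw [Finset.mul_sum]
    refine Finset.sum_congr rfl fun x _ => by ring
  rw [hleft, ← Complex.ofReal_sub, Complex.norm_real, Real.norm_eq_abs, abs_le] at hmain
  have hm := hmain.1
  -- bounds of the error terms
  have hnk : (n : ℝ) ^ k ≤ ((n : ℝ) + 1) ^ k := pow_le_pow_left₀ hn0.le (by linarith) k
  have T1 : 3 * (n : ℝ) ^ k * Real.sqrt (∑ θ ∈ univ \ TypN (fun i => nu (z i)) (Real.exp h)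
        (2 * (c0 + 1)) n, ∏ i : Fin n, nu (z i) (θ i)) ≤
      3 * ((n : ℝ) + 1) ^ k * Real.sqrt (atyp z (Real.exp h) (2 * (c0 + 1)) n) := by
    unfold atyp
    gcongr
  have hdn : ∀ i, (d i : ℝ) ≤ n := by
    intro i
    have : d i ≤ n := by
      have := Finset.single_le_sum (f := fun i => d i) (fun j _ => Nat.zero_le _)
        (Finset.mem_univ i)
      omega
    exact_mod_cast this
  have T2 : c0 * (p : ℝ) ^ (2 * c0) * ∑ i, (d i : ℝ) / (p : ℝ) ^ d i ≤
      k * (((n : ℝ) + 1) ^ 2 * Real.exp (-(P * e1 / 2 * n))) := by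
    have h5 : ∑ i, (d i : ℝ) / (p : ℝ) ^ d i ≤ k * (n * Real.exp (-(P * (e1 * n)))) := by
      calc ∑ i, (d i : ℝ) / (p : ℝ) ^ d i ≤ ∑ _i : Fin k, (n * Real.exp (-(P * (e1 * n)))) := by
            refine Finset.sum_le_sum fun i _ => ?_
            rw [div_eq_mul_inv]
            refine mul_le_mul (hdn i) ?_ (by positivity) hn0.le
            rw [hpexp, ← Real.exp_nat_mul, ← Real.exp_neg]
            apply Real.exp_le_exp.2
            have := mul_le_mul_of_nonneg_left (h1 i) hP.le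
            linarith
        _ = _ := by simp
    have h6 : (p : ℝ) ^ (2 * c0) ≤ Real.exp (P * (e1 * n / 2)) := by
      rw [hpexp, ← Real.exp_nat_mul]
      apply Real.exp_le_exp.2
      push_cast
      have := mul_le_mul_of_nonneg_left hc0le hP.le
      linarith
    have h7 : (c0 : ℝ) ≤ n + 1 := by
      have : c0 ≤ n + 1 := by omega
      exact_mod_cast this
    calc c0 * (p : ℝ) ^ (2 * c0) * ∑ i, (d i : ℝ) / (p : ℝ) ^ d i ≤
        (n + 1) * Real.exp (P * (e1 * n / 2)) * (k * ((n + 1) * Real.exp (-(P * (e1 * n))))) := by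
          refine mul_le_mul (mul_le_mul h7 h6 (by positivity) (by positivity)) (h5.trans ?_)
            (Finset.sum_nonneg fun i _ => by positivity) (by positivity)
          gcongr
          linarith
      _ = k * (((n : ℝ) + 1) ^ 2 * (Real.exp (P * (e1 * n / 2)) * Real.exp (-(P * (e1 * n))))) := by
          ring
      _ = _ := by
          rw [← Real.exp_add]
          congr 4
          ring
  have T3 : ∑ c ∈ Icc (c0 + 1) (a + e), Real.exp h ^ (2 * c) *
      ((n + 1 : ℝ) ^ k * ((n + 1) * M ^ 3) / (p : ℝ) ^ c) ≤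
      C ^ 3 * (((n : ℝ) + 1) ^ (k + 2) * Real.exp (-(P * e1 / 16 * n))) := by
    have hM3 : M ^ 3 = C ^ 3 * Real.exp (P * (e1 / 16 * n)) := by
      rw [hMdef, mul_pow, ← Real.rpow_natCast ((p : ℝ) ^ (e1 / 48 * n)) 3, ← Real.rpow_mul hp.le,
        Real.rpow_def_of_pos hp]
      congr 2
      push_cast
      ring
    have h5 : ∀ c ∈ Icc (c0 + 1) (a + e), Real.exp h ^ (2 * c) *
      ((n + 1 : ℝ) ^ k * ((n + 1) * M ^ 3) / (p : ℝ) ^ c) ≤
      ((n : ℝ) + 1) ^ (k + 1) * C ^ 3 * Real.exp (-(P * e1 / 16 * n)) := by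
      intro c hc
      rw [Finset.mem_Icc] at hc
      have hcR : (c0 : ℝ) + 1 ≤ c := by exact_mod_cast hc.1
      have h6 : Real.exp h ^ (2 * c) * Real.exp (P * (e1 / 16 * n)) / (p : ℝ) ^ c ≤
          Real.exp (-(P * e1 / 16 * n)) := by
        rw [hpexp, ← Real.exp_nat_mul, ← Real.exp_nat_mul, ← Real.exp_add, ← Real.exp_sub]
        apply Real.exp_le_exp.2
        push_cast
        have h7 : 2 * (c : ℝ) * h ≤ c * P / 2 := by
          have : (0 : ℝ) ≤ c := by positivity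
          nlinarith
        have h8 : e1 * n / 4 * P ≤ c * P := mul_le_mul_of_nonneg_right (by linarith) hP.le
        linarith
      calc Real.exp h ^ (2 * c) * ((n + 1 : ℝ) ^ k * ((n + 1) * M ^ 3) / (p : ℝ) ^ c) =
          ((n : ℝ) + 1) ^ (k + 1) * C ^ 3 *
            (Real.exp h ^ (2 * c) * Real.exp (P * (e1 / 16 * n)) / (p : ℝ) ^ c) := by
            rw [hM3]
            ring
        _ ≤ _ := by gcongr
    calc _ ≤ ∑ _c ∈ Icc (c0 + 1) (a + e),
          ((n : ℝ) + 1) ^ (k + 1) * C ^ 3 * Real.exp (-(P * e1 / 16 * n)) :=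
          Finset.sum_le_sum h5
      _ ≤ ((n : ℝ) + 1) * (((n : ℝ) + 1) ^ (k + 1) * C ^ 3 * Real.exp (-(P * e1 / 16 * n))) := by
          rw [Finset.sum_const, nsmul_eq_mul]
          refine mul_le_mul_of_nonneg_right ?_ (by positivity)
          rw [Nat.card_Icc]
          have : a + e + 1 - (c0 + 1) ≤ n + 1 := by omega
          exact_mod_cast this
      _ = _ := by ring
  have T4 : Real.exp h ^ n * ((n + 1 : ℝ) ^ k * ((2 * n : ℝ) ^ k / Real.sqrt p ^ a)) ≤
      2 ^ k * Real.exp (P / 4) *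
    (((n : ℝ) + 1) ^ (2 * k) * Real.exp (-((P / 4 - h) / 2 * n))) := by
    have hsq : Real.sqrt p = Real.exp (P / 2) := by
      rw [hpexp, ← Real.exp_half]
    have h5 : Real.exp h ^ n / Real.sqrt p ^ a ≤
        Real.exp (P / 4) * Real.exp (-((P / 4 - h) / 2 * n)) := by
      rw [hsq, ← Real.exp_nat_mul, ← Real.exp_nat_mul, ← Real.exp_sub, ← Real.exp_add]
      apply Real.exp_le_exp.2
      have h6 : ((n : ℝ) - 2 * e) / 2 - 1 / 2 ≤ a := haR
      have h7 : (e : ℝ) * P ≤ (P / 4 - h) * n := by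
        have := mul_le_mul_of_nonneg_right he2 hP.le
        have h8 : (P / 4 - h) / P * n * P = (P / 4 - h) * n := by
          field_simp
        linarith
      have h8 := mul_le_mul_of_nonneg_right h6 hP.le
      nlinarith
    have h6 : (2 * n : ℝ) ^ k ≤ 2 ^ k * ((n : ℝ) + 1) ^ k := by
      rw [mul_pow]
      gcongr
    calc Real.exp h ^ n * ((n + 1 : ℝ) ^ k * ((2 * n : ℝ) ^ k / Real.sqrt p ^ a)) =
        (n + 1 : ℝ) ^ k * (2 * n : ℝ) ^ k * (Real.exp h ^ n / Real.sqrt p ^ a) := by ring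
      _ ≤ (n + 1 : ℝ) ^ k * (2 ^ k * ((n : ℝ) + 1) ^ k) *
          (Real.exp (P / 4) * Real.exp (-((P / 4 - h) / 2 * n))) := by gcongr
      _ = _ := by ring
  have T5 : ∑ i, (d i : ℝ) / Real.sqrt p ^ d i ≤
      k * (((n : ℝ) + 1) ^ 2 * Real.exp (-(P * e1 / 2 * n))) := by
    have hsq : Real.sqrt p = Real.exp (P / 2) := by
      rw [hpexp, ← Real.exp_half]
    calc ∑ i, (d i : ℝ) / Real.sqrt p ^ d i ≤
        ∑ _i : Fin k, (((n : ℝ) + 1) ^ 2 * Real.exp (-(P * e1 / 2 * n))) := by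
          refine Finset.sum_le_sum fun i _ => ?_
          rw [div_eq_mul_inv]
          refine mul_le_mul ((hdn i).trans (by nlinarith)) ?_ (by positivity) (by positivity)
          rw [hsq, ← Real.exp_nat_mul, ← Real.exp_neg]
          apply Real.exp_le_exp.2
          have := mul_le_mul_of_nonneg_right (h1 i) hP.le
          linarith
      _ = _ := by simp
  unfold coreErr
  linarith

/-- Jensen for the square root. -/
theorem core_sqrt {ι : Type} [Fintype ι] (w f : ι → ℝ) (hw : ∀ i, 0 ≤ w i) (hw1 : ∑ i, w i = 1)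
    (hf : ∀ i, 0 ≤ f i) : ∑ i, w i * Real.sqrt (f i) ≤ Real.sqrt (∑ i, w i * f i) := by
  apply Real.le_sqrt_of_sq_le
  have h1 := Finset.sum_mul_sq_le_sq_mul_sq univ (fun i => Real.sqrt (w i))
    (fun i => Real.sqrt (w i) * Real.sqrt (f i))
  have h2 : ∀ i, Real.sqrt (w i) * (Real.sqrt (w i) * Real.sqrt (f i)) = w i * Real.sqrt (f i) := by
    intro i
    rw [← mul_assoc, Real.mul_self_sqrt (hw i)]
  have h3 : ∀ i, Real.sqrt (w i) ^ 2 = w i := fun i => Real.sq_sqrt (hw i)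
  have h4 : ∀ i, (Real.sqrt (w i) * Real.sqrt (f i)) ^ 2 = w i * f i := by
    intro i
    rw [mul_pow, Real.sq_sqrt (hw i), Real.sq_sqrt (hf i)]
  simp_rw [h2, h3, h4] at h1
  rwa [hw1, one_mul] at h1

/-- The core theorem for mixtures. -/
theorem core_mix {J : Type} [Fintype J] (lam : J → ℝ) (hlam0 : ∀ j, 0 ≤ lam j)
    (hlam1 : ∑ j, lam j = 1) (z : J → ZMod p → ℂ) (hz : ∀ j, ∑ x, ‖z j x‖ ^ 2 = 1)
    (hent : ∑ j, lam j * ∑ a, Real.negMulLog (nu (z j) a) < Real.log p / 4) :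
    ∃ e' : ℝ, 0 < e' ∧ ∀ k : ℕ, ∀ e1 : ℝ, 0 < e1 → ∀ tol : ℝ, 0 < tol →
      ∀ᶠ n : ℕ in Filter.atTop, ∀ d : Fin k → ℕ, (∀ i, e1 * n ≤ d i) →
        e1 * n + ∑ i, (d i : ℝ) ≤ n → (n : ℝ) - ∑ i, (d i : ℝ) ≤ e' * n →
        1 - tol ≤ (∏ i, (d i : ℝ)) * ∑ a : Fin n → ZMod p,
          (∏ i, ∑ j, lam j * ‖z j (a i)‖ ^ 2) * (cnt d (mon a) : ℝ) := by
  classical
  have hp2 : 2 ≤ p := (Fact.out : p.Prime).two_le
  have hp1 : (1 : ℝ) < p := by exact_mod_cast (by omega : 1 < p)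
  have hP : 0 < Real.log p := Real.log_pos hp1
  have hν : ∀ j a, 0 ≤ nu (z j) a := fun j => core_nu_nonneg (z j)
  have hν1 : ∀ j, ∑ a, nu (z j) a = 1 := fun j => by rw [sum_nu, hz]
  have hent0 : 0 ≤ ∑ j, lam j * ∑ a, Real.negMulLog (nu (z j) a) := by
    refine Finset.sum_nonneg fun j _ => mul_nonneg (hlam0 j) ?_
    refine Finset.sum_nonneg fun a _ => Real.negMulLog_nonneg (hν j a) ?_
    rw [← hν1 j]
    exact Finset.single_le_sum (fun a _ => hν j a) (Finset.mem_univ a)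
  obtain ⟨j0⟩ : Nonempty J := by
    by_contra hcon
    rw [not_nonempty_iff] at hcon
    simp at hlam1
  obtain ⟨h, hh1, hh2⟩ := exists_between hent
  have hh0 : 0 ≤ h := by linarith
  obtain ⟨s, hs0, hs1, hs⟩ := exists_renyi_mix lam hlam0 hlam1 (fun j => nu (z j)) hν hν1 h hh1
  set ρ := (∑ j, lam j * ∑ a, nu (z j) a ^ (1 - s)) / Real.exp h ^ s with hρdef
  have hρ0 : 0 ≤ ρ := div_nonneg (Finset.sum_nonneg fun j _ => mul_nonneg (hlam0 j)
    (Finset.sum_nonneg fun a _ => Real.rpow_nonneg (hν j a) _)) (by positivity)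
  obtain ⟨κ, hκ, hρκ⟩ : ∃ κ : ℝ, 0 < κ ∧ ρ ≤ Real.exp (-κ) := by
    have h5 : max ρ (1 / 2) < 1 := max_lt hs (by norm_num)
    have h6 : 0 < max ρ (1 / 2) := lt_of_lt_of_le (by norm_num) (le_max_right _ _)
    refine ⟨-Real.log (max ρ (1 / 2)), ?_, ?_⟩
    · have := Real.log_neg h6 h5
      linarith
    · rw [neg_neg, Real.exp_log h6]
      exact le_max_left _ _
  refine ⟨(Real.log p / 4 - h) / Real.log p, div_pos (by linarith) hP, ?_⟩
  intro k e1 he1 tol htol
  obtain ⟨C, hC, htau⟩ := tau_le (p := p) (e1 / 48) (by positivity)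
  have t1 := ((core_tend (k + 1) (κ * e1 / 4) (by positivity)).const_mul 3)
  have ht := (t1.add (coreErr_tendsto p k hp2 e1 h C he1 hh2))
  rw [mul_zero, zero_add] at ht
  filter_upwards [ht.eventually_lt_const htol, Filter.eventually_ge_atTop 4] with n hn hn4 d h1 h2 h3
  -- positions
  set zz : (Fin n → J) → ℕ → ZMod p → ℂ := fun j i =>
    if hi : i < n then z (j ⟨i, hi⟩) else z j0 with hzz
  have hzzn : ∀ (j : Fin n → J) (i : Fin n), zz j i = z (j i) := by
    intro j i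
    simp only [hzz, i.2, dif_pos]
  have hzz1 : ∀ (j : Fin n → J) (i : ℕ), ∑ x, ‖zz j i x‖ ^ 2 = 1 := by
    intro j i
    simp only [hzz]
    split_ifs
    · exact hz _
    · exact hz _
  set L := 2 * (⌊e1 * n / 4⌋₊ + 1) with hL
  set W : (Fin n → J) → ℝ := fun j => ∏ i, lam (j i) with hW
  have hW0 : ∀ j, 0 ≤ W j := fun j => Finset.prod_nonneg fun i _ => hlam0 _
  have hW1 : ∑ j, W j = 1 := by
    rw [hW, ← Fintype.prod_sum (fun (_ : Fin n) (x : J) => lam x), hlam1]
    simp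
  have hq : ∀ j : Fin n → J, 1 - (3 * ((n : ℝ) + 1) ^ k *
        Real.sqrt (atyp (zz j) (Real.exp h) L n) + coreErr p k e1 h C n) ≤
        (∏ i, (d i : ℝ)) * ∑ a : Fin n → ZMod p,
      (∏ i : Fin n, ‖z (j i) (a i)‖ ^ 2) * (cnt d (mon a) : ℝ) := by
    intro j
    have := core_quant (zz j) (hzz1 j) h hh0 hh2 e1 C he1 hC htau k n hn4 d h1 h2 h3
    simp_rw [hzzn] at this
    exact this
  have hsum := Finset.sum_le_sum fun (j : Fin n → J) (_ : j ∈ univ) =>
    mul_le_mul_of_nonneg_left (hq j) (hW0 j)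
  have hright : ∑ j : Fin n → J, W j * ((∏ i, (d i : ℝ)) * ∑ a : Fin n → ZMod p,
      (∏ i : Fin n, ‖z (j i) (a i)‖ ^ 2) * (cnt d (mon a) : ℝ)) =
      (∏ i, (d i : ℝ)) * ∑ a : Fin n → ZMod p,
          (∏ i, ∑ j, lam j * ‖z j (a i)‖ ^ 2) * (cnt d (mon a) : ℝ) := by
    have e1' : ∀ j : Fin n → J, W j * ((∏ i, (d i : ℝ)) * ∑ a : Fin n → ZMod p,
      (∏ i : Fin n, ‖z (j i) (a i)‖ ^ 2) * (cnt d (mon a) : ℝ)) =
      (∏ i, (d i : ℝ)) * ∑ a : Fin n → ZMod p,
        (∏ i : Fin n, lam (j i) * ‖z (j i) (a i)‖ ^ 2) * (cnt d (mon a) : ℝ) := by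
      intro j
      rw [mul_left_comm, Finset.mul_sum]
      congr 1
      refine Finset.sum_congr rfl fun a _ => ?_
      rw [Finset.prod_mul_distrib]
      ring
    rw [Finset.sum_congr rfl fun j _ => e1' j, ← Finset.mul_sum, Finset.sum_comm]
    congr 1
    refine Finset.sum_congr rfl fun a _ => ?_
    rw [← Finset.sum_mul]
    congr 1
    exact (Fintype.prod_sum (fun (i : Fin n) (x : J) => lam x * ‖z x (a i)‖ ^ 2)).symm
  rw [hright] at hsum
  refine le_trans ?_ hsum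
  have hleft : ∑ j : Fin n → J, W j * (1 - (3 * ((n : ℝ) + 1) ^ k *
        Real.sqrt (atyp (zz j) (Real.exp h) L n) + coreErr p k e1 h C n)) =
      1 - (3 * ((n : ℝ) + 1) ^ k * ∑ j : Fin n → J, W j *
        Real.sqrt (atyp (zz j) (Real.exp h) L n)) - coreErr p k e1 h C n := by
    have e2 : ∀ j : Fin n → J, W j * (1 - (3 * ((n : ℝ) + 1) ^ k *
        Real.sqrt (atyp (zz j) (Real.exp h) L n) + coreErr p k e1 h C n)) =
        W j - 3 * ((n : ℝ) + 1) ^ k * (W j * Real.sqrt (atyp (zz j) (Real.exp h) L n)) -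
          W j * coreErr p k e1 h C n := by
      intro j
      ring
    rw [Finset.sum_congr rfl fun j _ => e2 j, Finset.sum_sub_distrib, Finset.sum_sub_distrib,
      ← Finset.mul_sum, ← Finset.sum_mul, hW1, one_mul]
  rw [hleft]
  have hat0 : ∀ j, 0 ≤ atyp (zz j) (Real.exp h) L n := by
    intro j
    unfold atyp
    exact Finset.sum_nonneg fun θ _ => Finset.prod_nonneg fun i _ => core_nu_nonneg _ _
  have hJ := core_sqrt W (fun j => atyp (zz j) (Real.exp h) L n) hW0 hW1 hat0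
  -- mean of the atypical mass
  have hmean : ∑ j, W j * atyp (zz j) (Real.exp h) L n ≤ ∑ l ∈ Icc L n, ρ ^ l := by
    have hj : ∀ j : Fin n → J, atyp (zz j) (Real.exp h) L n ≤ ∑ l ∈ Icc L n,
        ∏ i ∈ range l, ((∑ a, nu (zz j i) a ^ (1 - s)) / Real.exp h ^ s) := fun j =>
      compl_typN_le (fun i => nu (zz j i)) (fun i => core_nu_nonneg _)
        (fun i => by rw [sum_nu, hzz1]) (Real.exp h) (Real.one_le_exp hh0) s hs0 hs1 L n
    calc ∑ j, W j * atyp (zz j) (Real.exp h) L n ≤ ∑ j : Fin n → J, W j * ∑ l ∈ Icc L n,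
          ∏ i ∈ range l, ((∑ a, nu (zz j i) a ^ (1 - s)) / Real.exp h ^ s) :=
          Finset.sum_le_sum fun j _ => mul_le_mul_of_nonneg_left (hj j) (hW0 j)
      _ = ∑ l ∈ Icc L n, ∑ j : Fin n → J, W j *
          ∏ i ∈ range l, ((∑ a, nu (zz j i) a ^ (1 - s)) / Real.exp h ^ s) := by
          simp_rw [Finset.mul_sum]
          exact Finset.sum_comm
      _ = ∑ l ∈ Icc L n, ρ ^ l := by
          refine Finset.sum_congr rfl fun l hl => ?_
          rw [Finset.mem_Icc] at hl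
          have e3 : ∀ j : Fin n → J, W j *
              ∏ i ∈ range l, ((∑ a, nu (zz j i) a ^ (1 - s)) / Real.exp h ^ s) =
              ∏ i : Fin n, (lam (j i) * if (i : ℕ) < l then
                ((∑ a, nu (z (j i)) a ^ (1 - s)) / Real.exp h ^ s) else 1) := by
            intro j
            rw [hW, Finset.prod_mul_distrib]
            congr 1
            have e4 : ∏ i ∈ range l, ((∑ a, nu (zz j i) a ^ (1 - s)) / Real.exp h ^ s) =
                ∏ i ∈ range n, if i < l then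
                  ((∑ a, nu (zz j i) a ^ (1 - s)) / Real.exp h ^ s) else 1 := by
              rw [← Finset.prod_filter]
              congr 1
              ext i
              simp only [Finset.mem_range, Finset.mem_filter]
              omega
            rw [e4, Finset.prod_range]
            refine Finset.prod_congr rfl fun i _ => ?_
            rw [hzzn]
          rw [Finset.sum_congr rfl fun j _ => e3 j,
            ← Fintype.prod_sum (fun (i : Fin n) (x : J) => lam x * if (i : ℕ) < l then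
                ((∑ a, nu (z x) a ^ (1 - s)) / Real.exp h ^ s) else 1)]
          have e5 : ∀ i : Fin n, (∑ x, lam x * if (i : ℕ) < l then
                ((∑ a, nu (z x) a ^ (1 - s)) / Real.exp h ^ s) else 1) =
              if (i : ℕ) < l then ρ else 1 := by
            intro i
            split_ifs
            · rw [hρdef, Finset.sum_div]
              exact Finset.sum_congr rfl fun x _ => by ring
            · simpa using hlam1
          rw [Finset.prod_congr rfl fun i _ => e5 i, ← Finset.prod_range (fun i => if i < l then ρ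
            else 1), ← Finset.prod_filter]
          have e6 : (range n).filter (fun i => i < l) = range l := by
            ext i
            simp only [Finset.mem_range, Finset.mem_filter]
            omega
          rw [e6, Finset.prod_const, Finset.card_range]
  have hc0ge : e1 * n / 4 < (⌊e1 * n / 4⌋₊ : ℝ) + 1 := Nat.lt_floor_add_one _
  have h5 : ∑ l ∈ Icc L n, ρ ^ l ≤ ((n : ℝ) + 1) ^ 2 *
      Real.exp (-(κ * e1 / 4 * n)) ^ 2 := by
    calc ∑ l ∈ Icc L n, ρ ^ l ≤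
        ∑ _l ∈ Icc L n, Real.exp (-(κ * e1 / 4 * n)) ^ 2 := by
          refine Finset.sum_le_sum fun l hl => ?_
          rw [Finset.mem_Icc] at hl
          refine (pow_le_pow_left₀ hρ0 hρκ l).trans ?_
          rw [← Real.exp_nat_mul, ← Real.exp_nat_mul]
          apply Real.exp_le_exp.2
          have h6 : (2 * ((⌊e1 * n / 4⌋₊ : ℝ) + 1) : ℝ) ≤ l := by exact_mod_cast hl.1
          have h7 : e1 * n / 2 ≤ l := by linarith
          have h8 := mul_le_mul_of_nonneg_left h7 hκ.le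
          push_cast
          linarith
      _ ≤ _ := by
          rw [Finset.sum_const, nsmul_eq_mul]
          refine mul_le_mul_of_nonneg_right ?_ (by positivity)
          have h6 : ((Icc L n).card : ℝ) ≤ (n : ℝ) + 1 := by
            rw [Nat.card_Icc]
            have : n + 1 - L ≤ n + 1 := by omega
            exact_mod_cast this
          have h7 : (0 : ℝ) ≤ n := Nat.cast_nonneg n
          nlinarith
  have h6 : Real.sqrt (∑ j, W j * atyp (zz j) (Real.exp h) L n) ≤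
      ((n : ℝ) + 1) * Real.exp (-(κ * e1 / 4 * n)) := by
    apply Real.sqrt_le_iff.2
    refine ⟨by positivity, ?_⟩
    rw [mul_pow]
    exact hmean.trans h5
  have h7 : 3 * ((n : ℝ) + 1) ^ k * ∑ j : Fin n → J, W j *
        Real.sqrt (atyp (zz j) (Real.exp h) L n) ≤
      3 * (((n : ℝ) + 1) ^ (k + 1) * Real.exp (-(κ * e1 / 4 * n))) := by
    calc 3 * ((n : ℝ) + 1) ^ k * ∑ j : Fin n → J, W j *
        Real.sqrt (atyp (zz j) (Real.exp h) L n) ≤
        3 * ((n : ℝ) + 1) ^ k * (((n : ℝ) + 1) * Real.exp (-(κ * e1 / 4 * n))) := by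
          refine mul_le_mul_of_nonneg_left (hJ.trans h6) (by positivity)
      _ = _ := by ring
  linarith

end

end Pool.Agent.MP6cc1fa
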