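import Pool.Agent.Lib.MP_6cc1fa_pr.Core
import Pool.Agent.Lib.MP_6cc1fa_pr.Wrap

/-!
MP_6cc1fa_pr, module GLUE: from the core theorem to the limit law.
-/

set_option autoImplicit false

namespace Pool.Agent.MP6cc1fa

open Polynomial Finset

noncomputable section

variable {p : ℕ} [Fact p.Prime]


theorem nu_dil (z : ZMod p → ℂ) (c : ZMod p) (hc : c ≠ 0) (a : ZMod p) :
    nu (fun x => z (c * x)) a = nu z (c⁻¹ * a) := by
  unfold nu
  congr 3
  refine Fintype.sum_equiv (Equiv.mulLeft₀ c hc) _ _ fun x => ?_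
  simp only [Equiv.mulLeft₀_apply]
  congr 3
  field_simp

theorem ent_dil (z : ZMod p → ℂ) (c : ZMod p) (hc : c ≠ 0) :
    ∑ a, Real.negMulLog (nu (fun x => z (c * x)) a) = ∑ a, Real.negMulLog (nu z a) := by
  simp_rw [nu_dil z c hc]
  exact Fintype.sum_equiv (Equiv.mulLeft₀ c⁻¹ (inv_ne_zero hc)) _ _ fun _ => rfl

theorem sum_dil (z : ZMod p → ℂ) (c : ZMod p) (hc : c ≠ 0) :
    ∑ x, ‖z (c * x)‖ ^ 2 = ∑ x, ‖z x‖ ^ 2 :=
  Fintype.sum_equiv (Equiv.mulLeft₀ c hc) _ _ fun _ => rfl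

theorem glue_mon {n : ℕ} (a : Fin n → ZMod p) : mon a ≠ 0 ∧ (mon a).natDegree = n := by
  have h := (mem_MD n (mon a)).1 (by
    classical
    unfold MD
    exact mem_image_of_mem _ (mem_univ a))
  exact ⟨h.1.ne_zero, h.2⟩

/-- The limit law for monic polynomials. -/
theorem monic_pd {J : Type} [Fintype J] (lam : J → ℝ) (hlam0 : ∀ j, 0 ≤ lam j)
    (hlam1 : ∑ j, lam j = 1) (z : J → ZMod p → ℂ) (hz : ∀ j, ∑ x, ‖z j x‖ ^ 2 = 1)
    (hent : ∑ j, lam j * ∑ a, Real.negMulLog (nu (z j) a) < Real.log p / 4)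
    (g : BoundedContinuousFunction (ℕ → ℝ) ℝ) :
    Filter.Tendsto (fun n : ℕ => ∑ a : Fin n → ZMod p, (∏ i, ∑ j, lam j * ‖z j (a i)‖ ^ 2) *
      g (_root_.MP6cc1fa.degSeq (mon a))) Filter.atTop
      (nhds (∫ x, g x ∂_root_.MP6cc1fa.PDlaw)) := by
  obtain ⟨e', he', H⟩ := core_mix lam hlam0 hlam1 z hz hent
  refine _root_.MP6cc1fa.pd_of_tuples (fun n => Fin n → ZMod p)
    (fun n a => ∏ i, ∑ j, lam j * ‖z j (a i)‖ ^ 2) (fun n a => mon a)
    (fun n a => prod_nonneg fun i _ => sum_nonneg fun j _ => mul_nonneg (hlam0 j) (by positivity))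
    (fun n => ?_) (fun n a => glue_mon a) e' he' (fun k _ e1 he1 eta heta => ?_) g
  · rw [← Fintype.prod_sum (fun (_ : Fin n) (x : ZMod p) => ∑ j, lam j * ‖z j x‖ ^ 2)]
    have h1 : ∑ x, ∑ j, lam j * ‖z j x‖ ^ 2 = 1 := by
      rw [sum_comm, ← hlam1]
      refine sum_congr rfl fun j _ => ?_
      rw [← mul_sum, hz, mul_one]
    simp [h1]
  · filter_upwards [H k e1 he1 eta heta] with n hn d h1 h2 h3
    have := hn d h1 h2 h3
    simp_rw [_root_.MP6cc1fa.cnt_eq_ncard] at this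
    exact this

/-- The limit law in the entropy class. -/
theorem pd_mix (μ : ZMod p → ℝ) {J : Type} [Fintype J] (lam : J → ℝ) (z : J → ZMod p → ℂ)
    (hlam0 : ∀ j, 0 ≤ lam j) (hlam1 : ∑ j, lam j = 1) (hz : ∀ j, ∑ x, ‖z j x‖ ^ 2 = 1)
    (hμ : ∀ x, ∑ j, lam j * ‖z j x‖ ^ 2 = μ x)
    (hent : ∑ j, lam j * ∑ a, Real.negMulLog (nu (z j) a) < Real.log p / 4) :
    PDLimit p μ := by
  classical
  have h0 : ∀ x, 0 ≤ μ x := fun x => by
    rw [← hμ x]
    exact sum_nonneg fun j _ => mul_nonneg (hlam0 j) (by positivity)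
  have h1 : ∑ x, μ x = 1 := by
    simp_rw [← hμ]
    rw [sum_comm, ← hlam1]
    refine sum_congr rfl fun j _ => ?_
    rw [← mul_sum, hz, mul_one]
  have hp2 : 2 ≤ p := (Fact.out : p.Prime).two_le
  have hp1 : (1 : ℝ) < p := by exact_mod_cast (by omega : 1 < p)
  have hP : 0 < Real.log p := Real.log_pos hp1
  refine pdLimit_of μ h0 h1 ?_ fun c hc g => ?_
  · by_contra hcon
    have hle : μ 0 ≤ 1 := by
      rw [← h1]; exact single_le_sum (fun x _ => h0 x) (mem_univ 0)
    have hμ0 : μ 0 = 1 := le_antisymm hle (not_lt.1 hcon)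
    have hrest : ∀ x, x ≠ 0 → μ x = 0 := by
      intro x hx
      have h2 : μ 0 + μ x ≤ 1 := by
        rw [← h1, ← sum_pair hx.symm]
        exact sum_le_sum_of_subset_of_nonneg (subset_univ _) fun y _ _ => h0 y
      exact le_antisymm (by linarith) (h0 x)
    have hzero : ∀ j, lam j ≠ 0 → ∀ x, x ≠ 0 → z j x = 0 := by
      intro j hj x hx
      have h3 := hrest x hx
      rw [← hμ x, sum_eq_zero_iff_of_nonneg fun j _ => mul_nonneg (hlam0 j) (by positivity)] at h3
      have h4 := h3 j (mem_univ j)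
      rcases mul_eq_zero.1 h4 with h5 | h5
      · exact absurd h5 hj
      · exact norm_eq_zero.1 ((pow_eq_zero_iff two_ne_zero).1 h5)
    have hnu : ∀ j, lam j ≠ 0 → ∀ a, nu (z j) a = 1 / p := by
      intro j hj a
      have h6 : ‖z j 0‖ ^ 2 = 1 := by
        rw [← hz j, sum_eq_single 0]
        · intro x _ hx; rw [hzero j hj x hx]; simp
        · intro h; exact absurd (mem_univ _) h
      unfold nu
      rw [sum_eq_single 0]
      · rw [norm_mul, mul_zero, neg_zero]
        unfold ch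
        rw [AddChar.map_zero_eq_one, norm_one, mul_one, h6]
      · intro x _ hx; rw [hzero j hj x hx, zero_mul]
      · intro h; exact absurd (mem_univ _) h
    have hj : ∀ j ∈ (univ : Finset J), lam j * ∑ a, Real.negMulLog (nu (z j) a) =
        lam j * Real.log p := by
      intro j _
      by_cases hj0 : lam j = 0
      · rw [hj0]; ring
      · congr 1
        rw [sum_congr rfl fun a _ => by rw [hnu j hj0 a], sum_const, card_univ, ZMod.card,
          nsmul_eq_mul]
        unfold Real.negMulLog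
        rw [Real.log_div one_ne_zero (by linarith), Real.log_one]
        field_simp
        ring
    rw [sum_congr rfl hj, ← sum_mul, hlam1, one_mul] at hent
    linarith
  · have := monic_pd lam hlam0 hlam1 (fun j x => z j (c * x))
      (fun j => by rw [sum_dil (z j) c hc, hz]) (by simp_rw [ent_dil _ c hc]; exact hent) g
    simp_rw [hμ] at this
    exact this

end

end Pool.Agent.MP6cc1fa
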