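import Pool.Agent.Lib.MP_6cc1fa_pr.Defs

/-!
MP_6cc1fa_pr: typical sequences for distributions which depend on the position.
-/

set_option autoImplicit false

namespace Pool.Agent.MP6cc1fa

open Polynomial Finset

noncomputable section

/-- Typical sequences, the distribution `ν i` depends on the position `i`. -/
def TypN {p : ℕ} [Fact p.Prime] (ν : ℕ → ZMod p → ℝ) (b : ℝ) (L n : ℕ) :
    Finset (Fin n → ZMod p) := by
  classical
  exact univ.filter fun θ => ∀ l, L ≤ l → l ≤ n →
    1 / b ^ l ≤ ∏ i : Fin n, if (i : ℕ) < l then ν i (θ i) else 1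

/-- Sum over pairs of typical sequences whose difference has complexity `c`. -/
def pairSumN {p : ℕ} [Fact p.Prime] (ν : ℕ → ZMod p → ℝ) (b : ℝ) (L n c : ℕ) : ℝ :=
  ∑ θ ∈ TypN ν b L n, ∑ θ' ∈ TypN ν b L n, if cx n (ext (θ - θ')) = c then
    Real.sqrt (∏ i : Fin n, ν i (θ i)) * Real.sqrt (∏ i : Fin n, ν i (θ' i)) else 0

end

end Pool.Agent.MP6cc1fa
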