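import Pool.Agent.Lib.MP_6cc1fa_pr.Defs
import Pool.Agent.Lib.MP_6cc1fa_pr.Mon
import Pool.Agent.Lib.MP_6cc1fa_pr.Cnt
import Pool.Agent.Lib.MP_6cc1fa_pr.CntM

/-!
MP_6cc1fa_pr, module S2: the exponential sum `S(η)` in general.
-/

set_option autoImplicit false

namespace Pool.Agent.MP6cc1fa

open Polynomial Finset

noncomputable section

variable {p : ℕ} [Fact p.Prime]

theorem s2_ch_add (a b : ZMod p) : ch (a + b) = ch a * ch b := AddChar.map_add_eq_mul _ a b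

theorem s2_norm_ch (a : ZMod p) : ‖ch a‖ = 1 := AddChar.norm_apply _ a

/-- the linear functional of the sequence `s` -/
theorem s2_lin (n : ℕ) (s : ℕ → ZMod p) (hs : ∀ j, n ≤ j → s j = 0) (m : (ZMod p)[X]) (l : ℕ) :
    ∑ j ∈ range n, s j * (m * X ^ l).coeff j = act m s l := by
  have h1 : ∑ j ∈ range n, s j * (m * X ^ l).coeff j =
      ∑ j ∈ range (n + (l + (m.natDegree + 1))), s j * (m * X ^ l).coeff j := by
    refine Finset.sum_subset (range_subset_range.2 (by omega)) fun j _ hj => ?_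
    rw [hs j (by simpa using hj), zero_mul]
  have h2 : ∑ j ∈ range (l + (m.natDegree + 1)), s j * (m * X ^ l).coeff j =
      ∑ j ∈ range (n + (l + (m.natDegree + 1))), s j * (m * X ^ l).coeff j := by
    refine Finset.sum_subset (range_subset_range.2 (by omega)) fun j _ hj => ?_
    have hj' : l + (m.natDegree + 1) ≤ j := by simpa using hj
    rw [coeff_mul_X_pow', if_pos (by omega), coeff_eq_zero_of_natDegree_lt (by omega), mul_zero]
  rw [h1, ← h2, Finset.sum_range_add]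
  have h3 : ∑ j ∈ range l, s j * (m * X ^ l).coeff j = 0 := by
    refine Finset.sum_eq_zero fun j hj => ?_
    rw [coeff_mul_X_pow', if_neg (by simpa using hj), mul_zero]
  rw [h3, zero_add, act]
  refine Finset.sum_congr rfl fun i _ => ?_
  rw [coeff_mul_X_pow', if_pos (by omega), Nat.add_sub_cancel_left, mul_comm, Nat.add_comm l i]

theorem s2_lin2 (n : ℕ) (s : ℕ → ZMod p) (hs : ∀ j, n ≤ j → s j = 0) (m F : (ZMod p)[X]) :
    ∑ j ∈ range n, s j * (m * F).coeff j =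
      ∑ l ∈ range (F.natDegree + 1), F.coeff l * act m s l := by
  have e : m * F = ∑ l ∈ range (F.natDegree + 1), C (F.coeff l) * (m * X ^ l) := by
    conv_lhs => rw [F.as_sum_range_C_mul_X_pow]
    rw [Finset.mul_sum]
    refine Finset.sum_congr rfl fun l _ => ?_
    ring
  have e2 : ∀ j, (m * F).coeff j =
      ∑ l ∈ range (F.natDegree + 1), F.coeff l * (m * X ^ l).coeff j := by
    intro j
    conv_lhs => rw [e]
    rw [finset_sum_coeff]
    exact Finset.sum_congr rfl fun l _ => coeff_C_mul _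
  simp_rw [e2, Finset.mul_sum]
  rw [Finset.sum_comm]
  refine Finset.sum_congr rfl fun l _ => ?_
  rw [← s2_lin n s hs m l, Finset.mul_sum]
  refine Finset.sum_congr rfl fun j _ => ?_
  ring

/-- for monic `F` of degree `N` -/
theorem s2_monic (n : ℕ) (s : ℕ → ZMod p) (hs : ∀ j, n ≤ j → s j = 0) (m F : (ZMod p)[X]) (N : ℕ)
    (hF : F.Monic) (hN : F.natDegree = N) :
    ∑ j ∈ range n, s j * (m * F).coeff j =
      (∑ l ∈ range N, F.coeff l * act m s l) + act m s N := by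
  rw [s2_lin2 n s hs m F, hN, Finset.sum_range_succ]
  have : F.coeff N = 1 := by rw [← hN]; exact hF.coeff_natDegree
  rw [this, one_mul]

theorem s2_ext (n : ℕ) (η : Fin n → ZMod p) : ∀ j, n ≤ j → ext η j = 0 := by
  intro j hj
  rw [ext, dif_neg (by omega)]

/-- the numerator of `expS` as a sum over multipliers -/
theorem s2_num {n e k : ℕ} (d : Fin k → ℕ) (hn : ∑ i, d i + e = n) (η : Fin n → ZMod p) :
    ∑ a : Fin n → ZMod p, (((∏ i, d i : ℕ) : ℂ) * cnt d (mon a)) * ch (∑ i, η i * a i) =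
      ∑ m ∈ MD p e, ∑ P ∈ IrrT p d, ((∏ i, d i : ℕ) : ℂ) *
        ch (∑ j ∈ range n, ext η j * (m * ∏ i, P i).coeff j) := by
  have h1 : ∀ a : Fin n → ZMod p, ∑ i, η i * a i =
      ∑ j ∈ range n, ext η j * (mon a).coeff j := by
    intro a
    rw [Finset.sum_range]
    refine Finset.sum_congr rfl fun i _ => ?_
    rw [mon_coeff, dif_pos i.2, ext, dif_pos i.2]
  simp_rw [h1]
  rw [sum_mon (fun f => (((∏ i, d i : ℕ) : ℂ) * cnt d f) *
    ch (∑ j ∈ range n, ext η j * f.coeff j))]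
  have h2 : ∀ f : (ZMod p)[X], (((∏ i, d i : ℕ) : ℂ) * cnt d f) *
      ch (∑ j ∈ range n, ext η j * f.coeff j) = (cnt d f : ℂ) * (((∏ i, d i : ℕ) : ℂ) *
      ch (∑ j ∈ range n, ext η j * f.coeff j)) := by
    intro f; ring
  simp_rw [h2]
  rw [sum_cnt d hn (fun f => ((∏ i, d i : ℕ) : ℂ) * ch (∑ j ∈ range n, ext η j * f.coeff j))]

theorem s2_prod_monic {k : ℕ} (d : Fin k → ℕ) (P : Fin k → (ZMod p)[X]) (hP : P ∈ IrrT p d) :
    (∏ i, P i).Monic ∧ (∏ i, P i).natDegree = ∑ i, d i := by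
  classical
  have h : ∀ i, (P i).Monic ∧ (P i).natDegree = d i := by
    intro i
    have h1 := Fintype.mem_piFinset.1 (show P ∈ Fintype.piFinset fun i => Irr p (d i) from hP) i
    have h2 := (mem_Irr _ _).1 h1
    exact ⟨h2.1, h2.2.1⟩
  refine ⟨monic_prod_of_monic _ _ fun i _ => (h i).1, ?_⟩
  rw [natDegree_prod_of_monic _ _ fun i _ => (h i).1]
  exact Finset.sum_congr rfl fun i _ => (h i).2

theorem s2_one_le_M {n : ℕ} (M : ℝ) (hM : ∀ f : (ZMod p)[X], f.Monic → f.natDegree ≤ n →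
      (tau f : ℝ) ≤ M) : 1 ≤ M := by
  classical
  have h1 := hM 1 monic_one (by simp)
  have h2 : 1 ≤ tau (1 : (ZMod p)[X]) := by
    rw [tau, Nat.one_le_iff_ne_zero, Finset.card_ne_zero]
    refine ⟨1, Finset.mem_filter.2 ⟨Finset.mem_biUnion.2 ⟨0, by simp, ?_⟩, dvd_rfl⟩⟩
    rw [mem_MD]
    exact ⟨monic_one, natDegree_one⟩
  have h3 : (1 : ℝ) ≤ tau (1 : (ZMod p)[X]) := by exact_mod_cast h2
  linarith

/-- sum over the multipliers of `p^{-cx}` -/
theorem s2_sum_cx {n e a : ℕ} (ha : 2 * a + 2 * e ≤ n) (M : ℝ)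
    (hM : ∀ f : (ZMod p)[X], f.Monic → f.natDegree ≤ n → (tau f : ℝ) ≤ M) (η : ℕ → ZMod p) :
    ∑ m ∈ MD p e, (if cx (n - e) (act m η) ≤ a then 1 / (p : ℝ) ^ cx (n - e) (act m η) else 0) ≤
      (a + 1 : ℝ) * (if cx n η ≤ a + e then M * (p : ℝ) ^ e / (p : ℝ) ^ cx n η else 0) := by
  classical
  have hp : (0 : ℝ) < p := by exact_mod_cast (Fact.out : p.Prime).pos
  have hM1 := s2_one_le_M M hM
  have h1 : ∀ m ∈ MD p e, (if cx (n - e) (act m η) ≤ a then
      1 / (p : ℝ) ^ cx (n - e) (act m η) else 0) =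
      ∑ s ∈ range (a + 1), if cx (n - e) (act m η) = s then 1 / (p : ℝ) ^ s else 0 := by
    intro m _
    rw [Finset.sum_ite_eq]
    simp only [mem_range, Nat.lt_succ_iff]
  rw [Finset.sum_congr rfl h1, Finset.sum_comm]
  have h2 : ∀ s ∈ range (a + 1), ∑ m ∈ MD p e,
      (if cx (n - e) (act m η) = s then 1 / (p : ℝ) ^ s else 0) ≤
      (if cx n η ≤ a + e then M * (p : ℝ) ^ e / (p : ℝ) ^ cx n η else 0) := by
    intro s hs
    have hsa : s ≤ a := Nat.lt_succ_iff.1 (mem_range.1 hs)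
    rw [← Finset.sum_filter, Finset.sum_const, nsmul_eq_mul]
    have h3 := card_low_cx (s := s) M hM η (e := e) (by omega)
    have hps : (0 : ℝ) < (p : ℝ) ^ s := by positivity
    refine (mul_le_mul_of_nonneg_right h3 (by positivity)).trans ?_
    by_cases hc : cx n η ≤ s + e
    · rw [if_pos hc, if_pos (by omega)]
      refine le_of_eq ?_
      rw [pow_add]
      field_simp
    · rw [if_neg hc, zero_mul]
      split_ifs
      · positivity
      · exact le_rfl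
  refine (Finset.sum_le_sum h2).trans (le_of_eq ?_)
  rw [Finset.sum_const, card_range, nsmul_eq_mul]
  push_cast
  ring

/-- The bound for the tuple sums (theorem `tup_bound` of the module Tup). -/
def TupBound (p : ℕ) [Fact p.Prime] : Prop :=
  ∀ (k N a : ℕ) (d : Fin k → ℕ), (∀ i, 1 ≤ d i) → ∑ i, d i = N → 2 * a ≤ N → ∀ M : ℝ,
    (∀ f : (ZMod p)[X], f.Monic → f.natDegree ≤ a → (tau f : ℝ) ≤ M) → ∀ ζ : ℕ → ZMod p,
    ‖∑ P ∈ IrrT p d, ((∏ i, d i : ℕ) : ℂ) * ch (∑ j ∈ range N, (∏ i, P i).coeff j * ζ j)‖ ≤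
      (N + 1 : ℝ) ^ k * (M ^ 2 * (if cx N ζ ≤ a then (p : ℝ) ^ N / (p : ℝ) ^ cx N ζ else 0) +
        (2 * N : ℝ) ^ k * Real.sqrt p ^ (2 * N - a))

theorem S_big_of (hT : TupBound p) {n e k a : ℕ} (d : Fin k → ℕ) (hd : ∀ i, 1 ≤ d i) (hn : ∑ i, d i + e = n)
    (ha : 2 * a + 2 * e ≤ n) (M : ℝ) (hM : ∀ f : (ZMod p)[X], f.Monic → f.natDegree ≤ n →
      (tau f : ℝ) ≤ M) (η : Fin n → ZMod p) :
    ‖expS n (fun f => ((∏ i, d i : ℕ) : ℂ) * cnt d f) η‖ ≤
      (n + 1 : ℝ) ^ k * ((n + 1) * M ^ 3 *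
        (if cx n (ext η) ≤ a + e then 1 / (p : ℝ) ^ cx n (ext η) else 0) +
        (2 * n : ℝ) ^ k / Real.sqrt p ^ a) := by
  classical
  have hp : (0 : ℝ) < p := by exact_mod_cast (Fact.out : p.Prime).pos
  have hM1 := s2_one_le_M M hM
  obtain ⟨N, hN⟩ : ∃ N, N = n - e := ⟨_, rfl⟩
  have hNd : ∑ i, d i = N := by omega
  have hNn : N + e = n := by omega
  have haN : 2 * a ≤ N := by omega
  have hs := s2_ext n η
  have hr : (0 : ℝ) < Real.sqrt p := Real.sqrt_pos.2 hp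
  have hr2 : Real.sqrt p ^ 2 = p := Real.sq_sqrt hp.le
  -- bound for one multiplier
  have hone : ∀ m ∈ MD p e, ‖∑ P ∈ IrrT p d, ((∏ i, d i : ℕ) : ℂ) *
        ch (∑ j ∈ range n, ext η j * (m * ∏ i, P i).coeff j)‖ ≤
      (N + 1 : ℝ) ^ k * (M ^ 2 * (p : ℝ) ^ N * (if cx (n - e) (act m (ext η)) ≤ a then
        1 / (p : ℝ) ^ cx (n - e) (act m (ext η)) else 0) +
        (2 * N : ℝ) ^ k * Real.sqrt p ^ (2 * N - a)) := by
    intro m hm
    have h1 : ∑ P ∈ IrrT p d, ((∏ i, d i : ℕ) : ℂ) *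
        ch (∑ j ∈ range n, ext η j * (m * ∏ i, P i).coeff j) =
        ch (act m (ext η) N) * ∑ P ∈ IrrT p d, ((∏ i, d i : ℕ) : ℂ) *
          ch (∑ j ∈ range N, (∏ i, P i).coeff j * act m (ext η) j) := by
      rw [Finset.mul_sum]
      refine Finset.sum_congr rfl fun P hP => ?_
      obtain ⟨h2, h3⟩ := s2_prod_monic d P hP
      rw [s2_monic n (ext η) hs m (∏ i, P i) N h2 (h3.trans hNd), s2_ch_add]
      ring
    rw [h1, norm_mul, s2_norm_ch, one_mul]
    have h4 := hT k N a d hd hNd haN M (fun f hf hfd => hM f hf (by omega)) (act m (ext η))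
    refine h4.trans (le_of_eq ?_)
    rw [← hN]
    congr 2
    split_ifs
    · ring
    · ring
  -- the sum
  have hnum : ‖∑ a : Fin n → ZMod p, (((∏ i, d i : ℕ) : ℂ) * cnt d (mon a)) *
      ch (∑ i, η i * a i)‖ ≤
      (N + 1 : ℝ) ^ k * (M ^ 2 * (p : ℝ) ^ N * ((a + 1 : ℝ) *
        (if cx n (ext η) ≤ a + e then M * (p : ℝ) ^ e / (p : ℝ) ^ cx n (ext η) else 0)) +
        (p : ℝ) ^ e * ((2 * N : ℝ) ^ k * Real.sqrt p ^ (2 * N - a))) := by
    rw [s2_num d hn η]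
    refine (norm_sum_le _ _).trans ((Finset.sum_le_sum hone).trans ?_)
    rw [← Finset.mul_sum, Finset.sum_add_distrib, ← Finset.mul_sum, Finset.sum_const, card_MD,
      nsmul_eq_mul]
    push_cast
    have h5 := s2_sum_cx ha M hM (ext η)
    gcongr
  rw [expS, norm_div, norm_pow, Complex.norm_natCast]
  refine (div_le_div_of_nonneg_right hnum (by positivity)).trans ?_
  have hpn : (p : ℝ) ^ n = (p : ℝ) ^ N * (p : ℝ) ^ e := by rw [← pow_add, hNn]
  have hsq : Real.sqrt p ^ (2 * N - a) = (p : ℝ) ^ N / Real.sqrt p ^ a := by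
    rw [eq_div_iff (by positivity), ← pow_add, Nat.sub_add_cancel (by omega), pow_mul, hr2]
  have hNn' : (N : ℝ) ≤ n := by exact_mod_cast (show N ≤ n by omega)
  have han' : (a : ℝ) ≤ n := by exact_mod_cast (show a ≤ n by omega)
  have e1 : (N + 1 : ℝ) ^ k * (M ^ 2 * (p : ℝ) ^ N * ((a + 1 : ℝ) *
        (if cx n (ext η) ≤ a + e then M * (p : ℝ) ^ e / (p : ℝ) ^ cx n (ext η) else 0)) +
        (p : ℝ) ^ e * ((2 * N : ℝ) ^ k * Real.sqrt p ^ (2 * N - a))) / (p : ℝ) ^ n =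
      (N + 1 : ℝ) ^ k * ((a + 1 : ℝ) * M ^ 3 *
        (if cx n (ext η) ≤ a + e then 1 / (p : ℝ) ^ cx n (ext η) else 0) +
        (2 * N : ℝ) ^ k / Real.sqrt p ^ a) := by
    rw [hsq, hpn]
    split_ifs
    · field_simp
    · field_simp
      ring
  rw [e1]
  have hI : (0 : ℝ) ≤ if cx n (ext η) ≤ a + e then 1 / (p : ℝ) ^ cx n (ext η) else 0 := by
    split_ifs <;> positivity
  have hM0 : 0 ≤ M := by linarith
  gcongr

end

end Pool.Agent.MP6cc1fa
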